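import Pool.Agent.Lib.MP_537232_an.PY.SpecA

set_option autoImplicit false

/-!
# MP_537232_an, directory PY, file Act: adapted kernels for given weights
-/

open Finset Filter Topology
open scoped ENNReal

namespace Pool.Agent.Lib.MP_537232_an.PY

namespace Act

section a

variable {F : Type} {Δ : ℕ → Type}

theorem rb_eqv (d : F → ∀ l, Δ l) (l : ℕ) : Equivalence (rb d l) :=
  ⟨fun _ _ _ => rfl, fun h i hi => (h i hi).symm, fun h g i hi => (h i hi).trans (g i hi)⟩

theorem rm_eqv [∀ l, Zero (Δ l)] (d : F → ∀ l, Δ l) (l : ℕ) : Equivalence (rm d l) :=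
  ⟨fun _ => ⟨fun _ _ => rfl, Iff.rfl⟩, fun h => ⟨fun i hi => (h.1 i hi).symm, h.2.symm⟩,
   fun h g => ⟨fun i hi => (h.1 i hi).trans (g.1 i hi), h.2.trans g.2⟩⟩

/-- the filtration -/
def rr [∀ l, Zero (Δ l)] (d : F → ∀ l, Δ l) (k : ℕ) : F → F → Prop :=
  if k % 2 = 0 then rb d (k / 2) else rm d (k / 2)

open Classical in
/-- the multipliers -/
noncomputable def tt (ty : ℕ → Prop) (k : ℕ) : ℝ := if k % 2 = 1 ∧ ty (k / 2) then 1 else 0

theorem rr_even [∀ l, Zero (Δ l)] (d : F → ∀ l, Δ l) (l : ℕ) : rr d (2 * l) = rb d l := by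
  unfold rr
  rw [if_pos (by omega)]
  congr 1
  omega

theorem rr_odd [∀ l, Zero (Δ l)] (d : F → ∀ l, Δ l) (l : ℕ) : rr d (2 * l + 1) = rm d l := by
  unfold rr
  rw [if_neg (by omega)]
  congr 1
  omega

theorem rr_flt [∀ l, Zero (Δ l)] (d : F → ∀ l, Δ l) : Flt (rr d) := by
  constructor
  · intro j
    rcases Nat.even_or_odd' j with ⟨l, rfl | rfl⟩
    · rw [rr_even]; exact rb_eqv d l
    · rw [rr_odd]; exact rm_eqv d l
  · intro j a b h
    rcases Nat.even_or_odd' j with ⟨l, rfl | rfl⟩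
    · rw [rr_odd] at h
      rw [rr_even]
      exact h.1
    · have h2 : 2 * l + 1 + 1 = 2 * (l + 1) := by ring
      rw [h2, rr_even] at h
      rw [rr_odd]
      refine ⟨fun i hi => h i (by omega), ?_⟩
      rw [h l (by omega)]

variable [Fintype F] [∀ l, Zero (Δ l)] {X : Type} [NormedAddCommGroup X] [NormedSpace ℝ X]

open Classical in
theorem mt_eq (w : F → ℝ) (d : F → ∀ l, Δ l) (ty : ℕ → Prop) (n : ℕ) (a : F) (f : F → X) :
    mt w (rr d) (tt ty) (2 * n) f a =
      ∑ i ∈ range n, (if ty i then ce w (rb d (i + 1)) f a - ce w (rm d i) f a else 0) := by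
  induction n with
  | zero => simp [mt]
  | succ n ih =>
    unfold mt at ih ⊢
    have h2 : 2 * (n + 1) = 2 * n + 1 + 1 := by ring
    rw [h2, Finset.sum_range_succ, Finset.sum_range_succ, ih, Finset.sum_range_succ, add_assoc]
    congr 1
    have e0 : tt ty (2 * n) = 0 := by
      unfold tt
      rw [if_neg]
      rintro ⟨h, _⟩
      omega
    rw [e0, zero_smul, zero_add]
    have h3 : 2 * n + 1 + 1 = 2 * (n + 1) := by ring
    rw [h3, rr_even, rr_odd]
    by_cases h : ty n
    · have e1 : tt ty (2 * n + 1) = 1 := by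
        unfold tt
        rw [if_pos]
        refine ⟨by omega, ?_⟩
        have : (2 * n + 1) / 2 = n := by omega
        rw [this]; exact h
      rw [e1, one_smul, if_pos h]
    · have e1 : tt ty (2 * n + 1) = 0 := by
        unfold tt
        rw [if_neg]
        rintro ⟨_, h'⟩
        have : (2 * n + 1) / 2 = n := by omega
        rw [this] at h'; exact h h'
      rw [e1, zero_smul, if_neg h]

end a

end Act

open Classical in
theorem wAct (h1 : S_Kbd) (h2 : S_Idn) : S_Act := by
  intro X _ _ q C hUM F _ Δ _ d n K hK ty w hw x j hx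
  refine ⟨kap w d ty, tht w d ty n, h1 F Δ d n K hK ty w hw, ?_⟩
  have key := hUM F w hw (Act.rr d) (Act.rr_flt d) (Act.tt ty)
    (fun k => by unfold Act.tt; split_ifs <;> simp) (2 * n)
    (fun a => ∑ l ∈ range n, (if ty l then x l a else 0) - ∑ l ∈ range n, (if ty l then 0 else x l a) - j a)
  refine le_trans (le_of_eq ?_) key
  refine Finset.sum_congr rfl fun a _ => ?_
  rw [Act.mt_eq, ← h2 F Δ d n ty w hw X x j _ hx (fun a => rfl) a]

end Pool.Agent.Lib.MP_537232_an.PY
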