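import Pool.Agent.Lib.MP_537232_an.PY.SpecB

set_option autoImplicit false

/-!
# MP_537232_an, PY/Ada: adapted operators (helper62)
-/

open Finset Filter Topology
open scoped ENNReal

namespace Pool.Agent.Lib.MP_537232_an.PY

open NM (pE qE)

namespace Ada

lemma pi_count {T : Type} (s : ℕ) (A : Set T) (hA : A.Finite) :
    {f : Fin s → T | ∀ r, f r ∈ A}.Finite ∧ {f : Fin s → T | ∀ r, f r ∈ A}.ncard = A.ncard ^ s := by
  have h1 : {f : Fin s → T | ∀ r, f r ∈ A} = Set.pi Set.univ (fun _ => A) := by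
    ext f
    simp
  rw [h1]
  refine ⟨Set.Finite.pi' (fun _ => hA) |>.subset (fun f hf r => hf r (Set.mem_univ r)), ?_⟩
  have : Finite A := hA
  have h2 : Nat.card (Set.pi Set.univ (fun _ : Fin s => A)) = Nat.card (Fin s → A) :=
    Nat.card_congr (Equiv.Set.univPi (fun _ : Fin s => A))
  rw [Nat.card_fun, Nat.card_eq_fintype_card (α := Fin s), Fintype.card_fin] at h2
  exact h2

end Ada

open Ada in
theorem wAda (h1 : S_Few) (h2 : S_Cnt) (h3 : S_Gdc) (h4 : S_Nfs) : S_Ada := by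
  intro q hq _ P hP S I hS hI t s y hy L B hB
  refine h1 q hq P hP S I hS hI L B
    (fun l => 2 * ∏ i ∈ range l, ((2 * (t ^ 2 * P.v i) + 1) ^ P.v i) ^ s) (fun l => ?_)
    (fun K₂ => ?_)
  · refine h2 (Ix P.v) (PiLp 1 (fun _ : Fin (P.v l) => ℝ))
      (fun l => Fin s → PiLp 1 (fun _ : Fin (P.v l) => ℝ)) (dd y)
      (fun i => ((2 * (t ^ 2 * P.v i) + 1) ^ P.v i) ^ s) l (fun ν => B (eY P.v ν) l) (fun i => ?_)
      (fun a b hab => hB a b l hab)
    obtain ⟨h5, h6⟩ := h3 t (P.v i)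
    obtain ⟨h7, h8⟩ := pi_count s (Gd t (P.v i)) h5
    have h9 : {x | ∃ a, dd y a i = x} ⊆
        {f : Fin s → PiLp 1 (fun _ : Fin (P.v i) => ℝ) | ∀ r, f r ∈ Gd t (P.v i)} := by
      rintro x ⟨a, rfl⟩ r
      exact hy a r i
    refine ⟨h7.subset h9, (Set.ncard_le_ncard h9 h7).trans ?_⟩
    rw [h8]
    exact Nat.pow_le_pow_left h6 s
  · obtain ⟨l₀, hl₀⟩ := h4 t s K₂
    exact ⟨l₀, fun l hl => hl₀ l hl P.v⟩

end Pool.Agent.Lib.MP_537232_an.PY
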