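import Pool.Agent.Lib.MP_537232_an.PY.SpecB
import Pool.Agent.Lib.MP_537232_an.Ideal

set_option autoImplicit false

/-!
# MP_537232_an, PY/Apx: the elements of the ideal generated by `T`
-/

open Finset Filter Topology
open scoped ENNReal

namespace Pool.Agent.Lib.MP_537232_an.PY

theorem wApx : S_Apx := by
  intro X Y _ _ _ _ T R
  constructor
  · intro hR ε hε
    obtain ⟨l, hl⟩ := exists_approx hR hε
    refine ⟨l.length, fun i => (l.get i).1, fun i => (l.get i).2, ?_⟩
    have h : ∑ i : Fin l.length, ((l.get i).1.comp T).comp (l.get i).2 =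
        (l.map fun q => (q.1.comp T).comp q.2).sum := by
      rw [← List.sum_ofFn]
      congr 1
      refine List.ext_get (by simp) fun n h1 h2 => ?_
      simp
    rw [h]
    exact hl
  · intro h
    refine (isClosedIdeal_idealGen T).mem_of_approx fun ε hε => ?_
    obtain ⟨s, A, B, hAB⟩ := h ε hε
    refine ⟨∑ r, ((A r).comp T).comp (B r), ?_, hAB⟩
    exact Submodule.sum_mem _ fun r _ => (isClosedIdeal_idealGen T).comp _ _ _ (mem_idealGen T)

end Pool.Agent.Lib.MP_537232_an.PY
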