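import Pool.Agent.Lib.MP_537232_an.PY.SpecB
import Pool.Agent.Lib.MP_537232_an.PG.Odp
import Pool.Agent.Lib.MP_537232_an.PG.Flk

set_option autoImplicit false

/-!
# MP_537232_an, PY/Bls: one block
-/

open Finset Filter Topology
open scoped ENNReal

namespace Pool.Agent.Lib.MP_537232_an.PY

theorem wBls : S_Bls := by
  intro s P A B hP
  obtain ⟨u', v', h1, h2, h3, g', φ, e, h4, h5, h6, h7⟩ := PG.wOdp PG.wFlk 0 s P (Fin 0)
    (fun t => t.elim0) hP (fun t => t.elim0) (by
      intro J a hJ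
      have hJ0 : J = ∅ := Finset.eq_empty_of_forall_notMem fun t => t.elim0
      subst hJ0
      simp) A B
  exact ⟨u', v', g', h1, h2, h3, h6⟩

end Pool.Agent.Lib.MP_537232_an.PY
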