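import Pool.Agent.Lib.MP_537232_an.PY.SpecA

set_option autoImplicit false

/-!
# MP_537232_an, directory PY, `Bmt`: Burkholder's inequality for martingale transforms
-/

open Finset Filter Topology
open scoped ENNReal

namespace Pool.Agent.Lib.MP_537232_an.PY

namespace Bmt

variable {F H : Type} [Fintype F] [NormedAddCommGroup H] [InnerProductSpace ℝ H]

lemma ce_const (h1 : S_Cep) {w : F → ℝ} (hw : ∀ a, 0 < w a) {r : F → F → Prop}
    (hr : Equivalence r) (f : F → H) (a a' : F) (h : r a a') : ce w r f a = ce w r f a' := by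
  have h3 := (h1 F w hw r hr).2.2.1 a a' h
  unfold ce
  exact Finset.sum_congr rfl fun b _ => by rw [h3 b]

/-- a function `g` constant on the classes is orthogonal to `f` exactly as to its conditional
expectation -/
lemma inner_ce (h1 : S_Cep) {w : F → ℝ} (hw : ∀ a, 0 < w a) {r : F → F → Prop}
    (hr : Equivalence r) (f g : F → H) (hg : ∀ a b, r a b → g a = g b) :
    ∑ a, w a * inner ℝ (g a) (ce w r f a) = ∑ a, w a * inner ℝ (g a) (f a) := by
  have h := (h1 F w hw r hr).2.2.2.2.2
  have h6 := h.1 H g hg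
  have h7 := h.2 H f g
  rw [h7, h6]

/-- the step -/
lemma step (h1 : S_Cep) {m η : ℝ} {G : ℝ → H → H → H}
    (hG : ∀ θ : ℝ, θ = 0 ∨ θ = 1 → ∀ x y h : H,
      Fb m η (x + h) (y + θ • h) ≤ Fb m η x y + inner ℝ (G θ x y) h)
    {w : F → ℝ} (hw : ∀ a, 0 < w a) {r r' : F → F → Prop} (hr : Equivalence r)
    (hr' : Equivalence r') (hrr : ∀ a b, r' a b → r a b) (f y : F → H)
    (hy : ∀ a b, r a b → y a = y b) {θ : ℝ} (hθ : θ = 0 ∨ θ = 1) :
    ∑ a, w a * Fb m η (ce w r' f a) (y a + θ • (ce w r' f a - ce w r f a))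
      ≤ ∑ a, w a * Fb m η (ce w r f a) (y a) := by
  set g : F → H := fun a => G θ (ce w r f a) (y a) with hgdef
  have hg : ∀ a b, r a b → g a = g b := by
    intro a b hab
    simp only [hgdef]
    rw [ce_const h1 hw hr f a b hab, hy a b hab]
  have e1 := inner_ce h1 hw hr f g hg
  have e2 := inner_ce h1 hw hr' f g (fun a b hab => hg a b (hrr a b hab))
  have h0 : ∑ a, w a * inner ℝ (g a) (ce w r' f a - ce w r f a) = 0 := by
    have : ∀ a, w a * inner ℝ (g a) (ce w r' f a - ce w r f a)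
        = w a * inner ℝ (g a) (ce w r' f a) - w a * inner ℝ (g a) (ce w r f a) := by
      intro a
      rw [inner_sub_right]
      ring
    rw [Finset.sum_congr rfl fun a _ => this a, Finset.sum_sub_distrib, e1, e2, sub_self]
  have h2 : ∀ a, w a * Fb m η (ce w r' f a) (y a + θ • (ce w r' f a - ce w r f a))
      ≤ w a * Fb m η (ce w r f a) (y a)
        + w a * inner ℝ (g a) (ce w r' f a - ce w r f a) := by
    intro a
    have h3 := hG θ hθ (ce w r f a) (y a) (ce w r' f a - ce w r f a)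
    rw [add_sub_cancel] at h3
    have h4 := mul_le_mul_of_nonneg_left h3 (hw a).le
    rw [mul_add] at h4
    exact h4
  calc _ ≤ ∑ a, (w a * Fb m η (ce w r f a) (y a)
        + w a * inner ℝ (g a) (ce w r' f a - ce w r f a)) := Finset.sum_le_sum fun a _ => h2 a
    _ = _ := by rw [Finset.sum_add_distrib, h0, add_zero]

lemma mt_succ (w : F → ℝ) (r : ℕ → F → F → Prop) (θ : ℕ → ℝ) (j : ℕ) (f : F → H) (a : F) :
    mt w r θ (j + 1) f a
      = mt w r θ j f a + θ j • (ce w (r (j + 1)) f a - ce w (r j) f a) := by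
  unfold mt
  rw [Finset.sum_range_succ]

lemma mt_const (h1 : S_Cep) {w : F → ℝ} (hw : ∀ a, 0 < w a) {r : ℕ → F → F → Prop}
    (hr : Flt r) (θ : ℕ → ℝ) (f : F → H) :
    ∀ j a b, r j a b → mt w r θ j f a = mt w r θ j f b := by
  intro j
  induction j with
  | zero =>
    intro a b _
    simp [mt]
  | succ j ih =>
    intro a b hab
    have hab' := hr.2 j a b hab
    rw [mt_succ, mt_succ, ih a b hab', ce_const h1 hw (hr.1 (j + 1)) f a b hab,
      ce_const h1 hw (hr.1 j) f a b hab']

end Bmt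

open Bmt in
theorem wBmt (h1 : S_Cep) (h2 : S_Bvc) : S_Bmt := by
  intro r hr2
  set m : ℝ := r / 2 with hm
  have hm1 : 1 ≤ m := by rw [hm]; linarith
  have h2m : 2 * m = r := by rw [hm]; ring
  obtain ⟨C, hC, hB⟩ := h2 m hm1
  refine ⟨C, hC, ?_⟩
  intro H _ _ F _ w hw R hR θ hθ n f
  -- the inequality for every `η > 0`
  have key : ∀ η : ℝ, 0 < η → ∑ a, w a * ‖mt w R θ n f a‖ ^ r
      ≤ C * ∑ a, w a * (‖f a‖ ^ 2 + η) ^ m := by
    intro η hη
    obtain ⟨⟨G, hG⟩, hlow, hzero⟩ := hB η hη H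
    have hmono : ∀ j, ∑ a, w a * Fb m η (ce w (R j) f a) (mt w R θ j f a) ≤ 0 := by
      intro j
      induction j with
      | zero =>
        have h0 : ∀ a, mt w R θ 0 f a = 0 := fun a => by simp [mt]
        refine Finset.sum_nonpos fun a _ => ?_
        rw [h0 a]
        exact mul_nonpos_of_nonneg_of_nonpos (hw a).le (hzero _)
      | succ j ih =>
        have hs := step h1 hG hw (hR.1 j) (hR.1 (j + 1)) (hR.2 j) f (mt w R θ j f)
          (mt_const h1 hw hR θ f j) (hθ j)
        have e : ∀ a, mt w R θ (j + 1) f a = mt w R θ j f a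
            + θ j • (ce w (R (j + 1)) f a - ce w (R j) f a) := mt_succ w R θ j f
        calc _ = ∑ a, w a * Fb m η (ce w (R (j + 1)) f a)
              (mt w R θ j f a + θ j • (ce w (R (j + 1)) f a - ce w (R j) f a)) :=
              Finset.sum_congr rfl fun a _ => by rw [e a]
          _ ≤ _ := hs.trans ih
    have hfin : ∑ a, w a * Fb m η (f a) (mt w R θ n f a) ≤ 0 := by
      have hs := step h1 hG hw (hR.1 n) (r' := fun a b => a = b) (eq_equivalence)
        (fun a b hab => hab ▸ (hR.1 n).refl a) f (mt w R θ n f)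
        (mt_const h1 hw hR θ f n) (Or.inl rfl : (0 : ℝ) = 0 ∨ (0 : ℝ) = 1)
      have he : ce w (fun a b => a = b) f = f :=
        (h1 F w hw (fun a b => a = b) eq_equivalence).2.2.2.2.2.1 H f
          (fun a b hab => by rw [hab])
      rw [he] at hs
      simp only [zero_smul, add_zero] at hs
      exact hs.trans (hmono n)
    have hp : ∀ a, w a * ‖mt w R θ n f a‖ ^ r ≤ 2 * (w a * Fb m η (f a) (mt w R θ n f a))
        + C * (w a * (‖f a‖ ^ 2 + η) ^ m) := by
      intro a
      have h3 := mul_le_mul_of_nonneg_left (hlow (f a) (mt w R θ n f a)) (hw a).le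
      rw [h2m] at h3
      calc _ ≤ _ := h3
        _ = _ := by ring
    calc _ ≤ ∑ a, (2 * (w a * Fb m η (f a) (mt w R θ n f a))
          + C * (w a * (‖f a‖ ^ 2 + η) ^ m)) := Finset.sum_le_sum fun a _ => hp a
      _ = 2 * ∑ a, w a * Fb m η (f a) (mt w R θ n f a)
          + C * ∑ a, w a * (‖f a‖ ^ 2 + η) ^ m := by
          rw [Finset.sum_add_distrib, ← Finset.mul_sum, ← Finset.mul_sum]
      _ ≤ _ := by linarith
  -- the limit `η → 0`
  have hlim : Tendsto (fun η : ℝ => C * ∑ a, w a * (‖f a‖ ^ 2 + η) ^ m) (𝓝[>] 0)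
      (𝓝 (C * ∑ a, w a * ‖f a‖ ^ r)) := by
    have hc : Continuous (fun η : ℝ => C * ∑ a, w a * (‖f a‖ ^ 2 + η) ^ m) := by
      refine continuous_const.mul (continuous_finsetSum _ fun a _ => continuous_const.mul ?_)
      exact (continuous_const.add continuous_id).rpow_const fun _ => Or.inr (by linarith)
    have h0 := hc.tendsto 0
    have e : C * ∑ a, w a * (‖f a‖ ^ 2 + 0) ^ m = C * ∑ a, w a * ‖f a‖ ^ r := by
      congr 1
      refine Finset.sum_congr rfl fun a _ => ?_
      rw [add_zero, ← h2m, Real.rpow_mul (norm_nonneg _), Real.rpow_two]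
    rw [e] at h0
    exact h0.mono_left nhdsWithin_le_nhds
  exact ge_of_tendsto hlim (eventually_nhdsWithin_of_forall fun η hη => key η hη)

end Pool.Agent.Lib.MP_537232_an.PY
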