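import Pool.Agent.Lib.MP_537232_an.PY.SpecA

set_option autoImplicit false

/-!
# MP_537232_an, PY, Bqa: the second derivative
-/

namespace Pool.Agent.Lib.MP_537232_an.PY

namespace Bqa

/-- the bracket is not positive -/
private theorem bracket (m : ℝ) (hm : 1 ≤ m) (c : ℝ) (hc0 : 0 < c) (hc1 : c ≤ 1) :
    8 * m ^ 2 - aB m * (2 - 18 * m * √c) - 2 * m * bB m * c ^ (m - 1) ≤ 0 := by
  have hb : 0 ≤ bB m := by
    unfold bB
    have : 0 ≤ (18 * m) ^ (2 * m - 2) := Real.rpow_nonneg (by linarith) _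
    positivity
  have hκ : 0 ≤ c ^ (m - 1) := Real.rpow_nonneg hc0.le _
  have hρ1 : √c ≤ 1 := Real.sqrt_le_one.2 hc1
  have hρ0 : 0 < √c := Real.sqrt_pos.2 hc0
  by_cases h : 18 * m * √c ≤ 1
  · have h1 : 0 ≤ 2 * m * bB m * c ^ (m - 1) := by positivity
    have h2 : 0 ≤ 8 * m ^ 2 * (1 - 18 * m * √c) := by
      refine mul_nonneg (by positivity) (by linarith)
    unfold aB
    nlinarith
  · have h18 : 0 < 18 * m := by linarith
    have h1 : 1 / (18 * m) < √c := by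
      rw [div_lt_iff₀ h18]
      linarith
    have h2 : (1 / (18 * m)) ^ 2 ≤ c := by
      calc (1 / (18 * m)) ^ 2 ≤ √c ^ 2 := by
            refine pow_le_pow_left₀ (by positivity) h1.le 2
        _ = c := Real.sq_sqrt hc0.le
    have h3 : ((1 / (18 * m)) ^ 2) ^ (m - 1) ≤ c ^ (m - 1) :=
      Real.rpow_le_rpow (by positivity) h2 (by linarith)
    have h4 : ((1 / (18 * m)) ^ 2) ^ (m - 1) = ((18 * m) ^ (2 * m - 2))⁻¹ := by
      rw [← Real.rpow_natCast, ← Real.rpow_mul (by positivity), one_div,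
        Real.inv_rpow h18.le]
      congr 2
      push_cast
      ring
    have h5 : 0 < (18 * m) ^ (2 * m - 2) := Real.rpow_pos_of_pos h18 _
    have h6 : 2 * m * bB m * ((18 * m) ^ (2 * m - 2))⁻¹ = 8 * m ^ 2 + 144 * m ^ 3 := by
      unfold bB
      field_simp
      ring
    have h7 : 8 * m ^ 2 + 144 * m ^ 3 ≤ 2 * m * bB m * c ^ (m - 1) := by
      rw [← h6, ← h4]
      exact mul_le_mul_of_nonneg_left h3 (by positivity)
    have h8 : 0 ≤ 144 * m ^ 3 * (1 - √c) := mul_nonneg (by positivity) (by linarith)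
    have h9 : 0 ≤ m ^ 2 := sq_nonneg m
    unfold aB
    nlinarith

end Bqa

open Bqa

/-- **Bqa**. -/
theorem wBqa : S_Bqa := by
  intro m hm N S σ ζ x z hN hNS hσ hζ1 hζ2 hx hz
  have hS : 0 < S := hN.trans_le hNS
  have hS0 : S ≠ 0 := hS.ne'
  have hm0 : 0 ≤ m - 1 := by linarith
  obtain ⟨P, hP⟩ : ∃ P : ℝ, P = S ^ (m - 1) := ⟨_, rfl⟩
  have hP0 : 0 < P := by rw [hP]; exact Real.rpow_pos_of_pos hS _
  have e2 : S ^ (m - 2) = P / S := by
    rw [hP, ← Real.rpow_sub_one hS0]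
    congr 1
    ring
  have e3 : S ^ (m - 3) = P / S / S := by
    rw [← e2, ← Real.rpow_sub_one hS0]
    congr 1
    ring
  obtain ⟨c, hc⟩ : ∃ c : ℝ, c = N / S := ⟨_, rfl⟩
  have hc0 : 0 < c := by rw [hc]; exact div_pos hN hS
  have hc1 : c ≤ 1 := by rw [hc]; exact (div_le_one hS).2 hNS
  have hNc : N = c * S := by rw [hc]; field_simp
  have eR : N ^ (m - 1) = P * c ^ (m - 1) := by
    rw [hP, hNc, Real.mul_rpow hc0.le hS.le, mul_comm]
  obtain ⟨ρ, hρ⟩ : ∃ ρ : ℝ, ρ = √c := ⟨_, rfl⟩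
  have hρ0 : 0 ≤ ρ := by rw [hρ]; exact Real.sqrt_nonneg _
  have hρ1 : ρ ≤ 1 := by rw [hρ]; exact Real.sqrt_le_one.2 hc1
  have hρc : ρ ^ 2 = c := by rw [hρ]; exact Real.sq_sqrt hc0.le
  obtain ⟨w, hw⟩ : ∃ w : ℝ, w = z ^ 2 / S := ⟨_, rfl⟩
  have hw0 : 0 ≤ w := by rw [hw]; positivity
  have hw8 : w ≤ 8 * σ := by rw [hw, div_le_iff₀ hS]; exact hz
  obtain ⟨v, hv⟩ : ∃ v : ℝ, v = x * z / S := ⟨_, rfl⟩
  have hv6 : -(6 * σ * ρ) ≤ v := by
    have h1 : (x * z) ^ 2 ≤ (6 * σ * ρ * S) ^ 2 := by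
      have h2 : (x * z) ^ 2 ≤ (4 * σ * N) * (8 * σ * S) := by
        rw [mul_pow]
        exact mul_le_mul hx hz (sq_nonneg _) (by positivity)
      have h3 : (6 * σ * ρ * S) ^ 2 = 36 * (σ ^ 2 * c * S ^ 2) := by
        rw [← hρc]; ring
      have h4 : (4 * σ * N) * (8 * σ * S) = 32 * (σ ^ 2 * c * S ^ 2) := by
        rw [hNc]; ring
      have h5 : 0 ≤ σ ^ 2 * c * S ^ 2 := by positivity
      rw [h3]
      rw [h4] at h2
      linarith
    have h6 := (abs_le_of_sq_le_sq' h1 (by positivity)).1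
    rw [hv, le_div_iff₀ hS]
    linarith
  have hnn : 0 ≤ N ^ (m - 2) := Real.rpow_nonneg hN.le _
  have hb : 0 ≤ bB m := by
    unfold bB
    have : 0 ≤ (18 * m) ^ (2 * m - 2) := Real.rpow_nonneg (by linarith) _
    have : 0 ≤ m := by linarith
    positivity
  have ha : 0 ≤ aB m := by unfold aB; positivity
  -- the three estimates
  have t1 : m * ζ + m * (m - 1) * w ≤ 8 * m ^ 2 * σ := by
    have h1 : m * ζ ≤ m * (4 * σ) := mul_le_mul_of_nonneg_left hζ2 (by linarith)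
    have h2 : m * (m - 1) * w ≤ m * (m - 1) * (8 * σ) :=
      mul_le_mul_of_nonneg_left hw8 (mul_nonneg (by linarith) hm0)
    have h3 : 0 ≤ m * σ := mul_nonneg (by linarith) hσ
    nlinarith
  have t2 : -(12 * (m - 1) * σ * ρ) ≤ 2 * (m - 1) * v := by
    have h1 : 2 * (m - 1) * (-(6 * σ * ρ)) ≤ 2 * (m - 1) * v :=
      mul_le_mul_of_nonneg_left hv6 (by linarith)
    linarith
  have t3 : -(6 * (m - 1) * σ * ρ) ≤ (m - 1) * c * (ζ + (m - 2) * w) := by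
    have h1 : -(6 * σ) ≤ ζ + (m - 2) * w := by
      by_cases h2 : 2 ≤ m
      · have : 0 ≤ (m - 2) * w := mul_nonneg (by linarith) hw0
        linarith
      · have h3 : (2 - m) * w ≤ 1 * (8 * σ) :=
          mul_le_mul (by linarith) hw8 hw0 (by norm_num)
        linarith
    have h4 : (m - 1) * c * (-(6 * σ)) ≤ (m - 1) * c * (ζ + (m - 2) * w) :=
      mul_le_mul_of_nonneg_left h1 (mul_nonneg hm0 hc0.le)
    have h5 : c ≤ ρ := by
      rw [← hρc, sq]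
      exact mul_le_of_le_one_left hρ0 hρ1
    have h6 : (m - 1) * (6 * σ) * c ≤ (m - 1) * (6 * σ) * ρ :=
      mul_le_mul_of_nonneg_left h5 (mul_nonneg hm0 (by linarith))
    linarith
  have t4 : m * ζ + m * (m - 1) * w - aB m * (2 * σ + 2 * (m - 1) * v +
      (m - 1) * c * (ζ + (m - 2) * w)) ≤ σ * (8 * m ^ 2 - aB m * (2 - 18 * m * ρ)) := by
    have h1 : 2 * σ - 18 * m * σ * ρ ≤ 2 * σ + 2 * (m - 1) * v +
        (m - 1) * c * (ζ + (m - 2) * w) := by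
      have : 0 ≤ σ * ρ := mul_nonneg hσ hρ0
      linarith
    have h2 := mul_le_mul_of_nonneg_left h1 ha
    linarith
  have t5 : P * (m * ζ + m * (m - 1) * w - aB m * (2 * σ + 2 * (m - 1) * v +
      (m - 1) * c * (ζ + (m - 2) * w))) ≤ P * (σ * (8 * m ^ 2 - aB m * (2 - 18 * m * ρ))) :=
    mul_le_mul_of_nonneg_left t4 hP0.le
  have t6 : 0 ≤ bB m * (m * (m - 1) * N ^ (m - 2) * x ^ 2) := by
    refine mul_nonneg hb (mul_nonneg (mul_nonneg (mul_nonneg (by linarith) hm0) hnn)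
      (sq_nonneg x))
  have t7 := bracket m hm c hc0 hc1
  rw [← hρ] at t7
  have t8 : P * σ * (8 * m ^ 2 - aB m * (2 - 18 * m * ρ) - 2 * m * bB m * c ^ (m - 1)) ≤ 0 :=
    mul_nonpos_of_nonneg_of_nonpos (mul_nonneg hP0.le hσ) t7
  have t9 : m * S ^ (m - 1) * ζ + m * (m - 1) * S ^ (m - 2) * z ^ 2 -
      aB m * (2 * σ * S ^ (m - 1) + 2 * (m - 1) * x * S ^ (m - 2) * z +
        N * ((m - 1) * S ^ (m - 2) * ζ + (m - 1) * (m - 2) * S ^ (m - 3) * z ^ 2)) -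
      bB m * (2 * m * σ * N ^ (m - 1) + m * (m - 1) * N ^ (m - 2) * x ^ 2) =
      P * (m * ζ + m * (m - 1) * w - aB m * (2 * σ + 2 * (m - 1) * v +
        (m - 1) * c * (ζ + (m - 2) * w))) - bB m * (2 * m * σ * (P * c ^ (m - 1))) -
        bB m * (m * (m - 1) * N ^ (m - 2) * x ^ 2) := by
    rw [e2, e3, eR, ← hP, hw, hv]
    have h1 : N * ((m - 1) * (P / S) * ζ + (m - 1) * (m - 2) * (P / S / S) * z ^ 2) =
        P * ((m - 1) * c * (ζ + (m - 2) * (z ^ 2 / S))) := by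
      rw [hc]
      field_simp
    rw [h1]
    ring
  rw [t9]
  linarith

end Pool.Agent.Lib.MP_537232_an.PY
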