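import Pool.Agent.Lib.MP_537232_an.PY.SpecA

set_option autoImplicit false

/-!
# MP_537232_an, directory PY, Bqb: the tangent inequality on a line
-/

namespace Pool.Agent.Lib.MP_537232_an.PY

namespace Bqb

/-- a quadratic function with nonpositive discriminant is nonnegative -/
private theorem quad_nonneg {a b s : ℝ} (ha : 0 ≤ a) (hs : 0 ≤ s) (h : b ^ 2 ≤ a * s) (t : ℝ) :
    0 ≤ a + 2 * b * t + s * t ^ 2 := by
  rcases hs.eq_or_lt with h0 | h0
  · rw [← h0, mul_zero] at h
    have hb : b = 0 := by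
      have := sq_nonneg b
      have h2 : b ^ 2 = 0 := le_antisymm h this
      exact pow_eq_zero_iff (two_ne_zero) |>.1 h2
    rw [hb, ← h0]
    linarith
  · have h1 : 0 ≤ s * (a + 2 * b * t + s * t ^ 2) := by
      have : s * (a + 2 * b * t + s * t ^ 2) = (a * s - b ^ 2) + (b + s * t) ^ 2 := by ring
      rw [this]
      have := sq_nonneg (b + s * t)
      linarith
    exact nonneg_of_mul_nonneg_right h1 h0

/-- the square of the derivative -/
private theorem quad_der {a b s : ℝ} (h : b ^ 2 ≤ a * s) (t : ℝ) :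
    (2 * b + 2 * s * t) ^ 2 ≤ 4 * s * (a + 2 * b * t + s * t ^ 2) := by
  nlinarith

end Bqb

open Bqb in
theorem wBqb (h1 : S_Bqa) : S_Bqb := by
  intro m hm η α β σ γ δ τ hη hηα hγ hσ hτ hτσ hβ hδ
  have hβ' : β ^ 2 ≤ α * σ := by
    have : (α - η) * σ ≤ α * σ := mul_le_mul_of_nonneg_right (by linarith) hσ
    linarith
  set N : ℝ → ℝ := fun t => α + 2 * β * t + σ * t ^ 2 with hN
  set S : ℝ → ℝ := fun t => α + 2 * β * t + σ * t ^ 2 + (γ + 2 * δ * t + τ * t ^ 2) with hS
  have hNη : ∀ t, η ≤ N t := by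
    intro t
    have := quad_nonneg (a := α - η) (by linarith) hσ hβ t
    simp only [hN]
    linarith
  have hNp : ∀ t, 0 < N t := fun t => lt_of_lt_of_le hη (hNη t)
  have hM : ∀ t : ℝ, 0 ≤ γ + 2 * δ * t + τ * t ^ 2 := fun t => quad_nonneg hγ hτ hδ t
  have hNS : ∀ t, N t ≤ S t := by
    intro t
    have := hM t
    simp only [hN, hS]
    linarith
  have hSp : ∀ t, 0 < S t := fun t => lt_of_lt_of_le (hNp t) (hNS t)
  have dN : ∀ t, HasDerivAt N (2 * β + 2 * σ * t) t := by
    intro t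
    have e1 : HasDerivAt (fun t : ℝ => α + 2 * β * t + σ * t ^ 2) (2 * β * 1 + σ * (2 * t ^ 1 * 1)) t :=
      ((((hasDerivAt_id' t).const_mul (2 * β)).const_add α)).add (((hasDerivAt_id' t).pow 2).const_mul σ)
    convert e1 using 1
    ring
  have dS : ∀ t, HasDerivAt S (2 * (β + δ) + 2 * (σ + τ) * t) t := by
    intro t
    have e1 : HasDerivAt (fun t : ℝ => γ + 2 * δ * t + τ * t ^ 2) (2 * δ * 1 + τ * (2 * t ^ 1 * 1)) t :=
      ((((hasDerivAt_id' t).const_mul (2 * δ)).const_add γ)).add (((hasDerivAt_id' t).pow 2).const_mul τ)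
    have e2 := (dN t).add e1
    exact HasDerivAt.congr_deriv e2 (by ring)
  have dN' : ∀ t, HasDerivAt (fun t => 2 * β + 2 * σ * t) (2 * σ) t := by
    intro t
    have e1 := ((hasDerivAt_id' t).const_mul (2 * σ)).const_add (2 * β)
    exact HasDerivAt.congr_deriv e1 (by ring)
  have dS' : ∀ t, HasDerivAt (fun t => 2 * (β + δ) + 2 * (σ + τ) * t) (2 * (σ + τ)) t := by
    intro t
    have e1 := ((hasDerivAt_id' t).const_mul (2 * (σ + τ))).const_add (2 * (β + δ))
    exact HasDerivAt.congr_deriv e1 (by ring)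
  have dSp : ∀ (r t : ℝ), HasDerivAt (fun t => S t ^ r) ((2 * (β + δ) + 2 * (σ + τ) * t) * r * S t ^ (r - 1)) t :=
    fun r t => (dS t).rpow_const (Or.inl (hSp t).ne')
  have dNp : ∀ (r t : ℝ), HasDerivAt (fun t => N t ^ r) ((2 * β + 2 * σ * t) * r * N t ^ (r - 1)) t :=
    fun r t => (dN t).rpow_const (Or.inl (hNp t).ne')
  set φ : ℝ → ℝ := fun t => Bf m (N t) (S t) with hφ
  set φ' : ℝ → ℝ := fun t => m * S t ^ (m - 1) * (2 * (β + δ) + 2 * (σ + τ) * t) -
      aB m * ((2 * β + 2 * σ * t) * S t ^ (m - 1) + N t * (m - 1) * S t ^ (m - 2) * (2 * (β + δ) + 2 * (σ + τ) * t)) -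
      bB m * (m * N t ^ (m - 1) * (2 * β + 2 * σ * t)) with hφ'
  have dφ : ∀ t, HasDerivAt φ (φ' t) t := by
    intro t
    have e1 := ((dSp m t).sub ((((dN t).mul (dSp (m - 1) t))).const_mul (aB m))).sub ((dNp m t).const_mul (bB m))
    have e2 : HasDerivAt φ ((2 * (β + δ) + 2 * (σ + τ) * t) * m * S t ^ (m - 1) -
        aB m * ((2 * β + 2 * σ * t) * S t ^ (m - 1) +
          N t * ((2 * (β + δ) + 2 * (σ + τ) * t) * (m - 1) * S t ^ (m - 1 - 1))) -
        bB m * ((2 * β + 2 * σ * t) * m * N t ^ (m - 1))) t := by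
      refine e1.congr_of_eventuallyEq (Filter.Eventually.of_forall fun s => ?_)
      simp only [hφ, Bf, Pi.sub_apply, Pi.mul_apply]
      ring
    convert e2 using 1
    have e3 : m - 1 - 1 = m - 2 := by ring
    rw [e3]
    simp only [hφ']
    ring
  have dφ' : ∀ t, ∃ c, HasDerivAt φ' c t ∧ c ≤ 0 := by
    intro t
    have e3 : m - 1 - 1 = m - 2 := by ring
    have e4 : m - 2 - 1 = m - 3 := by ring
    have f1 := dSp (m - 1) t
    have f2 := dSp (m - 2) t
    have f3 := dNp (m - 1) t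
    rw [e3] at f1 f3
    rw [e4] at f2
    have g1 := (f1.const_mul m).mul (dS' t)
    have g2 := (dN' t).mul f1
    have g3 := ((((dN t).mul_const (m - 1)).mul f2)).mul (dS' t)
    have g4 := (f3.const_mul m).mul (dN' t)
    have g5 := (g1.sub ((g2.add g3).const_mul (aB m))).sub (g4.const_mul (bB m))
    have g6 := g5.congr_of_eventuallyEq (f₁ := φ') (Filter.Eventually.of_forall fun s => by
      simp only [hφ', Pi.sub_apply, Pi.mul_apply, Pi.add_apply])
    refine ⟨_, g6, ?_⟩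
    · have h2 := h1 m hm (N t) (S t) σ (2 * (σ + τ)) (2 * β + 2 * σ * t) (2 * (β + δ) + 2 * (σ + τ) * t)
        (hNp t) (hNS t) hσ (by linarith) (by linarith) (quad_der hβ' t) (by
          have k1 := quad_der hβ' t
          have k2 := quad_der hδ t
          have k3 : (2 * (β + δ) + 2 * (σ + τ) * t) ^ 2 ≤
              2 * ((2 * β + 2 * σ * t) ^ 2 + (2 * δ + 2 * τ * t) ^ 2) := by
            have e5 : 2 * (β + δ) + 2 * (σ + τ) * t = (2 * β + 2 * σ * t) + (2 * δ + 2 * τ * t) := by ring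
            rw [e5]
            nlinarith [sq_nonneg ((2 * β + 2 * σ * t) - (2 * δ + 2 * τ * t))]
          have k4 : τ * (γ + 2 * δ * t + τ * t ^ 2) ≤ σ * (γ + 2 * δ * t + τ * t ^ 2) :=
            mul_le_mul_of_nonneg_right hτσ (hM t)
          have k5 : 8 * σ * S t = 2 * (4 * σ * (α + 2 * β * t + σ * t ^ 2)) +
              8 * (σ * (γ + 2 * δ * t + τ * t ^ 2)) := by
            simp only [hS]
            ring
          rw [k5]
          nlinarith)
      refine le_trans (le_of_eq ?_) h2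
      simp only [Pi.mul_apply]
      ring
  have hanti : Antitone φ' := by
    apply antitone_of_deriv_nonpos
    · intro t
      obtain ⟨c, hc, -⟩ := dφ' t
      exact hc.differentiableAt
    · intro t
      obtain ⟨c, hc, hc0⟩ := dφ' t
      rw [hc.deriv]
      exact hc0
  obtain ⟨c, hc, hcs⟩ := exists_hasDerivAt_eq_slope φ φ' (zero_lt_one' ℝ)
    (fun t _ => (dφ t).continuousAt.continuousWithinAt) (fun t _ => dφ t)
  have h3 : φ 1 = φ 0 + φ' c := by
    rw [hcs]
    ring
  have h4 : φ' c ≤ φ' 0 := hanti hc.1.le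
  have h5 : φ 1 = Bf m (α + 2 * β + σ) (α + 2 * β + σ + (γ + 2 * δ + τ)) := by
    simp only [hφ, hN, hS]
    norm_num
  have h6 : φ 0 = Bf m α (α + γ) := by
    simp only [hφ, hN, hS]
    norm_num
  have h7 : φ' 0 = (m * (α + γ) ^ (m - 1) * (2 * (β + δ)) -
      aB m * (2 * β * (α + γ) ^ (m - 1) + α * (m - 1) * (α + γ) ^ (m - 2) * (2 * (β + δ))) -
      bB m * (m * α ^ (m - 1) * (2 * β))) := by
    simp only [hφ', hN, hS]
    norm_num
  rw [← h5, ← h6, ← h7, h3]
  linarith

end Pool.Agent.Lib.MP_537232_an.PY
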