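import Pool.Agent.Lib.MP_537232_an.PY.SpecA

set_option autoImplicit false

/-!
# MP_537232_an, directory PY, module Bvc

The function `Fb` on pairs of vectors: the tangent inequality, the lower bound and `Fb x 0 ≤ 0`.
-/

open Finset Filter Topology
open scoped ENNReal

namespace Pool.Agent.Lib.MP_537232_an.PY

namespace Bvc

private lemma aB_pos {m : ℝ} (hm : 1 ≤ m) : 1 ≤ aB m := by
  unfold aB
  nlinarith

private lemma bB_pos {m : ℝ} (hm : 1 ≤ m) : 0 < bB m := by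
  unfold bB
  have h0 : (0 : ℝ) < m := by linarith
  have h1 : (0 : ℝ) < 4 * m + 72 * m ^ 2 := by positivity
  have h2 : (0 : ℝ) < (18 * m) ^ (2 * m - 2) := Real.rpow_pos_of_pos (by positivity) _
  exact mul_pos h1 h2

private lemma mul_rpow_sub_one {N m : ℝ} (hN : 0 < N) : N * N ^ (m - 1) = N ^ m := by
  rw [Real.rpow_sub_one hN.ne']
  field_simp

/-- the gradient -/
private noncomputable def grd {H : Type} [NormedAddCommGroup H] [InnerProductSpace ℝ H] (m η θ : ℝ)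
    (x y : H) : H :=
  (2 * m * (‖x‖ ^ 2 + η + ‖y‖ ^ 2) ^ (m - 1) - aB m * (2 * (‖x‖ ^ 2 + η + ‖y‖ ^ 2) ^ (m - 1)
    + 2 * (‖x‖ ^ 2 + η) * (m - 1) * (‖x‖ ^ 2 + η + ‖y‖ ^ 2) ^ (m - 2))
    - 2 * bB m * m * (‖x‖ ^ 2 + η) ^ (m - 1)) • x
  + (2 * m * (‖x‖ ^ 2 + η + ‖y‖ ^ 2) ^ (m - 1)
    - 2 * aB m * (‖x‖ ^ 2 + η) * (m - 1) * (‖x‖ ^ 2 + η + ‖y‖ ^ 2) ^ (m - 2)) • (θ • y)

private lemma part1 (h1 : S_Bqb) {m η : ℝ} (hm : 1 ≤ m) (hη : 0 < η) {H : Type}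
    [NormedAddCommGroup H] [InnerProductSpace ℝ H] {θ : ℝ} (hθ : θ = 0 ∨ θ = 1) (x y h : H) :
    Fb m η (x + h) (y + θ • h) ≤ Fb m η x y + inner ℝ (grd m η θ x y) h := by
  have hx : 0 ≤ ‖x‖ ^ 2 := by positivity
  have hy : 0 ≤ ‖y‖ ^ 2 := by positivity
  have hh : 0 ≤ ‖h‖ ^ 2 := by positivity
  have hθ2 : θ ^ 2 = θ := by rcases hθ with rfl | rfl <;> norm_num
  have hθ0 : 0 ≤ θ := by rcases hθ with rfl | rfl <;> norm_num
  have hθ1 : θ ≤ 1 := by rcases hθ with rfl | rfl <;> norm_num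
  have cs1 : (inner ℝ x h : ℝ) ^ 2 ≤ ‖x‖ ^ 2 * ‖h‖ ^ 2 := by
    have := abs_real_inner_le_norm x h
    rw [← mul_pow]
    exact sq_le_sq.mpr (by rw [abs_of_nonneg (by positivity : (0 : ℝ) ≤ ‖x‖ * ‖h‖)]; exact this)
  have cs2 : (inner ℝ y h : ℝ) ^ 2 ≤ ‖y‖ ^ 2 * ‖h‖ ^ 2 := by
    have := abs_real_inner_le_norm y h
    rw [← mul_pow]
    exact sq_le_sq.mpr (by rw [abs_of_nonneg (by positivity : (0 : ℝ) ≤ ‖y‖ * ‖h‖)]; exact this)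
  have key := h1 m hm η (‖x‖ ^ 2 + η) (inner ℝ x h) (‖h‖ ^ 2) (‖y‖ ^ 2) (θ * inner ℝ y h)
    (θ * ‖h‖ ^ 2) hη (by linarith) hy hh (mul_nonneg hθ0 hh) (by nlinarith)
    (by simpa using cs1) (by
      have : (θ * inner ℝ y h) ^ 2 = θ * (inner ℝ y h : ℝ) ^ 2 := by rw [mul_pow, hθ2]
      rw [this]
      calc θ * (inner ℝ y h : ℝ) ^ 2 ≤ θ * (‖y‖ ^ 2 * ‖h‖ ^ 2) :=
            mul_le_mul_of_nonneg_left cs2 hθ0
        _ = ‖y‖ ^ 2 * (θ * ‖h‖ ^ 2) := by ring)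
  have n1 : ‖x + h‖ ^ 2 = ‖x‖ ^ 2 + 2 * inner ℝ x h + ‖h‖ ^ 2 := norm_add_sq_real x h
  have n2 : ‖y + θ • h‖ ^ 2 = ‖y‖ ^ 2 + 2 * (θ * inner ℝ y h) + θ * ‖h‖ ^ 2 := by
    rw [norm_add_sq_real, inner_smul_right, norm_smul, mul_pow, Real.norm_eq_abs, sq_abs, hθ2]
  have e1 : Fb m η (x + h) (y + θ • h) =
      Bf m (‖x‖ ^ 2 + η + 2 * inner ℝ x h + ‖h‖ ^ 2) (‖x‖ ^ 2 + η + 2 * inner ℝ x h + ‖h‖ ^ 2
        + (‖y‖ ^ 2 + 2 * (θ * inner ℝ y h) + θ * ‖h‖ ^ 2)) := by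
    unfold Fb
    rw [n1, n2]
    congr 1 <;> ring
  have e2 : Fb m η x y = Bf m (‖x‖ ^ 2 + η) (‖x‖ ^ 2 + η + ‖y‖ ^ 2) := by
    unfold Fb
    congr 1
    ring
  have e3 : (inner ℝ (grd m η θ x y) h : ℝ) =
      m * (‖x‖ ^ 2 + η + ‖y‖ ^ 2) ^ (m - 1) * (2 * (inner ℝ x h + θ * inner ℝ y h)) -
      aB m * (2 * inner ℝ x h * (‖x‖ ^ 2 + η + ‖y‖ ^ 2) ^ (m - 1) + (‖x‖ ^ 2 + η) * (m - 1) *
        (‖x‖ ^ 2 + η + ‖y‖ ^ 2) ^ (m - 2) * (2 * (inner ℝ x h + θ * inner ℝ y h))) -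
      bB m * (m * (‖x‖ ^ 2 + η) ^ (m - 1) * (2 * inner ℝ x h)) := by
    unfold grd
    rw [inner_add_left, inner_smul_left, inner_smul_left, inner_smul_left]
    simp only [conj_trivial]
    ring
  rw [e1, e2, e3]
  exact key

private lemma part2 {m : ℝ} (hm : 1 ≤ m) {N S : ℝ} (hN : 0 < N) (hS : N ≤ S) :
    S ^ m ≤ 2 * Bf m N S + 2 * (aB m * (2 * aB m) ^ (m - 1) + bB m) * N ^ m := by
  have ha := aB_pos hm
  have hb := bB_pos hm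
  have hS0 : 0 < S := by linarith
  have hSm : 0 < S ^ m := Real.rpow_pos_of_pos hS0 m
  have hNm : 0 < N ^ m := Real.rpow_pos_of_pos hN m
  have hS1 : 0 < S ^ (m - 1) := Real.rpow_pos_of_pos hS0 _
  have h2a : 0 < (2 * aB m) ^ (m - 1) := Real.rpow_pos_of_pos (by linarith) _
  have hSS : S * S ^ (m - 1) = S ^ m := mul_rpow_sub_one hS0
  have hNN : N * N ^ (m - 1) = N ^ m := mul_rpow_sub_one hN
  have hp : 0 < aB m * (2 * aB m) ^ (m - 1) * N ^ m := by positivity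
  have hq : 0 < bB m * N ^ m := by positivity
  unfold Bf
  rcases le_or_gt (2 * aB m * N) S with hc | hc
  · have h3 : 2 * aB m * N * S ^ (m - 1) ≤ S * S ^ (m - 1) :=
      mul_le_mul_of_nonneg_right hc hS1.le
    rw [hSS] at h3
    nlinarith
  · have h3 : S ^ (m - 1) ≤ (2 * aB m * N) ^ (m - 1) :=
      Real.rpow_le_rpow hS0.le hc.le (by linarith)
    rw [Real.mul_rpow (by linarith) hN.le] at h3
    have h4 : aB m * N * S ^ (m - 1) ≤ aB m * N * ((2 * aB m) ^ (m - 1) * N ^ (m - 1)) :=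
      mul_le_mul_of_nonneg_left h3 (by positivity)
    have h5 : aB m * N * ((2 * aB m) ^ (m - 1) * N ^ (m - 1))
        = aB m * (2 * aB m) ^ (m - 1) * N ^ m := by
      rw [← hNN]; ring
    rw [h5] at h4
    nlinarith

end Bvc

open Bvc in
/-- the function `Fb` on pairs of vectors -/
theorem wBvc (h1 : S_Bqb) : S_Bvc := by
  intro m hm
  have ha := aB_pos hm
  have hb := bB_pos hm
  have h2a : 0 < (2 * aB m) ^ (m - 1) := Real.rpow_pos_of_pos (by linarith) _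
  refine ⟨2 * (aB m * (2 * aB m) ^ (m - 1) + bB m), by positivity, ?_⟩
  intro η hη H _ _
  refine ⟨⟨fun θ x y => grd m η θ x y, fun θ hθ x y h => part1 h1 hm hη hθ x y h⟩, ?_, ?_⟩
  · intro x y
    have hx : 0 ≤ ‖x‖ ^ 2 := by positivity
    have hy : 0 ≤ ‖y‖ ^ 2 := by positivity
    have h3 := part2 hm (N := ‖x‖ ^ 2 + η) (S := ‖x‖ ^ 2 + ‖y‖ ^ 2 + η) (by linarith)
      (by linarith)
    have h4 : ‖y‖ ^ (2 * m) ≤ (‖x‖ ^ 2 + ‖y‖ ^ 2 + η) ^ m := by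
      rw [Real.rpow_mul (norm_nonneg y)]
      have h5 : ‖y‖ ^ (2 : ℝ) = ‖y‖ ^ 2 := by norm_cast
      rw [h5]
      exact Real.rpow_le_rpow hy (by linarith) (by linarith)
    exact h4.trans h3
  · intro x
    have hx : 0 ≤ ‖x‖ ^ 2 := by positivity
    have hN : 0 < ‖x‖ ^ 2 + η := by linarith
    have hNm : 0 < (‖x‖ ^ 2 + η) ^ m := Real.rpow_pos_of_pos hN m
    have hNN : (‖x‖ ^ 2 + η) * (‖x‖ ^ 2 + η) ^ (m - 1) = (‖x‖ ^ 2 + η) ^ m :=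
      mul_rpow_sub_one hN
    have e : Fb m η x (0 : H) = (‖x‖ ^ 2 + η) ^ m - aB m * ((‖x‖ ^ 2 + η) *
        (‖x‖ ^ 2 + η) ^ (m - 1)) - bB m * (‖x‖ ^ 2 + η) ^ m := by
      unfold Fb Bf
      have : ‖x‖ ^ 2 + ‖(0 : H)‖ ^ 2 + η = ‖x‖ ^ 2 + η := by simp
      rw [this]
      ring
    rw [e, hNN]
    have : 0 < bB m * (‖x‖ ^ 2 + η) ^ m := by positivity
    nlinarith

end Pool.Agent.Lib.MP_537232_an.PY
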