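import Pool.Agent.Lib.MP_537232_an.PY.SpecB

set_option autoImplicit false

/-!
# MP_537232_an, directory PY: the easy facts about the operators `S_L` and `I`
-/

open Finset Filter Topology
open scoped ENNReal

namespace Pool.Agent.Lib.MP_537232_an.PY

open NM (pE qE)

namespace Cea

variable {q : ℝ} [Fact (1 ≤ qE q)] (P : Params (pE q))

/-- `1 ≤ qE q` gives `0 < qE q` -/
lemma qpos : (0 : ℝ≥0∞) < qE q := lt_of_lt_of_le zero_lt_one Fact.out

omit [Fact (1 ≤ qE q)] in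
lemma qtop : qE q ≠ ∞ := ENNReal.ofReal_ne_top

omit [Fact (1 ≤ qE q)] in
lemma tw_zero : P.tw ⟨0, ⟨0, P.v_pos 0⟩⟩ = ⟨0, ⟨0, P.u_pos 0⟩⟩ := by
  have h1 : pos P.v 0 ⟨0, P.v_pos 0⟩ = pos P.u 0 ⟨0, P.u_pos 0⟩ := by simp [pos]
  have h2 : P.tw ⟨0, ⟨0, P.v_pos 0⟩⟩ = unpos P.u P.u_pos (pos P.v 0 ⟨0, P.v_pos 0⟩) := rfl
  rw [h2, h1]
  exact unpos_pos P.u_pos ⟨0, ⟨0, P.u_pos 0⟩⟩

variable {S : Set ℕ → (YSp P.v →L[ℝ] XSp P.u q)} (hS : ∀ M, IsSc P M (S M))
  {I : YSp P.v →L[ℝ] XSp P.u q} (hI : IsIc P I)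

include hS in
lemma mono {M M' : Set ℕ} (h : M' ⊆ M) : S M' ∈ idealGen (S M) := by
  classical
  obtain ⟨B, _, hB⟩ := exists_projY P {μ | μ.1 ∈ M'}
  have h1 : S M' = (S M).comp B := by
    refine Y_ext fun ν => ?_
    change _ = S M (B (eY P.v ν))
    rw [hB, hS M']
    by_cases h2 : ν.1 ∈ M'
    · rw [if_pos h2, if_pos (show ν ∈ {μ : Ix P.v | μ.1 ∈ M'} from h2), hS M, if_pos (h h2)]
    · rw [if_neg h2, if_neg (show ¬ ν ∈ {μ : Ix P.v | μ.1 ∈ M'} from h2), map_zero]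
  rw [h1]
  exact (isClosedIdeal_idealGen _).right _ (mem_idealGen _)

include hI in
/-- operators which vanish on almost all unit vectors -/
lemma finite_mem (R : YSp P.v →L[ℝ] XSp P.u q) {n₀ : ℕ}
    (hR : ∀ ν : Ix P.v, n₀ ≤ ν.1 → R (eY P.v ν) = 0) : R ∈ idealGen I := by
  classical
  have hfin : {ν : Ix P.v | ν.1 ∈ Set.Iio n₀}.Finite := finite_fst (Set.finite_Iio n₀)
  set s := hfin.toFinset with hs
  set o : Ix P.v := ⟨0, ⟨0, P.v_pos 0⟩⟩ with ho
  have htw : P.tw o = ⟨0, ⟨0, P.u_pos 0⟩⟩ := tw_zero P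
  have hIo : I (eY P.v o) = lp.single (qE q) 0
      (EuclideanSpace.single (⟨0, P.u_pos 0⟩ : Fin (P.u 0)) (1 : ℝ) : E P.u 0) := by
    rw [hI, htw]
  -- the coordinate functional
  obtain ⟨f, hf⟩ : ∃ f : XSp P.u q →L[ℝ] ℝ, ∀ x, f x = (x 0) ⟨0, P.u_pos 0⟩ :=
    ⟨LinearMap.mkContinuous
      { toFun := fun x => (x 0) ⟨0, P.u_pos 0⟩
        map_add' := fun x y => by rw [lp.coeFn_add]; rfl
        map_smul' := fun c x => by rw [lp.coeFn_smul]; rfl } 1 (fun x => by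
          rw [one_mul]
          exact (PiLp.norm_apply_le (x 0) ⟨0, P.u_pos 0⟩).trans
            (lp.norm_apply_le_norm qpos.ne' x 0)),
      fun x => rfl⟩
  have hfI : f (I (eY P.v o)) = 1 := by
    rw [hf, hIo, lp.single_apply_self]
    simp
  have hsh : ∀ ν : Ix P.v, ∃ B : YSp P.v →L[ℝ] YSp P.v, ∀ μ,
      B (eY P.v μ) = if μ = ν then eY P.v o else 0 := by
    intro ν
    obtain ⟨B, _, h⟩ := Y_shuffle (v := P.v) (fun μ => if μ = ν then some o else none)
    refine ⟨B, fun μ => ?_⟩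
    rw [h]
    split_ifs <;> rfl
  choose B hB using hsh
  have hsum : R = ∑ ν ∈ s, ((f.smulRight (R (eY P.v ν))).comp I).comp (B ν) := by
    refine Y_ext fun μ => ?_
    rw [_root_.sum_apply]
    have h1 : ∀ ν ∈ s, (((f.smulRight (R (eY P.v ν))).comp I).comp (B ν)) (eY P.v μ) =
        if μ = ν then R (eY P.v ν) else 0 := by
      intro ν _
      change f (I (B ν (eY P.v μ))) • R (eY P.v ν) = _
      rw [hB]
      by_cases h : μ = ν
      · rw [if_pos h, if_pos h, hfI, one_smul]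
      · rw [if_neg h, if_neg h, map_zero, map_zero, zero_smul]
    rw [Finset.sum_congr rfl h1, Finset.sum_ite_eq]
    split_ifs with h2
    · rfl
    · refine hR μ ?_
      by_contra h3
      exact h2 (hfin.mem_toFinset.2 (not_le.1 h3))
  rw [hsum]
  refine Submodule.sum_mem _ fun ν _ => ?_
  exact (isClosedIdeal_idealGen _).comp _ _ _ (mem_idealGen _)

include hS hI in
lemma finiteS {M : Set ℕ} (hM : M.Finite) : S M ∈ idealGen I := by
  obtain ⟨n₀, hn₀⟩ := hM.bddAbove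
  refine finite_mem P hI (S M) (n₀ := n₀ + 1) fun ν hν => ?_
  rw [hS M, if_neg]
  intro h
  have := hn₀ h
  omega

include hS hI in
lemma memIS {M : Set ℕ} (hM : M.Infinite) : I ∈ idealGen (S M) := by
  classical
  have hmono : StrictMono P.u := P.u_strictMono
  set n : ℕ → ℕ := fun m => Nat.nth (· ∈ M) (P.u m + m) with hn
  have hnth : StrictMono (Nat.nth (· ∈ M)) := Nat.nth_strictMono hM
  have hge : ∀ k, k ≤ Nat.nth (· ∈ M) k := fun k => hnth.le_apply
  have hninj : Function.Injective n := by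
    intro m m' h
    have h1 := hnth.injective h
    by_contra hne
    rcases Nat.lt_or_gt_of_ne hne with h2 | h2
    · have := hmono h2; omega
    · have := hmono h2; omega
  have hnM : ∀ m, n m ∈ M := fun m => Nat.nth_mem_of_infinite hM _
  have hnu : ∀ m, P.u m ≤ n m := fun m => (Nat.le_add_right _ _).trans (hge _)
  have hnm : ∀ m, m ≤ n m := fun m => (Nat.le_add_left _ _).trans (hge _)
  have hd : ∀ m, P.u m ≤ P.v (n m) := fun m =>
    (hmono.monotone (hnm m)).trans (P.u_lt_v (n m)).le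
  have hd' : ∀ m, ((P.u m : ℕ) : ℝ) ≤ 19 * ((n m : ℝ) + 1) ^ 2 := by
    intro m
    have h1 : ((P.u m : ℕ) : ℝ) ≤ (n m : ℝ) := by exact_mod_cast hnu m
    nlinarith [(Nat.cast_nonneg (n m) : (0 : ℝ) ≤ (n m : ℝ))]
  have hL : ∀ m, ∃ A : E P.u (n m) →L[ℝ] E P.u m, ‖A‖ ≤ 2 ∧
      ∀ t, A (P.g (n m) (Fin.castLE (hd m) t)) = EuclideanSpace.single t 1 := fun m =>
    exists_dual' _ (P.lower_first (n m) (hd m) (hd' m))
  choose A hA1 hA2 using hL
  obtain ⟨AA, _, hAA⟩ := exists_shift (p := qE q) qtop n A (C := 2) (by norm_num) hA1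
    (fun k k' h _ _ => hninj h)
  obtain ⟨B, _, hB⟩ := Y_shuffle (v := P.v)
    (fun μ => some ⟨n (P.tw μ).1, Fin.castLE (hd _) (P.tw μ).2⟩)
  have hIeq : I = (AA.comp (S M)).comp B := by
    refine Y_ext fun μ => ?_
    change _ = AA (S M (B (eY P.v μ)))
    rw [hB, Option.elim_some, hS M, if_pos (hnM _), hI]
    refine lp.ext (funext fun k => ?_)
    rw [hAA]
    by_cases hk : k = (P.tw μ).1
    · subst hk
      rw [lp.single_apply_self, lp.single_apply_self, hA2]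
    · have hk' : n k ≠ n (P.tw μ).1 := fun h => hk (hninj h)
      rw [lp.single_apply_ne _ _ _ hk, lp.single_apply_ne _ _ _ hk', map_zero]
  rw [hIeq]
  exact (isClosedIdeal_idealGen _).comp _ _ _ (mem_idealGen _)

end Cea

theorem wCea : S_Cea := by
  intro q _ _ P S I hS hI
  exact ⟨fun M M' h => Cea.mono P hS h, fun M h => Cea.memIS P hS hI h,
    fun M h => Cea.finiteS P hS hI h, fun R n₀ h => Cea.finite_mem P hI R h⟩

end Pool.Agent.Lib.MP_537232_an.PY
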