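import Pool.Agent.Lib.MP_537232_an.PY.SpecA

/-!
# MP_537232_an, PY: properties of the conditional expectation (Cep)
-/

set_option autoImplicit false

open Finset Filter Topology

namespace Pool.Agent.Lib.MP_537232_an.PY

namespace Cep

variable {F : Type} [Fintype F]

open Classical in
/-- the weight of the class -/
noncomputable def cw (w : F → ℝ) (r : F → F → Prop) (a : F) : ℝ := ∑ c, (if r a c then w c else 0)

theorem cw_pos {w : F → ℝ} (hw : ∀ a, 0 < w a) {r : F → F → Prop} (hr : Equivalence r) (a : F) :
    0 < cw w r a := by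
  classical
  unfold cw
  have h1 : w a ≤ ∑ c, (if r a c then w c else 0) := by
    have h2 := Finset.single_le_sum (f := fun c => if r a c then w c else 0)
      (fun c _ => by
        show 0 ≤ (if r a c then w c else 0)
        split_ifs
        · exact (hw c).le
        · exact le_rfl) (Finset.mem_univ a)
    have h3 : (if r a a then w a else 0) = w a := if_pos (hr.refl a)
    simp only [h3] at h2
    convert h2
  exact lt_of_lt_of_le (hw a) h1

theorem cw_congr {w : F → ℝ} {r : F → F → Prop} (hr : Equivalence r) {a a' : F} (h : r a a') :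
    cw w r a = cw w r a' := by
  classical
  unfold cw
  apply Finset.sum_congr rfl
  intro c _
  have h1 : r a c ↔ r a' c := ⟨fun h2 => hr.trans (hr.symm h) h2, fun h2 => hr.trans h h2⟩
  by_cases h2 : r a c
  · rw [if_pos h2, if_pos (h1.1 h2)]
  · rw [if_neg h2, if_neg (fun h3 => h2 (h1.2 h3))]

theorem ke_pos {w : F → ℝ} {r : F → F → Prop} {a b : F} (h : r a b) :
    ke w r a b = w b / cw w r a := by
  unfold ke cw
  rw [if_pos h]

theorem ke_neg {w : F → ℝ} {r : F → F → Prop} {a b : F} (h : ¬ r a b) : ke w r a b = 0 := by
  unfold ke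
  rw [if_neg h]

end Cep

open Cep in
theorem wCep : S_Cep := by
  classical
  intro F _ w hw r hr
  have h1 : ∀ a b, 0 ≤ ke w r a b := by
    intro a b
    by_cases h : r a b
    · rw [ke_pos h]; exact div_nonneg (hw b).le (cw_pos hw hr a).le
    · rw [ke_neg h]
  have h2 : ∀ a, ∑ b, ke w r a b = 1 := by
    intro a
    have h3 : ∀ b, ke w r a b = (if r a b then w b else 0) / cw w r a := by
      intro b
      by_cases h : r a b
      · rw [ke_pos h, if_pos h]
      · rw [ke_neg h, if_neg h, zero_div]
    rw [Finset.sum_congr rfl (fun b _ => h3 b), ← Finset.sum_div]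
    have h4 : ∑ b, (if r a b then w b else 0) = cw w r a := by
      unfold cw
      apply Finset.sum_congr rfl
      intro c _
      by_cases h : r a c
      · simp only [if_pos h]
      · simp only [if_neg h]
    rw [h4]
    exact div_self (cw_pos hw hr a).ne'
  have h3 : ∀ a a', r a a' → ∀ b, ke w r a b = ke w r a' b := by
    intro a a' haa b
    by_cases h : r a b
    · rw [ke_pos h, ke_pos (hr.trans (hr.symm haa) h), cw_congr hr haa]
    · rw [ke_neg h, ke_neg (fun h' => h (hr.trans haa h'))]
  have h4 : ∀ a b, ke w r a b ≠ 0 → r a b := by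
    intro a b h
    by_contra hn
    exact h (ke_neg hn)
  have h5 : ∀ a b, w a * ke w r a b = w b * ke w r b a := by
    intro a b
    by_cases h : r a b
    · rw [ke_pos h, ke_pos (hr.symm h), cw_congr hr h]
      ring
    · rw [ke_neg h, ke_neg (fun h' => h (hr.symm h')), mul_zero, mul_zero]
  refine ⟨h1, h2, h3, h4, h5, ?_, ?_⟩
  · intro X _ _ f hf
    funext a
    unfold ce
    have h6 : ∀ b, ke w r a b • f b = ke w r a b • f a := by
      intro b
      by_cases h : r a b
      · rw [hf a b h]
      · rw [ke_neg h, zero_smul, zero_smul]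
    rw [Finset.sum_congr rfl (fun b _ => h6 b), ← Finset.sum_smul, h2, one_smul]
  · intro H _ _ f g
    have e1 : ∀ a, w a * inner ℝ (g a) (ce w r f a) =
        ∑ b, w b * ke w r b a * inner ℝ (g a) (f b) := by
      intro a
      unfold ce
      rw [inner_sum, Finset.mul_sum]
      apply Finset.sum_congr rfl
      intro b _
      rw [real_inner_smul_right, ← mul_assoc, h5]
    have e2 : ∀ b, w b * inner ℝ (ce w r g b) (f b) =
        ∑ a, w b * ke w r b a * inner ℝ (g a) (f b) := by
      intro b
      unfold ce
      rw [sum_inner, Finset.mul_sum]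
      apply Finset.sum_congr rfl
      intro a _
      rw [real_inner_smul_left, ← mul_assoc]
    rw [Finset.sum_congr rfl (fun a _ => e1 a), Finset.sum_congr rfl (fun a _ => e2 a)]
    rw [Finset.sum_comm]

end Pool.Agent.Lib.MP_537232_an.PY
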