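import Pool.Agent.Lib.MP_537232_an.PY.SpecC

set_option autoImplicit false

/-!
# MP_537232_an, PY/Clu: the cluster lemma
-/

open Finset Filter Topology
open scoped ENNReal

namespace Pool.Agent.Lib.MP_537232_an.PY

namespace Clu

theorem infinite_Ix {v : ℕ → ℕ} (hv : ∀ n, 0 < v n) : Infinite (Ix v) :=
  Infinite.of_injective (fun n : ℕ => (⟨n, ⟨0, hv n⟩⟩ : Ix v)) (fun _ _ h => congrArg Sigma.fst h)

theorem coord_le {v : ℕ → ℕ} (y : YSp v) (l : ℕ) (i : Fin (v l)) : |y l i| ≤ ‖y‖ :=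
  (PiLp.norm_apply_le (y l) i).trans (lp.norm_apply_le_norm (by norm_num) y l)

theorem wn_tendsto {v : ℕ → ℕ} {X : Type} [NormedAddCommGroup X] [NormedSpace ℝ X]
    {G : YSp v →L[ℝ] X} (hG : WN G) (φ : X →L[ℝ] ℝ) :
    Tendsto (fun ν => φ (G (eY v ν))) cofinite (𝓝 0) := by
  rw [Metric.tendsto_nhds]
  intro δ hδ
  rw [Filter.eventually_cofinite]
  refine (hG φ δ hδ).subset fun ν hν => ?_
  have h1 : ¬ dist (φ (G (eY v ν))) 0 < δ := hν
  rw [Real.dist_eq, sub_zero, not_lt] at h1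
  exact h1

end Clu

theorem wClu (h1 : S_Sel) (h2 : S_Wlm) (h3 : S_Ylm) : S_Clu := by
  classical
  intro v hv X _ _ s G T B ε hG hT hε
  haveI := Clu.infinite_Ix hv
  obtain ⟨C, hC0, hC⟩ : ∃ C : ℝ, 0 ≤ C ∧ ∀ r, ‖B r‖ ≤ C :=
    ⟨∑ r, ‖B r‖, Finset.sum_nonneg fun r _ => norm_nonneg _, fun r =>
      Finset.single_le_sum (f := fun r => ‖B r‖) (fun r _ => norm_nonneg _) (Finset.mem_univ r)⟩
  have hBe : ∀ r ν, ‖B r (eY v ν)‖ ≤ C := fun r ν =>
    ((B r).le_opNorm _).trans (by rw [norm_eY, mul_one]; exact hC r)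
  obtain ⟨g, hg1, hg2⟩ := h1 (Ix v) (Fin s × Ix v)
    (fun ν k => (B k.1 (eY v ν)) k.2.1 k.2.2) C
    (fun ν k => (Clu.coord_le _ _ _).trans (hBe _ _))
  have hβ : ∀ (r : Fin s) (ν : Ix v), ∃ y : YSp v, ‖y‖ ≤ C ∧
      ∀ μ : Ix v, y μ.1 μ.2 = g ν (r, μ) := by
    intro r ν
    obtain ⟨𝓤, _, h𝓤⟩ := hg1 ν
    obtain ⟨y, hy, hyc⟩ := h3 v (Ix v) 𝓤 C (fun j => B r (eY v j)) (fun j => hBe r j)
    exact ⟨y, hy, fun μ => tendsto_nhds_unique (hyc μ.1 μ.2) (h𝓤 (r, μ))⟩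
  choose β hβn hβc using hβ
  have hε0 : 0 ≤ ε := (norm_nonneg _).trans hε
  have hcol : ∀ ν, ‖G (eY v ν) - ∑ r, T r (B r (eY v ν))‖ ≤ ε := by
    intro ν
    have h := (G - ∑ r, (T r).comp (B r)).le_opNorm (eY v ν)
    rw [norm_eY, mul_one] at h
    have h' : (G - ∑ r, (T r).comp (B r)) (eY v ν) =
        G (eY v ν) - ∑ r, T r (B r (eY v ν)) := by
      rw [sub_apply, _root_.sum_apply]
      rfl
    rw [h'] at h
    exact h.trans hε
  have hlim : ∀ ν, ‖∑ r, T r (β r ν)‖ ≤ ε := by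
    intro ν
    obtain ⟨𝓤, hle, h𝓤⟩ := hg1 ν
    have h := h2 v X (Fin s) T hT (Ix v) (𝓤 : Filter (Ix v)) C ε
      (fun j r => B r (eY v j)) (fun r => β r ν) (fun j => G (eY v j)) 0 (fun j r => hBe r j)
      (fun r l i => by
        have h4 := h𝓤 (r, ⟨l, i⟩)
        rw [← hβc r ν ⟨l, i⟩] at h4
        exact h4)
      (fun φ => by
        rw [map_zero]
        exact (Clu.wn_tendsto hG φ).mono_left hle)
      (Eventually.of_forall hcol)
    rwa [zero_sub, norm_neg] at h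
  have hB' : ∀ r, ∃ S : YSp v →L[ℝ] YSp v, ‖S‖ ≤ 2 * C ∧
      ∀ ν, S (eY v ν) = B r (eY v ν) - β r ν := fun r =>
    Y_lift (fun ν => B r (eY v ν) - β r ν) (by positivity)
      (fun ν => (norm_sub_le _ _).trans (by linarith [hBe r ν, hβn r ν]))
  choose B' _ hB'c using hB'
  refine ⟨B', fun r μ δ hδ => ?_, ?_⟩
  · have h' := (Metric.tendsto_nhds.1 (hg2 (r, μ))) δ hδ
    rw [Filter.eventually_cofinite] at h'
    refine h'.subset fun ν hν => ?_
    have h5 : δ ≤ |B' r (eY v ν) μ.1 μ.2| := hν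
    have h6 : B' r (eY v ν) μ.1 μ.2 = B r (eY v ν) μ.1 μ.2 - g ν (r, μ) := by
      rw [hB'c, lp.coeFn_sub, Pi.sub_apply, PiLp.sub_apply, hβc]
    rw [h6] at h5
    change ¬ dist (B r (eY v ν) μ.1 μ.2 - g ν (r, μ)) 0 < δ
    rw [Real.dist_eq, sub_zero, not_lt]
    exact h5
  · refine Y_norm_le _ (by positivity) fun ν => ?_
    have h7 : (G - ∑ r, (T r).comp (B' r)) (eY v ν) =
        (G (eY v ν) - ∑ r, T r (B r (eY v ν))) + ∑ r, T r (β r ν) := by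
      rw [sub_apply, _root_.sum_apply]
      have h8 : ∀ r ∈ Finset.univ, ((T r).comp (B' r)) (eY v ν) =
          T r (B r (eY v ν)) - T r (β r ν) := by
        intro r _
        change T r (B' r (eY v ν)) = _
        rw [hB'c, map_sub]
      rw [Finset.sum_congr rfl h8, Finset.sum_sub_distrib]
      abel
    rw [h7]
    refine (norm_add_le _ _).trans ?_
    linarith [hcol ν, hlim ν]

end Pool.Agent.Lib.MP_537232_an.PY
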