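import Pool.Agent.Lib.MP_537232_an.PY.SpecC

set_option autoImplicit false

/-!
# MP_537232_an, PY/Cmp: compositions and transposition
-/

open Finset Filter Topology
open scoped ENNReal

namespace Pool.Agent.Lib.MP_537232_an.PY

theorem wCmp : S_Cmp := by
  intro q hq _ _ u v Φ Z _ _ hZ T S hTS A A' hA B B' hB x ν
  have h := hA (B x) (((Φ x).comp B').comp S) (fun μ => ?_) ν
  · exact h
  · change Φ x (B' (S (eY v μ))) = _
    rw [hTS (B x) μ, hB]

end Pool.Agent.Lib.MP_537232_an.PY
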