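import Pool.Agent.Lib.MP_537232_an.PY.SpecB

set_option autoImplicit false

/-!
# PY/Cnt: the number of values of an adapted function
-/

open Finset Filter Topology
open scoped ENNReal

namespace Pool.Agent.Lib.MP_537232_an.PY

theorem wCnt : S_Cnt := by
  classical
  intro Λ T Δ _ d m l f hm hf
  rcases isEmpty_or_nonempty Λ with hE | hN
  · have h0 : Set.range f = ∅ := Set.range_eq_empty f
    rw [h0]
    exact ⟨Set.finite_empty, by simp⟩
  let key : Λ → (∀ i : Fin l, Δ i) × Bool := fun a => (fun i => d a i, decide (d a l = 0))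
  have hkey : ∀ a b, key a = key b → f a = f b := by
    intro a b hab
    apply hf
    have h1 : (fun i : Fin l => d a i) = fun i : Fin l => d b i := congrArg Prod.fst hab
    have h2 : decide (d a l = 0) = decide (d b l = 0) := congrArg Prod.snd hab
    refine ⟨fun i hi => ?_, ?_⟩
    · exact congrFun h1 ⟨i, hi⟩
    · exact decide_eq_decide.1 h2
  have hfac : Function.FactorsThrough f key := fun a b hab => hkey a b hab
  let g : (∀ i : Fin l, Δ i) × Bool → T :=
    Function.extend key f (fun _ => f (Classical.arbitrary Λ))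
  have hg : ∀ a, g (key a) = f a := fun a => hfac.extend_apply _ a
  let P : Finset ((∀ i : Fin l, Δ i) × Bool) :=
    (Fintype.piFinset fun i : Fin l => (hm i).1.toFinset) ×ˢ (Finset.univ : Finset Bool)
  have hsub : Set.range f ⊆ g '' (P : Set ((∀ i : Fin l, Δ i) × Bool)) := by
    rintro t ⟨a, rfl⟩
    refine ⟨key a, ?_, hg a⟩
    simp only [P, Finset.coe_product, Set.mem_prod, Finset.mem_coe, Fintype.mem_piFinset,
      Finset.mem_univ, and_true]
    intro i
    simp only [Set.Finite.mem_toFinset, Set.mem_ofPred_eq]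
    exact ⟨a, rfl⟩
  have hPf : (g '' (P : Set ((∀ i : Fin l, Δ i) × Bool))).Finite := (P.finite_toSet).image g
  refine ⟨hPf.subset hsub, ?_⟩
  calc (Set.range f).ncard ≤ (g '' (P : Set ((∀ i : Fin l, Δ i) × Bool))).ncard := Set.ncard_le_ncard hsub hPf
    _ ≤ (P : Set ((∀ i : Fin l, Δ i) × Bool)).ncard := Set.ncard_image_le P.finite_toSet
    _ = P.card := Set.ncard_coe_finset P
    _ = (∏ i : Fin l, ((hm i).1.toFinset).card) * 2 := by
        simp only [P, Finset.card_product, Fintype.card_piFinset, Finset.card_univ,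
          Fintype.card_bool]
    _ ≤ (∏ i : Fin l, m i) * 2 := by
        refine Nat.mul_le_mul_right 2 (Finset.prod_le_prod' fun i _ => ?_)
        rw [← Set.ncard_eq_toFinset_card _ (hm i).1]
        exact (hm i).2
    _ = 2 * ∏ i ∈ range l, m i := by
        rw [Finset.prod_range, mul_comm]

end Pool.Agent.Lib.MP_537232_an.PY
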