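import Pool.Agent.Lib.MP_537232_an.PY.SpecB

set_option autoImplicit false

/-!
# MP_537232_an, PY/Dta: existence of the data
-/

open Finset Filter Topology
open scoped ENNReal

namespace Pool.Agent.Lib.MP_537232_an.PY

open NM (pE qE)

namespace Dta

/-- A block. -/
structure Bl where
  u : ℕ
  v : ℕ
  g : Fin v → EuclideanSpace ℝ (Fin u)

/-- The bound for the number of vectors in the block `n`. -/
noncomputable def Kn (p : ℝ≥0∞) (n : ℕ) (h : ℕ → Bl) : ℝ :=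
  max (max (sPrev p (fun m => (h m).u) n + 1) (19 * ((n : ℝ) + 1) ^ 2))
    (Lf (fun m => (h m).v) n : ℕ)

/-- The conditions for the block `b` number `n`; the previous blocks are given by `h`. -/
structure Cd (p : ℝ≥0∞) (n : ℕ) (h : ℕ → Bl) (b : Bl) : Prop where
  vu : ∀ m, m + 1 = n → (h m).v < b.u
  uv : b.u < b.v
  ul : 19 * (n + 1) ^ 3 * (6 * (n + 1) + 1) ^ (∑ m ∈ range n, (h m).u) ≤ b.u
  vl : 9 * ((n : ℝ) + 1) ^ 3 * sNum p (fun _ => b.u) n ≤ b.v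
  rip : NM.Rip (Kn p n h) b.g

lemma Kn_congr {p : ℝ≥0∞} {n : ℕ} {h h' : ℕ → Bl} (hh : ∀ i < n, h i = h' i) :
    Kn p n h = Kn p n h' := by
  have e1 : sPrev p (fun m => (h m).u) n = sPrev p (fun m => (h' m).u) n := by
    rcases n with _ | n
    · rfl
    · show sNum p (fun m => (h m).u) n = sNum p (fun m => (h' m).u) n
      unfold sNum
      beta_reduce
      rw [hh n (Nat.lt_succ_self n)]
  have e2 : Lf (fun m => (h m).v) n = Lf (fun m => (h' m).v) n := by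
    unfold Lf
    congr 1
    refine prod_congr rfl fun i hi => ?_
    beta_reduce
    rw [hh i (mem_range.1 hi)]
  unfold Kn
  rw [e1, e2]

lemma Cd.congr {p : ℝ≥0∞} {n : ℕ} {h h' : ℕ → Bl} {b : Bl} (H : Cd p n h b)
    (hh : ∀ i < n, h i = h' i) : Cd p n h' b where
  vu := fun m hm => by
    rw [← hh m (by omega)]
    exact H.vu m hm
  uv := H.uv
  ul := by
    have e : ∑ m ∈ range n, (h' m).u = ∑ m ∈ range n, (h m).u :=
      sum_congr rfl fun i hi => by rw [hh i (mem_range.1 hi)]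
    rw [e]
    exact H.ul
  vl := H.vl
  rip := by
    rw [← Kn_congr hh]
    exact H.rip

/-- The sequence of blocks. -/
lemma blocks {p : ℝ≥0∞} (H : ∀ n (h : ℕ → Bl), ∃ b, Cd p n h b) :
    ∃ B : ℕ → Bl, ∀ n, Cd p n B (B n) := by
  classical
  choose b hb using H
  let F : ℕ → ℕ → Bl := fun n => Nat.rec (fun _ => b 0 (fun _ => ⟨0, 0, fun t => t.elim0⟩))
    (fun n f => Function.update f n (b n f)) n
  have hF : ∀ n, F (n + 1) = Function.update (F n) n (b n (F n)) := fun _ => rfl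
  have hi : ∀ n, ∀ i < n, F n i = b i (F i) := by
    intro n
    induction n with
    | zero => exact fun i hi => absurd hi (Nat.not_lt_zero i)
    | succ n ih =>
      intro i hi
      rw [hF]
      rcases Nat.lt_succ_iff_lt_or_eq.1 hi with h | h
      · rw [Function.update_of_ne h.ne]
        exact ih i h
      · subst h
        rw [Function.update_self]
  exact ⟨fun n => b n (F n), fun n => (hb n (F n)).congr (hi n)⟩

/-- A polynomial bound for `sNum`. -/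
lemma sNum_le (p : ℝ≥0∞) (hp1 : 1 < p.toReal) (n : ℕ) : ∃ B : ℕ, ∀ u : ℕ, 1 ≤ u →
    9 * ((n : ℝ) + 1) ^ 3 * sNum p (fun _ => u) n ≤ ((B * u ^ ⌈p.toReal⌉₊ : ℕ) : ℝ) := by
  obtain ⟨B, hB⟩ := exists_nat_ge (9 * ((n : ℝ) + 1) ^ 3 *
    (2 ^ p.toReal * ((n : ℝ) + 1) ^ p.toReal + 2 * ((n : ℝ) + 1) ^ 2))
  refine ⟨B, fun u hu => ?_⟩
  have hu1 : (1 : ℝ) ≤ u := by exact_mod_cast hu
  have hn1 : (1 : ℝ) ≤ (n : ℝ) + 1 := by
    have : (0 : ℝ) ≤ n := Nat.cast_nonneg n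
    linarith
  have h1 : sNum p (fun _ => u) n ≤
      (2 ^ p.toReal * ((n : ℝ) + 1) ^ p.toReal + 2 * ((n : ℝ) + 1) ^ 2) *
        (u : ℝ) ^ ⌈p.toReal⌉₊ := by
    have hc : 1 ≤ ⌈p.toReal⌉₊ := Nat.one_le_ceil_iff.2 (by linarith)
    have hA : (0 : ℝ) ≤ 2 ^ p.toReal * ((n : ℝ) + 1) ^ p.toReal := by positivity
    have hU : (0 : ℝ) ≤ (u : ℝ) ^ ⌈p.toReal⌉₊ := by positivity
    unfold sNum
    split_ifs with h
    · have e1 : (2 * (u : ℝ)) ^ (p.toReal / 2) ≤ 2 ^ p.toReal * (u : ℝ) ^ ⌈p.toReal⌉₊ := by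
        calc (2 * (u : ℝ)) ^ (p.toReal / 2) ≤ (2 * (u : ℝ)) ^ p.toReal :=
              Real.rpow_le_rpow_of_exponent_le (by linarith) (by linarith)
          _ = 2 ^ p.toReal * (u : ℝ) ^ p.toReal :=
              Real.mul_rpow (by norm_num) (by linarith)
          _ ≤ 2 ^ p.toReal * (u : ℝ) ^ (⌈p.toReal⌉₊ : ℝ) :=
              mul_le_mul_of_nonneg_left
                (Real.rpow_le_rpow_of_exponent_le hu1 (Nat.le_ceil _)) (by positivity)
          _ = 2 ^ p.toReal * (u : ℝ) ^ ⌈p.toReal⌉₊ := by rw [Real.rpow_natCast]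
      calc (2 * (u : ℝ)) ^ (p.toReal / 2) * ((n : ℝ) + 1) ^ p.toReal
          ≤ 2 ^ p.toReal * (u : ℝ) ^ ⌈p.toReal⌉₊ * ((n : ℝ) + 1) ^ p.toReal :=
            mul_le_mul_of_nonneg_right e1 (by positivity)
        _ = 2 ^ p.toReal * ((n : ℝ) + 1) ^ p.toReal * (u : ℝ) ^ ⌈p.toReal⌉₊ := by ring
        _ ≤ _ := mul_le_mul_of_nonneg_right (by
            have : (0 : ℝ) ≤ 2 * ((n : ℝ) + 1) ^ 2 := by positivity
            linarith) hU
    · have e2 : (u : ℝ) ≤ (u : ℝ) ^ ⌈p.toReal⌉₊ := le_self_pow₀ hu1 (by omega)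
      calc 2 * (u : ℝ) * ((n : ℝ) + 1) ^ 2 = 2 * ((n : ℝ) + 1) ^ 2 * (u : ℝ) := by ring
        _ ≤ 2 * ((n : ℝ) + 1) ^ 2 * (u : ℝ) ^ ⌈p.toReal⌉₊ :=
            mul_le_mul_of_nonneg_left e2 (by positivity)
        _ ≤ _ := mul_le_mul_of_nonneg_right (by linarith) hU
  calc 9 * ((n : ℝ) + 1) ^ 3 * sNum p (fun _ => u) n
      ≤ 9 * ((n : ℝ) + 1) ^ 3 *
        ((2 ^ p.toReal * ((n : ℝ) + 1) ^ p.toReal + 2 * ((n : ℝ) + 1) ^ 2) *
          (u : ℝ) ^ ⌈p.toReal⌉₊) := mul_le_mul_of_nonneg_left h1 (by positivity)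
    _ = 9 * ((n : ℝ) + 1) ^ 3 *
        (2 ^ p.toReal * ((n : ℝ) + 1) ^ p.toReal + 2 * ((n : ℝ) + 1) ^ 2) *
          (u : ℝ) ^ ⌈p.toReal⌉₊ := by ring
    _ ≤ B * (u : ℝ) ^ ⌈p.toReal⌉₊ := mul_le_mul_of_nonneg_right hB (by positivity)
    _ = ((B * u ^ ⌈p.toReal⌉₊ : ℕ) : ℝ) := by push_cast; ring

/-- The choice of one block. -/
lemma step (h1 : S_Bls) {p : ℝ≥0∞} (hp1 : 1 < p.toReal) (n : ℕ) (h : ℕ → Bl) :
    ∃ b, Cd p n h b := by
  obtain ⟨B, hB⟩ := sNum_le p hp1 n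
  obtain ⟨s, hs⟩ := exists_nat_ge (Kn p n h)
  obtain ⟨u, v, g, hA, huv, hv, hr⟩ := h1 s ⌈p.toReal⌉₊
    (max (max 1 ((h (n - 1)).v + 1))
      (19 * (n + 1) ^ 3 * (6 * (n + 1) + 1) ^ (∑ m ∈ range n, (h m).u))) B
    (Nat.one_le_ceil_iff.2 (by linarith))
  have hA1 : 1 ≤ u := (le_max_left _ _).trans ((le_max_left _ _).trans hA)
  have hA2 : (h (n - 1)).v + 1 ≤ u := (le_max_right _ _).trans ((le_max_left _ _).trans hA)
  refine ⟨⟨u, v, g⟩, fun m hm => ?_, huv, (le_max_right _ _).trans hA, ?_, hr.1,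
    fun J hJ => hr.2 J (hJ.trans hs)⟩
  · have : n - 1 = m := by omega
    rw [this] at hA2
    exact hA2
  · refine (hB u hA1).trans ?_
    exact_mod_cast hv

end Dta

open Dta in
theorem wDta (h1 : S_Bls) : S_Dta := by
  intro q hq
  have hp0 : 1 < q / (q - 1) := by
    rw [lt_div_iff₀ (by linarith)]
    linarith
  have hpt : (pE q).toReal = q / (q - 1) := ENNReal.toReal_ofReal (by linarith)
  obtain ⟨B, hB⟩ := blocks (step h1 (p := pE q) (by rw [hpt]; exact hp0))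
  have hK : ∀ n (J : Finset (Fin (B n).v)), (J.card : ℝ) ≤
      max (sPrev (pE q) (fun m => (B m).u) n + 1) (19 * ((n : ℝ) + 1) ^ 2) →
      (J.card : ℝ) ≤ Kn (pE q) n B := fun n J hJ => hJ.trans (le_max_left _ _)
  exact ⟨{ u := fun n => (B n).u
           v := fun n => (B n).v
           g := fun n => (B n).g
           u_lt_v := fun n => (hB n).uv
           v_lt_u := fun n => (hB (n + 1)).vu n rfl
           u_large := fun n => (hB n).ul
           v_large := fun n => (hB n).vl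
           norm_g := fun n => (hB n).rip.1
           lower := fun n J hJ => ((hB n).rip.2 J (hK n J hJ)).1
           upper := fun n J hJ => ((hB n).rip.2 J (hK n J hJ)).2.1
           bessel := fun n J hJ => ((hB n).rip.2 J (hK n J hJ)).2.2 },
    fun n J hJ => ((hB n).rip.2 J ((Nat.cast_le.2 hJ).trans (le_max_right _ _))).2.1⟩

end Pool.Agent.Lib.MP_537232_an.PY
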