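import Pool.Agent.Lib.MP_537232_an.PY.SpecC

set_option autoImplicit false

/-! # MP_537232_an, directory PY, statement `Dub` (seat helper25): the functionals on the `ℓ_p`-sum -/

open Finset Filter Topology
open scoped ENNReal

namespace Pool.Agent.Lib.MP_537232_an.PY.Dub

open NM (pE qE)

/-- the extremal vector in one block -/
private lemma block {H : Type} [NormedAddCommGroup H] [InnerProductSpace ℝ H] {r r' : ℝ}
    (h : r.HolderConjugate r') (z : H) :
    inner ℝ (‖z‖ ^ (r' - 2) • z) z = ‖z‖ ^ r' ∧ ‖‖z‖ ^ (r' - 2) • z‖ ^ r = ‖z‖ ^ r' := by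
  have hr : 0 < r := h.pos
  have hr' : 0 < r' := h.symm.pos
  rcases eq_or_ne z 0 with rfl | hz
  · constructor
    · rw [smul_zero, inner_zero_left, norm_zero, Real.zero_rpow hr'.ne']
    · rw [smul_zero, norm_zero, Real.zero_rpow hr'.ne', Real.zero_rpow hr.ne']
  · have hz0 : 0 < ‖z‖ := norm_pos_iff.2 hz
    constructor
    · rw [real_inner_smul_left, real_inner_self_eq_norm_sq, ← Real.rpow_natCast ‖z‖ 2,
        ← Real.rpow_add hz0]
      norm_num
    · rw [norm_smul, Real.norm_eq_abs, abs_of_nonneg (Real.rpow_nonneg hz0.le _)]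
      have h1 : ‖z‖ ^ (r' - 2) * ‖z‖ = ‖z‖ ^ (r' - 1) := by
        calc ‖z‖ ^ (r' - 2) * ‖z‖ = ‖z‖ ^ (r' - 2) * ‖z‖ ^ (1 : ℝ) := by rw [Real.rpow_one]
          _ = ‖z‖ ^ (r' - 1) := by
            rw [← Real.rpow_add hz0]
            ring_nf
      rw [h1, ← Real.rpow_mul hz0.le]
      have h2 : (r' - 1) * r = r' := by
        have h3 := h.symm.sub_one_mul_conj
        linarith
      rw [h2]

/-- the representing sequence of a functional on an `ℓ_r`-sum -/
private lemma repr (u : ℕ → ℕ) (p p' : ℝ≥0∞) [Fact (1 ≤ p)] (h : p.toReal.HolderConjugate p'.toReal)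
    (f : lp (E u) p →L[ℝ] ℝ) : ∃ z : lp (E u) p', ‖z‖ ≤ ‖f‖ ∧
      ∀ n (a : E u n), f (lp.single p n a) = inner ℝ a (z n) := by
  classical
  have hr : 0 < p.toReal := h.pos
  have hr' : 0 < p'.toReal := h.symm.pos
  obtain ⟨z, hz⟩ : ∃ z : ∀ n, E u n, ∀ n (a : E u n), f (lp.single p n a) = inner ℝ a (z n) := by
    refine ⟨fun n => (InnerProductSpace.toDual ℝ (E u n)).symm
      (f.comp (lp.singleContinuousLinearMap ℝ (E u) p n)), fun n a => ?_⟩
    rw [real_inner_comm, InnerProductSpace.toDual_symm_apply, ContinuousLinearMap.comp_apply,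
      lp.singleContinuousLinearMap_apply]
  have key : ∀ s : Finset ℕ, ∑ n ∈ s, ‖z n‖ ^ p'.toReal ≤ ‖f‖ ^ p'.toReal := by
    intro s
    obtain ⟨S, hS⟩ : ∃ S, S = ∑ n ∈ s, ‖z n‖ ^ p'.toReal := ⟨_, rfl⟩
    have hS0 : 0 ≤ S := by
      rw [hS]
      exact Finset.sum_nonneg fun n _ => Real.rpow_nonneg (norm_nonneg _) _
    rw [← hS]
    have h1 : f (∑ n ∈ s, lp.single p n (‖z n‖ ^ (p'.toReal - 2) • z n)) = S := by
      rw [map_sum, hS]
      refine Finset.sum_congr rfl fun n _ => ?_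
      rw [hz]
      exact (block h (z n)).1
    have h2 : ‖∑ n ∈ s, lp.single p n (‖z n‖ ^ (p'.toReal - 2) • z n)‖ ^ p.toReal = S := by
      rw [lp.norm_sum_single hr (fun n => ‖z n‖ ^ (p'.toReal - 2) • z n) s, hS]
      exact Finset.sum_congr rfl fun n _ => (block h (z n)).2
    obtain ⟨x, hx⟩ : ∃ x, x = ∑ n ∈ s, lp.single p n (‖z n‖ ^ (p'.toReal - 2) • z n) := ⟨_, rfl⟩
    rw [← hx] at h1 h2
    have h3 : ‖x‖ = S ^ (1 / p.toReal) := by
      rw [← h2, ← Real.rpow_mul (norm_nonneg x), mul_one_div_cancel hr.ne', Real.rpow_one]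
    have h4 : S ≤ ‖f‖ * S ^ (1 / p.toReal) := by
      rw [← h3]
      calc S = f x := h1.symm
        _ ≤ ‖f x‖ := le_abs_self _
        _ ≤ ‖f‖ * ‖x‖ := f.le_opNorm x
    rcases hS0.eq_or_lt with h0 | h0
    · rw [← h0]
      exact Real.rpow_nonneg (norm_nonneg f) _
    · have h5 : S ^ (1 / p'.toReal) ≤ ‖f‖ := by
        have h6 : S = S ^ (1 / p'.toReal) * S ^ (1 / p.toReal) := by
          rw [← Real.rpow_add h0]
          have h7 : 1 / p'.toReal + 1 / p.toReal = 1 := by
            have h8 := h.inv_add_inv_eq_one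
            rw [one_div, one_div]
            linarith
          rw [h7, Real.rpow_one]
        have h9 : 0 < S ^ (1 / p.toReal) := Real.rpow_pos_of_pos h0 _
        have h10 : S ^ (1 / p'.toReal) * S ^ (1 / p.toReal) ≤ ‖f‖ * S ^ (1 / p.toReal) := by
          rw [← h6]
          exact h4
        exact le_of_mul_le_mul_right h10 h9
      have h11 : S = (S ^ (1 / p'.toReal)) ^ p'.toReal := by
        rw [← Real.rpow_mul h0.le, one_div_mul_cancel hr'.ne', Real.rpow_one]
      rw [h11]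
      exact Real.rpow_le_rpow (Real.rpow_nonneg h0.le _) h5 hr'.le
  have hmem : Memℓp z p' := memℓp_gen' key
  exact ⟨⟨z, hmem⟩, lp.norm_le_of_forall_sum_le hr' (norm_nonneg f) key, hz⟩

/-- two functionals which agree on the singles -/
private lemma ext_single (u : ℕ → ℕ) (p : ℝ≥0∞) [Fact (1 ≤ p)] (hp : p ≠ ⊤)
    (f g : lp (E u) p →L[ℝ] ℝ) (h : ∀ n (a : E u n), f (lp.single p n a) = g (lp.single p n a)) :
    f = g := by
  ext x
  have hx := lp.hasSum_single hp x
  have h1 : HasSum (fun n => f (lp.single p n (x n))) (f x) := hx.mapL f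
  have h2 : HasSum (fun n => g (lp.single p n (x n))) (g x) := hx.mapL g
  have h3 : (fun n => f (lp.single p n (x n))) = fun n => g (lp.single p n (x n)) :=
    funext fun n => h n (x n)
  rw [h3] at h1
  exact h1.unique h2

end Pool.Agent.Lib.MP_537232_an.PY.Dub

namespace Pool.Agent.Lib.MP_537232_an.PY

open NM (pE qE)

/-- All functionals are given by the pairing. -/
theorem wDub : S_Dub := by
  intro q hq _ _ u Φ hΦ
  have hq0 : 0 < q := by linarith
  have hq1 : 0 < q - 1 := by linarith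
  have hqr : (qE q).toReal = q := ENNReal.toReal_ofReal hq0.le
  have hpr : (pE q).toReal = q / (q - 1) := ENNReal.toReal_ofReal (div_nonneg hq0.le hq1.le)
  have hc : (pE q).toReal.HolderConjugate (qE q).toReal := by
    rw [hqr, hpr]
    exact (Real.HolderConjugate.conjExponent hq).symm
  have hpt : pE q ≠ ⊤ := ENNReal.ofReal_ne_top
  have hqt : qE q ≠ ⊤ := ENNReal.ofReal_ne_top
  refine ⟨fun f => ?_, fun f => ?_, fun z z' h => ?_, fun x x' h => ?_⟩
  · obtain ⟨z, hz1, hz2⟩ := Dub.repr u (pE q) (qE q) hc f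
    refine ⟨z, hz1, fun x => ?_⟩
    have h1 : f = Φ.flip z := by
      refine Dub.ext_single u (pE q) hpt f (Φ.flip z) fun n a => ?_
      rw [hz2, ContinuousLinearMap.flip_apply, hΦ.sl]
    rw [h1, ContinuousLinearMap.flip_apply]
  · obtain ⟨x, hx1, hx2⟩ := Dub.repr u (qE q) (pE q) hc.symm f
    refine ⟨x, hx1, fun z => ?_⟩
    have h1 : f = Φ x := by
      refine Dub.ext_single u (qE q) hqt f (Φ x) fun n b => ?_
      rw [hx2, hΦ.sr, real_inner_comm]
    rw [h1]
  · ext1
    funext n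
    have h1 : inner ℝ (z n - z' n) (z n - z' n) = (0 : ℝ) := by
      have h2 := h (lp.single (pE q) n (z n - z' n))
      rw [hΦ.sl, hΦ.sl] at h2
      rw [inner_sub_right, h2, sub_self]
    exact sub_eq_zero.1 (inner_self_eq_zero.1 h1)
  · ext1
    funext n
    have h1 : inner ℝ (x n - x' n) (x n - x' n) = (0 : ℝ) := by
      have h2 := h (lp.single (qE q) n (x n - x' n))
      rw [hΦ.sr, hΦ.sr] at h2
      rw [inner_sub_left, h2, sub_self]
    exact sub_eq_zero.1 (inner_self_eq_zero.1 h1)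

end Pool.Agent.Lib.MP_537232_an.PY
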