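import Pool.Agent.Lib.MP_537232_an.PY.SpecB

set_option autoImplicit false

/-!
# MP_537232_an, PY/Few: operators on `Y` with few values at every level
-/

open Finset Filter Topology
open scoped ENNReal

namespace Pool.Agent.Lib.MP_537232_an.PY

open NM (pE qE)

namespace Few

variable {v : ℕ → ℕ} {X : Type} [NormedAddCommGroup X] [NormedSpace ℝ X]

private lemma single_eq (n : ℕ) (y : PiLp 1 (fun _ : Fin (v n) => ℝ)) :
    (lp.single 1 n y : YSp v) = ∑ j, y j • eY v ⟨n, j⟩ := by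
  refine lp.ext (funext fun m => ?_)
  rw [lp.coeFn_sum, Finset.sum_apply]
  by_cases hm : m = n
  · subst hm
    rw [lp.single_apply_self]
    ext i
    have h2 : ∀ j, ((y j • eY v ⟨m, j⟩ : YSp v) : ∀ n, PiLp 1 (fun _ : Fin (v n) => ℝ)) m =
        y j • PiLp.single 1 j (1 : ℝ) := by
      intro j
      rw [lp.coeFn_smul, Pi.smul_apply]
      unfold eY
      rw [lp.single_apply_self]
    simp only [h2]
    rw [WithLp.ofLp_sum, Finset.sum_apply, Finset.sum_eq_single i]
    · simp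
    · intro j _ hj
      simp [Ne.symm hj]
    · intro h
      exact absurd (Finset.mem_univ _) h
  · rw [lp.single_apply_ne _ _ _ hm]
    symm
    refine Finset.sum_eq_zero fun j _ => ?_
    rw [lp.coeFn_smul, Pi.smul_apply]
    unfold eY
    rw [lp.single_apply_ne _ _ _ hm, smul_zero]

/-- an operator which vanishes on the unit vectors of the support of `y` vanishes at `y` -/
private lemma kill (D : YSp v →L[ℝ] X) (y : YSp v)
    (h : ∀ l i, y l i = 0 ∨ D (eY v ⟨l, i⟩) = 0) : D y = 0 := by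
  have h1 : HasSum (fun l => (lp.single 1 l (y l) : YSp v)) y :=
    lp.hasSum_single ENNReal.one_ne_top y
  have h2 : HasSum (fun l => D (lp.single 1 l (y l) : YSp v)) (D y) := D.hasSum h1
  have h3 : (fun l => D (lp.single 1 l (y l) : YSp v)) = fun _ => 0 := by
    funext l
    rw [single_eq, map_sum]
    refine Finset.sum_eq_zero fun i _ => ?_
    rw [map_smul]
    rcases h l i with h | h
    · rw [h, zero_smul]
    · rw [h, smul_zero]
  rw [h3] at h2
  exact h2.unique hasSum_zero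

/-- `‖y‖ = ∑ ‖y l‖` -/
private lemma hasSum_Y (y : YSp v) : HasSum (fun l => ‖y l‖) ‖y‖ := by
  have h := lp.hasSum_norm (p := 1) (by norm_num) y
  simpa using h

/-- change of the blocks -/
private lemma mapY (m : ∀ l, PiLp 1 (fun _ : Fin (v l) => ℝ) → PiLp 1 (fun _ : Fin (v l) => ℝ))
    (hm : ∀ l z, ‖m l z‖ ≤ ‖z‖) (y : YSp v) : ∃ y' : YSp v, ‖y'‖ ≤ ‖y‖ ∧ ∀ l, y' l = m l (y l) := by
  have h1 : Memℓp (fun l => m l (y l)) 1 := by
    refine memℓp_gen ?_
    have h2 := (hasSum_Y y).summable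
    simp only [ENNReal.toReal_one, Real.rpow_one]
    exact Summable.of_nonneg_of_le (fun l => norm_nonneg _) (fun l => hm l (y l)) h2
  refine ⟨⟨fun l => m l (y l), h1⟩, ?_, fun l => rfl⟩
  exact hasSum_le (fun l => hm l (y l)) (hasSum_Y ⟨fun l => m l (y l), h1⟩) (hasSum_Y y)

/-- the norm of `x` is at most the sum of the norms of the blocks -/
private lemma norm_le_sum {q : ℝ} [Fact (1 ≤ qE q)] {u : ℕ → ℕ} (x : XSp u q) (g : ℕ → ℝ) (b : ℝ)
    (hg : HasSum g b) (h : ∀ l, ‖x l‖ ≤ g l) : ‖x‖ ≤ b := by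
  have hpos : (0 : ℝ≥0∞) < qE q := lt_of_lt_of_le zero_lt_one Fact.out
  have h1 : HasSum (fun l => (lp.single (qE q) l (x l) : XSp u q)) x :=
    lp.hasSum_single ENNReal.ofReal_ne_top x
  refine h1.norm_le_of_bounded hg fun l => ?_
  rw [lp.norm_single hpos]
  exact h l

/-- Maurey's lemma in the blocks -/
private lemma maurey (h3 : S_Mau) {p : ℝ≥0∞} (P : Params p) (K : ℕ) (hK : 0 < K) (l : ℕ)
    (z : PiLp 1 (fun _ : Fin (P.v l) => ℝ)) : ∃ c : PiLp 1 (fun _ : Fin (P.v l) => ℝ),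
      {i | c i ≠ 0}.ncard ≤ K ∧ ‖c‖ ≤ ‖z‖ ∧
      ‖∑ i, (z i - c i) • P.g l i‖ ≤ ‖z‖ / Real.sqrt K := by
  obtain ⟨c, hc1, hc2, hc3⟩ := h3 (E P.u l) (P.v l) K (P.g l) (fun i => z i) hK
    (fun i => (P.norm_g l i).le)
  have hz : ‖z‖ = ∑ i, |z i| := by
    rw [PiLp.norm_eq_of_L1]
    rfl
  refine ⟨WithLp.toLp 1 c, hc1, ?_, ?_⟩
  · rw [PiLp.norm_eq_of_L1, hz]
    exact hc2
  · have hK' : (0 : ℝ) < K := by exact_mod_cast hK
    refine le_of_sq_le_sq ?_ (by positivity)
    rw [div_pow, Real.sq_sqrt hK'.le, hz]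
    exact hc3

end Few

open Few in
theorem wFew (h1 : S_Cea) (h2 : S_Plc) (h3 : S_Mau) (h4 : S_Sco) : S_Few := by
  classical
  intro q hq _ P hF S I hS hI L B N hN hNK
  refine (isClosedIdeal_idealGen I).mem_of_approx fun ε hε => ?_
  -- the number `K`
  set K : ℕ := ⌈(‖B‖ / ε) ^ 2⌉₊ + 1 with hKdef
  have hK : 0 < K := Nat.succ_pos _
  have hKr : (0 : ℝ) < Real.sqrt K := Real.sqrt_pos.2 (by exact_mod_cast hK)
  have hKε : ‖B‖ / Real.sqrt K ≤ ε := by
    rw [div_le_iff₀ hKr, mul_comm, ← div_le_iff₀ hε]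
    refine Real.le_sqrt_of_sq_le ?_
    have h := Nat.le_ceil ((‖B‖ / ε) ^ 2)
    rw [hKdef]
    push_cast
    linarith
  choose m hm1 hm2 hm3 using fun l => maurey h3 P K hK l
  choose M hM1 hM2 using fun y => mapY m hm2 y
  obtain ⟨B', _, hB'⟩ := Y_lift (v := P.v) (X := YSp P.v) (fun ν => M (B (eY P.v ν)))
    (norm_nonneg B) (fun ν => (hM1 _).trans (by
      have h := B.le_opNorm (eY P.v ν)
      rwa [norm_eY, mul_one] at h))
  refine ⟨(S L).comp B', ?_, ?_⟩
  · -- the operator `S_L B'` is in the ideal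
    obtain ⟨l₀, hl₀⟩ := hNK K
    set J : ∀ l, Finset (Fin (P.v l)) := fun l =>
      Finset.univ.filter fun i => l ∈ L ∧ l₀ ≤ l ∧ ∃ ν, m l (B (eY P.v ν) l) i ≠ 0 with hJ
    have hJcard : ∀ l, (J l).card ≤ Lf P.v l := by
      intro l
      by_cases hl : l ∈ L ∧ l₀ ≤ l
      · refine le_trans ?_ (hl₀ l hl.2)
        have hfin := (hN l).1
        have hsub : J l ⊆ hfin.toFinset.biUnion fun z => Finset.univ.filter fun i => m l z i ≠ 0 := by
          intro i hi
          obtain ⟨_, _, ν, hν⟩ := (Finset.mem_filter.1 hi).2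
          rw [Finset.mem_biUnion]
          exact ⟨B (eY P.v ν) l, hfin.mem_toFinset.2 ⟨ν, rfl⟩,
            Finset.mem_filter.2 ⟨Finset.mem_univ _, hν⟩⟩
        refine (Finset.card_le_card hsub).trans ?_
        refine (Finset.card_biUnion_le_card_mul _ _ K fun z _ => ?_).trans ?_
        · have h := hm1 l z
          rwa [Set.ncard_eq_toFinset_card', Set.toFinset_setOf] at h
        · rw [mul_comm]
          refine Nat.mul_le_mul_left K ?_
          rw [← Set.ncard_eq_toFinset_card _ hfin]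
          exact (hN l).2
      · have h0 : J l = ∅ := by
          rw [hJ]
          refine Finset.filter_eq_empty_iff.2 fun i _ h => hl ⟨h.1, h.2.1⟩
        rw [h0, Finset.card_empty]
        exact Nat.zero_le _
    obtain ⟨R, _, hR⟩ := Y_lift (v := P.v) (X := XSp P.u q)
      (fun ν => if ν.2 ∈ J ν.1 then lp.single (qE q) ν.1 (P.g ν.1 ν.2) else 0) zero_le_one
      (fun ν => by
        split_ifs
        · rw [lp.norm_single (lt_of_lt_of_le zero_lt_one Fact.out), P.norm_g]
        · rw [norm_zero]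
          exact zero_le_one)
    have hRI : R ∈ idealGen I := h2 q hq P I hI J (fun n a => hF n (J n) (hJcard n) a) R
      (fun ν => by rw [hR ν])
    have hSI : S (L ∩ Set.Iio l₀) ∈ idealGen I :=
      (h1 q hq P S I hS hI).2.2.1 _ ((Set.finite_Iio l₀).subset Set.inter_subset_right)
    have heq : (S L).comp B' = R.comp B' + (S (L ∩ Set.Iio l₀)).comp B' := by
      refine Y_ext fun ν => ?_
      change S L (B' (eY P.v ν)) = R (B' (eY P.v ν)) + S (L ∩ Set.Iio l₀) (B' (eY P.v ν))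
      rw [← sub_eq_zero, hB']
      have h5 := kill (S L - (R + S (L ∩ Set.Iio l₀))) (M (B (eY P.v ν))) fun l i => ?_
      · exact h5
      · rw [hM2]
        by_cases hz : m l (B (eY P.v ν) l) i = 0
        · exact Or.inl hz
        · right
          change S L (eY P.v ⟨l, i⟩) - (R (eY P.v ⟨l, i⟩) +
            S (L ∩ Set.Iio l₀) (eY P.v ⟨l, i⟩)) = 0
          rw [hS, hR, hS]
          simp only
          by_cases hl : l ∈ L
          · by_cases hl0 : l₀ ≤ l
            · have hiJ : i ∈ J l := Finset.mem_filter.2 ⟨Finset.mem_univ _, hl, hl0, ν, hz⟩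
              have hnot : ¬ l ∈ L ∩ Set.Iio l₀ := fun h => absurd hl0 (not_le.2 h.2)
              rw [if_pos hl, if_pos hiJ, if_neg hnot, add_zero, sub_self]
            · have hiJ : ¬ i ∈ J l := fun h => hl0 (Finset.mem_filter.1 h).2.2.1
              have hin : l ∈ L ∩ Set.Iio l₀ := ⟨hl, not_le.1 hl0⟩
              rw [if_pos hl, if_neg hiJ, if_pos hin, zero_add, sub_self]
          · have hiJ : ¬ i ∈ J l := fun h => hl (Finset.mem_filter.1 h).2.1
            have hnot : ¬ l ∈ L ∩ Set.Iio l₀ := fun h => hl h.1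
            rw [if_neg hl, if_neg hiJ, if_neg hnot, add_zero, sub_self]
    rw [heq]
    exact Submodule.add_mem _ ((isClosedIdeal_idealGen I).right _ hRI)
      ((isClosedIdeal_idealGen I).right _ hSI)
  · -- the distance
    refine Y_norm_le _ hε.le fun ν => ?_
    change ‖S L (B (eY P.v ν)) - S L (B' (eY P.v ν))‖ ≤ ε
    rw [hB', ← map_sub]
    set y := B (eY P.v ν) with hy
    have hyB : ‖y‖ ≤ ‖B‖ := by
      have h := B.le_opNorm (eY P.v ν)
      rwa [norm_eY, mul_one] at h
    refine le_trans ?_ hKε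
    refine le_trans ?_ (div_le_div_of_nonneg_right hyB hKr.le)
    refine norm_le_sum _ (fun l => ‖y l‖ / Real.sqrt K) _ ((hasSum_Y y).div_const _) fun l => ?_
    have h5 := ((h4 q hq P).2.2.1 L (S L) (hS L)).2 (y - M y) l
    by_cases hl : l ∈ L
    · rw [h5.1 hl]
      have h6 : ∀ j, (y - M y) l j = y l j - m l (y l) j := by
        intro j
        rw [lp.coeFn_sub, Pi.sub_apply, hM2]
        rfl
      simp only [h6]
      exact hm3 l (y l)
    · rw [h5.2 hl, norm_zero]
      positivity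

end Pool.Agent.Lib.MP_537232_an.PY
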