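import Pool.Agent.Lib.MP_537232_an.PY.SpecA

set_option autoImplicit false

/-!
# Fnk: adapted kernels, uniform estimate
-/

open Finset Filter Topology
open scoped ENNReal

namespace Pool.Agent.Lib.MP_537232_an.PY

open NM (pE qE)

namespace Fnk

variable {F X : Type} [Fintype F] [NormedAddCommGroup X] [NormedSpace ℝ X]

/-- the affine map -/
noncomputable def g (n : ℕ) (z : F → X) (x : ℕ → F → X) (j : F → X) (a : F)
    (p : (F → ℕ → F → ℝ) × (F → F → ℝ)) : X :=
  z a - ∑ l ∈ range n, ∑ b, p.1 a l b • x l b - ∑ b, p.2 a b • j b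

theorem g_conv (n : ℕ) (z : F → X) (x : ℕ → F → X) (j : F → X) (a : F)
    (p p' : (F → ℕ → F → ℝ) × (F → F → ℝ)) (s t : ℝ) (hst : s + t = 1) :
    g n z x j a (s • p + t • p') = s • g n z x j a p + t • g n z x j a p' := by
  have h1 : ∑ l ∈ range n, ∑ b, (s • p + t • p').1 a l b • x l b =
      s • ∑ l ∈ range n, ∑ b, p.1 a l b • x l b + t • ∑ l ∈ range n, ∑ b, p'.1 a l b • x l b := by
    rw [smul_sum, smul_sum, ← sum_add_distrib]
    refine sum_congr rfl fun l _ => ?_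
    rw [smul_sum, smul_sum, ← sum_add_distrib]
    refine sum_congr rfl fun b _ => ?_
    have : (s • p + t • p').1 a l b = s * p.1 a l b + t * p'.1 a l b := rfl
    rw [this, add_smul, mul_smul, mul_smul]
  have h2 : ∑ b, (s • p + t • p').2 a b • j b =
      s • ∑ b, p.2 a b • j b + t • ∑ b, p'.2 a b • j b := by
    rw [smul_sum, smul_sum, ← sum_add_distrib]
    refine sum_congr rfl fun b _ => ?_
    have : (s • p + t • p').2 a b = s * p.2 a b + t * p'.2 a b := rfl
    rw [this, add_smul, mul_smul, mul_smul]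
  have h3 : z a = s • z a + t • z a := by rw [← add_smul, hst, one_smul]
  unfold g
  rw [h1, h2]
  conv_lhs => rw [h3]
  simp only [smul_sub]
  abel

theorem f_conv {q : ℝ} (hq : 1 ≤ q) {K : Set ((F → ℕ → F → ℝ) × (F → F → ℝ))} (hK : Convex ℝ K)
    (n : ℕ) (z : F → X) (x : ℕ → F → X) (j : F → X) (a : F) :
    ConvexOn ℝ K fun p => ‖g n z x j a p‖ ^ q := by
  refine ⟨hK, fun p _ p' _ s t hs ht hst => ?_⟩
  change ‖g n z x j a (s • p + t • p')‖ ^ q ≤ s • ‖g n z x j a p‖ ^ q + t • ‖g n z x j a p'‖ ^ q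
  rw [g_conv n z x j a p p' s t hst]
  have h1 : ‖s • g n z x j a p + t • g n z x j a p'‖ ≤
      s • ‖g n z x j a p‖ + t • ‖g n z x j a p'‖ := by
    refine (norm_add_le _ _).trans ?_
    rw [norm_smul, norm_smul, Real.norm_of_nonneg hs, Real.norm_of_nonneg ht, smul_eq_mul,
      smul_eq_mul]
  refine (Real.rpow_le_rpow (norm_nonneg _) h1 (by linarith)).trans ?_
  exact (convexOn_rpow hq).2 (norm_nonneg _) (norm_nonneg _) hs ht hst

end Fnk

open Classical in
theorem wFnk (h1 : S_Act) (h2 : S_Mmx) (h3 : S_Kcv) : S_Fnk := by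
  intro X _ _ q C hq hC hUM F _ _ Δ _ d n K hd ty x j hx ε hε hle η hη
  have hq0 : 0 < q := by linarith
  set z : F → X := fun a => ∑ l ∈ range n, (if ty l then x l a else 0) with hz
  have hconv := h3 F Δ d n K
  have key := h2 ((F → ℕ → F → ℝ) × (F → F → ℝ)) {p | KC d n K p.1 p.2} hconv F
    (fun a p => ‖Fnk.g n z x j a p‖ ^ q)
    (fun a => Fnk.f_conv hq hconv n z x j a) (fun a p => Real.rpow_nonneg (norm_nonneg _) _)
    (C * ε ^ q) ?_ (η ^ q) (Real.rpow_pos_of_pos hη _)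
  · obtain ⟨p, hp, hpa⟩ := key
    refine ⟨p.1, p.2, hp, fun a => ?_⟩
    have h4 : ‖Fnk.g n z x j a p‖ ^ q ≤ C * ε ^ q + η ^ q := hpa a
    have h5 : 0 ≤ C ^ (1 / q) * ε := mul_nonneg (Real.rpow_nonneg hC _) hε
    have h6 : (C ^ (1 / q) * ε) ^ q = C * ε ^ q := by
      rw [Real.mul_rpow (Real.rpow_nonneg hC _) hε, ← Real.rpow_mul hC, one_div,
        inv_mul_cancel₀ hq0.ne', Real.rpow_one]
    have h7 : C * ε ^ q + η ^ q ≤ (C ^ (1 / q) * ε + η) ^ q := by
      rw [← h6]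
      exact Real.add_rpow_le_rpow_add h5 hη.le hq
    exact (Real.rpow_le_rpow_iff (norm_nonneg _) (by linarith) hq0).1 (h4.trans h7)
  · intro w hw hw1
    obtain ⟨κ, θ, hK, hle'⟩ := h1 X q C hUM F Δ d n K hd ty w hw x j hx
    refine ⟨(κ, θ), hK, ?_⟩
    refine le_trans hle' ?_
    refine mul_le_mul_of_nonneg_left ?_ hC
    calc _ ≤ ∑ a, w a * ε ^ q := sum_le_sum fun a _ =>
          mul_le_mul_of_nonneg_left (Real.rpow_le_rpow (norm_nonneg _) (hle a) hq0.le) (hw a).le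
      _ = ε ^ q := by rw [← sum_mul, hw1, one_mul]

end Pool.Agent.Lib.MP_537232_an.PY
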