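import Pool.Agent.Lib.MP_537232_an.PY.SpecB

set_option autoImplicit false

/-!
# MP_537232_an, PY: the number of grid points
-/

open Finset

namespace Pool.Agent.Lib.MP_537232_an.PY

private theorem Gdc_sub (t n : ℕ) : Gd t n ⊆
    ((fun F : Fin n → ℤ => (WithLp.toLp 1 fun i => (F i : ℝ) / ((t : ℝ) * n) :
      PiLp 1 (fun _ : Fin n => ℝ))) '' (Fintype.piFinset fun _ : Fin n =>
        Finset.Icc (-((t ^ 2 * n : ℕ) : ℤ)) ((t ^ 2 * n : ℕ) : ℤ) : Finset (Fin n → ℤ))) := by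
  intro f hf
  choose k hk1 hk2 using hf
  refine ⟨k, ?_, ?_⟩
  · simp only [Finset.mem_coe, Fintype.mem_piFinset, Finset.mem_Icc]
    intro i
    exact abs_le.1 (hk1 i)
  · ext i
    exact (hk2 i).symm

theorem wGdc : S_Gdc := by
  intro t n
  have hfin : ((fun F : Fin n → ℤ => (WithLp.toLp 1 fun i => (F i : ℝ) / ((t : ℝ) * n) :
      PiLp 1 (fun _ : Fin n => ℝ))) '' (Fintype.piFinset fun _ : Fin n =>
        Finset.Icc (-((t ^ 2 * n : ℕ) : ℤ)) ((t ^ 2 * n : ℕ) : ℤ) : Finset (Fin n → ℤ))).Finite :=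
    (Finset.finite_toSet _).image _
  refine ⟨hfin.subset (Gdc_sub t n), ?_⟩
  refine (Set.ncard_le_ncard (Gdc_sub t n) hfin).trans ?_
  refine (Set.ncard_image_le (Finset.finite_toSet _)).trans ?_
  rw [Set.ncard_coe_finset, Fintype.card_piFinset]
  simp only [Int.card_Icc, Finset.prod_const, Finset.card_univ, Fintype.card_fin]
  apply le_of_eq
  congr 1
  omega

end Pool.Agent.Lib.MP_537232_an.PY
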