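import Pool.Agent.Lib.MP_537232_an.PY.SpecA

set_option autoImplicit false

/-!
# MP_537232_an, directory PY, file Idn: the identity for the kernels
-/

open Finset Filter Topology
open scoped ENNReal

namespace Pool.Agent.Lib.MP_537232_an.PY

namespace Idn

section a

variable {F : Type} {Δ : ℕ → Type}

theorem rb_eqv (d : F → ∀ l, Δ l) (l : ℕ) : Equivalence (rb d l) :=
  ⟨fun _ _ _ => rfl, fun h i hi => (h i hi).symm, fun h g i hi => (h i hi).trans (g i hi)⟩

theorem rm_eqv [∀ l, Zero (Δ l)] (d : F → ∀ l, Δ l) (l : ℕ) : Equivalence (rm d l) :=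
  ⟨fun _ => ⟨fun _ _ => rfl, Iff.rfl⟩, fun h => ⟨fun i hi => (h.1 i hi).symm, h.2.symm⟩,
   fun h g => ⟨fun i hi => (h.1 i hi).trans (g.1 i hi), h.2.trans g.2⟩⟩

variable [Fintype F] [∀ l, Zero (Δ l)] {X : Type} [NormedAddCommGroup X] [NormedSpace ℝ X]

open Classical in
theorem tht_sum (w : F → ℝ) (d : F → ∀ l, Δ l) (ty : ℕ → Prop) (n : ℕ) (a : F) (g : F → X) :
    ∑ b, tht w d ty n a b • g b =
      ∑ i ∈ range n, (if ty i then ce w (rb d (i + 1)) g a - ce w (rm d i) g a else 0) := by
  unfold tht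
  simp_rw [Finset.sum_smul]
  rw [Finset.sum_comm]
  refine Finset.sum_congr rfl fun i _ => ?_
  split_ifs with h
  · simp only [sub_smul, Finset.sum_sub_distrib, ce]
  · simp

open Classical in
theorem kap_sum (w : F → ℝ) (d : F → ∀ l, Δ l) (ty : ℕ → Prop) (l : ℕ) (a : F) (g : F → X) :
    ∑ b, kap w d ty a l b • g b = (if ty l then ce w (rm d l) g a else 0) +
      (if ty l then (1 : ℝ) else -1) •
      ∑ i ∈ range l, (if ty i then ce w (rm d i) g a - ce w (rb d (i + 1)) g a else 0) := by
  unfold kap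
  simp_rw [add_smul, mul_smul]
  rw [Finset.sum_add_distrib, ← Finset.smul_sum]
  congr 1
  · split_ifs with h
    · rfl
    · simp
  · congr 1
    simp_rw [Finset.sum_smul]
    rw [Finset.sum_comm]
    refine Finset.sum_congr rfl fun i _ => ?_
    split_ifs with h
    · simp only [sub_smul, Finset.sum_sub_distrib, ce]
    · simp

open Classical in
theorem tht_level (h1 : S_Cep) (w : F → ℝ) (hw : ∀ a, 0 < w a) (d : F → ∀ l, Δ l) (ty : ℕ → Prop) (a : F)
    (x : F → X) (l : ℕ) (hx : ∀ a b, d a l = d b l → x a = x b) (m : ℕ) :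
    ∑ i ∈ range (l + 1 + m), (if ty i then ce w (rb d (i + 1)) x a - ce w (rm d i) x a else 0) =
      ∑ i ∈ range l, (if ty i then ce w (rb d (i + 1)) x a - ce w (rm d i) x a else 0) +
        (if ty l then x a - ce w (rm d l) x a else 0) := by
  have hb : ∀ i, l ≤ i → ce w (rb d (i + 1)) x = x := fun i hi =>
    (h1 F w hw (rb d (i + 1)) (rb_eqv d _)).2.2.2.2.2.1 X x
      fun a b hab => hx a b (hab l (by omega))
  have hm : ∀ i, l < i → ce w (rm d i) x = x := fun i hi =>
    (h1 F w hw (rm d i) (rm_eqv d _)).2.2.2.2.2.1 X x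
      fun a b hab => hx a b (hab.1 l hi)
  induction m with
  | zero =>
    rw [add_zero, Finset.sum_range_succ, hb l le_rfl]
  | succ m ih =>
    rw [← add_assoc, Finset.sum_range_succ, ih, hb (l + 1 + m) (by omega), hm (l + 1 + m) (by omega)]
    simp

end a

end Idn

open Classical in
theorem wIdn (h1 : S_Cep) : S_Idn := by
  intro F _ Δ _ d n ty w hw X _ _ x j f hx hf a
  rw [← Idn.tht_sum]
  have hT : ∑ b, tht w d ty n a b • f b =
      ∑ l ∈ range n, (if ty l then ∑ b, tht w d ty n a b • x l b else 0) -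
      ∑ l ∈ range n, (if ty l then 0 else ∑ b, tht w d ty n a b • x l b) -
      ∑ b, tht w d ty n a b • j b := by
    simp_rw [hf, smul_sub, Finset.smul_sum]
    rw [Finset.sum_sub_distrib, Finset.sum_sub_distrib, Finset.sum_comm]
    congr 1
    congr 1
    · refine Finset.sum_congr rfl fun l _ => ?_
      split_ifs with h
      · rfl
      · simp
    · rw [Finset.sum_comm]
      refine Finset.sum_congr rfl fun l _ => ?_
      split_ifs with h
      · simp
      · rfl
  rw [hT]
  congr 1
  rw [← Finset.sum_sub_distrib, ← Finset.sum_sub_distrib]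
  refine Finset.sum_congr rfl fun l hl => ?_
  have hl' : l < n := Finset.mem_range.1 hl
  obtain ⟨m, rfl⟩ : ∃ m, n = l + 1 + m := ⟨n - (l + 1), by omega⟩
  rw [Idn.tht_sum, Idn.tht_level h1 w hw d ty a (x l) l (hx l) m, Idn.kap_sum]
  have hneg : ∑ i ∈ range l, (if ty i then ce w (rm d i) (x l) a - ce w (rb d (i + 1)) (x l) a else 0) =
      - ∑ i ∈ range l, (if ty i then ce w (rb d (i + 1)) (x l) a - ce w (rm d i) (x l) a else 0) := by
    rw [← Finset.sum_neg_distrib]
    refine Finset.sum_congr rfl fun i _ => ?_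
    split_ifs with h
    · abel
    · simp
  rw [hneg]
  split_ifs with h
  · rw [one_smul]; abel
  · rw [neg_smul, one_smul]; abel

end Pool.Agent.Lib.MP_537232_an.PY
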