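import Pool.Agent.Lib.MP_537232_an.PY.SpecA

set_option autoImplicit false

open Finset

namespace Pool.Agent.Lib.MP_537232_an.PY

private theorem Kcv_abs (s t x y : ℝ) (hs : 0 ≤ s) (ht : 0 ≤ t) :
    |s * x + t * y| ≤ s * |x| + t * |y| := by
  calc |s * x + t * y| ≤ |s * x| + |t * y| := abs_add_le _ _
    _ = s * |x| + t * |y| := by rw [abs_mul, abs_mul, abs_of_nonneg hs, abs_of_nonneg ht]

/-- The class of the adapted kernels is convex. -/
theorem wKcv : S_Kcv := by
  intro F _ Δ _ d n K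
  rintro ⟨κ, θ⟩ hp ⟨κ', θ'⟩ hp' s t hs ht hst
  have h1 : KC d n K κ θ := hp
  have h2 : KC d n K κ' θ' := hp'
  change KC d n K (fun a l b => s * κ a l b + t * κ' a l b) (fun a b => s * θ a b + t * θ' a b)
  refine ⟨?_, ?_, ?_⟩
  · intro l a a' h
    have e1 := h1.ad l a a' h
    have e2 := h2.ad l a a' h
    funext b
    rw [e1, e2]
  · intro β hβ hβ0 hβ1 a
    have e1 := h1.bd β hβ hβ0 hβ1 a
    have e2 := h2.bd β hβ hβ0 hβ1 a
    calc ∑ l ∈ range n, ∑ b, |s * κ a l b + t * κ' a l b| * β l b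
        ≤ ∑ l ∈ range n, ∑ b, (s * (|κ a l b| * β l b) + t * (|κ' a l b| * β l b)) := by
          refine Finset.sum_le_sum fun l _ => Finset.sum_le_sum fun b _ => ?_
          have h3 := mul_le_mul_of_nonneg_right (Kcv_abs s t (κ a l b) (κ' a l b) hs ht) (hβ l b)
          linarith
      _ = s * ∑ l ∈ range n, ∑ b, |κ a l b| * β l b +
          t * ∑ l ∈ range n, ∑ b, |κ' a l b| * β l b := by
          simp only [Finset.sum_add_distrib, Finset.mul_sum]
      _ ≤ s * (3 * K) + t * (3 * K) := add_le_add (mul_le_mul_of_nonneg_left e1 hs)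
          (mul_le_mul_of_nonneg_left e2 ht)
      _ = 3 * K := by rw [← add_mul, hst, one_mul]
  · intro a
    have e1 := h1.bt a
    have e2 := h2.bt a
    calc ∑ b, |s * θ a b + t * θ' a b|
        ≤ ∑ b, (s * |θ a b| + t * |θ' a b|) :=
          Finset.sum_le_sum fun b _ => Kcv_abs s t _ _ hs ht
      _ = s * ∑ b, |θ a b| + t * ∑ b, |θ' a b| := by
          simp only [Finset.sum_add_distrib, Finset.mul_sum]
      _ ≤ s * (2 * K) + t * (2 * K) := add_le_add (mul_le_mul_of_nonneg_left e1 hs)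
          (mul_le_mul_of_nonneg_left e2 ht)
      _ = 2 * K := by rw [← add_mul, hst, one_mul]

end Pool.Agent.Lib.MP_537232_an.PY
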