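import Pool.Agent.Lib.MP_537232_an.PY.SpecB

set_option autoImplicit false

/-!
# MP_537232_an, PY/Mdf: adapted coefficients for finite index sets (helper62)
-/

open Finset Filter Topology
open scoped ENNReal

namespace Pool.Agent.Lib.MP_537232_an.PY

open NM (pE qE)

namespace Mdf

variable {q : ℝ} [Fact (1 ≤ qE q)] (P : Params (pE q))

/-- the block `l` -/
noncomputable def blk (l : ℕ) : PiLp 1 (fun _ : Fin (P.v l) => ℝ) →ₗ[ℝ] XSp P.u q where
  toFun z := lp.single (qE q) l (∑ i, z i • P.g l i)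
  map_add' a b := by
    simp only [PiLp.add_apply, add_smul, Finset.sum_add_distrib]
    exact lp.single_add _ _ _ _
  map_smul' c a := by
    simp only [PiLp.smul_apply, smul_eq_mul, mul_smul, ← Finset.smul_sum, RingHom.id_apply]
    exact lp.single_smul _ _ _ _

omit [Fact (1 ≤ qE q)] in
lemma blk_apply (l : ℕ) (z : PiLp 1 (fun _ : Fin (P.v l) => ℝ)) :
    blk P l z = lp.single (qE q) l (∑ i, z i • P.g l i) := rfl

open Classical in
/-- decomposition of `S z` -/
lemma dec (h2 : S_Sco) (hq : 1 < q) {L : Set ℕ} {S : YSp P.v →L[ℝ] XSp P.u q} (hS : IsSc P L S)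
    (z : YSp P.v) (n : ℕ) (hz : ∀ l, n ≤ l → z l = 0) :
    S z = ∑ l ∈ range n, if l ∈ L then blk P l (z l) else 0 := by
  obtain ⟨_, _, h3, _⟩ := h2 q hq P
  obtain ⟨_, h4⟩ := h3 L S hS
  refine lp.ext (funext fun m => ?_)
  rw [lp.coeFn_sum, Finset.sum_apply]
  have h5 : ∀ l, ((if l ∈ L then blk P l (z l) else 0 : XSp P.u q) : ∀ n, E P.u n) m =
      if l = m then (if m ∈ L then ∑ j, z m j • P.g m j else 0) else 0 := by
    intro l
    by_cases hl : l = m
    · subst hl
      rw [if_pos rfl]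
      by_cases hL : l ∈ L
      · rw [if_pos hL, if_pos hL, blk_apply, lp.single_apply_self]
      · rw [if_neg hL, if_neg hL]
        rfl
    · rw [if_neg hl]
      by_cases hL : l ∈ L
      · rw [if_pos hL, blk_apply, lp.single_apply_ne _ _ _ (Ne.symm hl)]
      · rw [if_neg hL]
        rfl
  rw [Finset.sum_congr rfl fun l _ => h5 l, Finset.sum_ite_eq']
  by_cases hm : m < n
  · rw [if_pos (Finset.mem_range.2 hm)]
    by_cases hL : m ∈ L
    · rw [if_pos hL, (h4 z m).1 hL]
    · rw [if_neg hL, (h4 z m).2 hL]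
  · rw [if_neg (fun h => hm (Finset.mem_range.1 h))]
    by_cases hL : m ∈ L
    · rw [(h4 z m).1 hL, hz m (not_lt.1 hm)]
      exact Finset.sum_eq_zero fun j _ => by rw [PiLp.zero_apply, zero_smul]
    · exact (h4 z m).2 hL

/-- `∑_r A_r (block l of w_r)` -/
noncomputable def G {s : ℕ} (A : Fin s → (XSp P.u q →L[ℝ] XSp P.u q)) (l : ℕ) (w : Fin s → YSp P.v) :
    XSp P.u q := ∑ r, A r (blk P l (w r l))

open Classical in
lemma decG (h2 : S_Sco) (hq : 1 < q) {L : Set ℕ} {S : YSp P.v →L[ℝ] XSp P.u q} (hS : IsSc P L S)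
    {s : ℕ} (A : Fin s → (XSp P.u q →L[ℝ] XSp P.u q)) (w : Fin s → YSp P.v) (n : ℕ)
    (hw : ∀ r l, n ≤ l → w r l = 0) :
    ∑ r, A r (S (w r)) = ∑ l ∈ range n, if l ∈ L then G P A l w else 0 := by
  have h1 : ∀ r, A r (S (w r)) = ∑ l ∈ range n, if l ∈ L then A r (blk P l (w r l)) else 0 := by
    intro r
    rw [dec P h2 hq hS (w r) n (hw r), map_sum]
    refine Finset.sum_congr rfl fun l _ => ?_
    split_ifs
    · rfl
    · exact map_zero _
  rw [Finset.sum_congr rfl fun r _ => h1 r, Finset.sum_comm]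
  refine Finset.sum_congr rfl fun l _ => ?_
  by_cases hL : l ∈ L
  · simp only [if_pos hL, G]
  · simp only [if_neg hL, Finset.sum_const_zero]

lemma G_comb {s : ℕ} (A : Fin s → (XSp P.u q →L[ℝ] XSp P.u q)) (l : ℕ) {F : Type} [Fintype F]
    (κ : F → ℝ) (y : F → Fin s → YSp P.v) (w : Fin s → YSp P.v)
    (hw : ∀ r, w r l = ∑ b, κ b • y b r l) : G P A l w = ∑ b, κ b • G P A l (y b) := by
  unfold G
  have h1 : ∀ r, A r (blk P l (w r l)) = ∑ b, κ b • A r (blk P l (y b r l)) := by
    intro r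
    rw [hw r, map_sum, map_sum]
    refine Finset.sum_congr rfl fun b _ => ?_
    rw [map_smul, map_smul]
  rw [Finset.sum_congr rfl fun r _ => h1 r, Finset.sum_comm]
  refine Finset.sum_congr rfl fun b _ => ?_
  rw [Finset.smul_sum]

lemma sum_blocks_le {v : ℕ → ℕ} (z : YSp v) (n : ℕ) : ∑ l ∈ range n, ‖z l‖ ≤ ‖z‖ := by
  have h := lp.sum_rpow_le_norm_rpow (p := 1) (by norm_num) z (range n)
  simpa using h

end Mdf

open Mdf in
open Classical in
theorem wMdf (h1 : S_Fnk) (h2 : S_Sco) : S_Mdf := by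
  intro q hq _ P C hC hUM F _ _ LM LN L0 SM SN S0 hdis hSM hSN hS0 s s0 K C₁ C₀ ε η AM AN A0 y b0
    hC₁ hC₀ hε hη hy hb0 hfin hout hle
  -- the bound `n`
  obtain ⟨n, hn⟩ : ∃ n : ℕ, ∀ a l, n ≤ l → dd y a l = 0 := by
    have hf : (⋃ a, {l | dd y a l ≠ 0}).Finite := Set.finite_iUnion fun a => (hfin a).1
    obtain ⟨N, hN⟩ := hf.bddAbove
    refine ⟨N + 1, fun a l hl => ?_⟩
    by_contra hne
    have := hN (Set.mem_iUnion.2 ⟨a, hne⟩)
    omega
  have hn' : ∀ a r l, n ≤ l → y a r l = 0 := fun a r l hl => congrFun (hn a l hl) r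
  set x : ℕ → F → XSp P.u q := fun l a => if l ∈ LM then G P AM l (y a) else G P AN l (y a) with hx
  set j : F → XSp P.u q := fun a => ∑ r, A0 r (S0 (b0 a r)) with hj
  have hG0 : ∀ (A : Fin s → (XSp P.u q →L[ℝ] XSp P.u q)) l a, l ∉ LM → l ∉ LN → G P A l (y a) = 0 := by
    intro A l a h3 h4
    unfold G
    refine Finset.sum_eq_zero fun r _ => ?_
    rw [hout a r l h3 h4, map_zero, map_zero]
  have hM : ∀ a, ∑ l ∈ range n, (if l ∈ LM then x l a else 0) = ∑ r, AM r (SM (y a r)) := by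
    intro a
    rw [decG P h2 hq hSM AM (y a) n (hn' a)]
    refine Finset.sum_congr rfl fun l _ => ?_
    by_cases h3 : l ∈ LM
    · simp only [if_pos h3, hx]
    · simp only [if_neg h3]
  have hN : ∀ a, ∑ l ∈ range n, (if l ∈ LM then 0 else x l a) = ∑ r, AN r (SN (y a r)) := by
    intro a
    rw [decG P h2 hq hSN AN (y a) n (hn' a)]
    refine Finset.sum_congr rfl fun l _ => ?_
    by_cases h3 : l ∈ LM
    · rw [if_pos h3, if_neg (fun h4 => Set.disjoint_left.1 hdis h3 h4)]
    · rw [if_neg h3]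
      by_cases h4 : l ∈ LN
      · simp only [if_pos h4, hx, if_neg h3]
      · simp only [if_neg h4, hx, if_neg h3]
        exact hG0 AN l a h3 h4
  obtain ⟨κ, θ, hKC, hfinal⟩ := h1 (XSp P.u q) q C hq.le hC hUM F
    (fun l => Fin s → PiLp 1 (fun _ : Fin (P.v l) => ℝ)) (dd y) n K
    (fun a => (Set.ncard_le_ncard (fun l hl => hl.2) (hfin a).1).trans (hfin a).2)
    (fun l => l ∈ LM) x j
    (fun l a b hab => by
      have h3 : ∀ r, y a r l = y b r l := fun r => congrFun hab r
      simp only [hx, G, h3])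
    ε hε (fun a => by
      have h3 := hle a
      rw [← hM a, ← hN a] at h3
      exact h3) η hη
  -- the coefficients
  set c : F → Fin s → YSp P.v := fun a r =>
    ∑ l ∈ range n, ∑ b, κ a l b • (lp.single 1 l (y b r l) : YSp P.v) with hc
  have hcb : ∀ a r m, c a r m = if m < n then ∑ b, κ a m b • y b r m else 0 := by
    intro a r m
    simp only [hc]
    rw [lp.coeFn_sum, Finset.sum_apply]
    have h3 : ∀ l, ((∑ b, κ a l b • (lp.single 1 l (y b r l) : YSp P.v) : YSp P.v) :
        ∀ n, PiLp 1 (fun _ : Fin (P.v n) => ℝ)) m =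
        if l = m then ∑ b, κ a m b • y b r m else 0 := by
      intro l
      rw [lp.coeFn_sum, Finset.sum_apply]
      by_cases hl : l = m
      · subst hl
        rw [if_pos rfl]
        refine Finset.sum_congr rfl fun b _ => ?_
        rw [lp.coeFn_smul, Pi.smul_apply, lp.single_apply_self]
      · rw [if_neg hl]
        refine Finset.sum_eq_zero fun b _ => ?_
        rw [lp.coeFn_smul, Pi.smul_apply, lp.single_apply_ne _ _ _ (Ne.symm hl), smul_zero]
    rw [Finset.sum_congr rfl fun l _ => h3 l, Finset.sum_ite_eq']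
    simp only [Finset.mem_range]
  have hc0' : ∀ a r l, n ≤ l → c a r l = 0 := by
    intro a r l hl
    rw [hcb, if_neg (not_lt.2 hl)]
  refine ⟨c, fun a r => ∑ b, θ a b • b0 b r, fun a r => ?_, fun a r => ?_, fun a b r l hab => ?_,
    fun a => ?_⟩
  · -- norms
    have hpos : (0 : ℝ) < s * C₁ + 1 := by positivity
    set β : ℕ → F → ℝ := fun l b => (∑ r', ‖y b r' l‖) / (s * C₁ + 1) with hβ
    have hbd := hKC.bd β (fun l b => by positivity) (fun l b h3 => by
      have h4 : ∀ r', y b r' l = 0 := fun r' => congrFun h3 r'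
      simp only [hβ, h4, norm_zero, Finset.sum_const_zero, zero_div]) (fun b => by
      simp only [hβ]
      rw [← Finset.sum_div, div_le_one hpos, Finset.sum_comm]
      calc ∑ r', ∑ l ∈ range n, ‖y b r' l‖ ≤ ∑ _r' : Fin s, C₁ :=
            Finset.sum_le_sum fun r' _ => (sum_blocks_le (y b r') n).trans (hy b r')
        _ = s * C₁ := by simp
        _ ≤ s * C₁ + 1 := by linarith) a
    have h3 : ‖c a r‖ ≤ ∑ l ∈ range n, ∑ b, |κ a l b| * ‖y b r l‖ := by
      simp only [hc]
      refine (norm_sum_le _ _).trans (Finset.sum_le_sum fun l _ => ?_)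
      refine (norm_sum_le _ _).trans (Finset.sum_le_sum fun b _ => ?_)
      rw [norm_smul, lp.norm_single (by norm_num), Real.norm_eq_abs]
    have h4 : ∀ l b, ‖y b r l‖ ≤ (s * C₁ + 1) * β l b := by
      intro l b
      simp only [hβ]
      rw [mul_div_cancel₀ _ hpos.ne']
      exact Finset.single_le_sum (f := fun r' => ‖y b r' l‖) (fun r' _ => norm_nonneg _)
        (Finset.mem_univ r)
    calc ‖c a r‖ ≤ ∑ l ∈ range n, ∑ b, |κ a l b| * ‖y b r l‖ := h3
      _ ≤ ∑ l ∈ range n, ∑ b, |κ a l b| * ((s * C₁ + 1) * β l b) := by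
          refine Finset.sum_le_sum fun l _ => Finset.sum_le_sum fun b _ => ?_
          exact mul_le_mul_of_nonneg_left (h4 l b) (abs_nonneg _)
      _ = (s * C₁ + 1) * ∑ l ∈ range n, ∑ b, |κ a l b| * β l b := by
          rw [Finset.mul_sum]
          refine Finset.sum_congr rfl fun l _ => ?_
          rw [Finset.mul_sum]
          refine Finset.sum_congr rfl fun b _ => ?_
          ring
      _ ≤ (s * C₁ + 1) * (3 * K) := mul_le_mul_of_nonneg_left hbd hpos.le
      _ = 3 * K * (s * C₁ + 1) := by ring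
  · calc ‖∑ b, θ a b • b0 b r‖ ≤ ∑ b, |θ a b| * C₀ := by
          refine (norm_sum_le _ _).trans (Finset.sum_le_sum fun b _ => ?_)
          rw [norm_smul, Real.norm_eq_abs]
          exact mul_le_mul_of_nonneg_left (hb0 b r) (abs_nonneg _)
      _ = (∑ b, |θ a b|) * C₀ := by rw [Finset.sum_mul]
      _ ≤ 2 * K * C₀ := mul_le_mul_of_nonneg_right (hKC.bt a) hC₀
  · rw [hcb, hcb, hKC.ad l a b hab]
  · have h3 : ∑ l ∈ range n, ∑ b, κ a l b • x l b =
        ∑ r, AM r (SM (c a r)) + ∑ r, AN r (SN (c a r)) := by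
      rw [decG P h2 hq hSM AM (c a) n (hc0' a), decG P h2 hq hSN AN (c a) n (hc0' a),
        ← Finset.sum_add_distrib]
      refine Finset.sum_congr rfl fun l hl => ?_
      have hln := Finset.mem_range.1 hl
      have hw : ∀ r, c a r l = ∑ b, κ a l b • y b r l := by
        intro r
        rw [hcb, if_pos hln]
      by_cases h4 : l ∈ LM
      · rw [if_pos h4, if_neg (fun h5 => Set.disjoint_left.1 hdis h4 h5), add_zero,
          G_comb P AM l (κ a l) y (c a) hw]
        simp only [hx, if_pos h4]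
      · rw [if_neg h4, zero_add]
        by_cases h5 : l ∈ LN
        · rw [if_pos h5, G_comb P AN l (κ a l) y (c a) hw]
          simp only [hx, if_neg h4]
        · rw [if_neg h5]
          refine Finset.sum_eq_zero fun b _ => ?_
          simp only [hx, if_neg h4]
          rw [hG0 AN l b h4 h5, smul_zero]
    have h4 : ∑ b, θ a b • j b = ∑ r, A0 r (S0 (∑ b, θ a b • b0 b r)) := by
      have h5 : ∀ r, A0 r (S0 (∑ b, θ a b • b0 b r)) = ∑ b, θ a b • A0 r (S0 (b0 b r)) := by
        intro r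
        rw [map_sum, map_sum]
        refine Finset.sum_congr rfl fun b _ => ?_
        rw [map_smul, map_smul]
      rw [Finset.sum_congr rfl fun r _ => h5 r, Finset.sum_comm]
      refine Finset.sum_congr rfl fun b _ => ?_
      simp only [hj]
      rw [Finset.smul_sum]
    have h5 := hfinal a
    rw [h3, h4, hM a] at h5
    have h6 : ∑ r, AM r (SM (y a r)) - (∑ r, AM r (SM (c a r)) + ∑ r, AN r (SN (c a r)) +
        ∑ r, A0 r (S0 (∑ b, θ a b • b0 b r))) =
        ∑ r, AM r (SM (y a r)) - (∑ r, AM r (SM (c a r)) + ∑ r, AN r (SN (c a r))) -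
        ∑ r, A0 r (S0 (∑ b, θ a b • b0 b r)) := by abel
    rw [h6]
    exact h5

end Pool.Agent.Lib.MP_537232_an.PY
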