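import Pool.Agent.Lib.MP_537232_an.PY.SpecB

set_option autoImplicit false

/-!
# MP_537232_an, PY/Mid: adapted coefficients for all index sets
-/

open Finset Filter Topology
open scoped ENNReal

namespace Pool.Agent.Lib.MP_537232_an.PY

open NM (pE qE)

namespace Mid

/-- The adapted coefficients for a finite set `F` of indices, extended by `0`. -/
lemma fin (h1 : S_Mdf) {q : ℝ} (hq : 1 < q) [Fact (1 ≤ qE q)] (P : Params (pE q)) {C : ℝ}
    (hC : 0 ≤ C) (hUM : UM (XSp P.u q) q C) {Λ : Type} (F : Finset Λ) (LM LN L0 : Set ℕ)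
    (SM SN S0 : YSp P.v →L[ℝ] XSp P.u q) (hd : Disjoint LM LN) (hSM : IsSc P LM SM)
    (hSN : IsSc P LN SN) (hS0 : IsSc P L0 S0) (s s0 K : ℕ) (C₁ C₀ ε η : ℝ)
    (AM AN : Fin s → (XSp P.u q →L[ℝ] XSp P.u q)) (A0 : Fin s0 → (XSp P.u q →L[ℝ] XSp P.u q))
    (y : Λ → Fin s → YSp P.v) (b0 : Λ → Fin s0 → YSp P.v) (hC₁ : 0 ≤ C₁) (hC₀ : 0 ≤ C₀)
    (hε : 0 ≤ ε) (hη : 0 < η) (hy : ∀ a r, ‖y a r‖ ≤ C₁) (hb : ∀ a r, ‖b0 a r‖ ≤ C₀)
    (hK : ∀ a, {l | dd y a l ≠ 0}.Finite ∧ {l | dd y a l ≠ 0}.ncard ≤ K)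
    (hs : ∀ a r l, l ∉ LM → l ∉ LN → y a r l = 0)
    (he : ∀ a, ‖∑ r, AM r (SM (y a r)) - ∑ r, AN r (SN (y a r)) - ∑ r, A0 r (S0 (b0 a r))‖ ≤ ε) :
    ∃ (c : Λ → Fin s → YSp P.v) (c0 : Λ → Fin s0 → YSp P.v),
      (∀ a r, ‖c a r‖ ≤ 3 * K * (s * C₁ + 1)) ∧ (∀ a r, ‖c0 a r‖ ≤ 2 * K * C₀) ∧
      (∀ a ∈ F, ∀ b ∈ F, ∀ r l, rm (dd y) l a b → c a r l = c b r l) ∧
      ∀ a ∈ F, ‖∑ r, AM r (SM (y a r)) -
        (∑ r, AM r (SM (c a r)) + ∑ r, AN r (SN (c a r)) + ∑ r, A0 r (S0 (c0 a r)))‖ ≤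
          C ^ (1 / q) * ε + η := by
  classical
  have hp1 : (0 : ℝ) ≤ 3 * K * (s * C₁ + 1) := by positivity
  have hp0 : (0 : ℝ) ≤ 2 * K * C₀ := by positivity
  rcases F.eq_empty_or_nonempty with hF | hF
  · subst hF
    refine ⟨fun _ _ => 0, fun _ _ => 0, fun a r => ?_, fun a r => ?_, fun a ha => ?_,
      fun a ha => ?_⟩
    · rw [norm_zero]
      exact hp1
    · rw [norm_zero]
      exact hp0
    · exact absurd ha (Finset.notMem_empty a)
    · exact absurd ha (Finset.notMem_empty a)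
  · have : Nonempty {x // x ∈ F} := hF.to_subtype
    obtain ⟨c, c0, hc1, hc2, hc3, hc4⟩ := h1 q hq P C hC hUM {x // x ∈ F} LM LN L0 SM SN S0 hd
      hSM hSN hS0 s s0 K C₁ C₀ ε η AM AN A0 (fun a => y a.1) (fun a => b0 a.1) hC₁ hC₀ hε hη
      (fun a r => hy a.1 r) (fun a r => hb a.1 r) (fun a => hK a.1) (fun a r l => hs a.1 r l)
      (fun a => he a.1)
    refine ⟨fun a r => if h : a ∈ F then c ⟨a, h⟩ r else 0,
      fun a r => if h : a ∈ F then c0 ⟨a, h⟩ r else 0, fun a r => ?_, fun a r => ?_,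
      fun a ha b hb r l hab => ?_, fun a ha => ?_⟩
    · by_cases h : a ∈ F
      · simp only [dif_pos h]
        exact hc1 _ r
      · simp only [dif_neg h, norm_zero]
        exact hp1
    · by_cases h : a ∈ F
      · simp only [dif_pos h]
        exact hc2 _ r
      · simp only [dif_neg h, norm_zero]
        exact hp0
    · simp only [dif_pos ha, dif_pos hb]
      exact hc3 ⟨a, ha⟩ ⟨b, hb⟩ r l hab
    · simp only [dif_pos ha]
      exact hc4 ⟨a, ha⟩

end Mid

theorem wMid (h1 : S_Mdf) (h2 : S_Wns) (h3 : S_Wlm) (h4 : S_Ylm) : S_Mid := by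
  intro q hq _ P C hC hUM Λ LM LN L0 SM SN S0 hd hSM hSN hS0 s s0 K C₁ C₀ ε η AM AN A0 y b0 hC₁
    hC₀ hε hη hy hb hK hs he
  classical
  have key := fun F : Finset Λ => Mid.fin h1 hq P hC hUM F LM LN L0 SM SN S0 hd hSM hSN hS0 s s0
    K C₁ C₀ ε η AM AN A0 y b0 hC₁ hC₀ hε hη hy hb hK hs he
  choose c c0 hc1 hc2 hc3 hc4 using key
  let 𝓤 : Ultrafilter (Finset Λ) := Ultrafilter.of atTop
  have hmem : ∀ a : Λ, ∀ᶠ F in (𝓤 : Filter (Finset Λ)), a ∈ F := fun a =>
    ((eventually_ge_atTop ({a} : Finset Λ)).mono fun F hF => hF (mem_singleton_self a)).filter_mono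
      (Ultrafilter.of_le atTop)
  have hl := fun a r => h4 P.v (Finset Λ) 𝓤 _ (fun F => c F a r) (fun F => hc1 F a r)
  have hl0 := fun a r => h4 P.v (Finset Λ) 𝓤 _ (fun F => c0 F a r) (fun F => hc2 F a r)
  choose c' hn hcl using hl
  choose c0' hn0 hcl0 using hl0
  refine ⟨c', c0', hn, hn0, fun a b r l hab => ?_, fun a => ?_⟩
  · ext i
    refine tendsto_nhds_unique (hcl a r l i) ((hcl b r l i).congr' ?_)
    filter_upwards [hmem a, hmem b] with F ha hb'
    rw [hc3 F a ha b hb' r l hab]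
  · have key := h3 P.v (XSp P.u q) (Fin s ⊕ (Fin s ⊕ Fin s0))
      (Sum.elim (fun r => (AM r).comp SM)
        (Sum.elim (fun r => (AN r).comp SN) (fun r => (A0 r).comp S0)))
      (fun r => by
        rcases r with r | r | r
        · exact h2 q hq P LM SM (Or.inl hSM) (AM r)
        · exact h2 q hq P LN SN (Or.inl hSN) (AN r)
        · exact h2 q hq P L0 S0 (Or.inl hS0) (A0 r))
      (Finset Λ) 𝓤 (max (3 * K * (s * C₁ + 1)) (2 * K * C₀)) (C ^ (1 / q) * ε + η)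
      (fun F => Sum.elim (fun r => c F a r) (Sum.elim (fun r => c F a r) (fun r => c0 F a r)))
      (Sum.elim (fun r => c' a r) (Sum.elim (fun r => c' a r) (fun r => c0' a r)))
      (fun _ => ∑ r, AM r (SM (y a r))) (∑ r, AM r (SM (y a r)))
      (fun F r => by
        rcases r with r | r | r
        · exact (hc1 F a r).trans (le_max_left _ _)
        · exact (hc1 F a r).trans (le_max_left _ _)
        · exact (hc2 F a r).trans (le_max_right _ _))
      (fun r l i => by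
        rcases r with r | r | r
        · exact hcl a r l i
        · exact hcl a r l i
        · exact hcl0 a r l i)
      (fun φ => tendsto_const_nhds)
      (by
        filter_upwards [hmem a] with F ha
        have := hc4 F a ha
        simpa only [Fintype.sum_sum_type, Sum.elim_inl, Sum.elim_inr,
          ContinuousLinearMap.comp_apply, add_assoc] using this)
    simpa only [Fintype.sum_sum_type, Sum.elim_inl, Sum.elim_inr,
      ContinuousLinearMap.comp_apply, add_assoc] using key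

end Pool.Agent.Lib.MP_537232_an.PY
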