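import Pool.Agent.Lib.MP_537232_an.PY.SpecA

set_option autoImplicit false

/-!
# MP_537232_an, directory PY: a minimax lemma (`S_Mmx`)
-/

open Finset Filter Topology
open scoped ENNReal

namespace Pool.Agent.Lib.MP_537232_an.PY

theorem wMmx : S_Mmx := by
  classical
  intro W _ _ K hK F _ _ f hf hf0 c hc η hη
  by_contra hcon
  push Not at hcon
  have hcard : (0 : ℝ) < Fintype.card F := by exact_mod_cast Fintype.card_pos
  have hcardne : (Fintype.card F : ℝ) ≠ 0 := hcard.ne'
  -- the set `K` is nonempty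
  obtain ⟨w0, hw0, -⟩ := hc (fun _ => (Fintype.card F : ℝ)⁻¹) (fun _ => inv_pos.mpr hcard) (by
    rw [Finset.sum_const, nsmul_eq_mul, Finset.card_univ, mul_inv_cancel₀ hcardne])
  let C : Set (F → ℝ) := {v | ∃ w ∈ K, ∀ a, f a w ≤ v a}
  let D : Set (F → ℝ) := {v | ∀ a, v a < c + η}
  have hCc : Convex ℝ C := by
    rintro v ⟨w, hw, hv⟩ v' ⟨w', hw', hv'⟩ s t hs ht hst
    refine ⟨s • w + t • w', hK hw hw' hs ht hst, fun a => ?_⟩
    refine ((hf a).2 hw hw' hs ht hst).trans ?_
    simp only [smul_eq_mul, Pi.add_apply, Pi.smul_apply]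
    exact add_le_add (mul_le_mul_of_nonneg_left (hv a) hs) (mul_le_mul_of_nonneg_left (hv' a) ht)
  have hDe : D = Set.pi Set.univ (fun _ => Set.Iio (c + η)) := by
    ext v
    simp [D]
  have hDo : IsOpen D := by
    rw [hDe]
    exact isOpen_set_pi Set.finite_univ fun _ _ => isOpen_Iio
  have hDc : Convex ℝ D := by
    rw [hDe]
    exact convex_pi fun _ _ => convex_Iio _
  have hdis : Disjoint D C := by
    rw [Set.disjoint_left]
    rintro v hv ⟨w, hw, hw'⟩
    obtain ⟨a, ha⟩ := hcon w hw
    have h1 := hv a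
    have h2 := hw' a
    linarith
  obtain ⟨L, t, hLD, hLC⟩ := geometric_hahn_banach_open hDc hDo hCc hdis
  let p : F → ℝ := fun a => L (Pi.single a 1)
  have hL : ∀ v : F → ℝ, L v = ∑ a, p a * v a := by
    intro v
    have h1 : v = ∑ a, v a • (Pi.single a (1 : ℝ) : F → ℝ) := by
      funext b
      simp [Finset.sum_apply, Pi.single_apply]
    conv_lhs => rw [h1]
    rw [map_sum]
    refine Finset.sum_congr rfl fun a _ => ?_
    rw [map_smul, smul_eq_mul, mul_comm]
  have hp0 : ∀ a, 0 ≤ p a := by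
    intro a
    by_contra hneg
    push Not at hneg
    have h2 : ∀ M : ℝ, 0 ≤ M → L (fun _ => c + η - 1) - M * p a < t := by
      intro M hM
      have h3 := hLD ((fun _ => c + η - 1) - M • (Pi.single a (1 : ℝ) : F → ℝ)) (by
        intro b
        simp only [Pi.sub_apply, Pi.smul_apply, smul_eq_mul, Pi.single_apply]
        split_ifs <;> nlinarith)
      rw [map_sub, map_smul, smul_eq_mul] at h3
      exact h3
    have h4 := h2 (|t - L (fun _ => c + η - 1)| / (-p a)) (div_nonneg (abs_nonneg _) (by linarith))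
    have h5 : |t - L (fun _ => c + η - 1)| / (-p a) * p a = -|t - L (fun _ => c + η - 1)| := by
      rw [div_neg, neg_mul, div_mul_cancel₀ _ hneg.ne]
    rw [h5] at h4
    have h6 := le_abs_self (t - L (fun _ => c + η - 1))
    linarith
  have hSn : 0 < ∑ a, p a := by
    refine lt_of_le_of_ne (Finset.sum_nonneg fun a _ => hp0 a) fun h0 => ?_
    have h1 : ∀ a, p a = 0 := fun a =>
      (Finset.sum_eq_zero_iff_of_nonneg fun a _ => hp0 a).mp h0.symm a (Finset.mem_univ a)
    have h2 := hLD (fun _ => c + η - 1) (fun _ => by simp only; linarith)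
    have h3 := hLC (fun a => f a w0) ⟨w0, hw0, fun _ => le_refl _⟩
    rw [hL] at h2 h3
    simp only [h1, zero_mul, Finset.sum_const_zero] at h2 h3
    linarith
  set S : ℝ := ∑ a, p a with hS
  have hSt : S * (c + η) ≤ t := by
    refine le_of_forall_pos_le_add fun ε hε => ?_
    have h2 := hLD (fun _ => c + η - ε / S) (fun _ => by
      have : 0 < ε / S := div_pos hε hSn
      linarith)
    rw [hL, ← Finset.sum_mul, ← hS, mul_sub, mul_div_cancel₀ _ hSn.ne'] at h2
    linarith
  -- the weights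
  have hcη : 0 < |c| + η := by
    have := abs_nonneg c
    linarith
  set δ : ℝ := η / (2 * (|c| + η)) with hδ
  have hδ0 : 0 < δ := div_pos hη (by linarith)
  have hδ1 : δ < 1 := by
    rw [hδ, div_lt_one (by linarith)]
    have := abs_nonneg c
    linarith
  have hδc : δ * (|c| + η) = η / 2 := by
    rw [hδ]
    field_simp
  obtain ⟨w, hw, hwc⟩ := hc (fun a => (1 - δ) * (p a / S) + δ / Fintype.card F)
    (fun a => by
      have h1 : 0 ≤ p a / S := div_nonneg (hp0 a) hSn.le
      have h2 : 0 < δ / Fintype.card F := div_pos hδ0 hcard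
      have h3 : 0 ≤ (1 - δ) * (p a / S) := mul_nonneg (by linarith) h1
      linarith)
    (by
      rw [Finset.sum_add_distrib, ← Finset.mul_sum, ← Finset.sum_div, ← hS, div_self hSn.ne',
        Finset.sum_const, nsmul_eq_mul, Finset.card_univ, mul_div_cancel₀ _ hcardne]
      ring)
  have h1 := hLC (fun a => f a w) ⟨w, hw, fun _ => le_refl _⟩
  rw [hL] at h1
  have h2 : (1 - δ) * (c + η) ≤ ∑ a, ((1 - δ) * (p a / S) + δ / Fintype.card F) * f a w := by
    have h3 : ∑ a, (1 - δ) * (p a / S) * f a w ≤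
        ∑ a, ((1 - δ) * (p a / S) + δ / Fintype.card F) * f a w := by
      refine Finset.sum_le_sum fun a _ => ?_
      have h4 : 0 ≤ δ / Fintype.card F * f a w :=
        mul_nonneg (div_pos hδ0 hcard).le (hf0 a w)
      linarith
    refine le_trans ?_ h3
    have h5 : ∑ a, (1 - δ) * (p a / S) * f a w = (1 - δ) * ((∑ a, p a * f a w) / S) := by
      rw [Finset.sum_div, Finset.mul_sum]
      refine Finset.sum_congr rfl fun a _ => ?_
      ring
    rw [h5]
    refine mul_le_mul_of_nonneg_left ?_ (by linarith)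
    rw [le_div_iff₀ hSn]
    linarith
  have h6 : (1 - δ) * (c + η) ≤ c := h2.trans hwc
  have h7 : δ * c ≤ δ * |c| := mul_le_mul_of_nonneg_left (le_abs_self c) hδ0.le
  nlinarith

end Pool.Agent.Lib.MP_537232_an.PY
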