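import Pool.Agent.Lib.MP_537232_an.PY.SpecB

set_option autoImplicit false

/-!
# MP_537232_an, directory PY: comparison of the numbers
-/

open Finset

namespace Pool.Agent.Lib.MP_537232_an.PY

/-- **Nfs.**  Comparison of the numbers. -/
theorem wNfs : S_Nfs := by
  intro t s K₂
  refine ⟨t + s + 2 * K₂, fun l hl v => ?_⟩
  have h1 : K₂ * 2 ≤ l + 1 := by omega
  have h2 : ∏ i ∈ range l, ((2 * (t ^ 2 * v i) + 1) ^ v i) ^ s ≤
      ∏ i ∈ range l, (2 * (l + 1) ^ 2 * v i + 1) ^ ((l + 1) * v i) := by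
    refine Finset.prod_le_prod' fun i _ => ?_
    rw [← pow_mul]
    have h3 : t ^ 2 ≤ (l + 1) ^ 2 := Nat.pow_le_pow_left (by omega) 2
    have h4 : 2 * (t ^ 2 * v i) + 1 ≤ 2 * (l + 1) ^ 2 * v i + 1 := by
      have h5 : t ^ 2 * v i ≤ (l + 1) ^ 2 * v i := Nat.mul_le_mul_right _ h3
      have h6 : 2 * (l + 1) ^ 2 * v i = 2 * ((l + 1) ^ 2 * v i) := by ring
      omega
    calc (2 * (t ^ 2 * v i) + 1) ^ (v i * s)
        ≤ (2 * (l + 1) ^ 2 * v i + 1) ^ (v i * s) := Nat.pow_le_pow_left h4 _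
      _ ≤ (2 * (l + 1) ^ 2 * v i + 1) ^ ((l + 1) * v i) := by
          refine Nat.pow_le_pow_right (by omega) ?_
          rw [mul_comm (v i) s]
          exact Nat.mul_le_mul_right _ (by omega)
  unfold Lf
  calc K₂ * (2 * ∏ i ∈ range l, ((2 * (t ^ 2 * v i) + 1) ^ v i) ^ s)
      = (K₂ * 2) * ∏ i ∈ range l, ((2 * (t ^ 2 * v i) + 1) ^ v i) ^ s := by ring
    _ ≤ (l + 1) * ∏ i ∈ range l, (2 * (l + 1) ^ 2 * v i + 1) ^ ((l + 1) * v i) := Nat.mul_le_mul h1 h2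

end Pool.Agent.Lib.MP_537232_an.PY
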