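import Pool.Agent.Lib.MP_537232_an.PY.SpecC

set_option autoImplicit false

/-!
# MP_537232_an, directory PY: ideals and transposition
-/

open Finset Filter Topology
open scoped ENNReal

namespace Pool.Agent.Lib.MP_537232_an.PY

open NM (pE qE)

theorem wPhi (h1 : S_Apx) (h2 : S_Dub) (h3 : S_Trp) (h4 : S_Rwt) (h5 : S_Zta) (h6 : S_Cmp)
    (h7 : S_Clu) : S_Phi := by
  intro q hq _ _ u v hv Φ hΦ Z _ _ hZ hZP T S hTS hTn hWN R G hRG
  obtain ⟨-, hnorm, hsub, hsum⟩ := h4 q hq u v Φ hΦ Z hZ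
  constructor
  · intro hR
    rw [h1] at hR ⊢
    intro ε hε
    obtain ⟨s, A, B, hAB⟩ := hR ε hε
    choose B' hB' using fun r => (h3 q hq u Φ hΦ).1 (B r)
    choose A' hA' using fun r => h5 v Z hZ (A r)
    refine ⟨s, B', A', ?_⟩
    have hc : ∀ r, Tr Φ hZ (((A r).comp T).comp (B r)) (((B' r).comp S).comp (A' r)) :=
      fun r => h6 q hq u v Φ Z hZ T S hTS (A r) (A' r)
        (fun x φ hφ ν => hA' r (T x) (hTn x) φ hφ ν) (B r) (B' r) (hB' r)
    have hd := hsub R _ G _ hRG (hsum s _ _ hc)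
    rw [← hnorm _ _ hd]
    exact hAB
  · intro hG
    rw [h1] at hG ⊢
    intro ε hε
    rcases hZP with hZ1 | ⟨hZn, hZ2⟩
    · obtain ⟨s, A, B, hAB⟩ := hG ε hε
      choose A' hA' using fun r => (h3 q hq u Φ hΦ).2 (A r)
      choose Bs hBs using fun r => hZ1 (B r)
      refine ⟨s, Bs, A', ?_⟩
      have hc : ∀ r, Tr Φ hZ (((Bs r).comp T).comp (A' r)) (((A r).comp S).comp (B r)) :=
        fun r => h6 q hq u v Φ Z hZ T S hTS (Bs r) (B r)
          (fun x φ hφ ν => hBs r (T x) φ hφ ν) (A' r) (A r) (hA' r)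
      have hd := hsub R _ G _ hRG (hsum s _ _ hc)
      rw [hnorm _ _ hd]
      exact hAB
    · have hGW : WN G := by
        intro φ δ hδ
        obtain ⟨x, -, hx⟩ := (h2 q hq u Φ hΦ).2.1 φ
        have he : {ν : Ix v | δ ≤ |φ (G (eY v ν))|} = {ν | δ ≤ |hZ.c (R x) ν|} := by
          ext ν
          have h := hRG x ν
          rw [Set.mem_ofPred_eq, Set.mem_ofPred_eq, h, hx]
        rw [he]
        exact hZn (R x) δ hδ
      obtain ⟨s, A, B, hAB⟩ := hG (ε / 2) (half_pos hε)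
      obtain ⟨B', hB'n, hB'⟩ := h7 v hv (XSp u q) s G (fun r => (A r).comp S) B (ε / 2) hGW
        (fun r => hWN (A r)) hAB
      choose A' hA' using fun r => (h3 q hq u Φ hΦ).2 (A r)
      choose Bs hBs using fun r => hZ2 (B' r) (hB'n r)
      refine ⟨s, Bs, A', ?_⟩
      have hc : ∀ r, Tr Φ hZ (((Bs r).comp T).comp (A' r)) (((A r).comp S).comp (B' r)) :=
        fun r => h6 q hq u v Φ Z hZ T S hTS (Bs r) (B' r)
          (fun x φ hφ ν => hBs r (T x) φ hφ ν) (A' r) (A r) (hA' r)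
      have hd := hsub R _ G _ hRG (hsum s _ _ hc)
      rw [hnorm _ _ hd]
      refine hB'.trans (le_of_eq ?_)
      ring

end Pool.Agent.Lib.MP_537232_an.PY
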