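import Pool.Agent.Lib.MP_537232_an.PY.SpecB

set_option autoImplicit false

/-!
# MP_537232_an, PY: small subfamilies
-/

open Finset Filter Topology
open scoped ENNReal

namespace Pool.Agent.Lib.MP_537232_an.PY

open NM (pE qE)

open Classical in
private lemma place {q : ℝ} [Fact (1 ≤ qE q)] (hq : qE q ≠ ∞) (P : Params (pE q))
    (J : ∀ n, Finset (Fin (P.v n)))
    (hJ : ∀ n (a : Fin (P.v n) → ℝ), ‖∑ i ∈ J n, a i • P.g n i‖ ^ 2 ≤ 2 * ∑ i ∈ J n, a i ^ 2) :
    ∃ S : XSp P.u q →L[ℝ] XSp P.u q, ‖S‖ ≤ 2 ∧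
      ∀ n (t : Fin (P.u (n + 1))),
        S (lp.single (qE q) (n + 1) (EuclideanSpace.single t 1)) =
        if h : (t : ℕ) < P.v n then
          (if (⟨t, h⟩ : Fin (P.v n)) ∈ J n then lp.single (qE q) n (P.g n ⟨t, h⟩) else 0) else 0 := by
  have hR : ∀ n, ∃ R : E P.u (n + 1) →L[ℝ] E P.u n, ‖R‖ ≤ 2 ∧ ∀ t : Fin (P.u (n + 1)),
      R (EuclideanSpace.single t 1) =
        if h : (t : ℕ) < P.v n then
          (if (⟨t, h⟩ : Fin (P.v n)) ∈ J n then P.g n ⟨t, h⟩ else 0) else 0 := by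
    intro n
    set e : Fin (P.v n) ↪ Fin (P.u (n + 1)) :=
      ⟨Fin.castLE (P.v_lt_u n).le, Fin.castLE_injective _⟩ with he
    set R₀ : E P.u (n + 1) →ₗ[ℝ] E P.u n :=
      { toFun := fun y => ∑ j ∈ J n, y (e j) • P.g n j
        map_add' := fun x y => by
          simp only [PiLp.add_apply, add_smul, Finset.sum_add_distrib]
        map_smul' := fun c x => by
          simp only [PiLp.smul_apply, smul_eq_mul, mul_smul, Finset.smul_sum,
            RingHom.id_apply] } with hR₀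
    have hnorm : ∀ y, ‖R₀ y‖ ≤ 2 * ‖y‖ := by
      intro y
      have h2 := hJ n fun j => y (e j)
      have h1 : ∑ j ∈ J n, y (e j) ^ 2 ≤ ‖y‖ ^ 2 := by
        rw [EuclideanSpace.norm_sq_eq]
        have h0 : ∀ j ∈ J n, y (e j) ^ 2 = ‖y (e j)‖ ^ 2 := by
          intro j _
          rw [Real.norm_eq_abs, sq_abs]
        rw [Finset.sum_congr rfl h0, ← Finset.sum_map (J n) e fun t => ‖y t‖ ^ 2]
        exact Finset.sum_le_sum_of_subset_of_nonneg (Finset.subset_univ _)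
          fun _ _ _ => by positivity
      have h3 : ‖R₀ y‖ ^ 2 ≤ (2 * ‖y‖) ^ 2 := by
        change ‖∑ j ∈ J n, y (e j) • P.g n j‖ ^ 2 ≤ _
        nlinarith [sq_nonneg ‖y‖]
      exact (pow_le_pow_iff_left₀ (norm_nonneg _) (by positivity) two_ne_zero).1 h3
    refine ⟨LinearMap.mkContinuous R₀ 2 hnorm, LinearMap.mkContinuous_norm_le _ (by norm_num) _, ?_⟩
    intro t
    change ∑ j ∈ J n, (EuclideanSpace.single t (1 : ℝ) : E P.u (n + 1)) (e j) • P.g n j = _
    have h5 : ∀ j, (EuclideanSpace.single t (1 : ℝ) : E P.u (n + 1)) (e j) =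
        if e j = t then 1 else 0 := fun j => by
      rw [PiLp.single_apply]
    simp only [h5, ite_smul, one_smul, zero_smul]
    by_cases h : (t : ℕ) < P.v n
    · rw [dif_pos h]
      have h6 : ∀ j : Fin (P.v n), e j = t ↔ j = ⟨t, h⟩ := by
        intro j
        constructor
        · intro hj
          have h7 : ((e j : Fin (P.u (n + 1))) : ℕ) = t := by rw [hj]
          exact Fin.ext h7
        · intro hj
          rw [hj]
          rfl
      simp only [h6]
      rw [Finset.sum_ite_eq']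
    · rw [dif_neg h]
      refine Finset.sum_eq_zero fun j _ => if_neg ?_
      intro hj
      apply h
      rw [← hj]
      exact j.2
  choose R hR1 hR2 using hR
  obtain ⟨S, hS, hSa⟩ := exists_shift (E := E P.u) (F := E P.u) (p := qE q) hq
    (fun n => n + 1) R (C := 2) (by norm_num) hR1 (fun k k' h _ _ => by simpa using h)
  refine ⟨S, hS, fun n t => ?_⟩
  refine lp.ext (funext fun k => ?_)
  rw [hSa]
  by_cases hk : k = n
  · subst hk
    rw [lp.single_apply_self, hR2]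
    split_ifs
    · rw [lp.single_apply_self]
    · rfl
    · rfl
  · have hk' : k + 1 ≠ n + 1 := fun h => hk (Nat.succ_injective h)
    rw [lp.single_apply_ne _ _ _ hk', map_zero]
    split_ifs
    · rw [lp.single_apply_ne _ _ _ hk]
    · rfl
    · rfl

private lemma back {q : ℝ} [Fact (1 ≤ qE q)] (P : Params (pE q))
    (I : YSp P.v →L[ℝ] XSp P.u q) (hI : IsIc P I) (D : XSp P.u q →L[ℝ] XSp P.u q) :
    ∃ β ∈ idealGen I, ∀ n (j : Fin (P.v n)), β (eY P.v ⟨n, j⟩) =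
      D (lp.single (qE q) (n + 1) (EuclideanSpace.single ⟨j, j.2.trans (P.v_lt_u n)⟩ 1)) := by
  set τ : Ix P.v → Ix P.v := fun μ =>
    unpos P.v P.v_pos (pos P.u (μ.1 + 1) ⟨μ.2, μ.2.2.trans (P.v_lt_u μ.1)⟩) with hτ
  obtain ⟨B, _, hB⟩ := Y_shuffle (v := P.v) (fun μ => some (τ μ))
  refine ⟨(D.comp I).comp B, (isClosedIdeal_idealGen _).comp _ _ _ (mem_idealGen _), ?_⟩
  intro n j
  change D (I (B (eY P.v ⟨n, j⟩))) = _
  rw [hB, Option.elim_some, hI]
  have h1 : P.tw (τ ⟨n, j⟩) = ⟨n + 1, ⟨j, j.2.trans (P.v_lt_u n)⟩⟩ := by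
    unfold Params.tw
    rw [hτ]
    simp only
    rw [pos_unpos]
    exact unpos_pos P.u_pos ⟨n + 1, ⟨j, j.2.trans (P.v_lt_u n)⟩⟩
  rw [h1]

theorem wPlc : S_Plc := by
  classical
  intro q hq _ P I hI J hJ R hR
  have hq' : qE q ≠ ∞ := by
    unfold NM.qE
    exact ENNReal.ofReal_ne_top
  obtain ⟨D, _, hD⟩ := place hq' P J hJ
  obtain ⟨β, hβ, hβa⟩ := back P I hI D
  have h1 : R = β := by
    refine Y_ext fun ν => ?_
    obtain ⟨n, j⟩ := ν
    rw [hR, hβa, hD]
    have h0 : (((⟨j, j.2.trans (P.v_lt_u n)⟩ : Fin (P.u (n + 1)))) : ℕ) < P.v n := j.2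
    rw [dif_pos h0]
  rw [h1]
  exact hβ

end Pool.Agent.Lib.MP_537232_an.PY
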