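import Pool.Agent.Lib.MP_537232_an.PY.SpecC

set_option autoImplicit false

/-!
# The pairing of the `ℓ_p`-sum and the `ℓ_q`-sum
-/

open Finset Filter Topology
open scoped ENNReal

namespace Pool.Agent.Lib.MP_537232_an.PY

open NM (pE qE)

namespace Prg

theorem toReal_pE {q : ℝ} (hq : 1 < q) : (pE q).toReal = q / (q - 1) :=
  ENNReal.toReal_ofReal (div_nonneg (by linarith) (by linarith))

theorem toReal_qE {q : ℝ} (hq : 1 < q) : (qE q).toReal = q :=
  ENNReal.toReal_ofReal (by linarith)

theorem conj {q : ℝ} (hq : 1 < q) : (q / (q - 1)).HolderConjugate q := by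
  have h1 : q - 1 ≠ 0 := by linarith
  have h2 : q ≠ 0 := by linarith
  rw [Real.holderConjugate_iff]
  refine ⟨?_, ?_⟩
  · rw [lt_div_iff₀ (by linarith)]
    linarith
  · field_simp
    ring

variable {q : ℝ} {u : ℕ → ℕ}

theorem key (hq : 1 < q) (x : USp u (pE q)) (z : XSp u q) :
    (Summable fun n => ‖x n‖ * ‖z n‖) ∧ ∑' n, ‖x n‖ * ‖z n‖ ≤ ‖x‖ * ‖z‖ := by
  have hp : 0 < (pE q).toReal := by
    rw [toReal_pE hq]
    exact div_pos (by linarith) (by linarith)
  have hq' : 0 < (qE q).toReal := by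
    rw [toReal_qE hq]
    linarith
  have h1 := (lp.memℓp x).summable hp
  have h2 := (lp.memℓp z).summable hq'
  have h3 : ((pE q).toReal).HolderConjugate (qE q).toReal := by
    rw [toReal_pE hq, toReal_qE hq]
    exact conj hq
  have h4 := Real.summable_and_inner_le_Lp_mul_Lq_tsum_of_nonneg h3
    (f := fun n => ‖x n‖) (g := fun n => ‖z n‖) (fun n => norm_nonneg _) (fun n => norm_nonneg _) h1 h2
  rw [lp.norm_eq_tsum_rpow hp x, lp.norm_eq_tsum_rpow hq' z]
  exact h4

theorem summ (hq : 1 < q) (x : USp u (pE q)) (z : XSp u q) :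
    Summable fun n => inner ℝ (x n) (z n) := by
  refine Summable.of_norm_bounded (key hq x z).1 fun n => ?_
  exact norm_inner_le_norm _ _

theorem abs_le (hq : 1 < q) (x : USp u (pE q)) (z : XSp u q) :
    ‖∑' n, inner ℝ (x n) (z n)‖ ≤ ‖x‖ * ‖z‖ := by
  have h1 := key hq x z
  refine le_trans ?_ h1.2
  refine (norm_tsum_le_tsum_norm ?_).trans ?_
  · exact Summable.of_nonneg_of_le (fun n => norm_nonneg _) (fun n => norm_inner_le_norm _ _) h1.1
  · exact Summable.tsum_le_tsum (fun n => norm_inner_le_norm _ _)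
      (Summable.of_nonneg_of_le (fun n => norm_nonneg _) (fun n => norm_inner_le_norm _ _) h1.1) h1.1

end Prg

open Prg in
theorem wPrg : S_Prg := by
  intro q hq _ _ u
  let Φ0 : USp u (pE q) →ₗ[ℝ] XSp u q →ₗ[ℝ] ℝ := LinearMap.mk₂ ℝ
    (fun x z => ∑' n, inner ℝ (x n) (z n))
    (fun x x' z => by
      rw [← (summ hq x z).tsum_add (summ hq x' z)]
      refine tsum_congr fun n => ?_
      rw [lp.coeFn_add, Pi.add_apply, inner_add_left])
    (fun c x z => by
      rw [smul_eq_mul, ← tsum_mul_left]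
      refine tsum_congr fun n => ?_
      rw [lp.coeFn_smul, Pi.smul_apply, real_inner_smul_left])
    (fun x z z' => by
      rw [← (summ hq x z).tsum_add (summ hq x z')]
      refine tsum_congr fun n => ?_
      rw [lp.coeFn_add, Pi.add_apply, inner_add_right])
    (fun c x z => by
      rw [smul_eq_mul, ← tsum_mul_left]
      refine tsum_congr fun n => ?_
      rw [lp.coeFn_smul, Pi.smul_apply, real_inner_smul_right])
  refine ⟨LinearMap.mkContinuous₂ Φ0 1 (fun x z => ?_), ?_, ?_, ?_⟩
  · rw [one_mul]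
    exact abs_le hq x z
  · intro x z
    exact abs_le hq x z
  · intro n a z
    change ∑' m, inner ℝ ((lp.single (pE q) n a : USp u (pE q)) m) (z m) = inner ℝ a (z n)
    rw [tsum_eq_single n]
    · rw [lp.single_apply_self]
    · intro m hm
      rw [lp.single_apply_ne _ _ _ hm, inner_zero_left]
  · intro x n b
    change ∑' m, inner ℝ (x m) ((lp.single (qE q) n b : XSp u q) m) = inner ℝ (x n) b
    rw [tsum_eq_single n]
    · rw [lp.single_apply_self]
    · intro m hm
      rw [lp.single_apply_ne _ _ _ hm, inner_zero_right]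

end Pool.Agent.Lib.MP_537232_an.PY
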