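import Pool.Agent.Lib.MP_537232_an.PY.SpecB

set_option autoImplicit false

open Finset Filter Topology
open scoped ENNReal

namespace Pool.Agent.Lib.MP_537232_an.PY

open NM (pE qE)

namespace Rnd

private theorem rd_pos (x N : ℝ) (hN : 0 < N) (hx : 0 ≤ x) :
    ∃ k : ℤ, |(k : ℝ) / N| ≤ |x| ∧ |x - (k : ℝ) / N| ≤ 1 / N ∧ |x - (k : ℝ) / N| ≤ |x| := by
  have h0 : (0 : ℝ) ≤ x * N := mul_nonneg hx hN.le
  have h1 := Int.floor_le (x * N)
  have h2 := Int.lt_floor_add_one (x * N)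
  have h3 : (0 : ℝ) ≤ (⌊x * N⌋ : ℤ) := by exact_mod_cast Int.floor_nonneg.2 h0
  have h4 : ((⌊x * N⌋ : ℤ) : ℝ) / N ≤ x := by rw [div_le_iff₀ hN]; exact h1
  have h5 : 0 ≤ ((⌊x * N⌋ : ℤ) : ℝ) / N := div_nonneg h3 hN.le
  have h6 : x - ((⌊x * N⌋ : ℤ) : ℝ) / N ≤ 1 / N := by
    rw [sub_le_iff_le_add, ← add_div, le_div_iff₀ hN]
    linarith
  refine ⟨⌊x * N⌋, ?_, ?_, ?_⟩
  · rw [abs_of_nonneg h5, abs_of_nonneg hx]
    exact h4
  · rw [abs_of_nonneg (sub_nonneg.2 h4)]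
    exact h6
  · rw [abs_of_nonneg (sub_nonneg.2 h4), abs_of_nonneg hx]
    linarith

private theorem rd (x N : ℝ) (hN : 0 < N) :
    ∃ k : ℤ, |(k : ℝ) / N| ≤ |x| ∧ |x - (k : ℝ) / N| ≤ 1 / N ∧ |x - (k : ℝ) / N| ≤ |x| := by
  rcases le_total 0 x with hx | hx
  · exact rd_pos x N hN hx
  · obtain ⟨k, h1, h2, h3⟩ := rd_pos (-x) N hN (by linarith)
    refine ⟨-k, ?_, ?_, ?_⟩
    · rw [Int.cast_neg, neg_div, abs_neg, ← abs_neg x]
      exact h1
    · have : x - ((-k : ℤ) : ℝ) / N = -(-x - (k : ℝ) / N) := by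
        rw [Int.cast_neg]
        ring
      rw [this, abs_neg]
      exact h2
    · have : x - ((-k : ℤ) : ℝ) / N = -(-x - (k : ℝ) / N) := by
        rw [Int.cast_neg]
        ring
      rw [this, abs_neg, ← abs_neg x]
      exact h3

private theorem pow_le (q x e : ℝ) (hq : 1 < q) (hx : 0 ≤ x) (he : x ≤ e) :
    x ^ q ≤ e ^ (q - 1) * x := by
  rcases hx.eq_or_lt with h | h
  · rw [← h, Real.zero_rpow (by linarith), mul_zero]
  · have h1 : x ^ q = x ^ (q - 1) * x := by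
      rw [← Real.rpow_add_one h.ne', sub_add_cancel]
    rw [h1]
    exact mul_le_mul_of_nonneg_right (Real.rpow_le_rpow hx he (by linarith)) hx

private theorem hasSumY {v : ℕ → ℕ} (b : YSp v) : HasSum (fun l => ‖b l‖) ‖b‖ := by
  have h := lp.hasSum_norm (p := 1) (by norm_num) b
  simpa using h

private theorem memY {v : ℕ → ℕ} (b : YSp v) (f : ∀ l, PiLp 1 (fun _ : Fin (v l) => ℝ))
    (h : ∀ l, ‖f l‖ ≤ ‖b l‖) : Memℓp f 1 := by
  apply memℓp_gen
  simp only [ENNReal.toReal_one, Real.rpow_one]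
  exact Summable.of_nonneg_of_le (fun l => norm_nonneg _) h (hasSumY b).summable

private theorem norm1 {n : ℕ} (f : PiLp 1 (fun _ : Fin n => ℝ)) : ‖f‖ = ∑ i, |f i| := by
  rw [PiLp.norm_eq_of_L1]
  simp only [Real.norm_eq_abs]

end Rnd

open Rnd in
/-- Rounding. -/
theorem wRnd (h1 : S_Sco) : S_Rnd := by
  intro q hq C η hη
  have hC1 : (0 : ℝ) < max C 1 := lt_max_of_lt_right one_pos
  obtain ⟨ε, hε, hεη⟩ : ∃ ε : ℝ, 0 < ε ∧ ε ^ (q - 1) * max C 1 ≤ η ^ q := by
    have hq1 : q - 1 ≠ 0 := by linarith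
    have hpos : 0 < η ^ q / max C 1 := div_pos (Real.rpow_pos_of_pos hη _) hC1
    refine ⟨(η ^ q / max C 1) ^ (q - 1)⁻¹, Real.rpow_pos_of_pos hpos _, ?_⟩
    rw [Real.rpow_inv_rpow hpos.le hq1, div_mul_cancel₀ _ hC1.ne']
  obtain ⟨K, hK⟩ := exists_nat_ge (max C 1 / ε)
  obtain ⟨t, ht⟩ := exists_nat_ge (max (max C 1) (1 / ε))
  have ht1 : max C 1 ≤ t := (le_max_left _ _).trans ht
  have ht2 : 1 / ε ≤ t := (le_max_right _ _).trans ht
  have ht0 : (0 : ℝ) < t := lt_of_lt_of_le hC1 ht1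
  have hte : 1 / (t : ℝ) ≤ ε := by
    rw [div_le_iff₀ ht0]
    rw [div_le_iff₀ hε] at ht2
    linarith
  refine ⟨K, t, ?_⟩
  intro _ P L S hS b hb
  classical
  have hv : ∀ l, 0 < P.v l := fun l => (Nat.zero_le _).trans_lt (P.u_lt_v l)
  have hN : ∀ l, (0 : ℝ) < (t : ℝ) * P.v l := fun l =>
    mul_pos ht0 (by exact_mod_cast hv l)
  choose k hk1 hk2 hk3 using fun (l : ℕ) (i : Fin (P.v l)) => rd (b l i) _ (hN l)
  let f : ∀ l, PiLp 1 (fun _ : Fin (P.v l) => ℝ) := fun l =>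
    if l ∈ L ∧ ε ≤ ‖b l‖ then WithLp.toLp 1 (fun i => (k l i : ℝ) / ((t : ℝ) * P.v l)) else 0
  have hf1 : ∀ l, l ∈ L → ε ≤ ‖b l‖ → ∀ i, f l i = (k l i : ℝ) / ((t : ℝ) * P.v l) := by
    intro l hl hb i
    simp only [f, if_pos (And.intro hl hb)]
  have hf0 : ∀ l, ¬ (l ∈ L ∧ ε ≤ ‖b l‖) → f l = 0 := by
    intro l hl
    simp only [f, if_neg hl]
  have hfb : ∀ l, ‖f l‖ ≤ ‖b l‖ := by
    intro l
    by_cases h : l ∈ L ∧ ε ≤ ‖b l‖
    · rw [norm1, norm1]
      refine Finset.sum_le_sum fun i _ => ?_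
      rw [hf1 l h.1 h.2]
      exact hk1 l i
    · rw [hf0 l h, norm_zero]
      exact norm_nonneg _
  let y : YSp P.v := ⟨f, memY b f hfb⟩
  have hy : ∀ l, y l = f l := fun l => rfl
  have hyb : ‖y‖ ≤ ‖b‖ := hasSum_le hfb (hasSumY y) (hasSumY b)
  have hcard : ∀ s : Finset ℕ, (∀ l ∈ s, y l ≠ 0) → s.card ≤ K := by
    intro s hs
    have h2 : ∀ l ∈ s, ε ≤ ‖b l‖ := by
      intro l hl
      by_contra hcon
      exact hs l hl (hf0 l fun h => hcon h.2)
    have h3 : (s.card : ℝ) * ε ≤ max C 1 := by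
      calc (s.card : ℝ) * ε = ∑ l ∈ s, ε := by rw [Finset.sum_const, nsmul_eq_mul]
        _ ≤ ∑ l ∈ s, ‖b l‖ := Finset.sum_le_sum h2
        _ ≤ ‖b‖ := sum_le_hasSum s (fun l _ => norm_nonneg _) (hasSumY b)
        _ ≤ max C 1 := hb.trans (le_max_left _ _)
    have h4 : (s.card : ℝ) ≤ K := by
      rw [← le_div_iff₀ hε] at h3
      exact h3.trans hK
    exact_mod_cast h4
  have hfin : {l | y l ≠ 0}.Finite := by
    by_contra hinf
    obtain ⟨s, hs, hc⟩ := Set.Infinite.exists_subset_card_eq hinf (K + 1)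
    have h2 := hcard s (fun l hl => hs hl)
    omega
  refine ⟨y, hyb, ?_, hfin, ?_, ?_, ?_⟩
  · intro l hl
    exact hf0 l fun h => hl h.1
  · rw [Set.ncard_eq_toFinset_card _ hfin]
    exact hcard _ fun l hl => by simpa using hl
  · intro l i
    by_cases h : l ∈ L ∧ ε ≤ ‖b l‖
    · refine ⟨k l i, ?_, hf1 l h.1 h.2 i⟩
      have h2 : |b l i| ≤ t := by
        have h3 : |b l i| ≤ ‖b l‖ := by
          rw [norm1]
          exact Finset.single_le_sum (f := fun i => |b l i|) (fun i _ => abs_nonneg _)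
            (Finset.mem_univ i)
        have h4 : ‖b l‖ ≤ ‖b‖ := lp.norm_apply_le_norm one_ne_zero b l
        linarith [le_max_left C 1]
      have h3 := (hk1 l i).trans h2
      rw [abs_div, abs_of_pos (hN l), div_le_iff₀ (hN l)] at h3
      have h4 : ((|k l i| : ℤ) : ℝ) ≤ ((t ^ 2 * P.v l : ℕ) : ℝ) := by
        push_cast
        calc |(k l i : ℝ)| ≤ t * (t * P.v l) := h3
          _ = t ^ 2 * P.v l := by ring
      exact_mod_cast h4
    · refine ⟨0, ?_, ?_⟩
      · rw [abs_zero]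
        exact Int.natCast_nonneg _
      · rw [hy, hf0 l h]
        simp
  · obtain ⟨-, hform⟩ := (h1 q hq P).2.2.1 L S hS
    rw [← map_sub]
    have hq0 : 0 < q := by linarith
    have hqE : (qE q).toReal = q := ENNReal.toReal_ofReal hq0.le
    have hz : ∀ n, ‖(S (b - y) : XSp P.u q) n‖ ^ q ≤ ε ^ (q - 1) * ‖b n‖ := by
      intro n
      by_cases hn : n ∈ L
      · have h2 : ‖(S (b - y) : XSp P.u q) n‖ ≤ ‖(b - y) n‖ := by
          rw [(hform (b - y) n).1 hn, norm1]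
          refine (norm_sum_le _ _).trans (Finset.sum_le_sum fun j _ => ?_)
          rw [norm_smul, P.norm_g, mul_one, Real.norm_eq_abs]
        have h3 : ‖(b - y) n‖ ≤ ε ∧ ‖(b - y) n‖ ≤ ‖b n‖ := by
          rw [lp.coeFn_sub, Pi.sub_apply]
          by_cases h : ε ≤ ‖b n‖
          · constructor
            · calc ‖b n - y n‖ = ∑ i, |b n i - y n i| := by
                    rw [norm1]
                    simp only [PiLp.sub_apply]
                _ ≤ ∑ i : Fin (P.v n), 1 / ((t : ℝ) * P.v n) :=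
                    Finset.sum_le_sum fun i _ => by
                      rw [hy, hf1 n hn h]
                      exact hk2 n i
                _ = 1 / (t : ℝ) := by
                    rw [Finset.sum_const, Finset.card_univ, Fintype.card_fin, nsmul_eq_mul]
                    have : (P.v n : ℝ) ≠ 0 := by exact_mod_cast (hv n).ne'
                    field_simp
                _ ≤ ε := hte
            · rw [norm1, norm1]
              refine Finset.sum_le_sum fun i _ => ?_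
              rw [PiLp.sub_apply, hy, hf1 n hn h]
              exact hk3 n i
          · rw [hy, hf0 n fun h' => h h'.2, sub_zero]
            exact ⟨(not_le.1 h).le, le_rfl⟩
        calc ‖(S (b - y) : XSp P.u q) n‖ ^ q ≤ ‖(b - y) n‖ ^ q :=
              Real.rpow_le_rpow (norm_nonneg _) h2 hq0.le
          _ ≤ ε ^ (q - 1) * ‖(b - y) n‖ := pow_le q _ ε hq (norm_nonneg _) h3.1
          _ ≤ ε ^ (q - 1) * ‖b n‖ :=
              mul_le_mul_of_nonneg_left h3.2 (Real.rpow_nonneg hε.le _)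
      · rw [(hform (b - y) n).2 hn, norm_zero, Real.zero_rpow hq0.ne']
        exact mul_nonneg (Real.rpow_nonneg hε.le _) (norm_nonneg _)
    have h2 : HasSum (fun n => ‖(S (b - y) : XSp P.u q) n‖ ^ q) (‖S (b - y)‖ ^ q) := by
      have h := lp.hasSum_norm (p := qE q) (by rw [hqE]; exact hq0) (S (b - y))
      rw [hqE] at h
      exact h
    have h3 := hasSum_le hz h2 ((hasSumY b).mul_left (ε ^ (q - 1)))
    have h4 : ‖S (b - y)‖ ^ q ≤ η ^ q := by
      refine h3.trans (le_trans ?_ hεη)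
      exact mul_le_mul_of_nonneg_left (hb.trans (le_max_left _ _)) (Real.rpow_nonneg hε.le _)
    exact (Real.rpow_le_rpow_iff (norm_nonneg _) hη.le hq0).1 h4

end Pool.Agent.Lib.MP_537232_an.PY
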