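import Pool.Agent.Lib.MP_537232_an.PY.SpecC

set_option autoImplicit false

/-!
# MP_537232_an, PY/Row: meets for rows from meets for columns
-/

open Finset Filter Topology
open scoped ENNReal

namespace Pool.Agent.Lib.MP_537232_an.PY

open NM (pE qE)

theorem wRow (h1 : S_Prg) (h2 : S_Rwt) (h3 : S_Sti) (h4 : S_Sco) (h5 : S_Wns) (h6 : S_Phi) :
    S_Row := by
  intro q hq _ _ P hcol Z _ _ hZ hZP T I hT hI M N
  obtain ⟨Φ, hΦ⟩ := h1 q hq P.u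
  obtain ⟨hS, ⟨J, hJ⟩, -, -⟩ := h4 q hq P
  choose S hS using hS
  have key : ∀ (L : Set ℕ) R G, Tr Φ hZ R G → (R ∈ phi T I L ↔ G ∈ phi S J L) := by
    intro L R G hRG
    unfold phi
    split_ifs
    · obtain ⟨h7, h8⟩ := (h3 q hq P Φ hΦ Z hZ).1 L (T L) (S L) (hT L) (hS L)
      exact h6 q hq P.u P.v P.v_pos Φ hΦ Z hZ hZP (T L) (S L) h7 h8
        (fun A => h5 q hq P L (S L) (Or.inl (hS L)) A) R G hRG
    · obtain ⟨h7, h8⟩ := (h3 q hq P Φ hΦ Z hZ).2 I J hI hJ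
      exact h6 q hq P.u P.v P.v_pos Φ hΦ Z hZ hZP I J h7 h8
        (fun A => h5 q hq P L J (Or.inr hJ) A) R G hRG
  ext R
  obtain ⟨G, hG⟩ := (h2 q hq P.u P.v Φ hΦ Z hZ).1 R
  rw [key (M ∩ N) R G hG, hcol S J hS hJ M N, Submodule.mem_inf, Submodule.mem_inf,
    key M R G hG, key N R G hG]

end Pool.Agent.Lib.MP_537232_an.PY
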