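import Pool.Agent.Lib.MP_537232_an.PY.SpecC

set_option autoImplicit false

/-!
# Rows and columns
-/

open Finset Filter Topology
open scoped ENNReal

namespace Pool.Agent.Lib.MP_537232_an.PY

open NM (pE qE)

theorem wRwt (h1 : S_Dub) : S_Rwt := by
  intro q hq _ _ u v Φ hΦ Z _ _ hZ
  obtain ⟨d1, -, d3, -⟩ := h1 q hq u Φ hΦ
  have row : ∀ (R : USp u (pE q) →L[ℝ] Z) (ν : Ix v), ∃ ρ : XSp u q, ‖ρ‖ ≤ ‖R‖ ∧
      ∀ x, hZ.c (R x) ν = Φ x ρ := by
    intro R ν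
    obtain ⟨f, hf⟩ := hZ.exists_coord R ν
    obtain ⟨z, hz, hz'⟩ := d1 f
    refine ⟨z, hz.trans (f.opNorm_le_bound (norm_nonneg _) fun x => ?_),
      fun x => by rw [← hf, hz']⟩
    rw [hf, Real.norm_eq_abs]
    exact (hZ.c_le _ ν).trans (R.le_opNorm x)
  have ex : ∀ R : USp u (pE q) →L[ℝ] Z, ∃ G : YSp v →L[ℝ] XSp u q, ‖G‖ ≤ ‖R‖ ∧
      Tr Φ hZ R G := by
    intro R
    choose ρ hρ hρ' using row R
    obtain ⟨S, hS, hS'⟩ := Y_lift ρ (norm_nonneg R) hρ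
    refine ⟨S, hS, fun x ν => ?_⟩
    rw [hS', hρ']
  refine ⟨fun R => ?_, ?_, ?_, ?_⟩
  · obtain ⟨G, -, hG⟩ := ex R
    exact ⟨G, hG⟩
  · intro R G h
    refine le_antisymm ?_ ?_
    · refine R.opNorm_le_bound (norm_nonneg _) fun x => ?_
      refine hZ.le_of _ _ (by positivity) fun ν => ?_
      rw [h x ν]
      calc |Φ x (G (eY v ν))| ≤ ‖x‖ * ‖G (eY v ν)‖ := hΦ.le _ _
        _ ≤ ‖x‖ * (‖G‖ * ‖eY v ν‖) := by
            gcongr
            exact G.le_opNorm _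
        _ = ‖G‖ * ‖x‖ := by rw [norm_eY]; ring
    · obtain ⟨G', hG', hT⟩ := ex R
      have hGG : G = G' := Y_ext fun ν => d3 _ _ fun x => by rw [← h x ν, ← hT x ν]
      rw [hGG]
      exact hG'
  · intro R R' G G' h h' x ν
    rw [ContinuousLinearMap.sub_apply, map_sub, Pi.sub_apply, h x ν, h' x ν,
      ContinuousLinearMap.sub_apply, map_sub]
  · intro s R G h x ν
    rw [ContinuousLinearMap.sum_apply, map_sum, Finset.sum_apply, ContinuousLinearMap.sum_apply,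
      map_sum]
    exact Finset.sum_congr rfl fun r _ => h r x ν

end Pool.Agent.Lib.MP_537232_an.PY
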