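import Pool.Agent.Lib.MP_537232_an.PY.SpecC

set_option autoImplicit false

/-!
# MP_537232_an, directory PY: the operators of the problem are transposed operators of each other
-/

open Finset Filter Topology
open scoped ENNReal

namespace Pool.Agent.Lib.MP_537232_an.PY

open NM (pE qE)

theorem wSti : S_Sti := by
  intro q hq _ _ P Φ hΦ Z _ _ hZ
  have hpt : pE q ≠ ∞ := by
    unfold NM.pE
    exact ENNReal.ofReal_ne_top
  refine ⟨?_, ?_⟩
  · intro M T S hT hS
    refine ⟨?_, ?_⟩
    · intro x ν
      rw [hT x ν, hS ν]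
      by_cases h : ν.1 ∈ M
      · rw [if_pos h, if_pos h, hΦ.sr]
      · rw [if_neg h, if_neg h, map_zero]
    · intro x ε hε
      refine (finite_fst (finite_large hpt x hε)).subset ?_
      intro ν hν
      refine (show ε ≤ |hZ.c (T x) ν| from hν).trans ?_
      rw [hT x ν]
      split_ifs
      · have h := abs_real_inner_le_norm (x ν.1) (P.g ν.1 ν.2)
        rwa [P.norm_g, mul_one] at h
      · rw [abs_zero]
        exact norm_nonneg _
  · intro I J hI hJ
    refine ⟨?_, ?_⟩
    · intro x ν
      rw [hI x ν, hJ ν, hΦ.sr, EuclideanSpace.inner_single_right]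
      simp
    · intro x ε hε
      have h1 : {μ : Ix P.u | μ.1 ∈ {n | ε ≤ ‖x n‖}}.Finite := finite_fst (finite_large hpt x hε)
      refine (h1.preimage (f := P.tw) (fun ν _ μ _ h => P.tw_injective h)).subset ?_
      intro ν hν
      refine (show ε ≤ |hZ.c (I x) ν| from hν).trans ?_
      rw [hI x ν, ← Real.norm_eq_abs]
      exact PiLp.norm_apply_le (x (P.tw ν).1) (P.tw ν).2

end Pool.Agent.Lib.MP_537232_an.PY
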