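import Pool.Agent.Lib.MP_537232_an.PY.SpecB

set_option autoImplicit false

/-!
# MP_537232_an, PY/Stp: the main step (helper62)
-/

open Finset Filter Topology
open scoped ENNReal

namespace Pool.Agent.Lib.MP_537232_an.PY

open NM (pE qE)

namespace Stp

/-- the number of levels of the sum of two families -/
lemma count {v : ℕ → ℕ} {s K : ℕ} (a b : Fin s → YSp v)
    (ha : ∀ r, {l | a r l ≠ 0}.Finite ∧ {l | a r l ≠ 0}.ncard ≤ K)
    (hb : ∀ r, {l | b r l ≠ 0}.Finite ∧ {l | b r l ≠ 0}.ncard ≤ K) (w : Fin s → YSp v)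
    (hw : ∀ r l, w r l = a r l + b r l) {Λ : Type} (y : Λ → Fin s → YSp v) (ν : Λ) (hν : y ν = w) :
    {l | dd y ν l ≠ 0}.Finite ∧ {l | dd y ν l ≠ 0}.ncard ≤ 2 * K * s := by
  classical
  set T : Fin s → Finset ℕ := fun r => (ha r).1.toFinset ∪ (hb r).1.toFinset with hT
  have h1 : {l | dd y ν l ≠ 0} ⊆ ((Finset.univ.biUnion T : Finset ℕ) : Set ℕ) := by
    intro l hl
    rw [Finset.mem_coe, Finset.mem_biUnion]
    by_contra h2
    push Not at h2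
    apply hl
    funext r
    have h3 := h2 r (Finset.mem_univ r)
    simp only [hT, Finset.mem_union, Set.Finite.mem_toFinset, Set.mem_ofPred_eq, not_or,
      not_not] at h3
    change y ν r l = 0
    rw [hν, hw, h3.1, h3.2, add_zero]
  refine ⟨(Finset.finite_toSet _).subset h1, ?_⟩
  refine (Set.ncard_le_ncard h1 (Finset.finite_toSet _)).trans ?_
  rw [Set.ncard_coe_finset]
  refine (Finset.card_biUnion_le_card_mul _ _ (2 * K) fun r _ => ?_).trans ?_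
  · refine (Finset.card_union_le _ _).trans ?_
    have h3 := (ha r).2
    have h4 := (hb r).2
    rw [Set.ncard_eq_toFinset_card _ (ha r).1] at h3
    rw [Set.ncard_eq_toFinset_card _ (hb r).1] at h4
    omega
  · rw [Finset.card_univ, Fintype.card_fin, mul_comm]

end Stp

open Stp in
theorem wStp (h1 : S_Rnd) (h2 : S_Mid) (h3 : S_Ada) (h4 : S_Sco) : S_Stp := by
  classical
  intro q hq _ P C hC hUM hP S I hS hI Q hQ hIQ LM LN L0 hdis hL0 s s0 ε η AM AN BM BN A0 B0 hε hη hT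
  obtain ⟨_, _, h5, _⟩ := h4 q hq P
  -- constants
  obtain ⟨E', hE', hE'0⟩ : ∃ E' : ℝ, E' = C ^ (1 / q) ∧ 0 ≤ E' := ⟨_, rfl, Real.rpow_nonneg hC _⟩
  rw [← hE']
  obtain ⟨D, hD⟩ : ∃ D : ℝ, D = ∑ r, ‖AM r‖ + ∑ r, ‖AN r‖ := ⟨_, rfl⟩
  have hDM : ∑ r, ‖AM r‖ ≤ D := by
    rw [hD]
    exact le_add_of_nonneg_right (Finset.sum_nonneg fun r _ => norm_nonneg _)
  have hD0 : 0 ≤ D := (Finset.sum_nonneg fun r _ => norm_nonneg _).trans hDM
  have hden : 0 < D + E' * D + 1 := by positivity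
  obtain ⟨δ, hδ0, hδ⟩ : ∃ δ : ℝ, 0 < δ ∧ D * δ + E' * (ε + D * δ) + δ ≤ E' * ε + η := by
    refine ⟨η / (D + E' * D + 1), div_pos hη hden, ?_⟩
    have h6 : (D + E' * D + 1) * (η / (D + E' * D + 1)) = η := mul_div_cancel₀ _ hden.ne'
    nlinarith
  obtain ⟨C₁, hC₁⟩ : ∃ C₁ : ℝ, C₁ = ∑ r, ‖BM r‖ + ∑ r, ‖BN r‖ := ⟨_, rfl⟩
  have hBM : ∀ r ν, ‖BM r (eY P.v ν)‖ ≤ C₁ := by
    intro r ν
    have h6 := (BM r).le_opNorm (eY P.v ν)
    rw [norm_eY, mul_one] at h6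
    have h7 : ‖BM r‖ ≤ ∑ r, ‖BM r‖ :=
      Finset.single_le_sum (f := fun r => ‖BM r‖) (fun r _ => norm_nonneg _) (Finset.mem_univ r)
    have h8 : 0 ≤ ∑ r, ‖BN r‖ := Finset.sum_nonneg fun r _ => norm_nonneg _
    linarith
  have hBN : ∀ r ν, ‖BN r (eY P.v ν)‖ ≤ C₁ := by
    intro r ν
    have h6 := (BN r).le_opNorm (eY P.v ν)
    rw [norm_eY, mul_one] at h6
    have h7 : ‖BN r‖ ≤ ∑ r, ‖BN r‖ :=
      Finset.single_le_sum (f := fun r => ‖BN r‖) (fun r _ => norm_nonneg _) (Finset.mem_univ r)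
    have h8 : 0 ≤ ∑ r, ‖BM r‖ := Finset.sum_nonneg fun r _ => norm_nonneg _
    linarith
  have hC₁0 : 0 ≤ C₁ := by
    rw [hC₁]
    exact add_nonneg (Finset.sum_nonneg fun r _ => norm_nonneg _)
      (Finset.sum_nonneg fun r _ => norm_nonneg _)
  obtain ⟨C₀, hC₀⟩ : ∃ C₀ : ℝ, C₀ = ∑ r, ‖B0 r‖ := ⟨_, rfl⟩
  have hC₀0 : 0 ≤ C₀ := by
    rw [hC₀]
    exact Finset.sum_nonneg fun r _ => norm_nonneg _
  have hB0 : ∀ (ν : Ix P.v) r, ‖B0 r (eY P.v ν)‖ ≤ C₀ := by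
    intro ν r
    have h6 := (B0 r).le_opNorm (eY P.v ν)
    rw [norm_eY, mul_one] at h6
    rw [hC₀]
    exact h6.trans (Finset.single_le_sum (f := fun r => ‖B0 r‖) (fun r _ => norm_nonneg _)
      (Finset.mem_univ r))
  -- rounding
  obtain ⟨K, t, hR⟩ := h1 q hq C₁ δ hδ0
  choose yM hyM1 hyM2 hyM3 hyM4 hyM5 hyM6 using fun (ν : Ix P.v) (r : Fin s) =>
    hR P LM (S LM) (hS LM) (BM r (eY P.v ν)) (hBM r ν)
  choose yN hyN1 hyN2 hyN3 hyN4 hyN5 hyN6 using fun (ν : Ix P.v) (r : Fin s) =>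
    hR P LN (S LN) (hS LN) (BN r (eY P.v ν)) (hBN r ν)
  obtain ⟨y, hy⟩ : ∃ y : Ix P.v → Fin s → YSp P.v, y = fun ν r => yM ν r + yN ν r := ⟨_, rfl⟩
  have hyl : ∀ ν r l, y ν r l = yM ν r l + yN ν r l := by
    intro ν r l
    rw [hy]
    rfl
  have hSM : ∀ ν r, S LM (y ν r) = S LM (yM ν r) := by
    intro ν r
    have h6 : S LM (yN ν r) = 0 := by
      refine lp.ext (funext fun n => ?_)
      rw [lp.coeFn_zero, Pi.zero_apply]
      by_cases hn : n ∈ LM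
      · rw [((h5 LM (S LM) (hS LM)).2 (yN ν r) n).1 hn,
          hyN2 ν r n (fun h => Set.disjoint_left.1 hdis hn h)]
        exact Finset.sum_eq_zero fun j _ => by rw [PiLp.zero_apply, zero_smul]
      · exact ((h5 LM (S LM) (hS LM)).2 (yN ν r) n).2 hn
    rw [hy]
    change S LM (yM ν r + yN ν r) = _
    rw [map_add, h6, add_zero]
  have hSN : ∀ ν r, S LN (y ν r) = S LN (yN ν r) := by
    intro ν r
    have h6 : S LN (yM ν r) = 0 := by
      refine lp.ext (funext fun n => ?_)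
      rw [lp.coeFn_zero, Pi.zero_apply]
      by_cases hn : n ∈ LN
      · rw [((h5 LN (S LN) (hS LN)).2 (yM ν r) n).1 hn,
          hyM2 ν r n (fun h => Set.disjoint_left.1 hdis h hn)]
        exact Finset.sum_eq_zero fun j _ => by rw [PiLp.zero_apply, zero_smul]
      · exact ((h5 LN (S LN) (hS LN)).2 (yM ν r) n).2 hn
    rw [hy]
    change S LN (yM ν r + yN ν r) = _
    rw [map_add, h6, zero_add]
  -- the estimate for the rounded columns
  have hAMδ : ∀ ν, ‖∑ r, AM r (S LM (BM r (eY P.v ν)) - S LM (yM ν r))‖ ≤ (∑ r, ‖AM r‖) * δ := by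
    intro ν
    rw [Finset.sum_mul]
    refine (norm_sum_le _ _).trans (Finset.sum_le_sum fun r _ => ?_)
    refine ((AM r).le_opNorm _).trans ?_
    exact mul_le_mul_of_nonneg_left (hyM6 ν r) (norm_nonneg _)
  have hANδ : ∀ ν, ‖∑ r, AN r (S LN (BN r (eY P.v ν)) - S LN (yN ν r))‖ ≤ (∑ r, ‖AN r‖) * δ := by
    intro ν
    rw [Finset.sum_mul]
    refine (norm_sum_le _ _).trans (Finset.sum_le_sum fun r _ => ?_)
    refine ((AN r).le_opNorm _).trans ?_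
    exact mul_le_mul_of_nonneg_left (hyN6 ν r) (norm_nonneg _)
  have hcol : ∀ ν, ‖∑ r, AM r (S LM (y ν r)) - ∑ r, AN r (S LN (y ν r)) -
      ∑ r, A0 r (S L0 (B0 r (eY P.v ν)))‖ ≤ ε + D * δ := by
    intro ν
    have h6 := ContinuousLinearMap.le_opNorm (∑ r, (AM r).comp ((S LM).comp (BM r)) -
      ∑ r, (AN r).comp ((S LN).comp (BN r)) - ∑ r, (A0 r).comp ((S L0).comp (B0 r))) (eY P.v ν)
    rw [norm_eY, mul_one] at h6
    have h7 : (∑ r, (AM r).comp ((S LM).comp (BM r)) -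
      ∑ r, (AN r).comp ((S LN).comp (BN r)) - ∑ r, (A0 r).comp ((S L0).comp (B0 r))) (eY P.v ν) =
      ∑ r, AM r (S LM (BM r (eY P.v ν))) - ∑ r, AN r (S LN (BN r (eY P.v ν))) -
      ∑ r, A0 r (S L0 (B0 r (eY P.v ν))) := by
      rw [sub_apply, sub_apply, _root_.sum_apply, _root_.sum_apply, _root_.sum_apply]
      rfl
    rw [h7] at h6
    have h8 : ∑ r, AM r (S LM (y ν r)) - ∑ r, AN r (S LN (y ν r)) -
        ∑ r, A0 r (S L0 (B0 r (eY P.v ν))) =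
        (∑ r, AM r (S LM (BM r (eY P.v ν))) - ∑ r, AN r (S LN (BN r (eY P.v ν))) -
          ∑ r, A0 r (S L0 (B0 r (eY P.v ν)))) -
        ∑ r, AM r (S LM (BM r (eY P.v ν)) - S LM (yM ν r)) +
        ∑ r, AN r (S LN (BN r (eY P.v ν)) - S LN (yN ν r)) := by
      simp only [hSM, hSN, map_sub, Finset.sum_sub_distrib]
      abel
    rw [h8]
    have h9 := hAMδ ν
    have h10 := hANδ ν
    have h11 : D * δ = (∑ r, ‖AM r‖) * δ + (∑ r, ‖AN r‖) * δ := by rw [hD, add_mul]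
    refine (norm_add_le _ _).trans ?_
    have h12 := norm_sub_le (∑ r, AM r (S LM (BM r (eY P.v ν))) -
      ∑ r, AN r (S LN (BN r (eY P.v ν))) - ∑ r, A0 r (S L0 (B0 r (eY P.v ν))))
      (∑ r, AM r (S LM (BM r (eY P.v ν)) - S LM (yM ν r)))
    linarith [h6.trans hT]
  -- adapted coefficients
  obtain ⟨c, c0, hc1, hc2, hc3, hc4⟩ := h2 q hq P C hC hUM (Ix P.v) LM LN L0 (S LM) (S LN) (S L0) hdis
    (hS LM) (hS LN) (hS L0) s s0 (2 * K * s) (2 * C₁) C₀ (ε + D * δ) δ AM AN A0 y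
    (fun ν r => B0 r (eY P.v ν)) (by positivity) hC₀0 (by positivity) hδ0
    (fun ν r => by
      rw [hy]
      refine (norm_add_le _ _).trans ?_
      have h6 := (hyM1 ν r).trans (hBM r ν)
      have h7 := (hyN1 ν r).trans (hBN r ν)
      linarith) (fun ν r => hB0 ν r)
    (fun ν => count (yM ν) (yN ν) (fun r => ⟨hyM3 ν r, hyM4 ν r⟩) (fun r => ⟨hyN3 ν r, hyN4 ν r⟩)
      (y ν) (fun r l => hyl ν r l) y ν rfl)
    (fun ν r l h6 h7 => by rw [hyl, hyM2 ν r l h6, hyN2 ν r l h7, add_zero]) hcol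
  rw [← hE'] at hc4
  -- the operators
  have hBc : ∀ r, ∃ B : YSp P.v →L[ℝ] YSp P.v, ∀ ν, B (eY P.v ν) = c ν r := by
    intro r
    obtain ⟨B, _, hB⟩ := Y_lift (v := P.v) (X := YSp P.v) (fun ν => c ν r)
      (C := 3 * ((2 * K * s : ℕ) : ℝ) * (s * (2 * C₁) + 1)) (by positivity) (fun ν => hc1 ν r)
    exact ⟨B, hB⟩
  choose Bc hBc using hBc
  have hBc0 : ∀ r, ∃ B : YSp P.v →L[ℝ] YSp P.v, ∀ ν, B (eY P.v ν) = c0 ν r := by
    intro r
    obtain ⟨B, _, hB⟩ := Y_lift (v := P.v) (X := YSp P.v) (fun ν => c0 ν r)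
      (C := 2 * ((2 * K * s : ℕ) : ℝ) * C₀) (by positivity) (fun ν => hc2 ν r)
    exact ⟨B, hB⟩
  choose Bc0 hBc0 using hBc0
  have hgd : ∀ ν r l, y ν r l ∈ Gd t (P.v l) := by
    intro ν r l
    rw [hyl]
    by_cases h6 : l ∈ LN
    · rw [hyM2 ν r l (fun h => Set.disjoint_left.1 hdis h h6), zero_add]
      exact hyN5 ν r l
    · rw [hyN2 ν r l h6, add_zero]
      exact hyM5 ν r l
  have hmem : ∀ (L : Set ℕ) r, (S L).comp (Bc r) ∈ Q := fun L r =>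
    hIQ (h3 q hq P hP S I hS hI t s y hgd L (Bc r) (fun ν μ l h6 => by
      rw [hBc, hBc, hc3 ν μ r l h6]))
  refine ⟨∑ r, (AM r).comp ((S LM).comp (Bc r)) + ∑ r, (AN r).comp ((S LN).comp (Bc r)) +
    ∑ r, (A0 r).comp ((S L0).comp (Bc0 r)), ?_, ?_⟩
  · refine Submodule.add_mem _ (Submodule.add_mem _ (Submodule.sum_mem _ fun r _ => ?_)
      (Submodule.sum_mem _ fun r _ => ?_)) (Submodule.sum_mem _ fun r _ => ?_)
    · exact hQ.left _ (hmem LM r)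
    · exact hQ.left _ (hmem LN r)
    · exact hQ.left _ (hQ.right _ hL0)
  · refine Y_norm_le _ (by positivity) fun ν => ?_
    have h6 : (∑ r, (AM r).comp ((S LM).comp (BM r)) -
        (∑ r, (AM r).comp ((S LM).comp (Bc r)) + ∑ r, (AN r).comp ((S LN).comp (Bc r)) +
          ∑ r, (A0 r).comp ((S L0).comp (Bc0 r)))) (eY P.v ν) =
        ∑ r, AM r (S LM (BM r (eY P.v ν))) - (∑ r, AM r (S LM (Bc r (eY P.v ν))) +
          ∑ r, AN r (S LN (Bc r (eY P.v ν))) + ∑ r, A0 r (S L0 (Bc0 r (eY P.v ν)))) := by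
      rw [sub_apply, add_apply, add_apply, _root_.sum_apply, _root_.sum_apply, _root_.sum_apply, _root_.sum_apply]
      rfl
    rw [h6]
    simp only [hBc, hBc0]
    have h7 : ∑ r, AM r (S LM (BM r (eY P.v ν))) - (∑ r, AM r (S LM (c ν r)) +
          ∑ r, AN r (S LN (c ν r)) + ∑ r, A0 r (S L0 (c0 ν r))) =
        ∑ r, AM r (S LM (BM r (eY P.v ν)) - S LM (yM ν r)) +
        (∑ r, AM r (S LM (y ν r)) - (∑ r, AM r (S LM (c ν r)) +
          ∑ r, AN r (S LN (c ν r)) + ∑ r, A0 r (S L0 (c0 ν r)))) := by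
      simp only [hSM, map_sub, Finset.sum_sub_distrib]
      abel
    rw [h7]
    refine (norm_add_le _ _).trans ?_
    have h8 := hAMδ ν
    have h9 := hc4 ν
    have h10 : (∑ r, ‖AM r‖) * δ ≤ D * δ := mul_le_mul_of_nonneg_right hDM hδ0.le
    linarith

end Pool.Agent.Lib.MP_537232_an.PY
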