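import Pool.Agent.Lib.MP_537232_an.PY.SpecC

set_option autoImplicit false

/-!
# MP_537232_an, directory PY: transposed operators (statement `S_Trp`)
-/

open Finset Filter Topology
open scoped ENNReal

namespace Pool.Agent.Lib.MP_537232_an.PY

open NM (pE qE)

namespace Trp

/-- The transposed operator for a perfect pairing. -/
theorem gen {E F : Type} [NormedAddCommGroup E] [NormedSpace ℝ E] [NormedAddCommGroup F] [NormedSpace ℝ F]
    (Ψ : E →L[ℝ] F →L[ℝ] ℝ) (hle : ∀ x z, |Ψ x z| ≤ ‖x‖ * ‖z‖)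
    (hf : ∀ f : E →L[ℝ] ℝ, ∃ z, ‖z‖ ≤ ‖f‖ ∧ ∀ x, f x = Ψ x z)
    (hu : ∀ z z', (∀ x, Ψ x z = Ψ x z') → z = z') (B : E →L[ℝ] E) :
    ∃ B' : F →L[ℝ] F, ∀ x z, Ψ (B x) z = Ψ x (B' z) := by
  choose g hg1 hg2 using fun z : F => hf ((Ψ.flip z).comp B)
  have hg3 : ∀ z x, Ψ (B x) z = Ψ x (g z) := by
    intro z x
    have h := hg2 z x
    simpa using h
  have hn : ∀ z, ‖g z‖ ≤ ‖B‖ * ‖z‖ := by
    intro z
    refine (hg1 z).trans ?_
    refine ContinuousLinearMap.opNorm_le_bound _ (by positivity) ?_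
    intro x
    have h1 : ((Ψ.flip z).comp B) x = Ψ (B x) z := by simp
    rw [h1, Real.norm_eq_abs]
    refine (hle (B x) z).trans ?_
    have h2 := B.le_opNorm x
    calc ‖B x‖ * ‖z‖ ≤ (‖B‖ * ‖x‖) * ‖z‖ := by gcongr
      _ = ‖B‖ * ‖z‖ * ‖x‖ := by ring
  let L : F →ₗ[ℝ] F :=
    { toFun := g
      map_add' := by
        intro z z'
        apply hu
        intro x
        rw [← hg3, map_add, hg3, hg3, map_add]
      map_smul' := by
        intro c z
        apply hu
        intro x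
        rw [← hg3, map_smul, hg3, RingHom.id_apply, map_smul] }
  refine ⟨L.mkContinuous ‖B‖ hn, ?_⟩
  intro x z
  rw [LinearMap.mkContinuous_apply]
  exact hg3 z x

end Trp

theorem wTrp (h1 : S_Dub) : S_Trp := by
  intro q hq _ _ u Φ hΦ
  obtain ⟨d1, d2, d3, d4⟩ := h1 q hq u Φ hΦ
  refine ⟨?_, ?_⟩
  · intro B
    exact Trp.gen Φ hΦ.le d1 d3 B
  · intro A
    obtain ⟨A', hA'⟩ := Trp.gen Φ.flip (fun z x => by
        rw [ContinuousLinearMap.flip_apply, mul_comm]
        exact hΦ.le x z) (fun f => by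
        obtain ⟨x, hx1, hx2⟩ := d2 f
        exact ⟨x, hx1, fun z => by rw [hx2 z, ContinuousLinearMap.flip_apply]⟩)
      (fun x x' h => d4 x x' (fun z => by
        have := h z
        simpa using this)) A
    refine ⟨A', ?_⟩
    intro x z
    have := hA' z x
    simpa using this.symm

end Pool.Agent.Lib.MP_537232_an.PY
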