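import Pool.Agent.Lib.MP_537232_an.PY.SpecA

set_option autoImplicit false

open Finset Filter Topology
open scoped ENNReal

namespace Pool.Agent.Lib.MP_537232_an.PY

private theorem Udu.hold {F : Type} [Fintype F] (w : F → ℝ) (hw : ∀ a, 0 < w a) (p q : ℝ)
    (hpq : p.HolderConjugate q) (x y : F → ℝ) (hx : ∀ a, 0 ≤ x a) (hy : ∀ a, 0 ≤ y a) :
    ∑ a, w a * (x a * y a) ≤
      (∑ a, w a * x a ^ p) ^ (1 / p) * (∑ a, w a * y a ^ q) ^ (1 / q) := by
  have h := Real.inner_le_Lp_mul_Lq_of_nonneg (univ : Finset F) hpq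
    (f := fun a => w a ^ (1 / p) * x a) (g := fun a => w a ^ (1 / q) * y a)
    (fun a _ => mul_nonneg (Real.rpow_nonneg (hw a).le _) (hx a))
    (fun a _ => mul_nonneg (Real.rpow_nonneg (hw a).le _) (hy a))
  have hp0 : p ≠ 0 := hpq.ne_zero
  have hq0 : q ≠ 0 := hpq.symm.ne_zero
  have e1 : ∀ a, (w a ^ (1 / p) * x a) ^ p = w a * x a ^ p := fun a => by
    rw [Real.mul_rpow (Real.rpow_nonneg (hw a).le _) (hx a), ← Real.rpow_mul (hw a).le,
      one_div_mul_cancel hp0, Real.rpow_one]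
  have e2 : ∀ a, (w a ^ (1 / q) * y a) ^ q = w a * y a ^ q := fun a => by
    rw [Real.mul_rpow (Real.rpow_nonneg (hw a).le _) (hy a), ← Real.rpow_mul (hw a).le,
      one_div_mul_cancel hq0, Real.rpow_one]
  have e3 : ∀ a, w a ^ (1 / p) * x a * (w a ^ (1 / q) * y a) = w a * (x a * y a) := fun a => by
    have : w a ^ (1 / p) * w a ^ (1 / q) = w a := by
      rw [← Real.rpow_add (hw a), one_div, one_div, hpq.inv_add_inv_eq_one, Real.rpow_one]
    calc w a ^ (1 / p) * x a * (w a ^ (1 / q) * y a)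
        = (w a ^ (1 / p) * w a ^ (1 / q)) * (x a * y a) := by ring
      _ = _ := by rw [this]
  simp only [e1, e2, e3] at h
  exact h

private theorem Udu.dual (h1 : S_Cep) {F : Type} [Fintype F] (w : F → ℝ) (hw : ∀ a, 0 < w a)
    (r : ℕ → F → F → Prop) (hr : Flt r) (θ : ℕ → ℝ) (n : ℕ) {H : Type} [NormedAddCommGroup H]
    [InnerProductSpace ℝ H] (f g : F → H) :
    ∑ a, w a * inner ℝ (g a) (mt w r θ n f a) = ∑ a, w a * inner ℝ (mt w r θ n g a) (f a) := by
  have h7 : ∀ j, ∑ a, w a * inner ℝ (g a) (ce w (r j) f a) =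
      ∑ a, w a * inner ℝ (ce w (r j) g a) (f a) := fun j =>
    (h1 F w hw (r j) (hr.1 j)).2.2.2.2.2.2 H f g
  have e1 : ∀ a, w a * inner ℝ (g a) (mt w r θ n f a) = ∑ j ∈ range n,
      θ j * (w a * inner ℝ (g a) (ce w (r (j + 1)) f a) - w a * inner ℝ (g a) (ce w (r j) f a)) := by
    intro a
    rw [mt, inner_sum, mul_sum]
    refine sum_congr rfl fun j _ => ?_
    rw [inner_smul_right, inner_sub_right]
    ring
  have e2 : ∀ a, w a * inner ℝ (mt w r θ n g a) (f a) = ∑ j ∈ range n,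
      θ j * (w a * inner ℝ (ce w (r (j + 1)) g a) (f a) - w a * inner ℝ (ce w (r j) g a) (f a)) := by
    intro a
    rw [mt, sum_inner, mul_sum]
    refine sum_congr rfl fun j _ => ?_
    rw [real_inner_smul_left, inner_sub_left]
    ring
  rw [sum_congr rfl fun a _ => e1 a, sum_congr rfl fun a _ => e2 a, sum_comm,
    sum_comm (s := univ) (t := range n)
      (f := fun a j => θ j * (w a * inner ℝ (ce w (r (j + 1)) g a) (f a) -
        w a * inner ℝ (ce w (r j) g a) (f a)))]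
  refine sum_congr rfl fun j _ => ?_
  rw [← mul_sum, ← mul_sum, sum_sub_distrib, sum_sub_distrib, h7, h7]

theorem wUdu (h1 : S_Cep) (h2 : S_Bmt) : S_Udu := by
  intro q hq
  rcases le_or_gt 2 q with h | h
  · exact h2 q h
  have hpq : (q / (q - 1)).HolderConjugate q := (Real.HolderConjugate.conjExponent hq).symm
  have hq1 : 0 < q - 1 := by linarith
  have hp2 : 2 ≤ q / (q - 1) := by
    rw [le_div_iff₀ hq1]
    linarith
  obtain ⟨C, hC, hU⟩ := h2 (q / (q - 1)) hp2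
  set p := q / (q - 1) with hp
  have hp0 : 0 < p := by linarith
  have hq0 : 0 < q := by linarith
  refine ⟨(C ^ (1 / p)) ^ q, Real.rpow_pos_of_pos (Real.rpow_pos_of_pos hC _) _, ?_⟩
  intro H _ _ F _ w hw r hr θ hθ n f
  set g : F → H := mt w r θ n f with hg
  set k : F → H := fun a => ‖g a‖ ^ (q - 2) • g a with hk
  have kn : ∀ a, ‖k a‖ = ‖g a‖ ^ (q - 1) := fun a => by
    rw [hk]
    simp only [norm_smul, Real.norm_eq_abs, abs_of_nonneg (Real.rpow_nonneg (norm_nonneg _) _)]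
    rcases eq_or_ne (‖g a‖) 0 with h0 | h0
    · rw [h0, Real.zero_rpow (by linarith : q - 1 ≠ 0), mul_zero]
    · rw [show q - 1 = (q - 2) + 1 by ring, Real.rpow_add_one h0]
  have kp : ∀ a, ‖k a‖ ^ p = ‖g a‖ ^ q := fun a => by
    rw [kn, ← Real.rpow_mul (norm_nonneg _), hp]
    congr 1
    field_simp
  have ki : ∀ a, inner ℝ (k a) (g a) = ‖g a‖ ^ q := fun a => by
    rw [hk]
    simp only [real_inner_smul_left, real_inner_self_eq_norm_sq]
    rcases eq_or_ne (‖g a‖) 0 with h0 | h0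
    · rw [h0, Real.zero_rpow hq0.ne']
      simp
    · rw [show q = (q - 2) + 2 by ring, Real.rpow_add (lt_of_le_of_ne (norm_nonneg _) (Ne.symm h0)),
        Real.rpow_two]
      ring_nf
  have hG0 : 0 ≤ ∑ a, w a * ‖g a‖ ^ q :=
    sum_nonneg fun a _ => mul_nonneg (hw a).le (Real.rpow_nonneg (norm_nonneg _) _)
  have hA0 : 0 ≤ ∑ a, w a * ‖f a‖ ^ q :=
    sum_nonneg fun a _ => mul_nonneg (hw a).le (Real.rpow_nonneg (norm_nonneg _) _)
  have hK0 : 0 ≤ ∑ a, w a * ‖mt w r θ n k a‖ ^ p :=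
    sum_nonneg fun a _ => mul_nonneg (hw a).le (Real.rpow_nonneg (norm_nonneg _) _)
  have hUk := hU H F w hw r hr θ hθ n k
  have s1 : ∑ a, w a * ‖g a‖ ^ q ≤ ∑ a, w a * (‖mt w r θ n k a‖ * ‖f a‖) := by
    calc ∑ a, w a * ‖g a‖ ^ q = ∑ a, w a * inner ℝ (k a) (g a) :=
          sum_congr rfl fun a _ => by rw [ki]
      _ = ∑ a, w a * inner ℝ (mt w r θ n k a) (f a) := Udu.dual h1 w hw r hr θ n f k
      _ ≤ _ := sum_le_sum fun a _ =>
          mul_le_mul_of_nonneg_left (real_inner_le_norm _ _) (hw a).le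
  have s2 := Udu.hold w hw p q hpq (fun a => ‖mt w r θ n k a‖) (fun a => ‖f a‖)
    (fun a => norm_nonneg _) (fun a => norm_nonneg _)
  have s3 : (∑ a, w a * ‖mt w r θ n k a‖ ^ p) ^ (1 / p) ≤
      C ^ (1 / p) * (∑ a, w a * ‖g a‖ ^ q) ^ (1 / p) := by
    rw [← Real.mul_rpow hC.le hG0]
    refine Real.rpow_le_rpow hK0 (hUk.trans (le_of_eq ?_)) (by positivity)
    rw [sum_congr rfl fun a _ => by rw [kp]]
  set G := ∑ a, w a * ‖g a‖ ^ q with hGd
  set A := ∑ a, w a * ‖f a‖ ^ q with hAd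
  have s4 : G ≤ C ^ (1 / p) * G ^ (1 / p) * A ^ (1 / q) :=
    (s1.trans s2).trans (mul_le_mul_of_nonneg_right s3 (Real.rpow_nonneg hA0 _))
  change G ≤ (C ^ (1 / p)) ^ q * A
  rcases hG0.eq_or_lt with h0 | h0
  · rw [← h0]
    positivity
  have hs : G ^ (1 / p) * G ^ (1 / q) = G := by
    rw [← Real.rpow_add h0, one_div, one_div, hpq.inv_add_inv_eq_one, Real.rpow_one]
  have hGp : 0 < G ^ (1 / p) := Real.rpow_pos_of_pos h0 _
  have s5 : G ^ (1 / q) ≤ C ^ (1 / p) * A ^ (1 / q) := by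
    refine le_of_mul_le_mul_left ?_ hGp
    rw [hs]
    calc G ≤ C ^ (1 / p) * G ^ (1 / p) * A ^ (1 / q) := s4
      _ = _ := by ring
  have s6 := Real.rpow_le_rpow (Real.rpow_nonneg h0.le _) s5 hq0.le
  rw [← Real.rpow_mul h0.le, one_div_mul_cancel hq0.ne', Real.rpow_one,
    Real.mul_rpow (Real.rpow_nonneg hC.le _) (Real.rpow_nonneg hA0 _), ← Real.rpow_mul hA0,
    one_div_mul_cancel hq0.ne', Real.rpow_one] at s6
  exact s6

end Pool.Agent.Lib.MP_537232_an.PY
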