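import Pool.Agent.Lib.MP_537232_an.PY.SpecA

set_option autoImplicit false

open Finset
open scoped ENNReal

namespace Pool.Agent.Lib.MP_537232_an.PY

open NM (pE qE)

private theorem Ulp_map {F X Y : Type} [Fintype F] [NormedAddCommGroup X] [NormedSpace ℝ X]
    [NormedAddCommGroup Y] [NormedSpace ℝ Y] (L : X →L[ℝ] Y) (w : F → ℝ)
    (r : ℕ → F → F → Prop) (θ : ℕ → ℝ) (n : ℕ) (f : F → X) (a : F) :
    L (mt w r θ n f a) = mt w r θ n (fun a => L (f a)) a := by
  simp only [mt, ce, map_sum, map_smul, map_sub]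

/-- The space `U_*`. -/
theorem wUlp (h1 : S_Udu) : S_Ulp := by
  intro q hq
  obtain ⟨C, hC, hU⟩ := h1 q hq
  refine ⟨C, hC, ?_⟩
  intro u _ F _ w hw r hr θ hθ n f
  have hq0 : 0 < q := by linarith
  have hqE : (qE q).toReal = q := ENNReal.toReal_ofReal hq0.le
  have hnorm : ∀ x : XSp u q, HasSum (fun k => ‖x k‖ ^ q) (‖x‖ ^ q) := by
    intro x
    have h := lp.hasSum_norm (p := qE q) (by rw [hqE]; exact hq0) x
    rw [hqE] at h
    exact h
  have h2 : HasSum (fun k => ∑ a, w a * ‖mt w r θ n (fun a => f a k) a‖ ^ q)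
      (∑ a, w a * ‖mt w r θ n f a‖ ^ q) := by
    refine hasSum_sum fun a _ => ?_
    have h3 := (hnorm (mt w r θ n f a)).mul_left (w a)
    have h5 : ∀ k, mt w r θ n (fun a => f a k) a = (mt w r θ n f a : XSp u q) k := fun k =>
      (Ulp_map (lp.evalCLM ℝ (E u) (qE q) k) w r θ n f a).symm
    simp only [h5]
    exact h3
  have h4 : HasSum (fun k => C * ∑ a, w a * ‖f a k‖ ^ q) (C * ∑ a, w a * ‖f a‖ ^ q) :=
    (hasSum_sum fun a _ => (hnorm (f a)).mul_left (w a)).mul_left C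
  exact hasSum_le (fun k => hU (E u k) F w hw r hr θ hθ n (fun a => f a k)) h2 h4

end Pool.Agent.Lib.MP_537232_an.PY
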