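import Pool.Agent.Lib.MP_537232_an.PY.SpecB
import Pool.Agent.Lib.MP_537232_an.PG.Cnv

set_option autoImplicit false

/-!
# MP_537232_an, directory PY, Wlm: weak limits
-/

open Finset Filter Topology
open scoped ENNReal

namespace Pool.Agent.Lib.MP_537232_an.PY

open NM (pE qE)

namespace Wlm

/-- the coordinate functional -/
noncomputable def cf (v : ℕ → ℕ) (ν : Ix v) : YSp v →L[ℝ] ℝ :=
  (PiLp.proj 1 (fun _ : Fin (v ν.1) => ℝ) ν.2).comp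
    (lp.evalCLM ℝ (fun n => PiLp 1 (fun _ : Fin (v n) => ℝ)) 1 ν.1)

lemma cf_apply (v : ℕ → ℕ) (ν : Ix v) (y : YSp v) : cf v ν y = y ν.1 ν.2 := rfl

open Classical in
lemma scalar {v : ℕ → ℕ} (ψ : YSp v →L[ℝ] ℝ)
    (hψ : ∀ ε : ℝ, 0 < ε → {ν : Ix v | ε ≤ |ψ (eY v ν)|}.Finite)
    {J : Type} {𝓕 : Filter J} {C : ℝ} {c : J → YSp v} {c' : YSp v} (hc : ∀ j, ‖c j‖ ≤ C)
    (hl : ∀ l i, Tendsto (fun j => c j l i) 𝓕 (𝓝 (c' l i))) :
    Tendsto (fun j => ψ (c j)) 𝓕 (𝓝 (ψ c')) := by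
  rw [Metric.tendsto_nhds]
  intro ε hε
  -- choose δ
  set D : ℝ := |C| + ‖c'‖ + 1 with hD
  have hDpos : 0 < D := by positivity
  set δ : ℝ := ε / (2 * D) with hδ
  have hδpos : 0 < δ := by positivity
  set F : Finset (Ix v) := (hψ δ hδpos).toFinset with hF
  set ψ' : YSp v →L[ℝ] ℝ := ψ - ∑ ν ∈ F, ψ (eY v ν) • cf v ν with hψ'
  have happ : ∀ y, ψ' y = ψ y - ∑ ν ∈ F, ψ (eY v ν) * y ν.1 ν.2 := by
    intro y
    rw [hψ', _root_.sub_apply, _root_.sum_apply]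
    rfl
  have hnorm : ‖ψ'‖ ≤ δ := by
    refine Y_norm_le ψ' hδpos.le fun μ => ?_
    rw [happ, Real.norm_eq_abs]
    have h1 : (∑ ν ∈ F, ψ (eY v ν) * (eY v μ) ν.1 ν.2) = if μ ∈ F then ψ (eY v μ) else 0 := by
      have : ∀ ν ∈ F, ψ (eY v ν) * (eY v μ) ν.1 ν.2 = if μ = ν then ψ (eY v ν) else 0 := by
        intro ν _
        rw [PG.eY_apply]
        by_cases h : μ = ν
        · subst h; simp
        · rw [if_neg (show ¬ μ = ⟨ν.1, ν.2⟩ from h), if_neg h, mul_zero]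
      rw [Finset.sum_congr rfl this, Finset.sum_ite_eq]
    rw [h1]
    by_cases h : μ ∈ F
    · rw [if_pos h, sub_self, abs_zero]; exact hδpos.le
    · rw [if_neg h, sub_zero]
      have : ¬ δ ≤ |ψ (eY v μ)| := fun h' => h (by rw [hF, Set.Finite.mem_toFinset]; exact h')
      exact (not_le.1 this).le
  -- the finite part tends to 0
  have hfin : Tendsto (fun j => ∑ ν ∈ F, ψ (eY v ν) * (c j ν.1 ν.2 - c' ν.1 ν.2)) 𝓕 (𝓝 0) := by
    have : Tendsto (fun j => ∑ ν ∈ F, ψ (eY v ν) * (c j ν.1 ν.2 - c' ν.1 ν.2)) 𝓕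
        (𝓝 (∑ ν ∈ F, ψ (eY v ν) * (c' ν.1 ν.2 - c' ν.1 ν.2))) :=
      tendsto_finsetSum _ fun ν _ => ((hl ν.1 ν.2).sub_const _).const_mul _
    simpa using this
  have hev := (Metric.tendsto_nhds.1 hfin) (ε / 2) (by positivity)
  filter_upwards [hev] with j hj
  rw [Real.dist_eq, sub_zero] at hj
  rw [Real.dist_eq]
  have hdec : ψ (c j) - ψ c' = ψ' (c j - c')
      + ∑ ν ∈ F, ψ (eY v ν) * (c j ν.1 ν.2 - c' ν.1 ν.2) := by
    rw [map_sub ψ', happ, happ]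
    have : (∑ ν ∈ F, ψ (eY v ν) * (c j ν.1 ν.2 - c' ν.1 ν.2))
        = (∑ ν ∈ F, ψ (eY v ν) * c j ν.1 ν.2) - ∑ ν ∈ F, ψ (eY v ν) * c' ν.1 ν.2 := by
      rw [← Finset.sum_sub_distrib]
      exact Finset.sum_congr rfl fun ν _ => by ring
    rw [this]
    ring
  rw [hdec]
  have h2 : |ψ' (c j - c')| ≤ ε / 2 := by
    have h3 : |ψ' (c j - c')| ≤ δ * ‖c j - c'‖ := by
      rw [← Real.norm_eq_abs]
      exact (ψ'.le_opNorm _).trans (mul_le_mul_of_nonneg_right hnorm (norm_nonneg _))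
    have h4 : ‖c j - c'‖ ≤ D := by
      have := norm_sub_le (c j) c'
      have h5 := hc j
      have h6 := le_abs_self C
      rw [hD]; linarith
    calc |ψ' (c j - c')| ≤ δ * D := h3.trans (mul_le_mul_of_nonneg_left h4 hδpos.le)
      _ = ε / 2 := by rw [hδ]; field_simp
  calc |ψ' (c j - c') + ∑ ν ∈ F, ψ (eY v ν) * (c j ν.1 ν.2 - c' ν.1 ν.2)|
      ≤ |ψ' (c j - c')| + |∑ ν ∈ F, ψ (eY v ν) * (c j ν.1 ν.2 - c' ν.1 ν.2)| := abs_add_le _ _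
    _ < ε := by linarith

end Wlm

theorem wWlm : S_Wlm := by
  intro v X _ _ ι _ T hT J 𝓕 _ C ε c c' z z' hc hl hz hev
  obtain ⟨φ, hφ1, hφ2⟩ := exists_dual_vector'' ℝ (z' - ∑ r, T r (c' r))
  have hφ2' : φ (z' - ∑ r, T r (c' r)) = ‖z' - ∑ r, T r (c' r)‖ := by simpa using hφ2
  have h1 : ∀ r, Tendsto (fun j => φ (T r (c j r))) 𝓕 (𝓝 (φ (T r (c' r)))) := fun r =>
    Wlm.scalar (φ.comp (T r)) (fun ε hε => hT r φ ε hε) (fun j => hc j r) (hl r)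
  have h2 : Tendsto (fun j => φ (z j - ∑ r, T r (c j r))) 𝓕 (𝓝 (φ (z' - ∑ r, T r (c' r)))) := by
    have e1 : ∀ j, φ (z j - ∑ r, T r (c j r)) = φ (z j) - ∑ r, φ (T r (c j r)) := fun j => by
      rw [map_sub, map_sum]
    have e2 : φ (z' - ∑ r, T r (c' r)) = φ z' - ∑ r, φ (T r (c' r)) := by
      rw [map_sub, map_sum]
    simp only [e1]
    rw [e2]
    exact (hz φ).sub (tendsto_finsetSum _ fun r _ => h1 r)
  rw [← hφ2']
  refine le_of_tendsto h2 ?_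
  filter_upwards [hev] with j hj
  calc φ (z j - ∑ r, T r (c j r)) ≤ |φ (z j - ∑ r, T r (c j r))| := le_abs_self _
    _ ≤ ‖φ‖ * ‖z j - ∑ r, T r (c j r)‖ := by rw [← Real.norm_eq_abs]; exact φ.le_opNorm _
    _ ≤ 1 * ‖z j - ∑ r, T r (c j r)‖ := mul_le_mul_of_nonneg_right hφ1 (norm_nonneg _)
    _ ≤ ε := by rw [one_mul]; exact hj

end Pool.Agent.Lib.MP_537232_an.PY
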