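import Pool.Agent.Lib.MP_537232_an.PY.SpecB

set_option autoImplicit false

/-!
# MP_537232_an, PY, Wnl: functionals on the `ℓ_q`-sum
-/

open Finset Filter Topology
open scoped ENNReal

namespace Pool.Agent.Lib.MP_537232_an.PY

open NM (pE qE)

namespace Wnl

/-- the number of large coordinates of a functional is bounded -/
theorem card_le {q : ℝ} (hq : 1 < q) [Fact (1 ≤ qE q)] (u : ℕ → ℕ) (φ : XSp u q →L[ℝ] ℝ) (δ : ℝ)
    (F : Finset ℕ)
    (hF : ∀ n ∈ F, ∃ b : E u n, ‖b‖ ≤ 1 ∧ δ ≤ |φ (lp.single (qE q) n b)|) :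
    (F.card : ℝ) * δ ≤ ‖φ‖ * (F.card : ℝ) ^ (1 / q) := by
  have hq0 : 0 < q := by linarith
  have hqr : (qE q).toReal = q := ENNReal.toReal_ofReal hq0.le
  have h1 : ∀ n, ∃ b : E u n, ‖b‖ ≤ 1 ∧ (n ∈ F → δ ≤ φ (lp.single (qE q) n b)) := by
    intro n
    by_cases hn : n ∈ F
    · obtain ⟨b, hb, hb2⟩ := hF n hn
      rcases le_total 0 (φ (lp.single (qE q) n b)) with h0 | h0
      · exact ⟨b, hb, fun _ => by rwa [abs_of_nonneg h0] at hb2⟩
      · refine ⟨-b, by rwa [norm_neg], fun _ => ?_⟩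
        rw [abs_of_nonpos h0] at hb2
        have h2 : lp.single (qE q) n (-b) = -(lp.single (qE q) n b : XSp u q) := by
          exact lp.single_neg (p := qE q) n b
        rw [h2, map_neg]
        exact hb2
    · exact ⟨0, by simp, fun h => absurd h hn⟩
  choose b hb1 hb2 using h1
  have h3 : (F.card : ℝ) * δ ≤ φ (∑ n ∈ F, lp.single (qE q) n (b n)) := by
    rw [map_sum, ← nsmul_eq_mul]
    exact Finset.card_nsmul_le_sum F _ δ fun n hn => hb2 n hn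
  have h4 : ‖∑ n ∈ F, lp.single (qE q) n (b n)‖ ^ q ≤ (F.card : ℝ) := by
    have h5 := lp.norm_sum_single (p := qE q) (by rw [hqr]; exact hq0) b F
    rw [hqr] at h5
    rw [h5]
    calc ∑ n ∈ F, ‖b n‖ ^ q ≤ ∑ n ∈ F, (1 : ℝ) :=
          Finset.sum_le_sum fun n _ => Real.rpow_le_one (norm_nonneg _) (hb1 n) hq0.le
      _ = (F.card : ℝ) := by simp
  have h6 : ‖∑ n ∈ F, lp.single (qE q) n (b n)‖ ≤ (F.card : ℝ) ^ (1 / q) := by
    have h7 := Real.rpow_le_rpow (Real.rpow_nonneg (norm_nonneg _) _) h4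
      (by positivity : (0 : ℝ) ≤ 1 / q)
    rwa [← Real.rpow_mul (norm_nonneg _), mul_one_div_cancel hq0.ne', Real.rpow_one] at h7
  calc (F.card : ℝ) * δ ≤ φ (∑ n ∈ F, lp.single (qE q) n (b n)) := h3
    _ ≤ |φ (∑ n ∈ F, lp.single (qE q) n (b n))| := le_abs_self _
    _ ≤ ‖φ‖ * ‖∑ n ∈ F, lp.single (qE q) n (b n)‖ := φ.le_opNorm _
    _ ≤ _ := mul_le_mul_of_nonneg_left h6 (norm_nonneg _)

end Wnl

theorem wWnl : S_Wnl := by
  intro q hq _ u φ δ hδ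
  by_contra hinf
  have hinf' : {n : ℕ | ∃ b : E u n, ‖b‖ ≤ 1 ∧ δ ≤ |φ (lp.single (qE q) n b)|}.Infinite := hinf
  have hq0 : 0 < q := by linarith
  have he : 0 < 1 - 1 / q := by
    have : 1 / q < 1 := by
      rw [div_lt_one hq0]
      exact hq
    linarith
  have ht : Tendsto (fun N : ℕ => (N : ℝ) ^ (1 - 1 / q)) atTop atTop :=
    (tendsto_rpow_atTop he).comp tendsto_natCast_atTop_atTop
  obtain ⟨N, hN1, hN2⟩ := ((ht.eventually_gt_atTop (‖φ‖ / δ)).and (eventually_gt_atTop 0)).exists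
  obtain ⟨F, hFs, hFc⟩ := hinf'.exists_subset_card_eq N
  have h1 := Wnl.card_le hq u φ δ F fun n hn => hFs hn
  rw [hFc] at h1
  have hN0 : (0 : ℝ) < N := by exact_mod_cast hN2
  have h2 : (N : ℝ) ^ (1 - 1 / q) * (N : ℝ) ^ (1 / q) = N := by
    rw [← Real.rpow_add hN0]
    simp
  have h3 : 0 < (N : ℝ) ^ (1 / q) := Real.rpow_pos_of_pos hN0 _
  rw [← h2] at h1
  have h4 : (N : ℝ) ^ (1 - 1 / q) * δ ≤ ‖φ‖ := by
    refine le_of_mul_le_mul_right ?_ h3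
    calc (N : ℝ) ^ (1 - 1 / q) * δ * (N : ℝ) ^ (1 / q)
        = (N : ℝ) ^ (1 - 1 / q) * (N : ℝ) ^ (1 / q) * δ := by ring
      _ ≤ _ := h1
      _ = ‖φ‖ * (N : ℝ) ^ (1 / q) := by rw [h2]
  have h5 : (N : ℝ) ^ (1 - 1 / q) ≤ ‖φ‖ / δ := by
    rw [le_div_iff₀ hδ]
    exact h4
  exact absurd hN1 (not_lt.2 h5)

end Pool.Agent.Lib.MP_537232_an.PY
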