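import Pool.Agent.Lib.MP_537232_an.PY.SpecB

set_option autoImplicit false

/-!
# MP_537232_an, PY/Wns: the operators `S_L` and `I` have weakly null columns
-/

open Finset Filter Topology
open scoped ENNReal

namespace Pool.Agent.Lib.MP_537232_an.PY

open NM (pE qE)

theorem wWns (h1 : S_Wnl) : S_Wns := by
  intro q hq _ P L T hT A φ ε hε
  have hS := h1 q hq P.u (φ.comp A) ε hε
  have hval : ∀ ν : Ix P.v, φ ((A.comp T) (eY P.v ν)) = (φ.comp A) (T (eY P.v ν)) := fun ν => rfl
  rcases hT with hT | hT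
  · refine (finite_fst (w := P.v) hS).subset ?_
    intro ν hν
    have h2 : ε ≤ |(φ.comp A) (T (eY P.v ν))| := by
      have h3 : ε ≤ |φ ((A.comp T) (eY P.v ν))| := hν
      rwa [hval] at h3
    rw [hT ν] at h2
    by_cases hL : ν.1 ∈ L
    · rw [if_pos hL] at h2
      exact ⟨P.g ν.1 ν.2, (P.norm_g ν.1 ν.2).le, h2⟩
    · rw [if_neg hL, map_zero, abs_zero] at h2
      exact absurd h2 (not_le.2 hε)
  · refine ((finite_fst (w := P.u) hS).preimage (f := P.tw)
      (fun ν _ μ _ h => P.tw_injective h)).subset ?_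
    intro ν hν
    have h2 : ε ≤ |(φ.comp A) (T (eY P.v ν))| := by
      have h3 : ε ≤ |φ ((A.comp T) (eY P.v ν))| := hν
      rwa [hval] at h3
    rw [hT ν] at h2
    refine ⟨EuclideanSpace.single (P.tw ν).2 1, ?_, h2⟩
    rw [PiLp.norm_single, norm_one]

end Pool.Agent.Lib.MP_537232_an.PY
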