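import Pool.Agent.Lib.MP_537232_an.PY.SpecB

set_option autoImplicit false

/-!
# MP_537232_an, directory PY: coordinatewise limits along an ultrafilter
-/

open Finset Filter Topology
open scoped ENNReal

namespace Pool.Agent.Lib.MP_537232_an.PY

private theorem Ylm_sum {v : ℕ → ℕ} (y : YSp v) (s : Finset ℕ) :
    ∑ l ∈ s, ∑ i, |y l i| ≤ ‖y‖ := by
  have h := lp.sum_rpow_le_norm_rpow (E := fun n => PiLp 1 (fun _ : Fin (v n) => ℝ)) (p := 1)
    (by simp) y s
  simp only [ENNReal.toReal_one, Real.rpow_one] at h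
  refine le_trans (le_of_eq ?_) h
  refine Finset.sum_congr rfl fun l _ => ?_
  rw [PiLp.norm_eq_of_L1]
  simp only [Real.norm_eq_abs]

/-- coordinatewise limits along an ultrafilter -/
theorem wYlm : S_Ylm := by
  intro v J 𝓤 C c hc
  have hJ : Nonempty J := 𝓤.neBot.nonempty_of_mem univ_mem |>.elim fun j _ => ⟨j⟩
  have hC : 0 ≤ C := (norm_nonneg _).trans (hc hJ.some)
  have hco : ∀ l i, ∃ a : ℝ, Tendsto (fun j => c j l i) 𝓤 (𝓝 a) := by
    intro l i
    have hmem : ∀ j, c j l i ∈ Set.Icc (-C) C := by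
      intro j
      have h1 := Ylm_sum (c j) {l}
      rw [Finset.sum_singleton] at h1
      have h2 : |c j l i| ≤ ∑ i, |c j l i| :=
        Finset.single_le_sum (f := fun i => |c j l i|) (fun _ _ => abs_nonneg _) (Finset.mem_univ i)
      exact abs_le.mp (h2.trans (h1.trans (hc j)))
    obtain ⟨a, -, ha⟩ := (isCompact_Icc (a := -C) (b := C)).ultrafilter_le_nhds
      (𝓤.map fun j => c j l i) (by
        rw [le_principal_iff]
        exact Filter.mem_map.mpr (Filter.univ_mem' hmem))
    exact ⟨a, ha⟩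
  choose a ha using hco
  let b : ∀ n, PiLp 1 (fun _ : Fin (v n) => ℝ) := fun l => WithLp.toLp 1 (a l)
  have hb : ∀ s : Finset ℕ, ∑ l ∈ s, ‖b l‖ ≤ C := by
    intro s
    have h1 : ∑ l ∈ s, ‖b l‖ = ∑ l ∈ s, ∑ i, |a l i| := by
      refine Finset.sum_congr rfl fun l _ => ?_
      rw [PiLp.norm_eq_of_L1]
      simp only [Real.norm_eq_abs]
      rfl
    rw [h1]
    refine le_of_tendsto (f := fun j => ∑ l ∈ s, ∑ i, |c j l i|) (x := (𝓤 : Filter J))
      (tendsto_finset_sum s fun l _ => tendsto_finset_sum _ fun i _ => (ha l i).abs) ?_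
    exact Filter.Eventually.of_forall fun j => (Ylm_sum (c j) s).trans (hc j)
  have hm : Memℓp b 1 := by
    refine memℓp_gen' (C := C) fun s => ?_
    simpa only [ENNReal.toReal_one, Real.rpow_one] using hb s
  refine ⟨⟨b, hm⟩, ?_, fun l i => ha l i⟩
  refine lp.norm_le_of_forall_sum_le (by simp) hC fun s => ?_
  simpa only [ENNReal.toReal_one, Real.rpow_one] using hb s

end Pool.Agent.Lib.MP_537232_an.PY
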