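import Pool.Agent.Lib.MP_537232_an.PY.SpecC

set_option autoImplicit false

/-!
# Operators on `Z`, restricted to the null vectors
-/

open Finset Filter Topology
open scoped ENNReal

namespace Pool.Agent.Lib.MP_537232_an.PY

open NM (pE qE)

namespace Zta

variable {v : ℕ → ℕ} {Z : Type} [NormedAddCommGroup Z] [NormedSpace ℝ Z]

open Classical in
/-- unit vectors of `Z` -/
theorem exists_delta (hZ : CoordSpace v Z) :
    ∃ δ : Ix v → Z, ∀ μ κ, hZ.c (δ μ) κ = if κ = μ then 1 else 0 := by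
  have h : ∀ μ : Ix v, ∃ z : Z, hZ.c z = fun κ => if κ = μ then (1 : ℝ) else 0 := by
    intro μ
    refine hZ.exists_of _ fun ε hε => ?_
    refine (Set.finite_singleton μ).subset ?_
    intro κ hκ
    simp only [Set.mem_ofPred_eq] at hκ
    by_contra h
    have h1 : ¬ κ = μ := h
    rw [if_neg h1, abs_zero] at hκ
    exact absurd hκ (not_le.2 hε)
  choose δ hδ using h
  exact ⟨δ, fun μ κ => by rw [hδ μ]⟩

open Classical in
theorem c_sum (hZ : CoordSpace v Z) (δ : Ix v → Z)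
    (hδ : ∀ μ κ, hZ.c (δ μ) κ = if κ = μ then 1 else 0) (F : Finset (Ix v)) (a : Ix v → ℝ) (κ : Ix v) :
    hZ.c (∑ μ ∈ F, a μ • δ μ) κ = if κ ∈ F then a κ else 0 := by
  rw [map_sum, Finset.sum_apply]
  simp only [map_smul, Pi.smul_apply, smul_eq_mul, hδ, mul_ite, mul_one, mul_zero]
  rw [Finset.sum_ite_eq]

/-- A null vector is the sum of its coordinates. -/
theorem hasSum_nul (hZ : CoordSpace v Z) (δ : Ix v → Z)
    (hδ : ∀ (μ κ : Ix v), hZ.c (δ μ) κ = (open Classical in if κ = μ then 1 else 0)) (z : Z) (hz : Nul hZ z) :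
    HasSum (fun μ => hZ.c z μ • δ μ) z := by
  classical
  rw [HasSum, SummationFilter.unconditional_filter, Metric.tendsto_atTop]
  intro ε hε
  refine ⟨(hz (ε / 2) (half_pos hε)).toFinset, fun F hF => ?_⟩
  rw [dist_eq_norm]
  have h1 : ‖∑ μ ∈ F, hZ.c z μ • δ μ - z‖ ≤ ε / 2 := by
    refine hZ.le_of _ _ (half_pos hε).le fun κ => ?_
    rw [map_sub, Pi.sub_apply, c_sum hZ δ (fun μ κ => by rw [hδ]) F]
    by_cases hκ : κ ∈ F
    · rw [if_pos hκ, sub_self, abs_zero]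
      exact (half_pos hε).le
    · rw [if_neg hκ, zero_sub, abs_neg]
      by_contra h
      push Not at h
      exact hκ (hF (by rw [Set.Finite.mem_toFinset]; exact h.le))
  exact lt_of_le_of_lt h1 (half_lt_self hε)

end Zta

open Zta in
theorem wZta : S_Zta := by
  classical
  intro v Z _ _ hZ A
  obtain ⟨δ, hδ⟩ := exists_delta hZ
  choose f hf using hZ.exists_coord A
  have hfb : ∀ ν x, |f ν x| ≤ ‖A‖ * ‖x‖ := fun ν x => by
    rw [hf]
    exact (hZ.c_le _ ν).trans (A.le_opNorm x)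
  have hs : ∀ ν (F : Finset (Ix v)), ∑ μ ∈ F, |f ν (δ μ)| ≤ ‖A‖ := by
    intro ν F
    obtain ⟨s, hs⟩ : ∃ s : Ix v → ℝ, s = fun μ => if 0 ≤ f ν (δ μ) then 1 else -1 := ⟨_, rfl⟩
    have hs1 : ∀ μ, |s μ| ≤ 1 := fun μ => by
      rw [hs]
      dsimp only
      split_ifs <;> simp
    have hs2 : ∀ μ, s μ * f ν (δ μ) = |f ν (δ μ)| := fun μ => by
      rw [hs]
      dsimp only
      split_ifs with h
      · rw [one_mul, abs_of_nonneg h]
      · rw [abs_of_neg (not_le.1 h)]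
        ring
    have h1 : ‖∑ μ ∈ F, s μ • δ μ‖ ≤ 1 := by
      refine hZ.le_of _ _ zero_le_one fun κ => ?_
      rw [c_sum hZ δ (fun μ κ => by rw [hδ]) F]
      split_ifs
      · exact hs1 κ
      · simp
    have h2 : f ν (∑ μ ∈ F, s μ • δ μ) = ∑ μ ∈ F, |f ν (δ μ)| := by
      rw [map_sum]
      refine Finset.sum_congr rfl fun μ _ => ?_
      rw [map_smul, smul_eq_mul, hs2]
    rw [← h2]
    calc f ν (∑ μ ∈ F, s μ • δ μ) ≤ |f ν (∑ μ ∈ F, s μ • δ μ)| := le_abs_self _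
      _ ≤ ‖A‖ * ‖∑ μ ∈ F, s μ • δ μ‖ := hfb _ _
      _ ≤ ‖A‖ * 1 := by gcongr
      _ = ‖A‖ := mul_one _
  have hsum : ∀ ν, Summable fun μ => f ν (δ μ) • eY v μ := by
    intro ν
    refine Summable.of_norm ?_
    have h1 : (fun μ => ‖f ν (δ μ) • eY v μ‖) = fun μ => |f ν (δ μ)| := by
      funext μ
      rw [norm_smul, norm_eY, mul_one, Real.norm_eq_abs]
    rw [h1]
    exact summable_of_sum_le (fun μ => abs_nonneg _) (hs ν)
  have ha : ∀ ν, ‖∑' μ, f ν (δ μ) • eY v μ‖ ≤ ‖A‖ := by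
    intro ν
    have h1 := (hsum ν).hasSum.norm
    refine le_of_tendsto h1 (Eventually.of_forall fun F => ?_)
    refine (norm_sum_le _ _).trans ?_
    refine le_trans (Finset.sum_le_sum fun μ _ => ?_) (hs ν F)
    rw [norm_smul, norm_eY, mul_one, Real.norm_eq_abs]
  obtain ⟨A', _, hA'⟩ := Y_lift (X := YSp v) (fun ν => ∑' μ, f ν (δ μ) • eY v μ) (norm_nonneg A) ha
  refine ⟨A', fun z hz φ hφ ν => ?_⟩
  rw [hA' ν, ← hf]
  have h1 : HasSum (fun μ => f ν (hZ.c z μ • δ μ)) (f ν z) :=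
    (f ν).hasSum (hasSum_nul hZ δ (fun μ κ => by rw [hδ]) z hz)
  have h2 : HasSum (fun μ => φ (f ν (δ μ) • eY v μ)) (φ (∑' μ, f ν (δ μ) • eY v μ)) :=
    φ.hasSum (hsum ν).hasSum
  refine h1.unique ?_
  have h3 : (fun μ => f ν (hZ.c z μ • δ μ)) = fun μ => φ (f ν (δ μ) • eY v μ) := by
    funext μ
    rw [map_smul, map_smul, hφ, smul_eq_mul, smul_eq_mul, mul_comm]
  rw [h3]
  exact h2

end Pool.Agent.Lib.MP_537232_an.PY
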