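import Pool.Agent.Lib.MP_537232_an.PY.SpecC

set_option autoImplicit false

/-!
# Operators on `Y` whose transposed operators act on `W` resp. `V`
-/

open Finset Filter Topology
open scoped ENNReal

namespace Pool.Agent.Lib.MP_537232_an.PY

open NM (pE qE)

namespace Ztb

variable {v : ℕ → ℕ} {Z : Type} [NormedAddCommGroup Z] [NormedSpace ℝ Z]

/-- the functional on `Y` given by an element of `Z` -/
theorem exists_phi (hZ : CoordSpace v Z) (z : Z) :
    ∃ φ : YSp v →L[ℝ] ℝ, ‖φ‖ ≤ ‖z‖ ∧ ∀ μ, φ (eY v μ) = hZ.c z μ :=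
  Y_lift (X := ℝ) (fun μ => hZ.c z μ) (norm_nonneg z) fun μ => by
    rw [Real.norm_eq_abs]
    exact hZ.c_le z μ

theorem adm_of (hZ : CoordSpace v Z) (B : YSp v →L[ℝ] YSp v)
    (hex : ∀ z (φ : YSp v →L[ℝ] ℝ), (∀ μ, φ (eY v μ) = hZ.c z μ) →
      ∃ z', hZ.c z' = fun ν => φ (B (eY v ν))) : Adm hZ B := by
  choose φ hφn hφ using exists_phi hZ
  obtain ⟨A, _, hA⟩ := hZ.exists_op
    (X := Z) { toFun := fun z ν => φ z (B (eY v ν))
               map_add' := fun x y => by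
                have h : φ (x + y) = φ x + φ y := Y_ext fun μ => by
                  rw [add_apply, hφ, hφ, hφ, map_add, Pi.add_apply]
                funext ν
                rw [h]
                rfl
               map_smul' := fun c x => by
                have h : φ (c • x) = c • φ x := Y_ext fun μ => by
                  rw [smul_apply, hφ, hφ, map_smul, Pi.smul_apply]
                funext ν
                rw [h]
                rfl } (norm_nonneg B) (fun z ν => by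
      change |φ z (B (eY v ν))| ≤ _
      rw [← Real.norm_eq_abs]
      calc ‖φ z (B (eY v ν))‖ ≤ ‖φ z‖ * ‖B (eY v ν)‖ := (φ z).le_opNorm _
        _ ≤ ‖z‖ * (‖B‖ * ‖eY v ν‖) := by
          gcongr
          · exact hφn z
          · exact B.le_opNorm _
        _ = ‖B‖ * ‖z‖ := by
          rw [norm_eY, mul_one, mul_comm]) (fun z => hex z (φ z) (hφ z))
  refine ⟨A, fun z ψ hψ ν => ?_⟩
  have h1 : ψ = φ z := Y_ext fun μ => by rw [hψ, hφ]
  rw [hA, h1]
  rfl

/-- coordinate functionals of `Y` -/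
theorem exists_pi (μ : Ix v) : ∃ π : YSp v →L[ℝ] ℝ, ∀ y, π y = y μ.1 μ.2 :=
  ⟨LinearMap.mkContinuous
    { toFun := fun y => y μ.1 μ.2
      map_add' := fun _ _ => rfl
      map_smul' := fun _ _ => rfl } 1 (fun y => by
        rw [one_mul]
        exact (PiLp.norm_apply_le (y μ.1) μ.2).trans (lp.norm_apply_le_norm one_ne_zero y μ.1)),
    fun _ => rfl⟩

open Classical in
theorem eY_coord (ν μ : Ix v) : (eY v ν) μ.1 μ.2 = if ν = μ then 1 else 0 := by
  unfold eY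
  split_ifs with h
  · subst h
    rw [lp.single_apply_self]
    simp
  · by_cases h1 : μ.1 = ν.1
    · obtain ⟨n, i⟩ := μ
      obtain ⟨m, j⟩ := ν
      dsimp only at h1 ⊢
      subst h1
      rw [lp.single_apply_self]
      have h2 : ¬ i = j := fun h3 => h (by rw [h3])
      simp [h2]
    · rw [lp.single_apply_ne _ _ _ h1]
      rfl

theorem nulV (z : VSp v) : Nul (coordV v) z := (mem_V_iff v).1 z.2

theorem finV (B : YSp v →L[ℝ] YSp v) (hB : NulY B) (z : VSp v) (φ : YSp v →L[ℝ] ℝ)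
    (hφ : ∀ μ, φ (eY v μ) = (coordV v).c z μ) (ε : ℝ) (hε : 0 < ε) :
    {ν | ε ≤ |φ (B (eY v ν))|}.Finite := by
  classical
  set c := (coordV v).c z with hc
  have hcz : ∀ μ, |c μ| ≤ ‖z‖ := fun μ => (coordV v).c_le z μ
  have hB0 : 0 ≤ ‖B‖ := norm_nonneg B
  have hz0 : 0 ≤ ‖z‖ := norm_nonneg z
  obtain ⟨δ, hδd⟩ : ∃ δ : ℝ, δ = ε / (2 * (‖B‖ + 1)) := ⟨_, rfl⟩
  have hδ : 0 < δ := by rw [hδd]; positivity
  have hδB : δ * ‖B‖ ≤ ε / 2 := by
    have h1 : δ * (‖B‖ + 1) = ε / 2 := by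
      rw [hδd]
      field_simp
    nlinarith
  set F := (nulV z δ hδ).toFinset with hF
  choose π hπ using fun μ : Ix v => exists_pi (v := v) μ
  obtain ⟨ψ, hψd⟩ : ∃ ψ : YSp v →L[ℝ] ℝ, ψ = φ - ∑ μ ∈ F, c μ • π μ := ⟨_, rfl⟩
  have hψa : ∀ y, φ y = ψ y + ∑ μ ∈ F, c μ * y μ.1 μ.2 := by
    intro y
    rw [hψd, sub_apply, _root_.sum_apply]
    simp only [smul_apply, smul_eq_mul, hπ]
    ring
  have hψn : ‖ψ‖ ≤ δ := by
    refine Y_norm_le ψ hδ.le fun κ => ?_
    have h1 := hψa (eY v κ)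
    rw [hφ κ] at h1
    have h2 : ∑ μ ∈ F, c μ * (eY v κ) μ.1 μ.2 = if κ ∈ F then c κ else 0 := by
      simp only [eY_coord, mul_ite, mul_one, mul_zero]
      rw [Finset.sum_ite_eq]
    rw [h2] at h1
    rw [Real.norm_eq_abs]
    by_cases hκ : κ ∈ F
    · rw [if_pos hκ] at h1
      have h3 : ψ (eY v κ) = 0 := by linarith
      rw [h3, abs_zero]
      exact hδ.le
    · rw [if_neg hκ, add_zero] at h1
      rw [← h1]
      by_contra h
      push Not at h
      exact hκ (by rw [hF, Set.Finite.mem_toFinset]; exact h.le)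
  obtain ⟨η, hηd⟩ : ∃ η : ℝ, η = ε / (2 * ((F.card + 1) * (‖z‖ + 1))) := ⟨_, rfl⟩
  have hη : 0 < η := by rw [hηd]; positivity
  have hη1 : F.card * ‖z‖ * η < ε / 2 := by
    have h1 : ((F.card + 1) * (‖z‖ + 1)) * η = ε / 2 := by
      rw [hηd]
      field_simp
    have h2 : (0 : ℝ) ≤ F.card := Nat.cast_nonneg _
    nlinarith [mul_nonneg h2 hη.le, mul_nonneg hz0 hη.le]
  have hfin : (⋃ μ ∈ F, {ν : Ix v | η ≤ |B (eY v ν) μ.1 μ.2|}).Finite :=
    Set.Finite.biUnion F.finite_toSet fun μ _ => hB μ η hη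
  refine hfin.subset ?_
  intro ν hν
  simp only [Set.mem_ofPred_eq] at hν
  by_contra hcon
  have h1 : ∀ μ ∈ F, |B (eY v ν) μ.1 μ.2| ≤ η := by
    intro μ hμ
    by_contra h
    push Not at h
    exact hcon (Set.mem_biUnion (x := μ) hμ h.le)
  have h2 : |∑ μ ∈ F, c μ * (B (eY v ν)) μ.1 μ.2| ≤ F.card * ‖z‖ * η := by
    refine (Finset.abs_sum_le_sum_abs _ _).trans ?_
    refine (Finset.sum_le_card_nsmul F _ (‖z‖ * η) fun μ hμ => ?_).trans ?_
    · rw [abs_mul]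
      gcongr
      · exact hcz μ
      · exact h1 μ hμ
    · rw [nsmul_eq_mul, mul_assoc]
  have h3 : |ψ (B (eY v ν))| ≤ δ * ‖B‖ := by
    rw [← Real.norm_eq_abs]
    calc ‖ψ (B (eY v ν))‖ ≤ ‖ψ‖ * ‖B (eY v ν)‖ := ψ.le_opNorm _
      _ ≤ δ * (‖B‖ * ‖eY v ν‖) := by
        gcongr
        exact B.le_opNorm _
      _ = δ * ‖B‖ := by rw [norm_eY, mul_one]
  rw [hψa] at hν
  have h4 := abs_add_le (ψ (B (eY v ν))) (∑ μ ∈ F, c μ * (B (eY v ν)) μ.1 μ.2)
  linarith

end Ztb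

open Ztb in
theorem wZtb : S_Ztb := by
  intro v
  refine ⟨fun B => ?_, fun B hB => ?_, nulV⟩
  · refine adm_of (coordW v) B fun z φ hφ => ?_
    obtain ⟨z', hz'⟩ := W_exists v (f := fun ν => φ (B (eY v ν))) (C := ‖φ‖ * ‖B‖) (fun ν => by
      rw [← Real.norm_eq_abs]
      calc ‖φ (B (eY v ν))‖ ≤ ‖φ‖ * ‖B (eY v ν)‖ := φ.le_opNorm _
        _ ≤ ‖φ‖ * (‖B‖ * ‖eY v ν‖) := by
          gcongr
          exact B.le_opNorm _
        _ = ‖φ‖ * ‖B‖ := by rw [norm_eY, mul_one])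
    exact ⟨z', funext hz'⟩
  · refine adm_of (coordV v) B fun z φ hφ => ?_
    exact (coordV v).exists_of _ fun ε hε => finV B hB z φ hφ ε hε

end Pool.Agent.Lib.MP_537232_an.PY
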