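import Pool.Agent.Lib.MP_537232_an.PY.SpecC
import Pool.Agent.Lib.MP_537232_an.PY.Cep
import Pool.Agent.Lib.MP_537232_an.PY.Bqa
import Pool.Agent.Lib.MP_537232_an.PY.Bqb
import Pool.Agent.Lib.MP_537232_an.PY.Bvc
import Pool.Agent.Lib.MP_537232_an.PY.Bmt
import Pool.Agent.Lib.MP_537232_an.PY.Udu
import Pool.Agent.Lib.MP_537232_an.PY.Ulp
import Pool.Agent.Lib.MP_537232_an.PY.Mmx
import Pool.Agent.Lib.MP_537232_an.PY.Kcv
import Pool.Agent.Lib.MP_537232_an.PY.Kbd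
import Pool.Agent.Lib.MP_537232_an.PY.Idn
import Pool.Agent.Lib.MP_537232_an.PY.Act
import Pool.Agent.Lib.MP_537232_an.PY.Fnk
import Pool.Agent.Lib.MP_537232_an.PY.Wnl
import Pool.Agent.Lib.MP_537232_an.PY.Wns
import Pool.Agent.Lib.MP_537232_an.PY.Wlm
import Pool.Agent.Lib.MP_537232_an.PY.Ylm
import Pool.Agent.Lib.MP_537232_an.PY.Sco
import Pool.Agent.Lib.MP_537232_an.PY.Cea
import Pool.Agent.Lib.MP_537232_an.PY.Plc
import Pool.Agent.Lib.MP_537232_an.PY.Mau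
import Pool.Agent.Lib.MP_537232_an.PY.Few
import Pool.Agent.Lib.MP_537232_an.PY.Cnt
import Pool.Agent.Lib.MP_537232_an.PY.Gdc
import Pool.Agent.Lib.MP_537232_an.PY.Nfs
import Pool.Agent.Lib.MP_537232_an.PY.Rnd
import Pool.Agent.Lib.MP_537232_an.PY.Mdf
import Pool.Agent.Lib.MP_537232_an.PY.Mid
import Pool.Agent.Lib.MP_537232_an.PY.Apx
import Pool.Agent.Lib.MP_537232_an.PY.Ada
import Pool.Agent.Lib.MP_537232_an.PY.Stp
import Pool.Agent.Lib.MP_537232_an.PY.Col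
import Pool.Agent.Lib.MP_537232_an.PY.Bls
import Pool.Agent.Lib.MP_537232_an.PY.Dta
import Pool.Agent.Lib.MP_537232_an.PY.Prg
import Pool.Agent.Lib.MP_537232_an.PY.Dub
import Pool.Agent.Lib.MP_537232_an.PY.Trp
import Pool.Agent.Lib.MP_537232_an.PY.Rwt
import Pool.Agent.Lib.MP_537232_an.PY.Sti
import Pool.Agent.Lib.MP_537232_an.PY.Zta
import Pool.Agent.Lib.MP_537232_an.PY.Ztb
import Pool.Agent.Lib.MP_537232_an.PY.Cmp
import Pool.Agent.Lib.MP_537232_an.PY.Sel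
import Pool.Agent.Lib.MP_537232_an.PY.Clu
import Pool.Agent.Lib.MP_537232_an.PY.Phi
import Pool.Agent.Lib.MP_537232_an.PY.Row

namespace Pool.Agent.Lib.MP_537232_an.PY

theorem aCep : S_Cep := wCep

theorem aBqa : S_Bqa := wBqa

theorem aBqb : S_Bqb := wBqb aBqa

theorem aBvc : S_Bvc := wBvc aBqb

theorem aBmt : S_Bmt := wBmt aCep aBvc

theorem aUdu : S_Udu := wUdu aCep aBmt

theorem aUlp : S_Ulp := wUlp aUdu

theorem aMmx : S_Mmx := wMmx

theorem aKcv : S_Kcv := wKcv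

theorem aKbd : S_Kbd := wKbd aCep

theorem aIdn : S_Idn := wIdn aCep

theorem aAct : S_Act := wAct aKbd aIdn

theorem aFnk : S_Fnk := wFnk aAct aMmx aKcv

theorem aWnl : S_Wnl := wWnl

theorem aWns : S_Wns := wWns aWnl

theorem aWlm : S_Wlm := wWlm

theorem aYlm : S_Ylm := wYlm

theorem aSco : S_Sco := wSco

theorem aCea : S_Cea := wCea

theorem aPlc : S_Plc := wPlc

theorem aMau : S_Mau := wMau

theorem aFew : S_Few := wFew aCea aPlc aMau aSco

theorem aCnt : S_Cnt := wCnt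

theorem aGdc : S_Gdc := wGdc

theorem aNfs : S_Nfs := wNfs

theorem aRnd : S_Rnd := wRnd aSco

theorem aMdf : S_Mdf := wMdf aFnk aSco

theorem aMid : S_Mid := wMid aMdf aWns aWlm aYlm

theorem aApx : S_Apx := wApx

theorem aAda : S_Ada := wAda aFew aCnt aGdc aNfs

theorem aStp : S_Stp := wStp aRnd aMid aAda aSco

theorem aCol : S_Col := wCol aStp aUlp aApx aCea aSco

theorem aBls : S_Bls := wBls

theorem aDta : S_Dta := wDta aBls

theorem aPrg : S_Prg := wPrg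

theorem aDub : S_Dub := wDub

theorem aTrp : S_Trp := wTrp aDub

theorem aRwt : S_Rwt := wRwt aDub

theorem aSti : S_Sti := wSti

theorem aZta : S_Zta := wZta

theorem aZtb : S_Ztb := wZtb

theorem aCmp : S_Cmp := wCmp

theorem aSel : S_Sel := wSel

theorem aClu : S_Clu := wClu aSel aWlm aYlm

theorem aPhi : S_Phi := wPhi aApx aDub aTrp aRwt aZta aCmp aClu

theorem aRow : S_Row := wRow aPrg aRwt aSti aSco aWns aPhi

end Pool.Agent.Lib.MP_537232_an.PY
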