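import Pool.Agent.Lib.MP_537232_an.PY.SpecB

set_option autoImplicit false

/-!
# The map `φ₃` preserves meets
-/

open Finset Filter Topology
open scoped ENNReal

namespace Pool.Agent.Lib.MP_537232_an.PY

open NM (pE qE)

namespace Col

section gen

variable {X Y : Type} [NormedAddCommGroup X] [NormedSpace ℝ X] [NormedAddCommGroup Y] [NormedSpace ℝ Y]

theorem sum_app (T : X →L[ℝ] Y) {m n : ℕ} (A : Fin m → (Y →L[ℝ] Y)) (A' : Fin n → (Y →L[ℝ] Y))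
    (B : Fin m → (X →L[ℝ] X)) (B' : Fin n → (X →L[ℝ] X)) :
    ∑ r, (Fin.append A A' r).comp (T.comp (Fin.append B B' r)) =
      ∑ r, (A r).comp (T.comp (B r)) + ∑ r, (A' r).comp (T.comp (B' r)) := by
  rw [Fin.sum_univ_add]
  simp only [Fin.append_left, Fin.append_right]

theorem sum_split (T T1 T2 : X →L[ℝ] Y) (h : T = T1 + T2) {m : ℕ} (A : Fin m → (Y →L[ℝ] Y))
    (B : Fin m → (X →L[ℝ] X)) :
    ∑ r, ((A r).comp T).comp (B r) =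
      ∑ r, (A r).comp (T1.comp (B r)) + ∑ r, (A r).comp (T2.comp (B r)) := by
  rw [← Finset.sum_add_distrib]
  refine Finset.sum_congr rfl fun r _ => ?_
  rw [h]
  ext x
  simp

theorem sum_ngt (T : X →L[ℝ] Y) {m : ℕ} (A : Fin m → (Y →L[ℝ] Y)) (B : Fin m → (X →L[ℝ] X)) :
    ∑ r, (-A r).comp (T.comp (B r)) = -∑ r, (A r).comp (T.comp (B r)) := by
  rw [← Finset.sum_neg_distrib]
  refine Finset.sum_congr rfl fun r _ => ?_
  ext x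
  simp

theorem sum_zero' (T : X →L[ℝ] Y) {m : ℕ} (B : Fin m → (X →L[ℝ] X)) :
    ∑ r, ((fun _ => (0 : Y →L[ℝ] Y)) r).comp (T.comp (B r)) = 0 := by
  refine Finset.sum_eq_zero fun r _ => ?_
  ext x
  simp

end gen

theorem split {q : ℝ} [Fact (1 ≤ qE q)] (P : Params (pE q)) (S : Set ℕ → (YSp P.v →L[ℝ] XSp P.u q))
    (hS : ∀ L, IsSc P L (S L)) (M N : Set ℕ) : S M = S (M \ N) + S (M ∩ N) := by
  classical
  refine Y_ext fun ν => ?_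
  rw [add_apply, hS M ν, hS (M \ N) ν, hS (M ∩ N) ν]
  by_cases h1 : ν.1 ∈ M
  · by_cases h2 : ν.1 ∈ N
    · rw [if_pos h1, if_neg (fun h => h.2 h2), if_pos ⟨h1, h2⟩, zero_add]
    · rw [if_pos h1, if_pos ⟨h1, h2⟩, if_neg (fun h => h2 h.2), add_zero]
  · rw [if_neg h1, if_neg (fun h => h1 h.1), if_neg (fun h => h1 h.1), add_zero]

end Col

open Col in
theorem wCol (h1 : S_Stp) (h2 : S_Ulp) (h3 : S_Apx) (h4 : S_Cea) (_h5 : S_Sco) : S_Col := by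
  intro q hq _ P hFast S I hS hI M N
  obtain ⟨C, hC0, hUM⟩ := h2 q hq
  obtain ⟨hmono, hinf, hfin, _⟩ := h4 q hq P S I hS hI
  refine meet_aux S I hmono hinf hfin M N fun K hK hIK hTK => ?_
  intro R hR
  rw [Submodule.mem_inf] at hR
  refine hK.mem_of_approx fun ε hε => ?_
  obtain ⟨c, hcdef⟩ : ∃ c : ℝ, c = C ^ (1 / q) := ⟨_, rfl⟩
  have hc : 0 ≤ c := by rw [hcdef]; positivity
  obtain ⟨ε', hε'def⟩ : ∃ ε' : ℝ, ε' = ε / (2 * c + 2) := ⟨_, rfl⟩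
  have hε' : 0 < ε' := by rw [hε'def]; positivity
  have hεε : (2 * c + 2) * ε' = ε := by
    rw [hε'def]
    field_simp
  obtain ⟨s1, A1, B1, hR1⟩ := (h3 _ _ (S M) R).1 hR.1 ε' hε'
  obtain ⟨s2, A2, B2, hR2⟩ := (h3 _ _ (S N) R).1 hR.2 ε' hε'
  have hMs := split P S hS M N
  have hNs : S N = S (N \ M) + S (M ∩ N) := by
    rw [Set.inter_comm M N]
    exact split P S hS N M
  rw [sum_split (S M) _ _ hMs A1 B1] at hR1
  rw [sum_split (S N) _ _ hNs A2 B2] at hR2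
  obtain ⟨X1, hX1⟩ : ∃ X1, X1 = ∑ r, (A1 r).comp ((S (M \ N)).comp (B1 r)) := ⟨_, rfl⟩
  obtain ⟨X10, hX10⟩ : ∃ X10, X10 = ∑ r, (A1 r).comp ((S (M ∩ N)).comp (B1 r)) := ⟨_, rfl⟩
  obtain ⟨X2, hX2⟩ : ∃ X2, X2 = ∑ r, (A2 r).comp ((S (N \ M)).comp (B2 r)) := ⟨_, rfl⟩
  obtain ⟨X20, hX20⟩ : ∃ X20, X20 = ∑ r, (A2 r).comp ((S (M ∩ N)).comp (B2 r)) := ⟨_, rfl⟩
  rw [← hX1, ← hX10] at hR1
  rw [← hX2, ← hX20] at hR2
  have hdis : Disjoint (M \ N) (N \ M) := by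
    rw [Set.disjoint_left]
    intro n hn hn'
    exact hn'.2 hn.1
  obtain ⟨AM, hAM⟩ : ∃ AM : Fin (s1 + s2) → (XSp P.u q →L[ℝ] XSp P.u q),
    AM = Fin.append A1 (fun _ => 0) := ⟨_, rfl⟩
  obtain ⟨AN, hAN⟩ : ∃ AN : Fin (s1 + s2) → (XSp P.u q →L[ℝ] XSp P.u q),
    AN = Fin.append (fun _ => 0) A2 := ⟨_, rfl⟩
  obtain ⟨A0, hA0⟩ : ∃ A0 : Fin (s1 + s2) → (XSp P.u q →L[ℝ] XSp P.u q),
    A0 = Fin.append (fun r => -A1 r) A2 := ⟨_, rfl⟩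
  obtain ⟨B, hB⟩ : ∃ B : Fin (s1 + s2) → (YSp P.v →L[ℝ] YSp P.v), B = Fin.append B1 B2 := ⟨_, rfl⟩
  have hXM : ∑ r, (AM r).comp ((S (M \ N)).comp (B r)) = X1 := by
    rw [hAM, hB, sum_app, sum_zero', add_zero, hX1]
  have hXN : ∑ r, (AN r).comp ((S (N \ M)).comp (B r)) = X2 := by
    rw [hAN, hB, sum_app, sum_zero', zero_add, hX2]
  have hX0 : ∑ r, (A0 r).comp ((S (M ∩ N)).comp (B r)) = -X10 + X20 := by
    rw [hA0, hB, sum_app, sum_ngt, hX10, hX20]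
  have hin : ‖∑ r, (AM r).comp ((S (M \ N)).comp (B r)) - ∑ r, (AN r).comp ((S (N \ M)).comp (B r)) -
      ∑ r, (A0 r).comp ((S (M ∩ N)).comp (B r))‖ ≤ 2 * ε' := by
    rw [hXM, hXN, hX0]
    have e : X1 - X2 - (-X10 + X20) = (R - (X2 + X20)) - (R - (X1 + X10)) := by abel
    rw [e]
    refine (norm_sub_le _ _).trans ?_
    linarith
  obtain ⟨R', hR'K, hR'⟩ := h1 q hq P C hC0.le (hUM P.u) hFast S I hS hI K hK hIK (M \ N) (N \ M) (M ∩ N)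
    hdis hTK (s1 + s2) (s1 + s2) (2 * ε') ε' AM AN B B A0 B (by positivity) hε' hin
  rw [hXM, ← hcdef] at hR'
  have hX10K : X10 ∈ K := by
    rw [hX10]
    refine Submodule.sum_mem _ fun r _ => ?_
    exact hK.left _ (hK.right _ hTK)
  refine ⟨R' + X10, K.add_mem hR'K hX10K, ?_⟩
  have e : R - (R' + X10) = (R - (X1 + X10)) + (X1 - R') := by abel
  rw [e]
  refine (norm_add_le _ _).trans ?_
  calc ‖R - (X1 + X10)‖ + ‖X1 - R'‖ ≤ ε' + (c * (2 * ε') + ε') := add_le_add hR1 hR'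
    _ = (2 * c + 2) * ε' := by ring
    _ = ε := hεε
    _ ≤ ε := le_rfl

end Pool.Agent.Lib.MP_537232_an.PY
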