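import Pool.Agent.Lib.MP_537232_an.NM.SpecJ
import Pool.Agent.Lib.MP_537232_an.Cols

set_option autoImplicit false

/-!
# MP_537232_an, directory PY (author helper81): for every 1 < p < ∞ there are data for which φ₁, φ₂, φ₃ preserve meets

Definitions for all parts.  `1 < q < ∞` is the conjugate exponent of `p`, `U_* = lp (E u) (qE q)`.
-/

open Finset Filter Topology
open scoped ENNReal

namespace Pool.Agent.Lib.MP_537232_an.PY

open NM (pE qE)

/-! ## Conditional expectations and martingale transforms on a finite set with positive weights -/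

section cond

variable {F X : Type} [Fintype F] [NormedAddCommGroup X] [NormedSpace ℝ X]

open Classical in
/-- kernel of the conditional expectation: `w b / w(class of a)` if `b` is in the class of `a`, `0` otherwise -/
noncomputable def ke (w : F → ℝ) (r : F → F → Prop) (a b : F) : ℝ :=
  if r a b then w b / ∑ c, (if r a c then w c else 0) else 0

/-- conditional expectation of `f` with respect to the equivalence relation `r` -/
noncomputable def ce (w : F → ℝ) (r : F → F → Prop) (f : F → X) (a : F) : X := ∑ b, ke w r a b • f b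

/-- martingale transform -/
noncomputable def mt (w : F → ℝ) (r : ℕ → F → F → Prop) (θ : ℕ → ℝ) (n : ℕ) (f : F → X) (a : F) : X :=
  ∑ j ∈ range n, θ j • (ce w (r (j + 1)) f a - ce w (r j) f a)

omit [Fintype F] in
/-- a sequence of finer and finer equivalence relations -/
def Flt (r : ℕ → F → F → Prop) : Prop :=
  (∀ j, Equivalence (r j)) ∧ ∀ j a b, r (j + 1) a b → r j a b

end cond

/-- Martingale transforms with multipliers `0`, `1` are bounded in `L_q(X)`. -/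
def UM (X : Type) [NormedAddCommGroup X] [NormedSpace ℝ X] (q C : ℝ) : Prop :=
  ∀ (F : Type) [Fintype F] (w : F → ℝ), (∀ a, 0 < w a) → ∀ r : ℕ → F → F → Prop, Flt r →
    ∀ θ : ℕ → ℝ, (∀ j, θ j = 0 ∨ θ j = 1) → ∀ (n : ℕ) (f : F → X),
      ∑ a, w a * ‖mt w r θ n f a‖ ^ q ≤ C * ∑ a, w a * ‖f a‖ ^ q

/-! ## Burkholder's function (a variant), exponent `2m` -/

/-- constant `a = 8m²` -/
noncomputable def aB (m : ℝ) : ℝ := 8 * m ^ 2

/-- constant `b = (4m + 72m²)(18m)^(2m-2)` -/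
noncomputable def bB (m : ℝ) : ℝ := (4 * m + 72 * m ^ 2) * (18 * m) ^ (2 * m - 2)

/-- the function `S^m - a N S^(m-1) - b N^m` -/
noncomputable def Bf (m N S : ℝ) : ℝ := S ^ m - aB m * N * S ^ (m - 1) - bB m * N ^ m

/-- the function on pairs of vectors, `N = |x|² + η`, `S = |x|² + |y|² + η` -/
noncomputable def Fb {H : Type} [NormedAddCommGroup H] (m η : ℝ) (x y : H) : ℝ :=
  Bf m (‖x‖ ^ 2 + η) (‖x‖ ^ 2 + ‖y‖ ^ 2 + η)

/-! ## Data with values in `Δ l` at the level `l` -/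

section act

variable {F : Type} {Δ : ℕ → Type}

/-- the same data below the level `l` -/
def rb (d : F → ∀ l, Δ l) (l : ℕ) (a b : F) : Prop := ∀ i < l, d a i = d b i

variable [∀ l, Zero (Δ l)]

/-- the same data below the level `l`, and the level `l` is used by both or by none of them -/
def rm (d : F → ∀ l, Δ l) (l : ℕ) (a b : F) : Prop := rb d l a b ∧ (d a l = 0 ↔ d b l = 0)

variable [Fintype F]

/-- Kernels `κ`, `θ` which are adapted and bounded. -/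
structure KC (d : F → ∀ l, Δ l) (n K : ℕ) (κ : F → ℕ → F → ℝ) (θ : F → F → ℝ) : Prop where
  ad : ∀ l a a', rm d l a a' → κ a l = κ a' l
  bd : ∀ β : ℕ → F → ℝ, (∀ l b, 0 ≤ β l b) → (∀ l b, d b l = 0 → β l b = 0) →
    (∀ b, ∑ l ∈ range n, β l b ≤ 1) → ∀ a, ∑ l ∈ range n, ∑ b, |κ a l b| * β l b ≤ 3 * K
  bt : ∀ a, ∑ b, |θ a b| ≤ 2 * K

open Classical in
/-- the kernel `κ` for the weights `w` -/
noncomputable def kap (w : F → ℝ) (d : F → ∀ l, Δ l) (ty : ℕ → Prop) (a : F) (l : ℕ) (b : F) : ℝ :=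
  (if ty l then ke w (rm d l) a b else 0) + (if ty l then 1 else -1) *
    ∑ i ∈ range l, (if ty i then ke w (rm d i) a b - ke w (rb d (i + 1)) a b else 0)

open Classical in
/-- the kernel `θ` for the weights `w` -/
noncomputable def tht (w : F → ℝ) (d : F → ∀ l, Δ l) (ty : ℕ → Prop) (n : ℕ) (a b : F) : ℝ :=
  ∑ i ∈ range n, (if ty i then ke w (rb d (i + 1)) a b - ke w (rm d i) a b else 0)

end act

/-! ## The data of the problem with a very strong restricted isometry property -/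

/-- the number of vectors allowed at the level `l` -/
def Lf (v : ℕ → ℕ) (l : ℕ) : ℕ := (l + 1) * ∏ i ∈ range l, (2 * (l + 1) ^ 2 * v i + 1) ^ ((l + 1) * v i)

/-- The upper estimate holds for all sets of at most `Lf v n` vectors of the block `n`. -/
def Fast {p : ℝ≥0∞} (P : Params p) : Prop := ∀ (n : ℕ) (J : Finset (Fin (P.v n))), J.card ≤ Lf P.v n →
  ∀ a : Fin (P.v n) → ℝ, ‖∑ i ∈ J, a i • P.g n i‖ ^ 2 ≤ 2 * ∑ i ∈ J, a i ^ 2

/-! ## Operators from `V*` to `U_*`, the `ℓ_q`-sum -/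

/-- `U_*` -/
abbrev XSp (u : ℕ → ℕ) (q : ℝ) : Type := lp (E u) (qE q)

open Classical in
/-- `S` is the operator `S_L`. -/
def IsSc {q : ℝ} (P : Params (pE q)) [Fact (1 ≤ qE q)] (L : Set ℕ) (S : YSp P.v →L[ℝ] XSp P.u q) : Prop :=
  ∀ ν, S (eY P.v ν) = if ν.1 ∈ L then lp.single (qE q) ν.1 (P.g ν.1 ν.2) else 0

/-- `I` is the formal inclusion. -/
def IsIc {q : ℝ} (P : Params (pE q)) [Fact (1 ≤ qE q)] (I : YSp P.v →L[ℝ] XSp P.u q) : Prop :=
  ∀ ν, I (eY P.v ν) = lp.single (qE q) (P.tw ν).1 (EuclideanSpace.single (P.tw ν).2 1)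

/-- the data given by the coefficients `y a r` -/
def dd {Λ : Type} {v : ℕ → ℕ} {s : ℕ} (y : Λ → Fin s → YSp v) (a : Λ) (l : ℕ) :
    Fin s → PiLp 1 (fun _ : Fin (v l) => ℝ) := fun r => y a r l

/-- the grid: coordinates `k/(tn)`, `|k| ≤ t²n` -/
def Gd (t n : ℕ) : Set (PiLp 1 (fun _ : Fin n => ℝ)) :=
  {f | ∀ i, ∃ k : ℤ, |k| ≤ ((t ^ 2 * n : ℕ) : ℤ) ∧ f i = (k : ℝ) / ((t : ℝ) * n)}

/-! ## Duality between `U = lp (E u) (pE q)` and `U_* = lp (E u) (qE q)` -/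

/-- `Φ` is the pairing `∑_n ⟨x n, z n⟩`. -/
structure IsPr {q : ℝ} {u : ℕ → ℕ} [Fact (1 ≤ pE q)] [Fact (1 ≤ qE q)]
    (Φ : USp u (pE q) →L[ℝ] XSp u q →L[ℝ] ℝ) : Prop where
  le : ∀ x z, |Φ x z| ≤ ‖x‖ * ‖z‖
  sl : ∀ n (a : E u n) (z : XSp u q), Φ (lp.single (pE q) n a) z = inner ℝ a (z n)
  sr : ∀ (x : USp u (pE q)) n (b : E u n), Φ x (lp.single (qE q) n b) = inner ℝ (x n) b

section tr

variable {q : ℝ} {u v : ℕ → ℕ} [Fact (1 ≤ pE q)] [Fact (1 ≤ qE q)]
  (Φ : USp u (pE q) →L[ℝ] XSp u q →L[ℝ] ℝ)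
  {Z : Type} [NormedAddCommGroup Z] [NormedSpace ℝ Z] (hZ : CoordSpace v Z)

/-- `G` is the transposed operator of `R`: the columns of `G` are the rows of `R`. -/
def Tr (R : USp u (pE q) →L[ℝ] Z) (G : YSp v →L[ℝ] XSp u q) : Prop :=
  ∀ x ν, hZ.c (R x) ν = Φ x (G (eY v ν))

omit [Fact (1 ≤ pE q)] [Fact (1 ≤ qE q)] in
/-- `z` has coordinates tending to `0`. -/
def Nul (z : Z) : Prop := ∀ ε : ℝ, 0 < ε → {ν | ε ≤ |hZ.c z ν|}.Finite

omit [Fact (1 ≤ pE q)] [Fact (1 ≤ qE q)] in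
/-- `B : V* → V*` has coordinatewise null columns. -/
def NulY (B : YSp v →L[ℝ] YSp v) : Prop :=
  ∀ (μ : Ix v) (ε : ℝ), 0 < ε → {ν : Ix v | ε ≤ |B (eY v ν) μ.1 μ.2|}.Finite

omit [Fact (1 ≤ pE q)] [Fact (1 ≤ qE q)] in
/-- The operators `B` on `V*` whose transposed operators act on `Z`. -/
def Adm (B : YSp v →L[ℝ] YSp v) : Prop := ∃ A : Z →L[ℝ] Z, ∀ z (φ : YSp v →L[ℝ] ℝ),
  (∀ μ, φ (eY v μ) = hZ.c z μ) → ∀ ν, hZ.c (A z) ν = φ (B (eY v ν))

end tr

/-- an operator from `V*` with weakly null columns -/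
def WN {v : ℕ → ℕ} {X : Type} [NormedAddCommGroup X] [NormedSpace ℝ X] (T : YSp v →L[ℝ] X) : Prop :=
  ∀ (φ : X →L[ℝ] ℝ) (ε : ℝ), 0 < ε → {ν : Ix v | ε ≤ |φ (T (eY v ν))|}.Finite

end Pool.Agent.Lib.MP_537232_an.PY
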