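import Pool.Agent.Lib.MP_537232_an.PY.SpecA

set_option autoImplicit false

open Finset Filter Topology
open scoped ENNReal

namespace Pool.Agent.Lib.MP_537232_an.PY

namespace Kbd

variable {F : Type} {Δ : ℕ → Type}

theorem rb_eqv (d : F → ∀ l, Δ l) (l : ℕ) : Equivalence (rb d l) :=
  ⟨fun _ _ _ => rfl, fun h i hi => (h i hi).symm, fun h h' i hi => (h i hi).trans (h' i hi)⟩

theorem rm_eqv [∀ l, Zero (Δ l)] (d : F → ∀ l, Δ l) (l : ℕ) : Equivalence (rm d l) :=
  ⟨fun a => ⟨(rb_eqv d l).refl a, Iff.rfl⟩, fun h => ⟨(rb_eqv d l).symm h.1, h.2.symm⟩,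
    fun h h' => ⟨(rb_eqv d l).trans h.1 h'.1, h.2.trans h'.2⟩⟩

theorem rb_of_rm [∀ l, Zero (Δ l)] (d : F → ∀ l, Δ l) {l i : ℕ} (hi : i ≤ l) {a a' : F} (h : rm d l a a') :
    rb d i a a' := fun j hj => h.1 j (by omega)

theorem rm_of_rm [∀ l, Zero (Δ l)] (d : F → ∀ l, Δ l) {l i : ℕ} (hi : i < l) {a a' : F} (h : rm d l a a') :
    rm d i a a' := ⟨rb_of_rm d hi.le h, by rw [h.1 i hi]⟩

theorem ke_congr [Fintype F] (w : F → ℝ) {r r' : F → F → Prop} {a : F} (h : ∀ b, r a b ↔ r' a b) (b : F) :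
    ke w r a b = ke w r' a b := by
  have e : r a = r' a := funext fun b => propext (h b)
  unfold ke
  rw [e]

theorem rm_iff_rb [∀ l, Zero (Δ l)] (d : F → ∀ l, Δ l) {i : ℕ} {a : F} (h0 : d a i = 0) (b : F) :
    rm d i a b ↔ rb d (i + 1) a b := by
  constructor
  · intro h j hj
    rcases Nat.lt_succ_iff_lt_or_eq.mp hj with h1 | h1
    · exact h.1 j h1
    · subst h1
      rw [h0, h.2.mp h0]
  · intro h
    refine ⟨fun j hj => h j (by omega), ?_⟩
    rw [h i (by omega)]

theorem ke_eq [Fintype F] [∀ l, Zero (Δ l)] (w : F → ℝ) (d : F → ∀ l, Δ l) {i : ℕ} {a : F} (h0 : d a i = 0) (b : F) :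
    ke w (rm d i) a b = ke w (rb d (i + 1)) a b := ke_congr w (rm_iff_rb d h0) b

open Classical in
/-- the majorant -/
noncomputable def G [Fintype F] [∀ l, Zero (Δ l)] (w : F → ℝ) (d : F → ∀ l, Δ l) (n : ℕ) (a b : F) : ℝ :=
  ∑ i ∈ range n, (if d a i = 0 then 0 else ke w (rm d i) a b + ke w (rb d (i + 1)) a b)

open Classical in
theorem abs_term [Fintype F] [∀ l, Zero (Δ l)] (w : F → ℝ) (d : F → ∀ l, Δ l) (ty : ℕ → Prop)
    (h1 : ∀ i a b, 0 ≤ ke w (rm d i) a b) (h2 : ∀ i a b, 0 ≤ ke w (rb d i) a b) (i : ℕ) (a b : F) :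
    |if ty i then ke w (rm d i) a b - ke w (rb d (i + 1)) a b else 0| ≤
      if d a i = 0 then 0 else ke w (rm d i) a b + ke w (rb d (i + 1)) a b := by
  have e1 := h1 i a b
  have e2 := h2 (i + 1) a b
  by_cases h0 : d a i = 0
  · rw [if_pos h0, ke_eq w d h0]
    simp
  · rw [if_neg h0]
    by_cases h : ty i
    · rw [if_pos h]
      rw [abs_le]
      constructor <;> linarith
    · rw [if_neg h]
      simp only [abs_zero]
      linarith

open Classical in
theorem abs_sum_le [Fintype F] [∀ l, Zero (Δ l)] (w : F → ℝ) (d : F → ∀ l, Δ l) (ty : ℕ → Prop)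
    (h1 : ∀ i a b, 0 ≤ ke w (rm d i) a b) (h2 : ∀ i a b, 0 ≤ ke w (rb d i) a b) {l n : ℕ} (hl : l ≤ n) (a b : F) :
    |∑ i ∈ range l, (if ty i then ke w (rm d i) a b - ke w (rb d (i + 1)) a b else 0)| ≤ G w d n a b := by
  refine (abs_sum_le_sum_abs _ _).trans ?_
  refine (sum_le_sum fun i _ => abs_term w d ty h1 h2 i a b).trans ?_
  unfold G
  refine sum_le_sum_of_subset_of_nonneg (range_mono hl) fun i _ _ => ?_
  split_ifs
  · exact le_rfl
  · exact add_nonneg (h1 _ _ _) (h2 _ _ _)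

open Classical in
theorem sum_G [Fintype F] [∀ l, Zero (Δ l)] (w : F → ℝ) (d : F → ∀ l, Δ l)
    (h1 : ∀ i a, ∑ b, ke w (rm d i) a b = 1) (h2 : ∀ i a, ∑ b, ke w (rb d i) a b = 1) (n : ℕ) (a : F) :
    ∑ b, G w d n a b = ∑ i ∈ range n, (if d a i = 0 then 0 else 2 : ℝ) := by
  unfold G
  rw [sum_comm]
  refine sum_congr rfl fun i _ => ?_
  by_cases h0 : d a i = 0
  · simp [h0]
  · simp only [h0, if_false]
    rw [sum_add_distrib, h1, h2]
    norm_num

open Classical in
theorem card_sum [∀ l, Zero (Δ l)] (d : F → ∀ l, Δ l) (n K : ℕ) (a : F)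
    (h : {l | l < n ∧ d a l ≠ 0}.ncard ≤ K) (c : ℝ) (hc : 0 ≤ c) :
    ∑ i ∈ range n, (if d a i = 0 then 0 else c : ℝ) ≤ c * K := by
  have e : {l | l < n ∧ d a l ≠ 0} = (((range n).filter fun l => d a l ≠ 0 : Finset ℕ) : Set ℕ) := by
    ext l
    simp
  rw [e, Set.ncard_coe_finset] at h
  have e2 : ∀ i ∈ range n, (if d a i = 0 then 0 else c : ℝ) = if d a i ≠ 0 then c else 0 := by
    intro i _
    by_cases h0 : d a i = 0 <;> simp [h0]
  rw [sum_congr rfl e2, ← sum_filter, sum_const, nsmul_eq_mul, mul_comm]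
  exact mul_le_mul_of_nonneg_left (by exact_mod_cast h) hc

end Kbd

open Kbd

open Classical in
theorem wKbd (h1 : S_Cep) : S_Kbd := by
  intro F _ Δ _ d n K hK ty w hw
  have cm := fun i => h1 F w hw (rm d i) (rm_eqv d i)
  have cb := fun i => h1 F w hw (rb d i) (rb_eqv d i)
  have m0 : ∀ i a b, 0 ≤ ke w (rm d i) a b := fun i => (cm i).1
  have b0 : ∀ i a b, 0 ≤ ke w (rb d i) a b := fun i => (cb i).1
  have m1 : ∀ i a, ∑ b, ke w (rm d i) a b = 1 := fun i => (cm i).2.1
  have b1 : ∀ i a, ∑ b, ke w (rb d i) a b = 1 := fun i => (cb i).2.1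
  have mc : ∀ i a a', rm d i a a' → ∀ b, ke w (rm d i) a b = ke w (rm d i) a' b := fun i => (cm i).2.2.1
  have bc : ∀ i a a', rb d i a a' → ∀ b, ke w (rb d i) a b = ke w (rb d i) a' b := fun i => (cb i).2.2.1
  have ms : ∀ i a b, ke w (rm d i) a b ≠ 0 → rm d i a b := fun i => (cm i).2.2.2.1
  have G0 : ∀ a b, 0 ≤ G w d n a b := by
    intro a b
    unfold G
    refine sum_nonneg fun i _ => ?_
    split_ifs
    · exact le_rfl
    · exact add_nonneg (m0 _ _ _) (b0 _ _ _)
  have GK : ∀ a, ∑ b, G w d n a b ≤ 2 * K := by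
    intro a
    rw [sum_G w d m1 b1]
    exact card_sum d n K a (hK a) 2 (by norm_num)
  refine ⟨?_, ?_, ?_⟩
  · intro l a a' h
    funext b
    unfold kap
    rw [mc l a a' h b]
    congr 2
    refine sum_congr rfl fun i hi => ?_
    have hi' := mem_range.mp hi
    rw [mc i a a' (rm_of_rm d hi' h) b, bc (i + 1) a a' (rb_of_rm d hi' h) b]
  · intro β hβ0 hβz hβ1 a
    have hβl : ∀ l ∈ range n, ∀ b, β l b ≤ 1 := by
      intro l hl b
      exact (single_le_sum (fun i _ => hβ0 i b) hl).trans (hβ1 b)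
    have hk : ∀ l ∈ range n, ∀ b, |kap w d ty a l b| ≤ ke w (rm d l) a b + G w d n a b := by
      intro l hl b
      unfold kap
      refine (abs_add_le _ _).trans (add_le_add ?_ ?_)
      · by_cases h : ty l
        · rw [if_pos h, abs_of_nonneg (m0 _ _ _)]
        · rw [if_neg h, abs_zero]
          exact m0 _ _ _
      · rw [abs_mul]
        have e : |(if ty l then 1 else -1 : ℝ)| = 1 := by
          by_cases h : ty l <;> simp [h]
        rw [e, one_mul]
        exact abs_sum_le w d ty m0 b0 (mem_range.mp hl).le a b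
    have p1 : ∑ l ∈ range n, ∑ b, ke w (rm d l) a b * β l b ≤ 1 * K := by
      refine (sum_le_sum fun l hl => ?_).trans (card_sum d n K a (hK a) 1 (by norm_num))
      by_cases h0 : d a l = 0
      · rw [if_pos h0]
        refine le_of_eq (sum_eq_zero fun b _ => ?_)
        by_cases hz : ke w (rm d l) a b = 0
        · rw [hz, zero_mul]
        · have hr := ms l a b hz
          rw [hβz l b (hr.2.mp h0), mul_zero]
      · rw [if_neg h0, ← m1 l a]
        refine sum_le_sum fun b _ => ?_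
        exact mul_le_of_le_one_right (m0 _ _ _) (hβl l hl b)
    have p2 : ∑ l ∈ range n, ∑ b, G w d n a b * β l b ≤ 2 * K := by
      rw [sum_comm]
      refine (sum_le_sum fun b _ => ?_).trans (GK a)
      rw [← mul_sum]
      exact mul_le_of_le_one_right (G0 _ _) (hβ1 b)
    have p3 : ∑ l ∈ range n, ∑ b, |kap w d ty a l b| * β l b ≤
        ∑ l ∈ range n, ∑ b, ke w (rm d l) a b * β l b + ∑ l ∈ range n, ∑ b, G w d n a b * β l b := by
      rw [← sum_add_distrib]
      refine sum_le_sum fun l hl => ?_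
      rw [← sum_add_distrib]
      refine sum_le_sum fun b _ => ?_
      rw [← add_mul]
      exact mul_le_mul_of_nonneg_right (hk l hl b) (hβ0 l b)
    linarith
  · intro a
    refine (sum_le_sum fun b _ => ?_).trans (GK a)
    unfold tht
    have e : ∑ i ∈ range n, (if ty i then ke w (rb d (i + 1)) a b - ke w (rm d i) a b else 0) =
        -∑ i ∈ range n, (if ty i then ke w (rm d i) a b - ke w (rb d (i + 1)) a b else 0) := by
      rw [← sum_neg_distrib]
      refine sum_congr rfl fun i _ => ?_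
      by_cases h : ty i <;> simp [h]
    rw [e, abs_neg]
    exact abs_sum_le w d ty m0 b0 le_rfl a b

end Pool.Agent.Lib.MP_537232_an.PY
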