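import Pool.Agent.Lib.MP_537232_an.PY.SpecB

/-!
# Maurey's lemma in a Hilbert space
-/

set_option autoImplicit false

namespace Pool.Agent.Lib.MP_537232_an.PY

namespace Mau

variable {H : Type} [NormedAddCommGroup H] [InnerProductSpace ℝ H] {n : ℕ}

/-- One step: some `ξ i` does not increase the square of the norm by more than `σ ^ 2`. -/
lemma step (c : Fin n → ℝ) (ξ : Fin n → H) (x D : H) (hσ : 0 < ∑ i, |c i|)
    (hx : ∑ i, |c i| • ξ i = (∑ i, |c i|) • x) (hξ : ∀ i, ‖ξ i‖ ≤ ∑ i, |c i|) :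
    ∃ i, ‖D + (x - ξ i)‖ ^ 2 ≤ ‖D‖ ^ 2 + (∑ i, |c i|) ^ 2 := by
  set σ : ℝ := ∑ i, |c i| with hs
  by_contra hcon
  push Not at hcon
  obtain ⟨i₀, hi₀⟩ : ∃ i, 0 < |c i| := by
    by_contra h
    push Not at h
    have : σ ≤ 0 := Finset.sum_nonpos fun i _ => h i
    linarith
  have h1 : ∑ i, |c i| * (‖D‖ ^ 2 + σ ^ 2) < ∑ i, |c i| * ‖D + (x - ξ i)‖ ^ 2 := by
    refine Finset.sum_lt_sum (fun i _ => ?_) ⟨i₀, Finset.mem_univ _, ?_⟩
    · exact mul_le_mul_of_nonneg_left (hcon i).le (abs_nonneg _)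
    · exact mul_lt_mul_of_pos_left (hcon i₀) hi₀
  have h2 : ∀ i, ‖D + (x - ξ i)‖ ^ 2 = ‖D + x‖ ^ 2 - 2 * inner ℝ (D + x) (ξ i) + ‖ξ i‖ ^ 2 := by
    intro i
    rw [← add_sub_assoc]
    exact norm_sub_sq_real _ _
  have h3 : ∑ i, |c i| * ‖D + (x - ξ i)‖ ^ 2 =
      σ * ‖D + x‖ ^ 2 - 2 * inner ℝ (D + x) (σ • x) + ∑ i, |c i| * ‖ξ i‖ ^ 2 := by
    rw [← hx, inner_sum, Finset.mul_sum, hs, Finset.sum_mul, ← Finset.sum_sub_distrib,
      ← Finset.sum_add_distrib]
    refine Finset.sum_congr rfl fun i _ => ?_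
    rw [h2, real_inner_smul_right]
    ring
  have h4 : ∑ i, |c i| * ‖ξ i‖ ^ 2 ≤ σ * σ ^ 2 := by
    rw [hs, Finset.sum_mul]
    refine Finset.sum_le_sum fun i _ => mul_le_mul_of_nonneg_left ?_ (abs_nonneg _)
    exact pow_le_pow_left₀ (norm_nonneg _) (hξ i) 2
  have h5 : ‖D + x‖ ^ 2 = ‖D‖ ^ 2 + 2 * inner ℝ D x + ‖x‖ ^ 2 := norm_add_sq_real _ _
  have h6 : inner ℝ (D + x) (σ • x) = σ * (inner ℝ D x + ‖x‖ ^ 2) := by
    rw [real_inner_smul_right, inner_add_left, real_inner_self_eq_norm_sq]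
  rw [← Finset.sum_mul, ← hs, h3, h5, h6] at h1
  have h7 : 0 ≤ σ * ‖x‖ ^ 2 := by positivity
  nlinarith

/-- The choice of the multiplicities. -/
lemma weights (c : Fin n → ℝ) (ξ : Fin n → H) (x : H) (hσ : 0 < ∑ i, |c i|)
    (hx : ∑ i, |c i| • ξ i = (∑ i, |c i|) • x) (hξ : ∀ i, ‖ξ i‖ ≤ ∑ i, |c i|) (k : ℕ) :
    ∃ w : Fin n → ℕ, ∑ i, w i = k ∧
      ‖(k : ℝ) • x - ∑ i, (w i : ℝ) • ξ i‖ ^ 2 ≤ k * (∑ i, |c i|) ^ 2 := by
  induction k with
  | zero => exact ⟨0, by simp, by simp⟩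
  | succ k ih =>
    obtain ⟨w, hw, hk⟩ := ih
    obtain ⟨i, hi⟩ := step c ξ x ((k : ℝ) • x - ∑ i, (w i : ℝ) • ξ i) hσ hx hξ
    refine ⟨w + Pi.single i 1, ?_, ?_⟩
    · simp [Finset.sum_add_distrib, hw]
    · have h1 : ((k + 1 : ℕ) : ℝ) • x - ∑ j, (((w + Pi.single i 1 : Fin n → ℕ) j : ℕ) : ℝ) • ξ j =
          ((k : ℝ) • x - ∑ i, (w i : ℝ) • ξ i) + (x - ξ i) := by
        have h2 : ∑ j, (((w + Pi.single i 1 : Fin n → ℕ) j : ℕ) : ℝ) • ξ j =
            ∑ j, (w j : ℝ) • ξ j + ξ i := by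
          have h3 : ∑ j, (((Pi.single i 1 : Fin n → ℕ) j : ℕ) : ℝ) • ξ j = ξ i := by
            rw [Finset.sum_eq_single i]
            · simp
            · intro j _ hj
              simp [Pi.single_eq_of_ne hj]
            · simp
          rw [← h3, ← Finset.sum_add_distrib]
          refine Finset.sum_congr rfl fun j _ => ?_
          rw [Pi.add_apply, Nat.cast_add, add_smul]
        rw [h2]
        push_cast
        rw [add_smul, one_smul]
        abel
      rw [h1]
      push_cast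
      linarith

end Mau

open Mau in
theorem wMau : S_Mau := by
  classical
  intro H _ _ n K g c hK hg
  rcases (Finset.sum_nonneg fun i (_ : i ∈ Finset.univ) => abs_nonneg (c i)).eq_or_lt with h0 | h0
  · have hc : ∀ i, c i = 0 := by
      intro i
      have := (Finset.sum_eq_zero_iff_of_nonneg fun i _ => abs_nonneg (c i)).1 h0.symm i
        (Finset.mem_univ i)
      exact abs_eq_zero.1 this
    refine ⟨0, by simp, by simp [hc], by simp [hc]⟩
  · set σ : ℝ := ∑ i, |c i| with hs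
    set ξ : Fin n → H := fun i => (σ * SignType.sign (c i)) • g i with hξd
    set x : H := ∑ i, c i • g i with hxd
    have hx : ∑ i, |c i| • ξ i = σ • x := by
      rw [hxd, Finset.smul_sum]
      refine Finset.sum_congr rfl fun i _ => ?_
      rw [hξd]
      simp only
      rw [smul_smul, smul_smul]
      congr 1
      have := abs_mul_sign (c i)
      calc |c i| * (σ * SignType.sign (c i)) = σ * (|c i| * SignType.sign (c i)) := by ring
        _ = σ * c i := by rw [this]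
    have hsgn : ∀ i, |((SignType.sign (c i) : SignType) : ℝ)| ≤ 1 := by
      intro i
      rcases lt_trichotomy (c i) 0 with h | h | h
      · simp [sign_neg h]
      · simp [h]
      · simp [sign_pos h]
    have hξ : ∀ i, ‖ξ i‖ ≤ σ := by
      intro i
      rw [hξd]
      simp only
      rw [norm_smul, Real.norm_eq_abs, abs_mul, abs_of_pos h0]
      calc σ * |((SignType.sign (c i) : SignType) : ℝ)| * ‖g i‖ ≤ σ * 1 * 1 := by
            gcongr
            · exact hsgn i
            · exact hg i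
        _ = σ := by ring
    obtain ⟨w, hw, hk⟩ := weights c ξ x h0 hx hξ K
    have hK' : (0 : ℝ) < K := by exact_mod_cast hK
    refine ⟨fun i => σ / K * (w i : ℝ) * SignType.sign (c i), ?_, ?_, ?_⟩
    · have h1 : {i | σ / K * (w i : ℝ) * ((SignType.sign (c i) : SignType) : ℝ) ≠ 0} ⊆
          (Finset.univ.filter fun i => w i ≠ 0 : Finset (Fin n)) := by
        intro i hi
        rw [Finset.coe_filter]
        refine ⟨Finset.mem_univ i, ?_⟩
        rintro h
        apply hi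
        rw [h]
        simp
      refine (Set.ncard_le_ncard h1 (Finset.finite_toSet _)).trans ?_
      rw [Set.ncard_coe_finset]
      calc (Finset.univ.filter fun i => w i ≠ 0).card = ∑ i ∈ Finset.univ.filter fun i => w i ≠ 0, 1 := by
            simp
        _ ≤ ∑ i ∈ Finset.univ.filter fun i => w i ≠ 0, w i :=
            Finset.sum_le_sum fun i hi => Nat.one_le_iff_ne_zero.2 (Finset.mem_filter.1 hi).2
        _ ≤ ∑ i, w i := Finset.sum_le_sum_of_subset (Finset.filter_subset _ _)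
        _ = K := hw
    · calc ∑ i, |σ / K * (w i : ℝ) * ((SignType.sign (c i) : SignType) : ℝ)| ≤
          ∑ i, σ / K * (w i : ℝ) := by
            refine Finset.sum_le_sum fun i _ => ?_
            rw [abs_mul, abs_of_nonneg (by positivity : 0 ≤ σ / K * (w i : ℝ))]
            exact mul_le_of_le_one_right (by positivity) (hsgn i)
        _ = σ / K * ∑ i, (w i : ℝ) := by rw [Finset.mul_sum]
        _ = σ := by
            rw [← Nat.cast_sum, hw]
            field_simp
    · have h1 : ∑ i, (c i - σ / K * (w i : ℝ) * ((SignType.sign (c i) : SignType) : ℝ)) • g i =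
          (K : ℝ)⁻¹ • ((K : ℝ) • x - ∑ i, (w i : ℝ) • ξ i) := by
        rw [smul_sub, smul_smul, inv_mul_cancel₀ hK'.ne', one_smul, hxd, Finset.smul_sum,
          ← Finset.sum_sub_distrib]
        refine Finset.sum_congr rfl fun i _ => ?_
        rw [hξd]
        simp only
        rw [smul_smul, smul_smul, sub_smul]
        congr 2
        field_simp
      rw [h1, norm_smul, mul_pow, Real.norm_eq_abs, abs_of_pos (inv_pos.2 hK')]
      calc ((K : ℝ)⁻¹) ^ 2 * ‖(K : ℝ) • x - ∑ i, (w i : ℝ) • ξ i‖ ^ 2 ≤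
          ((K : ℝ)⁻¹) ^ 2 * (K * σ ^ 2) := by gcongr
        _ = σ ^ 2 / K := by
            field_simp

end Pool.Agent.Lib.MP_537232_an.PY
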