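import Pool.Agent.Lib.MP_537232_an.PY.SpecC

set_option autoImplicit false

/-!
# MP_537232_an, directory PY: selection of cluster points
-/

open Finset Filter Topology
open scoped ENNReal Uniformity

namespace Pool.Agent.Lib.MP_537232_an.PY

/-- Selection of cluster points. -/
theorem wSel : S_Sel := by
  intro ι κ _ _ _ f C hf
  let _ : MetricSpace (κ → ℝ) := UniformSpace.metricSpace (κ → ℝ)
  -- the compact set
  have hK : IsCompact (Set.pi Set.univ (fun _ : κ => Set.Icc (-C) C)) :=
    isCompact_univ_pi (fun _ => isCompact_Icc)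
  set K : Set (κ → ℝ) := Set.pi Set.univ (fun _ : κ => Set.Icc (-C) C) with hKdef
  have hfK : ∀ i, f i ∈ K := fun i k _ => abs_le.1 (hf i k)
  set L : Set (κ → ℝ) := {x | MapClusterPt x cofinite f} with hL
  have hLc : IsClosed L := isClosed_setOfPred_clusterPt
  have hLK : L ⊆ K := by
    intro x hx
    have h1 : ClusterPt x (𝓟 K) := ClusterPt.mono hx (by
      rw [le_principal_iff]; exact Filter.mem_map.2 (Eventually.of_forall hfK))
    exact hK.isClosed.closure_eq ▸ (mem_closure_iff_clusterPt.2 h1)
  have hLcomp : IsCompact L := hK.of_isClosed_subset hLc hLK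
  -- cluster points exist
  have hex : ∀ F : Filter ι, F.NeBot → ∃ x ∈ K, MapClusterPt x F f := by
    intro F hF
    exact hK.exists_mapClusterPt (le_principal_iff.2
      (Filter.mem_map.2 (Eventually.of_forall hfK)))
  obtain ⟨x₀, hx₀K, hx₀⟩ := hex cofinite inferInstance
  have hLne : L.Nonempty := ⟨x₀, hx₀⟩
  -- the selection
  have hsel : ∀ i, ∃ y ∈ L, Metric.infDist (f i) L = dist (f i) y :=
    fun i => hLcomp.exists_infDist_eq_dist hLne (f i)
  choose g hgL hgd using hsel
  refine ⟨g, ?_, ?_⟩
  · intro i
    obtain ⟨U, hU, hU2⟩ := mapClusterPt_iff_ultrafilter.1 (hgL i)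
    exact ⟨U, hU, fun k => (tendsto_pi_nhds.1 hU2) k⟩
  · -- the distances tend to zero
    have hd : Tendsto (fun i => Metric.infDist (f i) L) cofinite (𝓝 0) := by
      rw [Metric.tendsto_nhds]
      intro ε hε
      by_contra hcon
      have hS : {i | ε ≤ Metric.infDist (f i) L}.Infinite := by
        intro hfin
        apply hcon
        rw [Filter.eventually_cofinite]
        refine hfin.subset ?_
        intro i hi
        simp only [Set.mem_ofPred_eq, Real.dist_eq, sub_zero, not_lt] at hi ⊢
        rwa [abs_of_nonneg Metric.infDist_nonneg] at hi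
      have hne : (cofinite ⊓ 𝓟 {i | ε ≤ Metric.infDist (f i) L}).NeBot :=
        cofinite_inf_principal_neBot_iff.2 hS
      obtain ⟨x, _, hx⟩ := hex _ hne
      have hxL : x ∈ L := MapClusterPt.mono hx inf_le_left
      have hcl : IsClosed {y : κ → ℝ | ε ≤ Metric.infDist y L} :=
        isClosed_le continuous_const (Metric.continuous_infDist_pt L)
      have h2 : ClusterPt x (𝓟 {y : κ → ℝ | ε ≤ Metric.infDist y L}) := by
        refine ClusterPt.mono hx ?_
        rw [le_principal_iff, Filter.mem_map]
        exact mem_inf_of_right (mem_principal.2 (fun i hi => hi))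
      have h3 : x ∈ {y : κ → ℝ | ε ≤ Metric.infDist y L} := by
        have := mem_closure_iff_clusterPt.2 h2
        rwa [hcl.closure_eq] at this
      have h4 : Metric.infDist x L = 0 := Metric.infDist_zero_of_mem hxL
      simp only [Set.mem_ofPred_eq, h4] at h3
      linarith
    have hd2 : Tendsto (fun i => dist (f i) (g i)) cofinite (𝓝 0) := by
      refine hd.congr (fun i => hgd i)
    have hu : Tendsto (fun i => (f i, g i)) cofinite (𝓤 (κ → ℝ)) :=
      tendsto_uniformity_iff_dist_tendsto_zero.2 hd2
    intro k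
    have hk : Tendsto (fun i => (f i k, g i k)) cofinite (𝓤 ℝ) :=
      Filter.Tendsto.comp (Pi.uniformContinuous_proj (fun _ : κ => ℝ) k) hu
    have hk2 := tendsto_uniformity_iff_dist_tendsto_zero.1 hk
    rw [tendsto_zero_iff_abs_tendsto_zero]
    exact hk2

end Pool.Agent.Lib.MP_537232_an.PY
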