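import Pool.Agent.Lib.MP_537232_an.PY.Defs

set_option autoImplicit false

/-!
# MP_537232_an, directory PY, part A: martingale transforms, minimax, adapted families

Every statement `S_Xxx` is a `Prop`, proved in its own file `PY/Xxx.lean` (`theorem wXxx`), with the statements it uses as
hypotheses.  The complete proofs are in the docstrings.  `L_q(X)` always refers to a finite set with positive weights `w`.
-/

open Finset Filter Topology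
open scoped ENNReal

namespace Pool.Agent.Lib.MP_537232_an.PY

open NM (pE qE)

/-- **Cep.**  Conditional expectations.

Proof.  For an equivalence relation the classes of `a` and `a'` agree if `r a a'`; the denominator is at least `w a > 0`.  (5): both sides are `w a w b / w(class)` if `r a b`, `0` otherwise.
(6) `∑_bke a b f b = ∑_bke a b f a = f a`.  (7) by (5): `∑_aw_a⟨g a,∑_bke(a,b)f b⟩ = ∑_a∑_bw_bke(b,a)⟨g a,f b⟩`. -/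
def S_Cep : Prop := ∀ (F : Type) [Fintype F] (w : F → ℝ), (∀ a, 0 < w a) → ∀ r : F → F → Prop, Equivalence r →
  (∀ a b, 0 ≤ ke w r a b) ∧ (∀ a, ∑ b, ke w r a b = 1) ∧ (∀ a a', r a a' → ∀ b, ke w r a b = ke w r a' b) ∧
  (∀ a b, ke w r a b ≠ 0 → r a b) ∧ (∀ a b, w a * ke w r a b = w b * ke w r b a) ∧
  (∀ (X : Type) [NormedAddCommGroup X] [NormedSpace ℝ X] (f : F → X), (∀ a b, r a b → f a = f b) → ce w r f = f) ∧
  ∀ (H : Type) [NormedAddCommGroup H] [InnerProductSpace ℝ H] (f g : F → H),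
    ∑ a, w a * inner ℝ (g a) (ce w r f a) = ∑ a, w a * inner ℝ (ce w r g a) (f a)

/-- **Bqa.**  The second derivative (`N' = x`, `N'' = 2σ`, `S' = z`, `S'' = ζ`).

Proof.  Let `ρ = √(N/S) ∈ (0,1]`, `a = aB m`, `b = bB m`.  Divide by `S^(m-1)` (`S^(m-2) = S^(m-1)/S` etc., `N^(m-1) = S^(m-1)ρ^(2m-2)`).  `mζ + m(m-1)z²/S ≤ 4mσ + 8m(m-1)σ ≤ 8m²σ`.
`|2(m-1)xz/S| ≤ 2(m-1)·2√(σN)·2√2√(σS)/S ≤ 12(m-1)σρ`.  `(m-1)(N/S)(ζ + (m-2)z²/S) ≥ -6(m-1)ρ²σ` (for `m ≥ 2` it is `≥ 0`; for `m < 2`: `ζ ≥ 2σ`, `(m-2)z²/S ≥ -8σ`).  So the whole is at most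
`σS^(m-1)(8m² - a(2 - 18mρ) - 2mbρ^(2m-2))` (the term with `N^(m-2)x²` has the good sign).  If `ρ ≤ 1/(18m)`: `≤ 8m² - a = 0`.  If `ρ > 1/(18m)`: `ρ^(2m-2) ≥ (18m)^(-(2m-2))`, so
`2mbρ^(2m-2) ≥ 8m² + 144m³` and the bracket is at most `8m² - 16m² + 144m³ - 8m² - 144m³ ≤ 0` (`ρ ≤ 1`). -/
def S_Bqa : Prop := ∀ m : ℝ, 1 ≤ m → ∀ N S σ ζ x z : ℝ, 0 < N → N ≤ S → 0 ≤ σ → 2 * σ ≤ ζ → ζ ≤ 4 * σ →
  x ^ 2 ≤ 4 * σ * N → z ^ 2 ≤ 8 * σ * S →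
  m * S ^ (m - 1) * ζ + m * (m - 1) * S ^ (m - 2) * z ^ 2 -
    aB m * (2 * σ * S ^ (m - 1) + 2 * (m - 1) * x * S ^ (m - 2) * z +
      N * ((m - 1) * S ^ (m - 2) * ζ + (m - 1) * (m - 2) * S ^ (m - 3) * z ^ 2)) -
    bB m * (2 * m * σ * N ^ (m - 1) + m * (m - 1) * N ^ (m - 2) * x ^ 2) ≤ 0

/-- **Bqb** (from `Bqa`).  The tangent inequality on a line.

Proof.  `N(t) = α + 2βt + σt²`, `M(t) = γ + 2δt + τt²`, `S = N + M`, for `t ∈ [0,1]` (or `t ∈ ℝ`): `N(t) ≥ η > 0` (discriminant of `N - η`), `M(t) ≥ 0`,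
`N'² = 4(β+σt)² ≤ 4σN` (`β² ≤ (α-η)σ ≤ ασ`), `M'² ≤ 4τM ≤ 4σM`, so `S'² ≤ (2√σ(√N+√M))² ≤ 8σS`; `S'' = 2(σ+τ) ∈ [2σ,4σ]`.  `φ(t) = Bf m (N t) (S t)` has
`φ' = mS^(m-1)S' - a(N'S^(m-1) + N(m-1)S^(m-2)S') - bmN^(m-1)N'` and `φ''` = the expression of `Bqa` (`HasDerivAt.rpow_const`, bases positive), so `φ'' ≤ 0`: `φ'` is antitone and `φ(1) ≤ φ(0) + φ'(0)`
(mean value theorem, or `Convex.image_sub_le_mul_sub_of_deriv_le`). -/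
def S_Bqb : Prop := ∀ m : ℝ, 1 ≤ m → ∀ η α β σ γ δ τ : ℝ, 0 < η → η ≤ α → 0 ≤ γ → 0 ≤ σ → 0 ≤ τ → τ ≤ σ →
  β ^ 2 ≤ (α - η) * σ → δ ^ 2 ≤ γ * τ →
  Bf m (α + 2 * β + σ) (α + 2 * β + σ + (γ + 2 * δ + τ)) ≤ Bf m α (α + γ) +
    (m * (α + γ) ^ (m - 1) * (2 * (β + δ)) -
      aB m * (2 * β * (α + γ) ^ (m - 1) + α * (m - 1) * (α + γ) ^ (m - 2) * (2 * (β + δ))) -
      bB m * (m * α ^ (m - 1) * (2 * β)))

/-- **Bvc** (from `Bqb`).  The function `Fb` on pairs of vectors.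

Proof.  (1) `θ = 0, 1`: `α = ‖x‖² + η`, `β = ⟨x,h⟩`, `σ = ‖h‖²`, `γ = ‖y‖²`, `δ = θ⟨y,h⟩`, `τ = θ‖h‖²`; `‖x+h‖² + η = α + 2β + σ`, `‖y+θh‖² = γ + 2δ + τ`, Cauchy-Schwarz.  The linear term is `⟨G θ x y, h⟩` with
`G θ x y = (2mS^(m-1) - 2a(S^(m-1) + N(m-1)S^(m-2)) - 2bmN^(m-1))•x + (2mS^(m-1) - 2aN(m-1)S^(m-2))•(θ•y)`.  (2) `C = 2(a(2a)^(m-1) + b)`: if `2aN ≤ S` then `aNS^(m-1) ≤ S^m/2`, otherwise
`S^m ≤ ...`: `S < 2aN`, `aNS^(m-1) ≤ aN(2aN)^(m-1)`; in both cases `Bf ≥ S^m/2 - (C/2)N^m`, and `‖y‖^(2m) ≤ S^m`.  (3) `S = N`, `a + b ≥ 1`. -/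
def S_Bvc : Prop := ∀ m : ℝ, 1 ≤ m → ∃ C : ℝ, 0 < C ∧ ∀ η : ℝ, 0 < η → ∀ (H : Type) [NormedAddCommGroup H]
  [InnerProductSpace ℝ H], (∃ G : ℝ → H → H → H, ∀ θ : ℝ, θ = 0 ∨ θ = 1 → ∀ x y h : H,
    Fb m η (x + h) (y + θ • h) ≤ Fb m η x y + inner ℝ (G θ x y) h) ∧
  (∀ x y : H, ‖y‖ ^ (2 * m) ≤ 2 * Fb m η x y + C * (‖x‖ ^ 2 + η) ^ m) ∧
  ∀ x : H, Fb m η x (0 : H) ≤ 0

/-- **Bmt** (from `Cep`, `Bvc`).  Burkholder's inequality for martingale transforms, exponents `≥ 2`, Hilbert spaces.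

Proof.  `m = r/2`.  Replace `r j` by the equality relation for `j > n` and `θ j` by `0` for `j ≥ n` (the transform with `n+1` steps is the same), so `x_(n+1) = f` where `x_j = ce w (r j) f`; `y_j = ∑_{i<j}θ_i•(x_(i+1) - x_i)`.
`∑_aw_aFb(x_(j+1) a, y_(j+1) a) ≤ ∑_aw_aFb(x_j a, y_j a)`: `Bvc`(1) with `h = x_(j+1) a - x_j a`, and `∑_aw_a⟨G(x_j a, y_j a), x_(j+1) a - x_j a⟩ = 0`: with `g a = G θ (x_j a) (y_j a)`, constant on the classes of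
`r j` and of `r (j+1)`, `Cep`(7) and (6) give `∑w⟨g,x_(j+1)⟩ = ∑w⟨g,f⟩ = ∑w⟨g,x_j⟩`.  `y_0 = 0`: so `∑w‖y_(n+1)‖^r ≤ 2∑wFb(x_(n+1),y_(n+1)) + C∑w(‖f‖²+η)^m ≤ C∑w(‖f‖²+η)^m`, and `η → 0`. -/
def S_Bmt : Prop := ∀ r : ℝ, 2 ≤ r → ∃ C : ℝ, 0 < C ∧ ∀ (H : Type) [NormedAddCommGroup H] [InnerProductSpace ℝ H],
  UM H r C

/-- **Udu** (from `Cep`, `Bmt`).  All exponents `q > 1`.

Proof.  `q ≥ 2`: `Bmt`.  `q < 2`: `p = q/(q-1) > 2`, `C_p` from `Bmt`.  `g = mt f`, `h a = ‖g a‖^(q-2)•g a` (`0` if `g a = 0`): `⟨g,h⟩ = ‖g‖^q`, `‖h‖^p = ‖g‖^q`.  `∑w⟨mt f,h⟩ = ∑w⟨f,mt h⟩` (`Cep`(7) for every term), so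
`∑w‖g‖^q ≤ (∑w‖f‖^q)^(1/q)(∑w‖mt h‖^p)^(1/p) ≤ (∑w‖f‖^q)^(1/q)(C_p∑w‖g‖^q)^(1/p)` (Hölder: `Real.inner_le_Lp_mul_Lq` for `w^(1/q)‖f‖`, `w^(1/p)‖mt h‖`), hence `∑w‖g‖^q ≤ C_p^(q/p)∑w‖f‖^q`. -/
def S_Udu : Prop := ∀ q : ℝ, 1 < q → ∃ C : ℝ, 0 < C ∧ ∀ (H : Type) [NormedAddCommGroup H] [InnerProductSpace ℝ H],
  UM H q C

/-- **Ulp** (from `Udu`).  The space `U_*`.

Proof.  `‖x‖^q = ∑_n‖x n‖^q` (`lp.norm_rpow_eq_tsum` or `lp.hasSum_norm`), `(mt w r θ n f a) k = mt w r θ n (fun a => f a k) a` (`lp.coeFn_smul`, `coeFn_sum`, ...).  Sum the inequalities of `Udu` for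
`H = E u k` over `k` (finite sums over `a` and `tsum` over `k` commute, all terms are nonnegative and summable). -/
def S_Ulp : Prop := ∀ q : ℝ, 1 < q → ∃ C : ℝ, 0 < C ∧ ∀ (u : ℕ → ℕ) [Fact (1 ≤ qE q)], UM (XSp u q) q C

/-- **Mmx.**  A minimax lemma.

Proof.  Otherwise the convex sets `C = {v | ∃ w ∈ K, ∀ a, f a w ≤ v a}` (nonempty: some `π` exists, so `K ≠ ∅`) and `D = {v | ∀ a, v a < c + η}` (open) in `F → ℝ` are disjoint.  `geometric_hahn_banach_open`: a continuous linear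
`Λ v = ∑_aπ_av_a` and `t` with `Λ v < t` on `D` and `t ≤ Λ v` on `C`.  `D` is unbounded below in every coordinate: `π_a ≥ 0`; `π ≠ 0` (else `0 < t ≤ 0`), normalize `∑π = 1`.  Letting `v → (c+η,..,c+η)`: `c + η ≤ ∑_aπ_af a w` for all
`w ∈ K`.  For `π' = (1-δ)π + δ/card F` (all `π'_a > 0`) `∑π'_af a w ≥ (1-δ)(c+η)` (`f ≥ 0`), which is `> c` for small `δ` (`c ≥ 0`, because `c ≥ ∑π f ≥ 0`): contradiction. -/
def S_Mmx : Prop := ∀ (W : Type) [AddCommGroup W] [Module ℝ W] (K : Set W), Convex ℝ K → ∀ (F : Type) [Fintype F]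
  [Nonempty F] (f : F → W → ℝ), (∀ a, ConvexOn ℝ K (f a)) → (∀ a w, 0 ≤ f a w) → ∀ c : ℝ,
  (∀ π : F → ℝ, (∀ a, 0 < π a) → ∑ a, π a = 1 → ∃ w ∈ K, ∑ a, π a * f a w ≤ c) →
  ∀ η : ℝ, 0 < η → ∃ w ∈ K, ∀ a, f a w ≤ c + η

/-- **Kcv.**  The class of the adapted kernels is convex.

Proof.  All conditions are convex (`|·|` is convex, the sums are finite and `β ≥ 0`). -/
def S_Kcv : Prop := ∀ (F : Type) [Fintype F] (Δ : ℕ → Type) [∀ l, Zero (Δ l)] (d : F → ∀ l, Δ l) (n K : ℕ),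
  Convex ℝ {p : (F → ℕ → F → ℝ) × (F → F → ℝ) | KC d n K p.1 p.2}

/-- **Kbd** (from `Cep`).  The kernels `kap`, `tht` belong to the class.

Proof.  `rb d i`, `rm d i` are equivalence relations, `rm d l a a'` implies `rm d i a a'` and `rb d (i+1) a a'` for `i < l`: (ad) by `Cep`(3) (`funext`).  Key fact: if `d a i = 0` then `ke w (rm d i) a b = ke w (rb d (i+1)) a b` for
all `b` (the two relations have the same class of `a`: `rb d (i+1) a b ↔ rb d i a b ∧ d b i = 0 ↔ rm d i a b`).  (bd): fix `a`, `U = {i < n : d a i ≠ 0}`, `card U ≤ K`.  `|κ a l b| ≤ ke w (rm d l) a b + ∑_{i<l, i∈U}(ke w (rm d i) a b + ke w (rb d (i+1)) a b)`.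
First part: `∑_{l<n}∑_bke w (rm d l) a b β l b`: for `l ∉ U` (`d a l = 0`) all `b` in the class have `d b l = 0`, so `β l b = 0`; for `l ∈ U` the inner sum is `≤ 1` (`β l b ≤ 1`, `Cep`(2)): at most `K`.  Second part:
exchange the sums: for `i ∈ U`, `∑_bke(a,b)∑_{l>i}β l b ≤ 1`, twice: at most `2K`.  (bt): `|θ a b| ≤ ∑_{i∈U}(ke + ke)`. -/
def S_Kbd : Prop := ∀ (F : Type) [Fintype F] (Δ : ℕ → Type) [∀ l, Zero (Δ l)] (d : F → ∀ l, Δ l) (n K : ℕ),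
  (∀ a, {l | l < n ∧ d a l ≠ 0}.ncard ≤ K) → ∀ (ty : ℕ → Prop) (w : F → ℝ), (∀ a, 0 < w a) →
  KC d n K (kap w d ty) (tht w d ty n)

open Classical in
/-- **Idn** (from `Cep`).  The identity.

Proof.  Both sides are linear; `T g = ∑_{i<n, ty i}(ce w (rb d (i+1)) g - ce w (rm d i) g)`, `T j a = ∑_bθ a b•j b`.  For `l < n`: `x l` is constant on the classes of `rb d (i+1)`, `i ≥ l`, and of `rm d i`, `i > l`, so by `Cep`(6)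
the terms `i > l` of `T (x l)` vanish, and the term `i = l` (if `ty l`) is `x l - ce w (rm d l) (x l)`.  So
for `ty l`, `∑_bκ(a,l,b)•x l b = ce w (rm d l) (x l) a + ∑_{i<l,ty i}(ce w (rm d i) - ce w (rb d (i+1)))(x l) a = x l a - T(x l) a`; for not `ty l`, `∑_bκ(a,l,b)•x l b = -∑_{i<l,ty i}(ce w (rm d i) - ce w (rb d (i+1)))(x l) a = T(x l) a`.
The left side is `∑_{ty l}(x l - (x l - T x l)) - ∑_{not ty l}T(x l) - T j = T f`. -/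
def S_Idn : Prop := ∀ (F : Type) [Fintype F] (Δ : ℕ → Type) [∀ l, Zero (Δ l)] (d : F → ∀ l, Δ l) (n : ℕ)
  (ty : ℕ → Prop) (w : F → ℝ), (∀ a, 0 < w a) → ∀ (X : Type) [NormedAddCommGroup X] [NormedSpace ℝ X]
  (x : ℕ → F → X) (j f : F → X), (∀ l a b, d a l = d b l → x l a = x l b) →
  (∀ a, f a = ∑ l ∈ range n, (if ty l then x l a else 0) - ∑ l ∈ range n, (if ty l then 0 else x l a) - j a) → ∀ a,
  ∑ l ∈ range n, (if ty l then x l a else 0) - ∑ l ∈ range n, ∑ b, kap w d ty a l b • x l b -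
    ∑ b, tht w d ty n a b • j b =
    ∑ i ∈ range n, (if ty i then ce w (rb d (i + 1)) f a - ce w (rm d i) f a else 0)

open Classical in
/-- **Act** (from `Kbd`, `Idn`).  Adapted kernels for given weights.

Proof.  `κ = kap w d ty`, `θ = tht w d ty n`.  The right side of `Idn` is `mt w r θ' (2n) f a` with `r (2l) = rb d l`, `r (2l+1) = rm d l` (a `Flt`), `θ' (2l) = 0`, `θ' (2l+1) = 1` if `ty l` and `0` otherwise
(`sum_range` over even and odd indices: induction on `n`).  `UM`. -/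
def S_Act : Prop := ∀ (X : Type) [NormedAddCommGroup X] [NormedSpace ℝ X] (q C : ℝ), UM X q C → ∀ (F : Type) [Fintype F]
  (Δ : ℕ → Type) [∀ l, Zero (Δ l)] (d : F → ∀ l, Δ l) (n K : ℕ), (∀ a, {l | l < n ∧ d a l ≠ 0}.ncard ≤ K) →
  ∀ (ty : ℕ → Prop) (w : F → ℝ), (∀ a, 0 < w a) → ∀ (x : ℕ → F → X) (j : F → X),
  (∀ l a b, d a l = d b l → x l a = x l b) → ∃ (κ : F → ℕ → F → ℝ) (θ : F → F → ℝ), KC d n K κ θ ∧
  ∑ a, w a * ‖∑ l ∈ range n, (if ty l then x l a else 0) - ∑ l ∈ range n, ∑ b, κ a l b • x l b -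
      ∑ b, θ a b • j b‖ ^ q ≤
    C * ∑ a, w a * ‖∑ l ∈ range n, (if ty l then x l a else 0) - ∑ l ∈ range n, (if ty l then 0 else x l a) -
      j a‖ ^ q

open Classical in
/-- **Fnk** (from `Act`, `Mmx`, `Kcv`).  Adapted kernels, uniform estimate.

Proof.  `Mmx` for the convex set of `Kcv`, `f a (κ,θ) = ‖z a - ∑∑κ x - ∑θ j‖^q` (convex: norm of an affine map, `q ≥ 1`, `ConvexOn.rpow`-like: `x ↦ x^q` is convex and monotone on `[0,∞)`), `c = C ε^q`: for weights with `∑π = 1` `Act` gives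
`≤ C∑π ε^q = C ε^q`.  With slack `η^q`: `‖..‖^q ≤ C ε^q + η^q`, so `‖..‖ ≤ (C ε^q)^(1/q) + η = C^(1/q) ε + η` (`Real.add_rpow_le_rpow_add`-like: `(a+b)^(1/q) ≤ a^(1/q) + b^(1/q)`). -/
def S_Fnk : Prop := ∀ (X : Type) [NormedAddCommGroup X] [NormedSpace ℝ X] (q C : ℝ), 1 ≤ q → 0 ≤ C → UM X q C →
  ∀ (F : Type) [Fintype F] [Nonempty F] (Δ : ℕ → Type) [∀ l, Zero (Δ l)] (d : F → ∀ l, Δ l) (n K : ℕ),
  (∀ a, {l | l < n ∧ d a l ≠ 0}.ncard ≤ K) → ∀ (ty : ℕ → Prop) (x : ℕ → F → X) (j : F → X),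
  (∀ l a b, d a l = d b l → x l a = x l b) → ∀ ε : ℝ, 0 ≤ ε →
  (∀ a, ‖∑ l ∈ range n, (if ty l then x l a else 0) - ∑ l ∈ range n, (if ty l then 0 else x l a) - j a‖ ≤ ε) →
  ∀ η : ℝ, 0 < η → ∃ (κ : F → ℕ → F → ℝ) (θ : F → F → ℝ), KC d n K κ θ ∧
  ∀ a, ‖∑ l ∈ range n, (if ty l then x l a else 0) - ∑ l ∈ range n, ∑ b, κ a l b • x l b -
      ∑ b, θ a b • j b‖ ≤ C ^ (1 / q) * ε + η

end Pool.Agent.Lib.MP_537232_an.PY
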