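import Pool.Agent.Lib.MP_537232_an.PY.SpecA

set_option autoImplicit false

/-!
# MP_537232_an, directory PY, part B: operators from `V*` to `U_*`

Every statement `S_Xxx` is a `Prop`, proved in its own file `PY/Xxx.lean` (`theorem wXxx`), with the statements it uses as
hypotheses.  The complete proofs are in the docstrings.  `Y = YSp P.v`, `X = XSp P.u q = lp (E P.u) (qE q)`, `q > 1`.
-/

open Finset Filter Topology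
open scoped ENNReal

namespace Pool.Agent.Lib.MP_537232_an.PY

open NM (pE qE)

/-! ## Weak limits -/

/-- **Wnl.**  Functionals on the `ℓ_q`-sum, `q > 1`.

Proof.  Let `F` be a finite subset of the set, `N = card F`, `b_n` for `n ∈ F` as in the set, `σ_n = ±1` with `σ_nφ(single n b_n) = |..| ≥ δ`.  `Nδ ≤ φ(∑_{n∈F}single n (σ_nb_n)) ≤ ‖φ‖‖∑..‖ ≤ ‖φ‖N^(1/q)` (the norm of a sum of
singles: `lp.norm_sum_single`, `∑_{n∈F}‖b_n‖^q ≤ N`).  So `N^(1-1/q) ≤ ‖φ‖/δ`: `N` is bounded, and an infinite set has finite subsets of every size (`Set.Infinite.exists_subset_card_eq`). -/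
def S_Wnl : Prop := ∀ q : ℝ, 1 < q → ∀ [Fact (1 ≤ qE q)] (u : ℕ → ℕ) (φ : XSp u q →L[ℝ] ℝ) (δ : ℝ), 0 < δ →
  {n : ℕ | ∃ b : E u n, ‖b‖ ≤ 1 ∧ δ ≤ |φ (lp.single (qE q) n b)|}.Finite

/-- **Wns** (from `Wnl`).  The operators `S_L` and `I` have weakly null columns, also after multiplication with an operator of `X`.

Proof.  Apply `Wnl` to `φ ∘ A`.  `S_L`: `{ν | ..} ⊆ {ν | ν.1 ∈ finite set}` (`finite_fst`, `P.norm_g`).  `I`: `‖EuclideanSpace.single t 1‖ = 1`, `{ν | (tw ν).1 ∈ finite set}` is finite because `P.tw` is injective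
(`Params.tw_injective` in `Rows.lean`, `Set.Finite.preimage`). -/
def S_Wns : Prop := ∀ q : ℝ, 1 < q → ∀ [Fact (1 ≤ qE q)] (P : Params (pE q)) (L : Set ℕ) (T : YSp P.v →L[ℝ] XSp P.u q),
  (IsSc P L T ∨ IsIc P T) → ∀ A : XSp P.u q →L[ℝ] XSp P.u q, WN (A.comp T)

/-- **Wlm.**  Weak limits.

Proof.  Let `x = z' - ∑T_r c'_r`; a functional `φ` with `‖φ‖ ≤ 1`, `φ x = ‖x‖` (`exists_dual_vector''`).  Claim: `φ(T_r(c j r)) → φ(T_r(c' r))`.  `ψ = φ ∘ T_r`; `δ > 0`, `F = {ν | δ ≤ |ψ(eY ν)|}` finite (`WN`).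
`y ↦ ψ y - ∑_{ν∈F}ψ(eY ν) y ν.1 ν.2` is a continuous functional with values `ψ(eY ν)` (`ν ∉ F`) or `0` on the unit vectors: its norm is `≤ δ` (`Y_norm_le`), so `|ψ(c j r) - ψ(c' r)| ≤ ∑_F|ψ(eY ν)||(c j r - c' r)_ν| + δ(C + ‖c' r‖)`.
Hence `‖x‖ = φ x = lim φ(z j - ∑T_r(c j r)) ≤ ε` (`le_of_tendsto`, `|φ y| ≤ ‖y‖`). -/
def S_Wlm : Prop := ∀ (v : ℕ → ℕ) (X : Type) [NormedAddCommGroup X] [NormedSpace ℝ X] (ι : Type) [Fintype ι]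
  (T : ι → (YSp v →L[ℝ] X)), (∀ r, WN (T r)) → ∀ (J : Type) (𝓕 : Filter J) [𝓕.NeBot] (C ε : ℝ)
  (c : J → ι → YSp v) (c' : ι → YSp v) (z : J → X) (z' : X), (∀ j r, ‖c j r‖ ≤ C) →
  (∀ r l i, Tendsto (fun j => c j r l i) 𝓕 (𝓝 (c' r l i))) →
  (∀ φ : X →L[ℝ] ℝ, Tendsto (fun j => φ (z j)) 𝓕 (𝓝 (φ z'))) →
  (∀ᶠ j in 𝓕, ‖z j - ∑ r, T r (c j r)‖ ≤ ε) → ‖z' - ∑ r, T r (c' r)‖ ≤ ε

/-- **Ylm.**  Coordinatewise limits along an ultrafilter.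

Proof.  `|c j l i| ≤ ‖c j‖ ≤ C`, so the coordinates converge (`isCompact_Icc.ultrafilter_le_nhds` for the image ultrafilter `𝓤.map`).  For a finite set `s` of levels `∑_{l∈s}∑_i|lim| = lim ∑_{l∈s}‖c j l‖ ≤ C`:
`memℓp_gen'` (exponent `1`) and `lp.norm_le_of_forall_sum_le`. -/
def S_Ylm : Prop := ∀ (v : ℕ → ℕ) (J : Type) (𝓤 : Ultrafilter J) (C : ℝ) (c : J → YSp v), (∀ j, ‖c j‖ ≤ C) →
  ∃ c' : YSp v, ‖c'‖ ≤ C ∧ ∀ l i, Tendsto (fun j => c j l i) 𝓤 (𝓝 (c' l i))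

/-! ## The operators -/

/-- **Sco.**  Existence and formulas.

Proof.  As `PG/ColE.lean` (`Y_lift`, `Y_ext`, `lp.evalCLM`); `‖S‖ ≤ 1` by `Y_norm_le`. -/
def S_Sco : Prop := ∀ q : ℝ, 1 < q → ∀ [Fact (1 ≤ qE q)] (P : Params (pE q)),
  (∀ L, ∃ S : YSp P.v →L[ℝ] XSp P.u q, IsSc P L S) ∧ (∃ I : YSp P.v →L[ℝ] XSp P.u q, IsIc P I) ∧
  (∀ (L : Set ℕ) (S : YSp P.v →L[ℝ] XSp P.u q), IsSc P L S → ‖S‖ ≤ 1 ∧
    ∀ (y : YSp P.v) (n : ℕ), (n ∈ L → S y n = ∑ j, y n j • P.g n j) ∧ (n ∉ L → S y n = 0)) ∧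
  ∀ I : YSp P.v →L[ℝ] XSp P.u q, IsIc P I → ∀ (y : YSp P.v) (m : ℕ) (t : Fin (P.u m)) (n : ℕ)
    (j : Fin (P.v n)), pos P.v n j = pos P.u m t → I y m t = y n j

/-- **Cea.**  The easy facts.

Proof.  As `S_mono`, `finite_memY`, `S_finite`, `IS_mem` in `Cols.lean` (with `hX.ι n = lp.single (qE q) n`, coordinates `x n`, `hX.shift` = `exists_shift` of `Shift.lean`). -/
def S_Cea : Prop := ∀ q : ℝ, 1 < q → ∀ [Fact (1 ≤ qE q)] (P : Params (pE q)) (S : Set ℕ → (YSp P.v →L[ℝ] XSp P.u q))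
  (I : YSp P.v →L[ℝ] XSp P.u q), (∀ L, IsSc P L (S L)) → IsIc P I →
  (∀ M M' : Set ℕ, M' ⊆ M → S M' ∈ idealGen (S M)) ∧ (∀ M : Set ℕ, M.Infinite → I ∈ idealGen (S M)) ∧
  (∀ M : Set ℕ, M.Finite → S M ∈ idealGen I) ∧
  ∀ (R : YSp P.v →L[ℝ] XSp P.u q) (n₀ : ℕ), (∀ ν : Ix P.v, n₀ ≤ ν.1 → R (eY P.v ν) = 0) → R ∈ idealGen I

open Classical in
/-- **Plc.**  Small subfamilies.

Proof.  As `exists_placeY` and `exists_backY` in `KPcols.lean`: `R_n : E u (n+1) → E u n`, `e_t ↦ g n t` if `t < v n` and `t ∈ J n`, `e_t ↦ 0` otherwise, norm `≤ 2` (in fact `√2`, by the hypothesis; `v n < u (n+1)`); `D ∈ L(X)`,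
`(D x)_n = R_n(x (n+1))` (`exists_shift`); `B ∈ L(Y)` permutes unit vectors such that `I (B (eY ⟨n,j⟩))` is the unit vector `j` of the block `n+1`; `R = (D.comp I).comp B`. -/
def S_Plc : Prop := ∀ q : ℝ, 1 < q → ∀ [Fact (1 ≤ qE q)] (P : Params (pE q)) (I : YSp P.v →L[ℝ] XSp P.u q), IsIc P I →
  ∀ J : ∀ n, Finset (Fin (P.v n)),
  (∀ n (a : Fin (P.v n) → ℝ), ‖∑ i ∈ J n, a i • P.g n i‖ ^ 2 ≤ 2 * ∑ i ∈ J n, a i ^ 2) →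
  ∀ R : YSp P.v →L[ℝ] XSp P.u q,
  (∀ ν, R (eY P.v ν) = if ν.2 ∈ J ν.1 then lp.single (qE q) ν.1 (P.g ν.1 ν.2) else 0) → R ∈ idealGen I

/-- **Mau.**  Maurey's lemma in a Hilbert space.

Proof.  `σ = ∑|c_i|`; `σ = 0`: `c' = 0`.  Otherwise `π_i = |c_i|/σ` (`∑π = 1`), `ξ_i = σ sign(c_i) g_i`, `x = ∑c_ig_i = ∑π_iξ_i`.  Claim: for every `k` there is `j : Fin k → Fin n` with `‖∑_{a<k}(x - ξ_(j a))‖² ≤ kσ²`.  Induction: for `D` given,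
`∑_iπ_i‖D + (x - ξ_i)‖² = ‖D‖² + 2⟨D, ∑π_i(x - ξ_i)⟩ + ∑π_i‖x - ξ_i‖² = ‖D‖² + ∑π_i‖ξ_i‖² - ‖x‖² ≤ ‖D‖² + σ²`, so some `i` has `‖D + (x - ξ_i)‖² ≤ ‖D‖² + σ²`.  `k = K`: `c' i = (σ/K)∑_a[j a = i]sign(c_i)`: support `≤ K`, `∑|c'| ≤ σ`,
`‖x - ∑c'g‖² = ‖(1/K)∑(x - ξ)‖² ≤ σ²/K`. -/
def S_Mau : Prop := ∀ (H : Type) [NormedAddCommGroup H] [InnerProductSpace ℝ H] (n K : ℕ) (g : Fin n → H)
  (c : Fin n → ℝ), 0 < K → (∀ i, ‖g i‖ ≤ 1) → ∃ c' : Fin n → ℝ, {i | c' i ≠ 0}.ncard ≤ K ∧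
  ∑ i, |c' i| ≤ ∑ i, |c i| ∧ ‖∑ i, (c i - c' i) • g i‖ ^ 2 ≤ (∑ i, |c i|) ^ 2 / K

/-- **Few** (from `Cea`, `Plc`, `Mau`, `Sco`).  Operators on `Y` with few values at every level.

Proof.  Let `ε > 0`, `C = ‖B‖`, `K > 0` with `C ≤ ε√K`.  For every `l` and every `z : PiLp 1 (Fin (v l))` let `m_l z` be the vector `c'` of `Mau` for `c = z`, `g = P.g l`: support `≤ K`, `‖m_l z‖ ≤ ‖z‖`,
`‖∑(z - m_l z)_i g_i‖ ≤ ‖z‖/√K`.  `B' ∈ L(Y)` (`Y_lift`): `B' (eY ν)` has the blocks `m_l ((B (eY ν)) l)`, norm `≤ ‖B (eY ν)‖ ≤ C`.  (1) `‖(S L)(B (eY ν)) - (S L)(B' (eY ν))‖ ≤ ∑_l‖(B (eY ν)) l‖/√K ≤ C/√K ≤ ε`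
(the norm of `x ∈ X` is at most `∑_l‖x l‖`: `lp.hasSum_single`, `norm_tsum_le_tsum_norm` or finite sums and a limit), so `‖(S L).comp B - (S L).comp B'‖ ≤ ε` (`Y_norm_le`).  (2) `(S L).comp B' ∈ idealGen I`: `l₀` for `K₂ = K`; `J l` = the union of
the supports of the `m_l z`, `z` in the (finite) set of the values of the level `l`, if `l ≥ l₀`, and `J l = ∅` if `l < l₀`; `card (J l) ≤ K N l ≤ Lf P.v l`, so `Fast` gives the hypothesis of `Plc`.  `R` as in `Plc` (`Y_lift`),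
`π` the projection of `Y` on the levels in `L`: `(S L).comp B' = (R.comp π).comp B' + (S (L ∩ {l < l₀})).comp B'` (compare the blocks, `Sco`).  Both are in `idealGen I` (`Plc`; `Cea`, finite sets).  `IsClosedIdeal.mem_of_approx`. -/
def S_Few : Prop := ∀ q : ℝ, 1 < q → ∀ [Fact (1 ≤ qE q)] (P : Params (pE q)), Fast P →
  ∀ (S : Set ℕ → (YSp P.v →L[ℝ] XSp P.u q)) (I : YSp P.v →L[ℝ] XSp P.u q), (∀ L, IsSc P L (S L)) → IsIc P I →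
  ∀ (L : Set ℕ) (B : YSp P.v →L[ℝ] YSp P.v) (N : ℕ → ℕ),
  (∀ l, (Set.range fun ν => B (eY P.v ν) l).Finite ∧ (Set.range fun ν => B (eY P.v ν) l).ncard ≤ N l) →
  (∀ K₂ : ℕ, ∃ l₀, ∀ l, l₀ ≤ l → K₂ * N l ≤ Lf P.v l) → (S L).comp B ∈ idealGen I

/-! ## Counting and rounding -/

/-- **Cnt.**  The number of values of an adapted function.

Proof.  `f a` depends only on `(d a i)_{i<l}` and on the truth value of `d a l = 0` (`rm`).  The map `a ↦ ((d a i)_{i : Fin l}, decide (d a l = 0))` has its values in a finite set with `≤ (∏_{i<l}m i)·2` elements (`Set.Finite.pi`, `Fintype.piFinset`,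
`Finset.card_pi`, `Finset.prod_range`), and `f` factors through it: `Set.ncard_image_le`. -/
def S_Cnt : Prop := ∀ (Λ T : Type) (Δ : ℕ → Type) [∀ l, Zero (Δ l)] (d : Λ → ∀ l, Δ l) (m : ℕ → ℕ) (l : ℕ) (f : Λ → T),
  (∀ i, {x | ∃ a, d a i = x}.Finite ∧ {x | ∃ a, d a i = x}.ncard ≤ m i) → (∀ a b, rm d l a b → f a = f b) →
  (Set.range f).Finite ∧ (Set.range f).ncard ≤ 2 * ∏ i ∈ range l, m i

/-- **Gdc.**  The number of grid points.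

Proof.  Injective image of the functions `Fin n → {k : ℤ | |k| ≤ t²n}` (`2t²n+1` values). -/
def S_Gdc : Prop := ∀ t n : ℕ, (Gd t n).Finite ∧ (Gd t n).ncard ≤ (2 * (t ^ 2 * n) + 1) ^ n

/-- **Nfs.**  Comparison of the numbers.

Proof.  `l₀ = max t (max s (2K₂))`: `K₂·2 ≤ l+1`, and every factor: `(2(t²v_i)+1)^(v_i s) ≤ (2(l+1)²v_i+1)^((l+1)v_i)`. -/
def S_Nfs : Prop := ∀ t s K₂ : ℕ, ∃ l₀ : ℕ, ∀ l, l₀ ≤ l → ∀ v : ℕ → ℕ,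
  K₂ * (2 * ∏ i ∈ range l, ((2 * (t ^ 2 * v i) + 1) ^ v i) ^ s) ≤ Lf v l

/-- **Rnd** (from `Sco`).  Rounding.

Proof.  `C' = max C 1`; `ε₁ > 0` with `(ε₁^(q-1)C')^(1/q) ≤ η/2`; `K ≥ C'/ε₁`; `t ≥ C'`, `t ≥ 1`, `K/t ≤ η/2`.  `Λ = {l | ε₁ ≤ ‖b l‖}`: `card Λ·ε₁ ≤ ‖b‖ ≤ C`, so `Λ` is finite with `≤ K` elements.  `y l = 0` if `l ∉ L` or `l ∉ Λ`; for `l ∈ L ∩ Λ`, `n = v l` (`> 0`):
`y l i = sign(b l i)⌊|b l i|tn⌋/(tn)` (rounding towards `0`): `|y l i| ≤ |b l i| ≤ C ≤ t` (so `|k| ≤ t²n`), `|b l i - y l i| ≤ 1/(tn)`, so `‖b l - y l‖ ≤ 1/t`.  `S b - S y` = the part of `S b` with levels in `L ∖ Λ` plus the part with the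
levels in `L ∩ Λ`.  Norms: the first part has `∑_{l∉Λ}‖∑_ib l i•g i‖^q ≤ ∑_{l∉Λ}‖b l‖^q ≤ ε₁^(q-1)∑‖b l‖ ≤ ε₁^(q-1)C` (`lp.norm_le_of_forall_sum_le` or `lp.norm_rpow_eq_tsum`), the second part has norm `≤ ∑_{l∈Λ}1/t ≤ K/t`
(`‖∑_i(b-y)_ig_i‖ ≤ ∑|b-y|`).  If `C < 0` there is no `b`. -/
def S_Rnd : Prop := ∀ q : ℝ, 1 < q → ∀ C η : ℝ, 0 < η → ∃ K t : ℕ, ∀ [Fact (1 ≤ qE q)] (P : Params (pE q)) (L : Set ℕ)
  (S : YSp P.v →L[ℝ] XSp P.u q), IsSc P L S → ∀ b : YSp P.v, ‖b‖ ≤ C → ∃ y : YSp P.v, ‖y‖ ≤ ‖b‖ ∧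
  (∀ l, l ∉ L → y l = 0) ∧ {l | y l ≠ 0}.Finite ∧ {l | y l ≠ 0}.ncard ≤ K ∧ (∀ l, y l ∈ Gd t (P.v l)) ∧ ‖S b - S y‖ ≤ η

/-! ## The main step -/

/-- Adapted coefficients for the index set `Λ`; `C` is the constant of `UM`. -/
def MidP (q C : ℝ) [Fact (1 ≤ qE q)] (P : Params (pE q)) (Λ : Type) : Prop :=
  ∀ (LM LN L0 : Set ℕ) (SM SN S0 : YSp P.v →L[ℝ] XSp P.u q), Disjoint LM LN → IsSc P LM SM → IsSc P LN SN →
  IsSc P L0 S0 → ∀ (s s0 K : ℕ) (C₁ C₀ ε η : ℝ) (AM AN : Fin s → (XSp P.u q →L[ℝ] XSp P.u q))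
  (A0 : Fin s0 → (XSp P.u q →L[ℝ] XSp P.u q)) (y : Λ → Fin s → YSp P.v) (b0 : Λ → Fin s0 → YSp P.v),
  0 ≤ C₁ → 0 ≤ C₀ → 0 ≤ ε → 0 < η → (∀ a r, ‖y a r‖ ≤ C₁) → (∀ a r, ‖b0 a r‖ ≤ C₀) →
  (∀ a, {l | dd y a l ≠ 0}.Finite ∧ {l | dd y a l ≠ 0}.ncard ≤ K) → (∀ a r l, l ∉ LM → l ∉ LN → y a r l = 0) →
  (∀ a, ‖∑ r, AM r (SM (y a r)) - ∑ r, AN r (SN (y a r)) - ∑ r, A0 r (S0 (b0 a r))‖ ≤ ε) →
  ∃ (c : Λ → Fin s → YSp P.v) (c0 : Λ → Fin s0 → YSp P.v), (∀ a r, ‖c a r‖ ≤ 3 * K * (s * C₁ + 1)) ∧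
  (∀ a r, ‖c0 a r‖ ≤ 2 * K * C₀) ∧ (∀ a b r l, rm (dd y) l a b → c a r l = c b r l) ∧
  ∀ a, ‖∑ r, AM r (SM (y a r)) - (∑ r, AM r (SM (c a r)) + ∑ r, AN r (SN (c a r)) + ∑ r, A0 r (S0 (c0 a r)))‖ ≤
    C ^ (1 / q) * ε + η

/-- **Mdf** (from `Fnk`, `Sco`).  Finite index sets.

Proof.  `n` larger than all levels `l` with `dd y a l ≠ 0` for some `a ∈ F`; `d = dd y`; `ty l = (l ∈ LM)`; `x l a = ∑_rAM r (single l (∑_iy a r l i•g l i))` if `l ∈ LM`, the same with `AN` if `l ∉ LM`; `j a = ∑_rA0 r (S0 (b0 a r))`.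
For `l ∉ LM`, `l ∉ LN`: `x l a = 0`.  `∑_{l<n}(if ty l then x l a else 0) = ∑_rAM r (SM (y a r))` (`Sco`: `SM (y a r) = ∑_{l<n,l∈LM}single l (∑_iy a r l i•g l i)`, compare the blocks), and `∑_{l<n}(if ty l then 0 else x l a) = ∑_rAN r (SN (y a r))` (`LN` is disjoint
from `LM`).  `S_Fnk` (the constant `K`; `{l < n, ..} ⊆ {l | ..}`) gives `κ, θ`.  `c a r` has the blocks `∑_bκ a l b•y b r l` for `l < n`, `0` for `l ≥ n`; `c0 a r = ∑_bθ a b•b0 b r`.  Then `∑_{l<n}∑_bκ a l b•x l b = ∑_rAM r (SM (c a r)) + ∑_rAN r (SN (c a r))` and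
`∑_bθ a b•j b = ∑_rA0 r (S0 (c0 a r))`: the last inequality.  Norms: `‖c a r‖ ≤ ∑_{l<n}∑_b|κ a l b|‖y b r l‖ ≤ (sC₁+1)∑∑|κ|β l b` for `β l b = ∑_r'‖y b r' l‖/(sC₁+1)` (`∑_lβ l b ≤ 1`, `β l b = 0` if `dd y b l = 0`), `KC.bd`; `KC.bt`.  Adapted: `KC.ad` (for `l ≥ n` both are `0`). -/
def S_Mdf : Prop := ∀ q : ℝ, 1 < q → ∀ [Fact (1 ≤ qE q)] (P : Params (pE q)) (C : ℝ), 0 ≤ C → UM (XSp P.u q) q C →
  ∀ (F : Type) [Fintype F] [Nonempty F], MidP q C P F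

/-- **Mid** (from `Mdf`, `Wns`, `Wlm`, `Ylm`).  All index sets.

Proof.  `Λ` empty: trivial.  `𝓤 = Ultrafilter.of (atTop : Filter (Finset Λ))`.  For a nonempty finite set `F ⊆ Λ` apply `Mdf` to the restrictions to the subtype `F` (`dd`, `rm` of the restrictions are the restrictions): `c^F, c0^F`, extended by `0` to `Λ` (for
`F = ∅`: `0`).  For fixed `a`, `r`: bounded by `C' = 3K(sC₁+1)` resp. `2KC₀` (both `≥ 0`); `Ylm`: limits `c a r`, `c0 a r` along `𝓤`.  Adapted: for `rm (dd y) l a b` the functions `F ↦ c^F a r l` and `F ↦ c^F b r l` agree for all `F ∋ a, b`, so the limits agree.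
The inequality: `Wlm` with the index type `Fin s ⊕ Fin s ⊕ Fin s0`, the operators `(AM r).comp SM`, `(AN r).comp SN`, `(A0 r).comp S0` (`Wns`), `z` constant; for all `F ∋ a` the inequality holds. -/
def S_Mid : Prop := ∀ q : ℝ, 1 < q → ∀ [Fact (1 ≤ qE q)] (P : Params (pE q)) (C : ℝ), 0 ≤ C → UM (XSp P.u q) q C →
  ∀ Λ : Type, MidP q C P Λ

/-- **Apx.**  Elements of the ideal generated by `T`.

Proof.  `exists_approx` of `Ideal.lean` (lists: `List.sum_ofFn`, `List.get`), `IsClosedIdeal.mem_of_approx`, `isClosedIdeal_idealGen`, `mem_idealGen`. -/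
def S_Apx : Prop := ∀ (X Y : Type) [NormedAddCommGroup X] [NormedSpace ℝ X] [NormedAddCommGroup Y] [NormedSpace ℝ Y]
  (T R : X →L[ℝ] Y), R ∈ idealGen T ↔ ∀ ε : ℝ, 0 < ε → ∃ (s : ℕ) (A : Fin s → (Y →L[ℝ] Y)) (B : Fin s → (X →L[ℝ] X)),
    ‖R - ∑ r, ((A r).comp T).comp (B r)‖ ≤ ε

/-- **Ada** (from `Few`, `Cnt`, `Gdc`, `Nfs`).  Adapted operators.

Proof.  `Few` with `N l = 2∏_{i<l}((2(t²v_i)+1)^(v_i))^s`.  `dd y ν i` has its values in `{f | ∀ r, f r ∈ Gd t (v i)}`, which has `≤ ((2(t²v_i)+1)^(v_i))^s` elements (`Gdc`, functions on `Fin s`: `Set.Finite.pi'`, `Set.ncard` of a product), so `Cnt` with `f ν = B (eY ν) l`, and `Nfs`. -/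
def S_Ada : Prop := ∀ q : ℝ, 1 < q → ∀ [Fact (1 ≤ qE q)] (P : Params (pE q)), Fast P →
  ∀ (S : Set ℕ → (YSp P.v →L[ℝ] XSp P.u q)) (I : YSp P.v →L[ℝ] XSp P.u q), (∀ L, IsSc P L (S L)) → IsIc P I →
  ∀ (t s : ℕ) (y : Ix P.v → Fin s → YSp P.v), (∀ ν r l, y ν r l ∈ Gd t (P.v l)) →
  ∀ (L : Set ℕ) (B : YSp P.v →L[ℝ] YSp P.v), (∀ ν μ l, rm (dd y) l ν μ → B (eY P.v ν) l = B (eY P.v μ) l) →
  (S L).comp B ∈ idealGen I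

/-- **Stp** (from `Rnd`, `Mid`, `Ada`, `Sco`).  The main step (`Q` is the closed ideal).

Proof.  Write `δ > 0` for a small number.  `BM r (eY ν)` and `BN r (eY ν)` have norms `≤ C₁` (`C₁` a bound of all `‖BM r‖`, `‖BN r‖`).  `Rnd` with `C₁`, `δ`: `K, t`; for `ν, r` let `yM` be the rounding of `BM r (eY ν)` with `L = LM` and `yN` the rounding of
`BN r (eY ν)` with `L = LN`; `y ν r = yM + yN` (at every level at most one of them is not `0`, as `LM`, `LN` are disjoint), so `‖y ν r‖ ≤ 2C₁`, `SM (y ν r) = SM yM`, `SN (y ν r) = SN yN` (`Sco`), `y ν r l ∈ Gd t (v l)`, and `{l | dd y ν l ≠ 0}` has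
`≤ 2Ks` elements.  With `D = ∑‖AM r‖ + ∑‖AN r‖`: `‖∑AM r (SM (y ν r)) - ∑AN r (SN (y ν r)) - ∑A0 r (S0 (B0 r (eY ν)))‖ ≤ ε + Dδ`.  `Mid` (`Λ = Ix P.v`, `K := 2Ks`, `η = δ`): `c, c0`.  `Bc r`, `Bc0 r ∈ L(Y)` with the columns `c ν r`, `c0 ν r` (`Y_lift`).
`R = ∑(AM r).comp (SM.comp (Bc r)) + ∑(AN r).comp (SN.comp (Bc r)) + ∑(A0 r).comp (S0.comp (Bc0 r))`: in the closed ideal `Q` (`Ada`: `SM.comp (Bc r) ∈ idealGen I ≤ Q`; `S0 ∈ Q`; `IsClosedIdeal.left`, `right`).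
`‖∑(AM r).comp (SM.comp (BM r)) - R‖ ≤ Dδ + C^(1/q)(ε + Dδ) + δ` (`Y_norm_le`), which is `≤ C^(1/q) ε + η` for a small `δ`. -/
def S_Stp : Prop := ∀ q : ℝ, 1 < q → ∀ [Fact (1 ≤ qE q)] (P : Params (pE q)) (C : ℝ), 0 ≤ C → UM (XSp P.u q) q C → Fast P →
  ∀ (S : Set ℕ → (YSp P.v →L[ℝ] XSp P.u q)) (I : YSp P.v →L[ℝ] XSp P.u q), (∀ L, IsSc P L (S L)) → IsIc P I →
  ∀ Q : Submodule ℝ (YSp P.v →L[ℝ] XSp P.u q), IsClosedIdeal Q → idealGen I ≤ Q →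
  ∀ LM LN L0 : Set ℕ, Disjoint LM LN → S L0 ∈ Q → ∀ (s s0 : ℕ) (ε η : ℝ) (AM AN : Fin s → (XSp P.u q →L[ℝ] XSp P.u q))
  (BM BN : Fin s → (YSp P.v →L[ℝ] YSp P.v)) (A0 : Fin s0 → (XSp P.u q →L[ℝ] XSp P.u q))
  (B0 : Fin s0 → (YSp P.v →L[ℝ] YSp P.v)), 0 ≤ ε → 0 < η →
  ‖∑ r, (AM r).comp ((S LM).comp (BM r)) - ∑ r, (AN r).comp ((S LN).comp (BN r)) -
    ∑ r, (A0 r).comp ((S L0).comp (B0 r))‖ ≤ ε →
  ∃ R ∈ Q, ‖∑ r, (AM r).comp ((S LM).comp (BM r)) - R‖ ≤ C ^ (1 / q) * ε + η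

/-- **Col** (from `Stp`, `Ulp`, `Apx`, `Cea`, `Sco`).  The map `φ₃` preserves meets.

Proof.  `meet_aux` of `Ideal.lean` with the facts of `Cea`.  Let `R ∈ idealGen (S M) ⊓ idealGen (S N)`, `ε > 0`; `Apx`: `‖R - ∑A_rS_MB_r‖ ≤ ε`, `‖R - ∑A'_rS_NB'_r‖ ≤ ε`, both with `s` terms (add zero operators).  `LM = M ∖ N`, `LN = N ∖ M`, `L0 = M ∩ N`: `S M = S LM + S L0`,
`S N = S LN + S L0` (`Y_ext`).  `∑A_rS_LM B_r - ∑A'_rS_LN B'_r - (∑A'_rS_L0 B'_r - ∑A_rS_L0 B_r)` has norm `≤ 2ε`; the last bracket is a sum with `s0 = 2s` terms (`Fin.append`, signs in `A0`).  `Stp` with `η = ε`: `R' ∈ K`, `‖∑A_rS_LM B_r - R'‖ ≤ (2C^(1/q)+1)ε`.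
`R' + ∑A_rS_L0 B_r ∈ K` and its distance to `R` is `≤ (2C^(1/q)+2)ε`.  `IsClosedIdeal.mem_of_approx`.  `C` from `Ulp`. -/
def S_Col : Prop := ∀ q : ℝ, 1 < q → ∀ [Fact (1 ≤ qE q)] (P : Params (pE q)), Fast P →
  ∀ (S : Set ℕ → (YSp P.v →L[ℝ] XSp P.u q)) (I : YSp P.v →L[ℝ] XSp P.u q), (∀ L, IsSc P L (S L)) → IsIc P I →
  ∀ M N : Set ℕ, phi S I (M ∩ N) = phi S I M ⊓ phi S I N

/-! ## The data -/

/-- **Bls** (from `PG.Flk`, `PG.Odp`).  One block.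

Proof.  `PG.S_Odp` with `v = 0`, `ι = Fin 0` (`w` is a function on `Fin 0`, its hypotheses are trivial). -/
def S_Bls : Prop := ∀ s P A B : ℕ, 1 ≤ P → ∃ (u' v' : ℕ) (g' : Fin v' → EuclideanSpace ℝ (Fin u')), A ≤ u' ∧ u' < v' ∧
  B * u' ^ P ≤ v' ∧ NM.Rip s g'

/-- **Dta** (from `Bls`).  Existence of the data.

Proof.  Compare `PG/Par.lean` (a block `Bl` is a triple `(u,v,g)`).  `p = q/(q-1) > 1`, `P' = ⌈p⌉₊`.  Choice: for every `n` and every `h : ℕ → Bl` there is a block `b` with, for `S = ∑_{m<n}(h m).u`: `(h (n-1)).v < b.u` if `n ≥ 1`, `b.u < b.v`,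
`19(n+1)³(6(n+1)+1)^S ≤ b.u`, `9(n+1)³·sNum ≤ b.v` where `sNum` (see `Defs.lean`, the cases `2 ≤ p` and `p < 2`) depends only on `b.u` and `n`, and `NM.Rip (max (max (sPrev + 1) (19(n+1)²)) (Lf (fun m => (h m).v) n)) b.g`, where
`sPrev` = the number `sNum` of the block `h (n-1)` (`0` for `n = 0`): `Bls` with a natural number `s` above the maximum, a large `A ≥ 1` and `B ≥ 9(n+1)³(2^(P')(n+1)^(P') + 2(n+1)²)` (for `u ≥ 1`: `(2u)^(p/2)(n+1)^p ≤ 2^(P')(n+1)^(P')u^(P')`,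
`2u(n+1)² ≤ 2(n+1)²u^(P')`).  `Rip` is monotonic in its first argument.  Recursion: `F 0` arbitrary, `F (n+1) = Function.update (F n) n (b n (F n))`, `B n = F (n+1) n`; then `F n i = B i` for `i < n` (`Lf v n`, `S`, `sPrev` depend only on the blocks `i < n`:
`Finset.sum_congr`, `Finset.prod_congr`).  The conditions of `Params` as in `PG/Par.lean`; `Fast`: the upper estimate of `Rip` for `card J ≤ Lf P.v n`. -/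
def S_Dta : Prop := ∀ q : ℝ, 1 < q → ∃ P : Params (pE q), Fast P

end Pool.Agent.Lib.MP_537232_an.PY
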