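import Pool.Agent.Lib.MP_537232_an.PY.SpecB

set_option autoImplicit false

/-!
# MP_537232_an, directory PY, part C: transposition, operators from `U` to `V` or `W`

Every statement `S_Xxx` is a `Prop`, proved in its own file `PY/Xxx.lean` (`theorem wXxx`), with the statements it uses as
hypotheses.  The complete proofs are in the docstrings.  `p = q/(q-1)`, `U = USp P.u (pE q)` (the `ℓ_p`-sum), `X = XSp P.u q` (the `ℓ_q`-sum),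
`Y = YSp P.v`, `Z = V` or `W`.
-/

open Finset Filter Topology
open scoped ENNReal

namespace Pool.Agent.Lib.MP_537232_an.PY

open NM (pE qE)

/-! ## Duality -/

/-- **Prg.**  The pairing.

Proof.  `Φ x z = ∑'_n⟨x n, z n⟩`: `|⟨x n, z n⟩| ≤ ‖x n‖‖z n‖`, Hölder for series (`Real.inner_le_Lp_mul_Lq_tsum_of_nonneg` or `NNReal.inner_le_Lp_mul_Lq_tsum`; `‖x‖^p = ∑'‖x n‖^p`: `lp.norm_rpow_eq_tsum`, `(pE q).toReal = q/(q-1)`), so it is summable and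
`|Φ x z| ≤ ‖x‖‖z‖`.  Bilinear: `Summable.tsum_add`, `tsum_mul_left`; `LinearMap.mkContinuous₂`.  Singles: `tsum_eq_single`. -/
def S_Prg : Prop := ∀ q : ℝ, 1 < q → ∀ [Fact (1 ≤ pE q)] [Fact (1 ≤ qE q)] (u : ℕ → ℕ),
  ∃ Φ : USp u (pE q) →L[ℝ] XSp u q →L[ℝ] ℝ, IsPr Φ

/-- **Dub.**  All functionals are given by the pairing.

Proof.  Prove first, for conjugate exponents `r, r' > 1` and a functional `f` on the `ℓ_r`-sum: `z n ∈ E u n` with `f (single n a) = ⟨a, z n⟩` (Riesz: `InnerProductSpace.toDual`).  For a finite set `F`: `a_n = ‖z n‖^(r'-2)•z n` (`0` if `z n = 0`), `x = ∑_{n∈F}single n (a_n)`: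
`f x = ∑_F‖z n‖^(r')`, `‖x‖ = (∑_F‖z n‖^(r'))^(1/r)` as `(r'-1)r = r'` (`lp.norm_sum_single`), so `(∑_F‖z n‖^(r'))^(1/r') ≤ ‖f‖`: `z` is in the `ℓ_r'`-sum, `‖z‖ ≤ ‖f‖` (`memℓp_gen'`, `lp.norm_le_of_forall_sum_le`).  `f` and the pairing with `z` are continuous and agree on the singles, and
`x = ∑'single n (x n)` (`lp.hasSum_single`, exponent `≠ ∞`).  Uniqueness: `Φ (single n a) (z - z') = ⟨a, z n - z' n⟩ = 0` for all `a`. -/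
def S_Dub : Prop := ∀ q : ℝ, 1 < q → ∀ [Fact (1 ≤ pE q)] [Fact (1 ≤ qE q)] (u : ℕ → ℕ)
  (Φ : USp u (pE q) →L[ℝ] XSp u q →L[ℝ] ℝ), IsPr Φ →
  (∀ f : USp u (pE q) →L[ℝ] ℝ, ∃ z, ‖z‖ ≤ ‖f‖ ∧ ∀ x, f x = Φ x z) ∧
  (∀ f : XSp u q →L[ℝ] ℝ, ∃ x, ‖x‖ ≤ ‖f‖ ∧ ∀ z, f z = Φ x z) ∧
  (∀ z z', (∀ x, Φ x z = Φ x z') → z = z') ∧ ∀ x x', (∀ z, Φ x z = Φ x' z) → x = x'

/-- **Trp** (from `Dub`).  Transposed operators.

Proof.  For `z`: `x ↦ Φ (B x) z` is a functional with norm `≤ ‖B‖‖z‖`, so it is `Φ · (B' z)` with `‖B' z‖ ≤ ‖B‖‖z‖`; `B'` is linear by the uniqueness; `LinearMap.mkContinuous`.  The other part is the same. -/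
def S_Trp : Prop := ∀ q : ℝ, 1 < q → ∀ [Fact (1 ≤ pE q)] [Fact (1 ≤ qE q)] (u : ℕ → ℕ)
  (Φ : USp u (pE q) →L[ℝ] XSp u q →L[ℝ] ℝ), IsPr Φ →
  (∀ B : USp u (pE q) →L[ℝ] USp u (pE q), ∃ B' : XSp u q →L[ℝ] XSp u q, ∀ x z, Φ (B x) z = Φ x (B' z)) ∧
  ∀ A : XSp u q →L[ℝ] XSp u q, ∃ A' : USp u (pE q) →L[ℝ] USp u (pE q), ∀ x z, Φ (A' x) z = Φ x (A z)

/-- **Rwt** (from `Dub`).  Rows and columns.

Proof.  (1) the functional `x ↦ c(R x) ν` (`CoordSpace.exists_coord`) has norm `≤ ‖R‖` (`c_le`), so it is `Φ · ρ_ν` with `‖ρ_ν‖ ≤ ‖R‖`; `G` = `Y_lift` of `ρ`.  (2) `‖G‖ ≤ ‖R‖`: `Y_norm_le`; the vector `G (eY ν)` is the `ρ_ν` (uniqueness).  `‖R x‖ ≤ ‖x‖‖G‖`: `le_of`,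
`|c(R x) ν| = |Φ x (G (eY ν))| ≤ ‖x‖‖G‖` (`norm_eY`).  (3), (4) linearity of `c`, `Φ x`. -/
def S_Rwt : Prop := ∀ q : ℝ, 1 < q → ∀ [Fact (1 ≤ pE q)] [Fact (1 ≤ qE q)] (u v : ℕ → ℕ)
  (Φ : USp u (pE q) →L[ℝ] XSp u q →L[ℝ] ℝ), IsPr Φ → ∀ (Z : Type) [NormedAddCommGroup Z] [NormedSpace ℝ Z]
  (hZ : CoordSpace v Z), (∀ R : USp u (pE q) →L[ℝ] Z, ∃ G : YSp v →L[ℝ] XSp u q, Tr Φ hZ R G) ∧
  (∀ R G, Tr Φ hZ R G → ‖R‖ = ‖G‖) ∧ (∀ R R' G G', Tr Φ hZ R G → Tr Φ hZ R' G' → Tr Φ hZ (R - R') (G - G')) ∧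
  ∀ (s : ℕ) (R : Fin s → (USp u (pE q) →L[ℝ] Z)) (G : Fin s → (YSp v →L[ℝ] XSp u q)), (∀ r, Tr Φ hZ (R r) (G r)) →
    Tr Φ hZ (∑ r, R r) (∑ r, G r)

/-- **Sti.**  The operators of the problem are transposed operators of each other.

Proof.  `T_M`: both sides are `⟨x n, g n i⟩` if `n ∈ M` (`IsPr.sr`), `0` otherwise.  `I`: `x (tw ν).1 (tw ν).2 = ⟨x (tw ν).1, e_(tw ν).2⟩`.  Null coordinates: `|c(T x) ν| ≤ ‖x ν.1‖`, `finite_large` (`Coord.lean`), `finite_fst`; `|c(I x) ν| ≤ ‖x (tw ν).1‖`, and `P.tw` is injective (compare `exists_T`,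
`exists_I` in `RowsMain.lean`). -/
def S_Sti : Prop := ∀ q : ℝ, 1 < q → ∀ [Fact (1 ≤ pE q)] [Fact (1 ≤ qE q)] (P : Params (pE q))
  (Φ : USp P.u (pE q) →L[ℝ] XSp P.u q →L[ℝ] ℝ), IsPr Φ → ∀ (Z : Type) [NormedAddCommGroup Z] [NormedSpace ℝ Z]
  (hZ : CoordSpace P.v Z),
  (∀ M T S, IsT P hZ M T → IsSc P M S → Tr Φ hZ T S ∧ ∀ x, Nul hZ (T x)) ∧
  ∀ I J, IsI P hZ I → IsIc P J → Tr Φ hZ I J ∧ ∀ x, Nul hZ (I x)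

/-! ## Operators on `Z` and on `Y` -/

/-- **Zta.**  Operators on `Z`, restricted to the null vectors.

Proof.  `δ_μ ∈ Z` with `c δ_μ = Pi.single μ 1` (`exists_of`).  Fix `ν`, `α_μ = c(A δ_μ) ν`.  For a finite set `F`: `∑_F|α_μ| = c(A(∑_Fsign(α_μ)•δ_μ)) ν ≤ ‖A‖` (`le_of`: the norm of the sum is `≤ 1`), so there is `a_ν ∈ Y` with the coordinates `α_μ`, `‖a_ν‖ ≤ ‖A‖`
(`memℓp_gen'` with exponent `1`; or `a_ν = ∑'α_μ•eY μ` with a summable family).  `A' (eY ν) = a_ν` (`Y_lift`).  For a null vector `z` and `ε > 0`, `F = {μ | ε ≤ |c z μ|}`: `‖z - ∑_Fc z μ•δ_μ‖ ≤ ε` (`le_of`), so `|c(A z) ν - ∑_Fc z μ α_μ| ≤ ‖A‖ε`; and `φ(a_ν) - ∑_Fc z μα_μ` is the value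
at `a_ν` of a functional whose values at the unit vectors are at most `ε`: `≤ ε‖a_ν‖` (`Y_norm_le`). -/
def S_Zta : Prop := ∀ (v : ℕ → ℕ) (Z : Type) [NormedAddCommGroup Z] [NormedSpace ℝ Z] (hZ : CoordSpace v Z)
  (A : Z →L[ℝ] Z), ∃ A' : YSp v →L[ℝ] YSp v, ∀ z, Nul hZ z → ∀ φ : YSp v →L[ℝ] ℝ, (∀ μ, φ (eY v μ) = hZ.c z μ) →
  ∀ ν, hZ.c (A z) ν = φ (A' (eY v ν))

/-- **Ztb.**  Operators on `Y` whose transposed operators act on `W` resp. `V`.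

Proof.  For `z` let `φ_z ∈ Y*` be the functional with `φ_z(eY μ) = c z μ` (`Y_lift` with values in `ℝ`, `C = ‖z‖`; unique by `Y_ext`, so linear in `z`), `f z ν = φ_z(B (eY ν))`, `|f z ν| ≤ ‖z‖‖B‖`.  `CoordSpace.exists_op`: it remains to find `z'` with `c z' = f z`.  `W`: `W_exists`.
`V`: `{ν | ε ≤ |f z ν|}` is finite (`exists_of`): `δ = ε/(2(‖B‖+1))`, `F = {μ | δ ≤ |c z μ|}` finite (`mem_V_iff`); `|f z ν| ≤ ∑_F|c z μ||(B (eY ν))_μ| + δ‖B‖` (the functional `φ_z - ∑_F..` has norm `≤ δ`), and for every `μ ∈ F` the coordinate `(B (eY ν))_μ` is small for all but finitely many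
`ν` (`NulY`). -/
def S_Ztb : Prop := ∀ v : ℕ → ℕ, (∀ B : YSp v →L[ℝ] YSp v, Adm (coordW v) B) ∧
  (∀ B : YSp v →L[ℝ] YSp v, NulY B → Adm (coordV v) B) ∧ ∀ z, Nul (coordV v) z

/-- **Cmp.**  Compositions.

Proof.  Fix `x`; `φ = Φ x ∘ B' ∘ S ∈ Y*` has `φ(eY μ) = Φ x (B'(S(eY μ))) = Φ (B x) (S (eY μ)) = c(T (B x)) μ`, so by hypothesis `c(A(T(B x))) ν = φ(A' (eY ν)) = Φ x (B'(S(A'(eY ν))))`. -/
def S_Cmp : Prop := ∀ q : ℝ, 1 < q → ∀ [Fact (1 ≤ pE q)] [Fact (1 ≤ qE q)] (u v : ℕ → ℕ)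
  (Φ : USp u (pE q) →L[ℝ] XSp u q →L[ℝ] ℝ) (Z : Type) [NormedAddCommGroup Z] [NormedSpace ℝ Z]
  (hZ : CoordSpace v Z) (T : USp u (pE q) →L[ℝ] Z) (S : YSp v →L[ℝ] XSp u q), Tr Φ hZ T S →
  ∀ (A : Z →L[ℝ] Z) (A' : YSp v →L[ℝ] YSp v), (∀ x (φ : YSp v →L[ℝ] ℝ), (∀ μ, φ (eY v μ) = hZ.c (T x) μ) →
    ∀ ν, hZ.c (A (T x)) ν = φ (A' (eY v ν))) →
  ∀ (B : USp u (pE q) →L[ℝ] USp u (pE q)) (B' : XSp u q →L[ℝ] XSp u q), (∀ x z, Φ (B x) z = Φ x (B' z)) →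
  Tr Φ hZ ((A.comp T).comp B) ((B'.comp S).comp A')

/-! ## The cluster lemma -/

/-- **Sel.**  Selection of cluster points.

Proof.  `𝓛 = {g | ∃ 𝓤 ≤ cofinite, f · k → g k along 𝓤 for all k}`; every ultrafilter `𝓤 ≤ cofinite` gives an element of `𝓛` (bounded coordinates); `𝓛 ≠ ∅` (`ι` infinite).  `F_n = {k | code k < n}` finite (`Encodable`), increasing.  `bad_n = {i | ∀ g ∈ 𝓛, ∃ k ∈ F_n, |f i k - g k| > 1/(n+1)}` is finite: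
otherwise `cofinite ⊓ 𝓟 bad_n` is `NeBot`, an ultrafilter below it gives a `g ∈ 𝓛` with `|f i k - g k| ≤ 1/(n+1)` for all `k ∈ F_n`, eventually: a contradiction.  For `i` with code `e(i)` let `n(i)` be the largest `n ≤ e(i)` with `i ∉ bad_n` (if there is one), and `g_i ∈ 𝓛` with
`|f i k - g_i k| ≤ 1/(n(i)+1)` for `k ∈ F_(n(i))`; otherwise `g_i ∈ 𝓛` arbitrary.  Given `k` and `ε`: `n₀` with `k ∈ F_(n₀)`, `1/(n₀+1) < ε`; for all `i ∉ bad_(n₀)` with `e(i) ≥ n₀` (all but finitely many) `n(i) ≥ n₀`, so `|f i k - g_i k| < ε`. -/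
def S_Sel : Prop := ∀ (ι κ : Type) [Countable ι] [Infinite ι] [Countable κ] (f : ι → κ → ℝ) (C : ℝ),
  (∀ i k, |f i k| ≤ C) → ∃ g : ι → κ → ℝ,
  (∀ i, ∃ 𝓤 : Ultrafilter ι, (𝓤 : Filter ι) ≤ cofinite ∧ ∀ k, Tendsto (fun j => f j k) 𝓤 (𝓝 (g i k))) ∧
  ∀ k, Tendsto (fun i => f i k - g i k) cofinite (𝓝 0)

/-- **Clu** (from `Sel`, `Wlm`, `Ylm`).  The cluster lemma.

Proof.  `C` a bound of all `‖B r‖`.  `Sel` with `ι = Ix v` (infinite as `v n > 0`), `κ = Fin s × Ix v`, `f ν (r,μ) = (B r (eY ν)) μ.1 μ.2`: `g`.  For every `ν`, along its ultrafilter `𝓤` (`Ylm` with `J = Ix v`): `β r ν ∈ Y` with `‖β r ν‖ ≤ C` and the coordinates `g ν (r,μ)` (uniqueness of limits).  `Wlm` (index type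
`Fin s`, `c j r = B r (eY j)`, `c' r = β r ν`, `z j = G (eY j)`, `z' = 0`: `φ(G (eY j)) → 0` along `𝓤 ≤ cofinite` by `WN G`): `‖0 - ∑T r (β r ν)‖ ≤ ε`.  `B' r` with the columns `B r (eY ν) - β r ν` (`Y_lift`, `2C`): `NulY` by the last property in `Sel`, and
`‖G (eY ν) - ∑T r (B' r (eY ν))‖ ≤ ‖G (eY ν) - ∑T r (B r (eY ν))‖ + ‖∑T r (β r ν)‖ ≤ 2ε`; `Y_norm_le`. -/
def S_Clu : Prop := ∀ v : ℕ → ℕ, (∀ n, 0 < v n) → ∀ (X : Type) [NormedAddCommGroup X] [NormedSpace ℝ X] (s : ℕ)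
  (G : YSp v →L[ℝ] X) (T : Fin s → (YSp v →L[ℝ] X)) (B : Fin s → (YSp v →L[ℝ] YSp v)) (ε : ℝ), WN G →
  (∀ r, WN (T r)) → ‖G - ∑ r, (T r).comp (B r)‖ ≤ ε →
  ∃ B' : Fin s → (YSp v →L[ℝ] YSp v), (∀ r, NulY (B' r)) ∧ ‖G - ∑ r, (T r).comp (B' r)‖ ≤ 2 * ε

/-! ## The ideals -/

/-- The hypothesis on `Z` (for `W` the first, for `V` the second alternative). -/
def ZP {v : ℕ → ℕ} {Z : Type} [NormedAddCommGroup Z] [NormedSpace ℝ Z] (hZ : CoordSpace v Z) : Prop :=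
  (∀ B : YSp v →L[ℝ] YSp v, Adm hZ B) ∨ ((∀ z, Nul hZ z) ∧ ∀ B : YSp v →L[ℝ] YSp v, NulY B → Adm hZ B)

/-- **Phi** (from `Apx`, `Dub`, `Trp`, `Rwt`, `Zta`, `Cmp`, `Clu`).  Ideals and transposition.

Proof.  (⟹) `Apx`: `‖R - ∑A_rTB_r‖ ≤ ε`; `B_r'` from `Trp`, `A_r'` from `Zta` (`T x` is null), `Cmp`: `Tr (∑A_rTB_r) (∑B_r'SA_r')`; `Rwt`: `‖G - ∑B_r'SA_r'‖ = ‖R - ∑A_rTB_r‖ ≤ ε`; `Apx`.  (⟸) `Apx`: `‖G - ∑A_rSB_r‖ ≤ ε`.  First alternative of `ZP`: `B_r` is `Adm`, with the operator `B_r^* ∈ L(Z)`; `A_r' ∈ L(U)` from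
`Trp`; `Cmp`: `Tr (∑B_r^*TA_r') (∑A_rSB_r)`, so `‖R - ∑B_r^*TA_r'‖ ≤ ε`.  Second alternative: `G` is `WN`: for a functional `φ` on `X` (`Dub`: `φ = Φ x`) `φ(G (eY ν)) = c(R x) ν` is null; `Clu` with the operators `A_r.comp S`: `NulY` operators `B_r`, and `2ε` instead of `ε`. -/
def S_Phi : Prop := ∀ q : ℝ, 1 < q → ∀ [Fact (1 ≤ pE q)] [Fact (1 ≤ qE q)] (u v : ℕ → ℕ), (∀ n, 0 < v n) →
  ∀ Φ : USp u (pE q) →L[ℝ] XSp u q →L[ℝ] ℝ, IsPr Φ → ∀ (Z : Type) [NormedAddCommGroup Z] [NormedSpace ℝ Z]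
  (hZ : CoordSpace v Z), ZP hZ → ∀ (T : USp u (pE q) →L[ℝ] Z) (S : YSp v →L[ℝ] XSp u q), Tr Φ hZ T S →
  (∀ x, Nul hZ (T x)) → (∀ A : XSp u q →L[ℝ] XSp u q, WN (A.comp S)) → ∀ R G, Tr Φ hZ R G →
  (R ∈ idealGen T ↔ G ∈ idealGen S)

/-- **Row** (from `Prg`, `Rwt`, `Sti`, `Sco`, `Wns`, `Phi`).  Meets for rows from meets for columns.

Proof.  `Φ` from `Prg`; `S L`, `J` from `Sco`.  For all `L` and all `R`, `G` with `Tr R G`: `R ∈ phi T I L ↔ G ∈ phi S J L` (`Phi` with `T L`, `S L` resp. `I`, `J`; `Sti`, `Wns`; `P.v_pos`).  For `R` take `G` with `Tr R G` (`Rwt`): `R ∈ phi T I (M ∩ N) ↔ G ∈ phi S J (M ∩ N) = phi S J M ⊓ phi S J N ↔ R ∈ phi T I M ⊓ phi T I N`. -/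
def S_Row : Prop := ∀ q : ℝ, 1 < q → ∀ [Fact (1 ≤ pE q)] [Fact (1 ≤ qE q)] (P : Params (pE q)),
  (∀ (S : Set ℕ → (YSp P.v →L[ℝ] XSp P.u q)) (J : YSp P.v →L[ℝ] XSp P.u q), (∀ L, IsSc P L (S L)) → IsIc P J →
    ∀ M N, phi S J (M ∩ N) = phi S J M ⊓ phi S J N) →
  ∀ (Z : Type) [NormedAddCommGroup Z] [NormedSpace ℝ Z] (hZ : CoordSpace P.v Z), ZP hZ →
  ∀ (T : Set ℕ → (USp P.u (pE q) →L[ℝ] Z)) (I : USp P.u (pE q) →L[ℝ] Z), (∀ M, IsT P hZ M (T M)) → IsI P hZ I →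
  ∀ M N : Set ℕ, phi T I (M ∩ N) = phi T I M ⊓ phi T I N

end Pool.Agent.Lib.MP_537232_an.PY
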